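import Pool.Agent.Helper832_EG.Supp

/-!
# Functionals killing the characters ramified at one class: group theory
-/

set_option linter.style.haveILetI false
set_option linter.unusedSectionVars false
set_option linter.unusedVariables false

namespace Pool.Agent.Helper832_EG

section
variable {p : ℕ} [Fact p.Prime] {r : ℕ} {G : Type*} [Group G] [TopologicalSpace G] [IsTopologicalGroup G]

/-- Extension of characters to an open subgroup. -/
lemma exists_extend_rel [CompactSpace G] [T2Space G] {H U : Subgroup G} [hH : H.Normal]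
    (hHc : IsClosed (H : Set G)) (hU : IsOpen (U : Set G)) (hHU : H ≤ U)
    {I : Subgroup G} (hI : IsClosed (I : Set G)) (hHI : ∀ g ∈ U, ∃ h ∈ H, ∃ s ∈ I, g = h * s)
    {ψ : G → ZMod p} (hψ : IsCh H ψ) (hinv : ∀ g ∈ U, ∀ x ∈ H, ψ (g * x * g⁻¹) = ψ x)
    (hv : ∀ x ∈ I, x ∈ H → ψ x = 0) : ∃ χ : G → ZMod p, IsCh U χ ∧ (∀ x ∈ H, χ x = ψ x) ∧
      ∀ x ∈ I, x ∈ U → χ x = 0 := by
  classical
  haveI : CompactSpace U := isCompact_iff_compactSpace.1 (Subgroup.isClosed_of_isOpen _ hU).isCompact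
  have hψU : IsCh (H.subgroupOf U) (fun x : U => ψ x) := by
    obtain ⟨V, hV, hV'⟩ := hψ.2
    refine ⟨fun x hx y hy => hψ.mul (Subgroup.mem_subgroupOf.1 hx) (Subgroup.mem_subgroupOf.1 hy), V.subgroupOf U,
      hV.preimage continuous_subtype_val, fun x hx hxV => hV' _ (Subgroup.mem_subgroupOf.1 hx) (Subgroup.mem_subgroupOf.1 hxV)⟩
  obtain ⟨η, hη, hηH, hηI⟩ := exists_extend (G := U) (H := H.subgroupOf U) (hHc.preimage continuous_subtype_val)
    (I := I.subgroupOf U) (hI.preimage continuous_subtype_val) (fun g => by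
      obtain ⟨h, hh, s, hs, hg⟩ := hHI g g.2
      have hsU : s ∈ U := by
        have : s = h⁻¹ * g := by rw [hg]; group
        rw [this]; exact U.mul_mem (U.inv_mem (hHU hh)) g.2
      exact ⟨⟨h, hHU hh⟩, hh, ⟨s, hsU⟩, hs, Subtype.ext hg⟩) hψU
    (fun g x hx => hinv g g.2 x hx) (fun x hx hxH => hv x hx hxH)
  let χ : G → ZMod p := fun g => if h : g ∈ U then η ⟨g, h⟩ else 0
  have hχ : ∀ g (h : g ∈ U), χ g = η ⟨g, h⟩ := fun g h => dif_pos h
  refine ⟨χ, ⟨fun x hx y hy => ?_, ?_⟩, fun x hx => ?_, fun x hx hxU => ?_⟩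
  · rw [hχ x hx, hχ y hy, hχ _ (U.mul_mem hx hy)]
    exact hη.mul (Subgroup.mem_top (⟨x, hx⟩ : U)) (Subgroup.mem_top (⟨y, hy⟩ : U))
  · obtain ⟨V, hV, hV'⟩ := hη.2
    refine ⟨V.map U.subtype, ?_, fun x hx hxV => ?_⟩
    · rw [Subgroup.coe_map]
      exact hU.isOpenMap_subtype_val _ hV
    · obtain ⟨y, hy, rfl⟩ := hxV
      rw [hχ _ hx]
      exact hV' y (Subgroup.mem_top _) hy
  · rw [hχ x (hHU hx)]; exact hηH ⟨x, hHU hx⟩ hx
  · rw [hχ x hxU]; exact hηI ⟨x, hxU⟩ hx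

/-- The image of an open normal subgroup contains a multiple of `ℤ_p ^ r`. -/
lemma exists_level_sub [CompactSpace G] (φ : G →* Multiplicative (Fin r → ℤ_[p]))
    (hs : Function.Surjective φ) {U : Subgroup G} [hn : U.Normal] (hU : IsOpen (U : Set G)) :
    ∃ n : ℕ, ∀ g : G, rd n (Multiplicative.toAdd (φ g)) = 0 → ∃ u ∈ U, φ u = φ g := by
  haveI : Finite (G ⧸ U) := Subgroup.quotient_finite_of_isOpen _ hU
  haveI : U.FiniteIndex := Subgroup.finiteIndex_of_finite_quotient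
  set n := U.index with hn
  have hn0 : n ≠ 0 := Subgroup.FiniteIndex.index_ne_zero
  obtain ⟨a, u, hu, hnu⟩ := Nat.exists_eq_pow_mul_and_not_dvd hn0 p (Fact.out : p.Prime).ne_one
  have huu : IsUnit ((u : ℤ_[p])) := by
    rw [PadicInt.isUnit_iff, PadicInt.norm_natCast_eq_one_iff]
    exact (Nat.Prime.coprime_iff_not_dvd Fact.out).2 hu
  obtain ⟨w, hw⟩ := huu.exists_right_inv
  refine ⟨a, fun g hg => ?_⟩
  have hdvd : ∀ i, ∃ y : ℤ_[p], Multiplicative.toAdd (φ g) i = (p : ℤ_[p]) ^ a * y := by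
    intro i
    have h1 : PadicInt.toZModPow (a + 1) (Multiplicative.toAdd (φ g) i) = 0 := congrFun hg i
    rw [← RingHom.mem_ker, PadicInt.ker_toZModPow, Ideal.mem_span_singleton] at h1
    obtain ⟨y, hy⟩ := h1
    exact ⟨p * y, by rw [hy, pow_succ]; ring⟩
  choose y hy using hdvd
  obtain ⟨g', hg'⟩ := hs (Multiplicative.ofAdd (fun i => w * y i))
  refine ⟨g' ^ n, Subgroup.pow_index_mem _ _, ?_⟩
  rw [map_pow, hg']
  apply Multiplicative.toAdd.injective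
  rw [toAdd_pow, toAdd_ofAdd, hnu]
  funext i
  rw [hy i]
  simp only [Pi.smul_apply, nsmul_eq_mul, Nat.cast_mul]
  push_cast
  linear_combination (p : ℤ_[p]) ^ a * y i * hw

/-- The values of a character on conjugates depend on a finite level only. -/
lemma exists_level_conj [CompactSpace G] [T2Space G] [TotallyDisconnectedSpace G]
    (φ : G →* Multiplicative (Fin r → ℤ_[p]))
    (hs : Function.Surjective φ) {Ψ : G → ZMod p} (hΨ : IsCh φ.ker Ψ) :
    ∃ n : ℕ, ∀ g g' : G, rd n (Multiplicative.toAdd (φ g)) = rd n (Multiplicative.toAdd (φ g')) → ∀ y ∈ φ.ker,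
      Ψ (g * y * g⁻¹) = Ψ (g' * y * g'⁻¹) := by
  obtain ⟨U, hU, hU'⟩ := hΨ.2
  obtain ⟨N, hN⟩ := ProfiniteGrp.exist_openNormalSubgroup_sub_open_nhds_of_one hU U.one_mem
  have hNopen : IsOpen ((N : Subgroup G) : Set G) := N.isOpen'
  haveI hNn : (N : Subgroup G).Normal := N.isNormal'
  obtain ⟨n, hn⟩ := exists_level_sub φ hs hNopen
  refine ⟨n, fun g g' hgg' y hy => ?_⟩
  obtain ⟨u, hu, hug⟩ := hn (g' * g⁻¹) (by
    rw [map_mul, map_inv, toAdd_mul, toAdd_inv]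
    have h1 : rd n (Multiplicative.toAdd (φ g') + -Multiplicative.toAdd (φ g)) + rd n (Multiplicative.toAdd (φ g)) =
        rd n (Multiplicative.toAdd (φ g')) := by rw [← rd_add]; simp
    rw [← hgg'] at h1
    exact add_eq_right.1 h1)
  set h := u⁻¹ * (g' * g⁻¹) with hh
  have hker : h ∈ φ.ker := by rw [MonoidHom.mem_ker, hh, map_mul, map_inv, hug, inv_mul_cancel]
  set z := g * y * g⁻¹ with hz
  have hzk : z ∈ φ.ker := (inferInstance : φ.ker.Normal).conj_mem y hy g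
  have h2 : g' * y * g'⁻¹ = u * (h * z * h⁻¹) * u⁻¹ := by rw [hh, hz]; group
  set z' := h * z * h⁻¹ with hz'
  have hz'k : z' ∈ φ.ker := (inferInstance : φ.ker.Normal).conj_mem z hzk h
  have h3 : Ψ z' = Ψ z := hΨ.conj hker hzk
  have hc : u * z' * u⁻¹ * z'⁻¹ ∈ φ.ker := by
    exact φ.ker.mul_mem ((inferInstance : φ.ker.Normal).conj_mem z' hz'k u) (φ.ker.inv_mem hz'k)
  have hcN : u * z' * u⁻¹ * z'⁻¹ ∈ (N : Subgroup G) := by
    have : u * z' * u⁻¹ * z'⁻¹ = u * (z' * u⁻¹ * z'⁻¹) := by group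
    rw [this]
    exact (N : Subgroup G).mul_mem hu (hNn.conj_mem _ ((N : Subgroup G).inv_mem hu) z')
  have h4 : u * z' * u⁻¹ = (u * z' * u⁻¹ * z'⁻¹) * z' := by group
  rw [h2, h4, hΨ.mul hc hz'k, hU' _ hc (hN hcN), zero_add, h3]

end

section
variable {p : ℕ} [Fact p.Prime] {r : ℕ} {G : Type*} [Group G] [TopologicalSpace G] [IsTopologicalGroup G]

/-- The classes of tame inertia groups, with Frobenius elements, generators and auxiliary open
subgroups. -/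
structure TCl (φ : G →* Multiplicative (Fin r → ℤ_[p])) (L : Subgroup G) (W Tm : Set (Subgroup G)) {ι : Type}
    (J : ι → Subgroup G) (f τ : ι → G) (U : ι → Subgroup G) : Prop where
  memJ : ∀ i, J i ∈ Tm
  cls : ∀ I ∈ Tm, I ≤ L ∨ ∃ i, ∃ g : G, I = (J i).map (MulAut.conj g).toMonoidHom
  frob : ∀ i, ∀ x ∈ J i, f i * x * (f i)⁻¹ ∈ J i
  memt : ∀ i, τ i ∈ J i
  gen : ∀ i, ∀ ψ : G → ZMod p, IsCh (J i) ψ → ψ (τ i) = 0 → ∀ x ∈ J i, ψ x = 0
  opn : ∀ i, IsOpen (U i : Set G)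
  kerU : ∀ i, φ.ker ≤ U i
  line : ∀ i, ∀ g, (∃ a b : ℤ_[p], b ≠ 0 ∧ a • Multiplicative.toAdd (φ (f i)) = b • Multiplicative.toAdd (φ g)) → g ∈ U i
  crit : ∀ i, ∀ Ψ : G → ZMod p, IsCh (U i) Ψ → Van W (U i) Ψ → Van Tm L Ψ →
    (∀ (j : ι) (g : G), (j ≠ i ∨ g ∉ U i) → ∀ x ∈ J j, Ψ (g * x * g⁻¹) = 0) → Ψ (τ i) = 0

variable {φ : G →* Multiplicative (Fin r → ℤ_[p])} {H L : Subgroup G} {W Tm : Set (Subgroup G)} {F : Subgroup G}
  {ι : Type} {J : ι → Subgroup G} {f τ : ι → G} {U : ι → Subgroup G}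

/-- The characters of `H` ramified at the class `i` only. -/
def DD (H L : Subgroup G) (W Tm : Set (Subgroup G)) (J : ι → Subgroup G) (i : ι) (Ψ : G → ZMod p) : Prop :=
  IsCh H Ψ ∧ Van W H Ψ ∧ Van Tm L Ψ ∧ ∀ j, j ≠ i → ∀ g : G, ∀ x ∈ J j, Ψ (g * x * g⁻¹) = 0

lemma DD.add {i : ι} {Ψ Ψ' : G → ZMod p} (h : DD H L W Tm J i Ψ) (h' : DD H L W Tm J i Ψ') :
    DD H L W Tm J i (Ψ + Ψ') := by
  refine ⟨h.1.add h'.1, fun I hI x hx hxH => ?_, fun I hI x hx hxH => ?_, fun j hj g x hx => ?_⟩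
  · rw [Pi.add_apply, h.2.1 I hI x hx hxH, h'.2.1 I hI x hx hxH, add_zero]
  · rw [Pi.add_apply, h.2.2.1 I hI x hx hxH, h'.2.2.1 I hI x hx hxH, add_zero]
  · rw [Pi.add_apply, h.2.2.2 j hj g x hx, h'.2.2.2 j hj g x hx, add_zero]

lemma DD.zero {i : ι} : DD H L W Tm J i (0 : G → ZMod p) :=
  ⟨isCh_zero H, fun _ _ _ _ _ => rfl, fun _ _ _ _ _ => rfl, fun _ _ _ _ _ => rfl⟩

lemma DD.smul {i : ι} {Ψ : G → ZMod p} (h : DD H L W Tm J i Ψ) (c : ZMod p) : DD H L W Tm J i (c • Ψ) := by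
  refine ⟨h.1.smul c, fun I hI x hx hxH => ?_, fun I hI x hx hxH => ?_, fun j hj g x hx => ?_⟩
  · rw [Pi.smul_apply, h.2.1 I hI x hx hxH, smul_zero]
  · rw [Pi.smul_apply, h.2.2.1 I hI x hx hxH, smul_zero]
  · rw [Pi.smul_apply, h.2.2.2 j hj g x hx, smul_zero]

lemma DD.conj [hH : H.Normal] [hL : L.Normal] (hW : ConjClosed W) (hT : ConjClosed Tm) {i : ι} {Ψ : G → ZMod p}
    (h : DD H L W Tm J i Ψ) (g0 : G) : DD H L W Tm J i (fun x => Ψ (g0 * x * g0⁻¹)) := by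
  refine ⟨h.1.conj_act g0, h.2.1.conj_act hW g0, h.2.2.1.conj_act hT g0, fun j hj g x hx => ?_⟩
  show Ψ (g0 * (g * x * g⁻¹) * g0⁻¹) = 0
  have h1 : g0 * (g * x * g⁻¹) * g0⁻¹ = (g0 * g) * x * (g0 * g)⁻¹ := by group
  rw [h1]; exact h.2.2.2 j hj _ x hx

lemma DD.sub {i : ι} {Ψ Ψ' : G → ZMod p} (h : DD H L W Tm J i Ψ) (h' : DD H L W Tm J i Ψ') :
    DD H L W Tm J i (fun x => Ψ x - Ψ' x) := by
  have h1 := h.add (h'.smul (-1))
  have h2 : Ψ + (-1 : ZMod p) • Ψ' = fun x => Ψ x - Ψ' x := by funext x; simp [sub_eq_add_neg]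
  rwa [h2] at h1

lemma DD.sum {i : ι} {κ : Type*} (s : Finset κ) (Ψ : κ → G → ZMod p) (h : ∀ b ∈ s, DD H L W Tm J i (Ψ b)) :
    DD H L W Tm J i (∑ b ∈ s, Ψ b) := by
  classical
  induction s using Finset.induction_on with
  | empty => simpa using DD.zero
  | insert b s hb ih =>
    rw [Finset.sum_insert hb]
    exact (h b (Finset.mem_insert_self b s)).add (ih fun c hc => h c (Finset.mem_insert_of_mem hc))

variable [CompactSpace G] [T2Space G] [TotallyDisconnectedSpace G]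

/-- A character ramified at the class `i` only vanishes if it vanishes at the conjugates of the
generator. -/
lemma DD.eq_zero (S : Sit φ H L W Tm F) (C : TCl φ L W Tm J f τ U) {i : ι} {Ψ : G → ZMod p}
    (h : DD H L W Tm J i Ψ) (h0 : ∀ g : G, Ψ (g * τ i * g⁻¹) = 0) : ∀ x ∈ H, Ψ x = 0 := by
  haveI := S.normalH
  refine S.d.unr_zero h.1 h.2.1 fun I hI x hx hxH => ?_
  rcases C.cls I hI with hIL | ⟨j, g, rfl⟩
  · exact h.2.2.1 I hI x hx (hIL hx)
  · obtain ⟨y, hy, rfl⟩ := hx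
    by_cases hj : j = i
    · subst hj
      have h1 : IsCh (J j) (fun x => Ψ (g * x * g⁻¹)) :=
        (h.1.conj_act g).mono (S.d.tame _ (C.memJ j))
      exact C.gen j _ h1 (h0 g) y hy
    · exact h.2.2.2 j hj g y hy

/-- The functions on `G` attached to the characters ramified at the class `i` only. -/
def VV (H L : Subgroup G) (W Tm : Set (Subgroup G)) (J : ι → Subgroup G) (τ : ι → G) (i : ι) :
    Submodule (ZMod p) (G → ZMod p) where
  carrier := {F | ∃ Ψ, DD H L W Tm J i Ψ ∧ ∀ g, F g = Ψ (g * τ i * g⁻¹)}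
  add_mem' := by
    rintro a b ⟨Ψ, h, ha⟩ ⟨Ψ', h', hb⟩
    exact ⟨Ψ + Ψ', h.add h', fun g => by rw [Pi.add_apply, ha, hb]; rfl⟩
  zero_mem' := ⟨0, DD.zero, fun g => rfl⟩
  smul_mem' := by
    rintro c a ⟨Ψ, h, ha⟩
    exact ⟨c • Ψ, h.smul c, fun g => by rw [Pi.smul_apply, ha]; rfl⟩

open Classical in
/-- The indicator function of `U i` does not come from a character. -/
lemma ind_not_mem (S : Sit φ H L W Tm F) (C : TCl φ L W Tm J f τ U) (i : ι) :
    (fun g : G => if g ∈ U i then (1 : ZMod p) else 0) ∉ VV (p := p) H L W Tm J τ i := by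
  rintro ⟨Ψ, hΨ, hF⟩
  haveI hHn := S.normalH
  haveI hLn := S.normalL
  have hHU : H ≤ U i := by rw [← S.ker]; exact C.kerU i
  -- invariance under `U i`
  have hinv : ∀ g ∈ U i, ∀ x ∈ H, Ψ (g * x * g⁻¹) = Ψ x := by
    intro g hg x hx
    have h1 := ((hΨ.conj S.d.conjW S.d.conjT g).sub hΨ).eq_zero S C (fun g' => by
      show Ψ (g * (g' * τ i * g'⁻¹) * g⁻¹) - Ψ (g' * τ i * g'⁻¹) = 0
      have h2 : g * (g' * τ i * g'⁻¹) * g⁻¹ = (g * g') * τ i * (g * g')⁻¹ := by group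
      rw [h2, ← hF, ← hF]
      have h3 : g * g' ∈ U i ↔ g' ∈ U i := (U i).mul_mem_cancel_left hg
      simp only [h3, sub_self]) x hx
    exact sub_eq_zero.1 h1
  obtain ⟨I0, hI0⟩ := S.d.neW
  obtain ⟨χ, hχ, hχH, hχI⟩ := exists_extend_rel S.d.closedH (C.opn i) hHU (S.d.closedW I0 hI0)
    (fun g _ => S.d.surjW I0 hI0 g) hΨ.1 hinv (fun x hx hxH => hΨ.2.1 I0 hI0 x hx hxH)
  have h1 := C.crit i χ hχ ?_ ?_ ?_
  · rw [hχH _ (S.d.tame _ (C.memJ i) (C.memt i))] at h1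
    have h2 := hF 1
    simp only [(U i).one_mem, if_true, one_mul, inv_one, mul_one] at h2
    rw [h1] at h2
    exact one_ne_zero h2
  · intro I hI x hx hxU
    obtain ⟨g, rfl⟩ := S.d.transW I0 hI0 I hI
    obtain ⟨h, hh, s, hs, rfl⟩ := S.d.surjW I0 hI0 g
    obtain ⟨y, hy, rfl⟩ := hx
    have h2 : (MulAut.conj (h * s)).toMonoidHom y = h * (s * y * s⁻¹) * h⁻¹ := by
      show h * s * y * (h * s)⁻¹ = _
      group
    have h3 : s * y * s⁻¹ ∈ I0 := I0.mul_mem (I0.mul_mem hs hy) (I0.inv_mem hs)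
    have h4 : s * y * s⁻¹ ∈ U i := by
      have h5 : h⁻¹ * ((MulAut.conj (h * s)).toMonoidHom y) * h ∈ U i :=
        (U i).mul_mem ((U i).mul_mem ((U i).inv_mem (hHU hh)) hxU) (hHU hh)
      rw [h2] at h5
      have h6 : h⁻¹ * (h * (s * y * s⁻¹) * h⁻¹) * h = s * y * s⁻¹ := by group
      rwa [h6] at h5
    rw [h2, hχ.conj (hHU hh) h4]
    exact hχI _ h3 h4
  · intro I hI x hx hxL
    rw [hχH x (S.LH hxL)]
    exact hΨ.2.2.1 I hI x hx hxL
  · intro j g hjg x hx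
    have hxH : x ∈ H := S.d.tame _ (C.memJ j) hx
    rw [hχH _ (hHn.conj_mem x hxH g)]
    by_cases hj : j = i
    · subst hj
      have hg : g ∉ U j := hjg.resolve_left (fun h => h rfl)
      have h1 : IsCh (J j) (fun x => Ψ (g * x * g⁻¹)) :=
        (hΨ.1.conj_act g).mono (S.d.tame _ (C.memJ j))
      refine C.gen j _ h1 ?_ x hx
      show Ψ (g * τ j * g⁻¹) = 0
      rw [← hF g]
      exact if_neg hg
    · exact hΨ.2.2.2 j hj g x hx

end

end Pool.Agent.Helper832_EG
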