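import Pool.Agent.Helper832_EG.Cr1

/-!
# Functionals killing the characters ramified at one class: the element of the Iwasawa algebra
-/

set_option linter.style.haveILetI false
set_option linter.unusedSectionVars false
set_option linter.unusedVariables false

namespace Pool.Agent.Helper832_EG

open AddMonoidAlgebra

section
variable {p : ℕ} [Fact p.Prime] {r : ℕ} {G : Type*} [Group G]

open Classical in
/-- The indicator functions of the cosets at level `n`. -/
noncomputable def lvl (φ : G →* Multiplicative (Fin r → ℤ_[p])) (n : ℕ) (b : Gr p r n) : G → ZMod p :=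
  fun g => if rd n (Multiplicative.toAdd (φ g)) = b then 1 else 0

lemma lvl_self (φ : G →* Multiplicative (Fin r → ℤ_[p])) {n : ℕ} {b : Gr p r n} {g : G}
    (h : rd n (Multiplicative.toAdd (φ g)) = b) : lvl φ n b g = 1 := if_pos h

lemma lvl_ne (φ : G →* Multiplicative (Fin r → ℤ_[p])) {n : ℕ} {b : Gr p r n} {g : G}
    (h : rd n (Multiplicative.toAdd (φ g)) ≠ b) : lvl φ n b g = 0 := if_neg h

/-- Functions invariant at level `n` are combinations of the indicator functions. -/
lemma eq_sum_lvl (φ : G →* Multiplicative (Fin r → ℤ_[p])) (n : ℕ) (F : G → ZMod p)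
    (hF : ∀ g g', rd n (Multiplicative.toAdd (φ g)) = rd n (Multiplicative.toAdd (φ g')) → F g = F g')
    (s : Gr p r n → G) (hs : ∀ b, rd n (Multiplicative.toAdd (φ (s b))) = b) :
    F = ∑ b : Gr p r n, F (s b) • lvl φ n b := by
  classical
  funext g
  rw [Finset.sum_apply, Finset.sum_eq_single (rd n (Multiplicative.toAdd (φ g)))]
  · rw [Pi.smul_apply, lvl_self φ rfl, smul_eq_mul, mul_one]
    exact hF _ _ (hs _).symm
  · intro b _ hb
    rw [Pi.smul_apply, lvl_ne φ (Ne.symm hb), smul_zero]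
  · intro h; exact absurd (Finset.mem_univ _) h

/-- The element of the group ring at level `n` attached to a functional. -/
noncomputable def cLvl (φ : G →* Multiplicative (Fin r → ℤ_[p])) (lam : (G → ZMod p) →ₗ[ZMod p] ZMod p) (n : ℕ) :
    RO p r n := ∑ b : Gr p r n, single b (lam (lvl φ n b))

lemma coeff_sum_single {A k : Type*} [Fintype A] [Semiring k] (g : A → k) (a : A) :
    (∑ b : A, (single b (g b) : AddMonoidAlgebra k A)).coeff a = g a := by
  classical
  have h1 : (∑ b : A, (single b (g b) : AddMonoidAlgebra k A)).coeff a =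
      ∑ b : A, (single b (g b) : AddMonoidAlgebra k A).coeff a := by
    rw [AddMonoidAlgebra.coeff_sum, Finsupp.finsetSum_apply]
  rw [h1, Finset.sum_eq_single a]
  · simp
  · intro b _ hb; simp [hb]
  · intro h; exact absurd (Finset.mem_univ _) h

lemma cLvl_coeff (φ : G →* Multiplicative (Fin r → ℤ_[p])) (lam : (G → ZMod p) →ₗ[ZMod p] ZMod p) (n : ℕ)
    (b : Gr p r n) : (cLvl φ lam n).coeff b = lam (lvl φ n b) := coeff_sum_single _ b

lemma cLvl_compat (φ : G →* Multiplicative (Fin r → ℤ_[p])) (lam : (G → ZMod p) →ₗ[ZMod p] ZMod p) (n : ℕ) :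
    tO p r n (cLvl φ lam (n + 1)) = cLvl φ lam n := by
  classical
  rw [cLvl, map_sum, ← Finset.sum_fiberwise Finset.univ (grT p r n), cLvl]
  refine Finset.sum_congr rfl fun b _ => ?_
  have h1 : ∀ b' ∈ Finset.univ.filter (fun b' => grT p r n b' = b),
      tO p r n (single b' (lam (lvl φ (n + 1) b'))) = single b (lam (lvl φ (n + 1) b')) := by
    intro b' hb'
    rw [tO_single, (Finset.mem_filter.1 hb').2]
  rw [Finset.sum_congr rfl h1]
  have h2 : lvl φ n b = ∑ b' ∈ Finset.univ.filter (fun b' => grT p r n b' = b), lvl φ (n + 1) b' := by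
    funext g
    rw [Finset.sum_apply]
    by_cases hg : rd n (Multiplicative.toAdd (φ g)) = b
    · rw [lvl_self φ hg, Finset.sum_eq_single (rd (n + 1) (Multiplicative.toAdd (φ g)))]
      · rw [lvl_self φ rfl]
      · intro b' _ hb'; exact lvl_ne φ (Ne.symm hb')
      · intro h
        exact absurd (Finset.mem_filter.2 ⟨Finset.mem_univ _, by rw [grT_rd]; exact hg⟩) h
    · rw [lvl_ne φ hg]
      symm
      refine Finset.sum_eq_zero fun b' hb' => lvl_ne φ fun h => hg ?_
      rw [← (Finset.mem_filter.1 hb').2, ← h, grT_rd]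
  rw [h2, map_sum]
  rw [← singleAddHom_apply, map_sum]
  rfl

/-- The element of the mod `p` Iwasawa algebra attached to a functional. -/
noncomputable def cOm (φ : G →* Multiplicative (Fin r → ℤ_[p])) (lam : (G → ZMod p) →ₗ[ZMod p] ZMod p) : Om p r :=
  ⟨cLvl φ lam, cLvl_compat φ lam⟩

end

section
variable {p : ℕ} [Fact p.Prime] {r : ℕ} {G : Type*} [Group G] [TopologicalSpace G] [IsTopologicalGroup G]
  {φ : G →* Multiplicative (Fin r → ℤ_[p])}

/-- Open subgroups containing the kernel. -/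
lemma exists_level_open [CompactSpace G] (hs : Function.Surjective φ) {U : Subgroup G} (hU : IsOpen (U : Set G))
    (hk : φ.ker ≤ U) : ∃ n : ℕ, ∀ g : G, rd n (Multiplicative.toAdd (φ g)) = 0 → g ∈ U := by
  haveI : U.Normal := by
    refine ⟨fun x hx g => ?_⟩
    have h1 : g * x * g⁻¹ * x⁻¹ ∈ U := by
      apply hk
      rw [MonoidHom.mem_ker, map_mul, map_mul, map_mul, map_inv, map_inv, mul_comm (φ g), mul_assoc,
        mul_assoc, ← mul_assoc (φ g), mul_inv_cancel, one_mul, mul_inv_cancel]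
    have := U.mul_mem h1 hx
    rwa [inv_mul_cancel_right] at this
  obtain ⟨n, hn⟩ := exists_level_sub φ hs hU
  refine ⟨n, fun g hg => ?_⟩
  obtain ⟨u, hu, hug⟩ := hn g hg
  have h1 : u⁻¹ * g ∈ U := hk (by rw [MonoidHom.mem_ker, map_mul, map_inv, hug, inv_mul_cancel])
  have := U.mul_mem hu h1
  rwa [mul_inv_cancel_left] at this

lemma rd_neg (n : ℕ) (a : Fin r → ℤ_[p]) : rd n (-a) = - rd n a := by
  funext i; simp [rd]

/-- The element attached to a functional which is nonzero on the indicator function of `U` is not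
divisible by `γ - 1` for `γ` in the image of `U`. -/
lemma cOm_not_dvd [CompactSpace G] (hs : Function.Surjective φ) {U : Subgroup G} (hU : IsOpen (U : Set G))
    (hk : φ.ker ≤ U) (lam : (G → ZMod p) →ₗ[ZMod p] ZMod p) (f0 : G → ZMod p) (hf1 : ∀ g ∈ U, f0 g = 1)
    (hf0 : ∀ g, g ∉ U → f0 g = 0) (hlam : lam f0 ≠ 0) {c0 : Fin r → ℤ_[p]} (hc0 : ∃ g ∈ U, φ g = Multiplicative.ofAdd c0) :
    ¬ TO c0 ∣ cOm φ lam := by
  classical
  rintro ⟨h, hh⟩
  obtain ⟨n, hn⟩ := exists_level_open hs hU hk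
  obtain ⟨gc, hgc, hgc'⟩ := hc0
  set B : Finset (Gr p r n) := Finset.univ.filter (fun b => ∃ g ∈ U, rd n (Multiplicative.toAdd (φ g)) = b) with hB
  have hsum : f0 = ∑ b ∈ B, lvl φ n b := by
    funext g
    rw [Finset.sum_apply]
    by_cases hg : g ∈ U
    · rw [hf1 g hg, Finset.sum_eq_single (rd n (Multiplicative.toAdd (φ g)))]
      · rw [lvl_self φ rfl]
      · intro b' _ hb'; exact lvl_ne φ (Ne.symm hb')
      · intro h
        exact absurd (Finset.mem_filter.2 ⟨Finset.mem_univ _, g, hg, rfl⟩) h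
    · rw [hf0 g hg]
      symm
      refine Finset.sum_eq_zero fun b hb => lvl_ne φ fun h => hg ?_
      obtain ⟨_, g', hg', hg'b⟩ := Finset.mem_filter.1 hb
      have h1 : g * g'⁻¹ ∈ U := hn _ (by
        rw [map_mul, map_inv, toAdd_mul, toAdd_inv, rd_add, rd_neg, h, hg'b, add_neg_cancel])
      have := U.mul_mem h1 hg'
      rwa [inv_mul_cancel_right] at this
  apply hlam
  rw [hsum, map_sum]
  have h1 : ∀ b ∈ B, lam (lvl φ n b) = (h.1 n).coeff (b - rd n c0) - (h.1 n).coeff b := by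
    intro b _
    have h2 : (cOm φ lam).1 n = (TO c0 * h).1 n := by rw [hh]
    have h3 : (cOm φ lam).1 n = cLvl φ lam n := rfl
    have h4 : (TO c0 * h).1 n = (h.1 n) * single (rd n c0) 1 - h.1 n := by
      show ((single (rd n c0) 1 : RO p r n) - 1) * h.1 n = _
      ring
    rw [← cLvl_coeff, ← h3, h2, h4]
    have h5 : ((h.1 n) * single (rd n c0) 1).coeff b = (h.1 n).coeff (b - rd n c0) := by
      have h6 := coeff_mul_single_add (h.1 n) (1 : ZMod p) (rd n c0) (b - rd n c0)
      rw [sub_add_cancel, mul_one] at h6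
      exact h6
    rw [AddMonoidAlgebra.coeff_sub, Finsupp.sub_apply, h5]
  rw [Finset.sum_congr rfl h1, Finset.sum_sub_distrib, sub_eq_zero]
  refine Finset.sum_bij' (fun b _ => b - rd n c0) (fun b _ => b + rd n c0) ?_ ?_ ?_ ?_ ?_
  · intro b hb
    obtain ⟨_, g', hg', hg'b⟩ := Finset.mem_filter.1 hb
    refine Finset.mem_filter.2 ⟨Finset.mem_univ _, g' * gc⁻¹, U.mul_mem hg' (U.inv_mem hgc), ?_⟩
    rw [map_mul, map_inv, toAdd_mul, toAdd_inv, rd_add, rd_neg, hg'b, hgc', toAdd_ofAdd, sub_eq_add_neg]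
  · intro b hb
    obtain ⟨_, g', hg', hg'b⟩ := Finset.mem_filter.1 hb
    refine Finset.mem_filter.2 ⟨Finset.mem_univ _, g' * gc, U.mul_mem hg' hgc, ?_⟩
    rw [map_mul, toAdd_mul, rd_add, hg'b, hgc', toAdd_ofAdd]
  · intro b _; exact sub_add_cancel _ _
  · intro b _; exact add_sub_cancel_right _ _
  · intro b _; rfl

variable {H L : Subgroup G} {W Tm : Set (Subgroup G)} {F : Subgroup G}
  {ι : Type} {J : ι → Subgroup G} {f τ : ι → G} {U : ι → Subgroup G}

/-- Translates of the functions attached to characters are killed. -/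
lemma sum_lam_eq_zero (S : Sit φ H L W Tm F) (hs : Function.Surjective φ) {i : ι} {Ψ : G → ZMod p}
    (hΨ : DD H L W Tm J i Ψ)
    (lam : (G → ZMod p) →ₗ[ZMod p] ZMod p) (hlam : ∀ F0 ∈ VV H L W Tm J τ i, lam F0 = 0) (n : ℕ)
    (hn : ∀ g g' : G, rd n (Multiplicative.toAdd (φ g)) = rd n (Multiplicative.toAdd (φ g')) →
      Ψ (g * τ i * g⁻¹) = Ψ (g' * τ i * g'⁻¹))
    (s : Gr p r n → G) (hsr : ∀ b, rd n (Multiplicative.toAdd (φ (s b))) = b) (g : G) :
    ∑ b : Gr p r n, lam (lvl φ n b) * Ψ ((s b * g) * τ i * (s b * g)⁻¹) = 0 := by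
  haveI := S.normalH
  haveI := S.normalL
  let F' : G → ZMod p := fun x => Ψ ((x * g) * τ i * (x * g)⁻¹)
  have hF' : F' ∈ VV H L W Tm J τ i := by
    refine ⟨fun y => Ψ (g * y * g⁻¹), hΨ.conj S.d.conjW S.d.conjT g, fun x => ?_⟩
    show Ψ ((x * g) * τ i * (x * g)⁻¹) = Ψ (g * (x * τ i * x⁻¹) * g⁻¹)
    have h1 : g * (x * τ i * x⁻¹) * g⁻¹ = (g * x) * τ i * (g * x)⁻¹ := by group
    rw [h1]
    exact hn _ _ (by rw [φ.map_mul, φ.map_mul, mul_comm])
  have h2 := eq_sum_lvl φ n F' (fun x x' hxx => hn _ _ (by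
    rw [φ.map_mul, φ.map_mul, toAdd_mul, toAdd_mul, rd_add, rd_add, hxx])) s hsr
  have h3 := hlam F' hF'
  rw [h2, map_sum] at h3
  rw [← h3]
  refine Finset.sum_congr rfl fun b _ => ?_
  rw [map_smul, smul_eq_mul, mul_comm]

end

end Pool.Agent.Helper832_EG
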