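import Pool.Agent.Helper832_EG.Cr2

/-!
# Functionals killing the characters ramified at one class: annihilators
-/

set_option linter.style.haveILetI false
set_option linter.unusedSectionVars false
set_option linter.unusedVariables false

namespace Pool.Agent.Helper832_EG

open AddMonoidAlgebra

section
variable {p : ℕ} [Fact p.Prime] {r : ℕ} {G : Type*} [Group G] [TopologicalSpace G] [IsTopologicalGroup G]

/-- The properties of the iterated differences. -/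
theorem kill_key {H L : Subgroup G} [hH : H.Normal] [hL : L.Normal] (hLH : L ≤ H) {W Tm : Set (Subgroup G)}
    (d : Dat p H W Tm) (habL : ∀ g h : G, g * h * g⁻¹ * h⁻¹ ∈ L) {ψ : G → ZMod p} (hψ : IsCh L ψ)
    (hW : Van W L ψ) (hT : Van Tm L ψ) (hinv : ∀ y ∈ H, ∀ x ∈ L, ψ (y * x * y⁻¹) = ψ x) (a b : G) (l : List G) :
    IsCh H (dels l (del b (Psi a ψ))) ∧ Van W H (dels l (del b (Psi a ψ))) ∧
      Van Tm L (dels l (del b (Psi a ψ))) ∧
      (∀ I ∈ Tm, (∃ f ∈ l, ∃ F : G, (∃ h ∈ H, f = h * F) ∧ ∀ x ∈ I, F * x * F⁻¹ ∈ I) →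
        ∀ x ∈ I, dels l (del b (Psi a ψ)) x = 0) ∧
      ∀ x ∈ L, dels l (del b (Psi a ψ)) x = dels l (del b (del a ψ)) x := by
  have hΨ : IsCh H (Psi a ψ) := Psi_isCh habL hψ hinv a
  have hΨW : Van W L (Psi a ψ) := by
    intro I hI x hx hxL
    rw [Psi_eq_del hψ a hxL]
    exact (hW.del d.conjW a) I hI x hx hxL
  have hΨT : Van Tm L (Psi a ψ) := by
    intro I hI x hx hxL
    rw [Psi_eq_del hψ a hxL]
    exact (hT.del d.conjT a) I hI x hx hxL
  have gen : ∀ (χ : G → ZMod p), IsCh H χ → ∀ I : Subgroup G, (∀ x ∈ I, x ∈ L → χ x = 0) →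
      ∀ f F : G, (∃ h ∈ H, f = h * F) → (∀ x ∈ I, F * x * F⁻¹ ∈ I) → ∀ x ∈ I, x ∈ H → del f χ x = 0 := by
    rintro χ hχ I hI f F ⟨h, hh, rfl⟩ hF x hx hxH
    show χ (h * F * x * (h * F)⁻¹) - χ x = 0
    have h1 : h * F * x * (h * F)⁻¹ = h * (F * x * F⁻¹) * h⁻¹ := by group
    rw [h1, hχ.conj hh (hH.conj_mem x hxH F)]
    have h2 : χ (F * x * F⁻¹ * x⁻¹) = 0 := hI _ (I.mul_mem (hF x hx) (I.inv_mem hx)) (habL F x)
    rw [hχ.mul (hH.conj_mem x hxH F) (H.inv_mem hxH), hχ.inv hxH, ← sub_eq_add_neg] at h2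
    exact h2
  have hΨ1 : IsCh H (del b (Psi a ψ)) := hΨ.del b
  have hΨ1W : Van W H (del b (Psi a ψ)) := by
    intro I hI x hx hxH
    obtain ⟨h, hh, s, hs, hb⟩ := d.surjW I hI b
    exact gen _ hΨ I (fun x hx hxL => hΨW I hI x hx hxL) b s ⟨h, hh, hb⟩
      (fun x hx => I.mul_mem (I.mul_mem hs hx) (I.inv_mem hs)) x hx hxH
  have hΨ1T : Van Tm L (del b (Psi a ψ)) := hΨT.del d.conjT b
  have key : ∀ l : List G, IsCh H (dels l (del b (Psi a ψ))) ∧ Van W H (dels l (del b (Psi a ψ))) ∧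
      Van Tm L (dels l (del b (Psi a ψ))) ∧
      ∀ I ∈ Tm, (∃ f ∈ l, ∃ F : G, (∃ h ∈ H, f = h * F) ∧ ∀ x ∈ I, F * x * F⁻¹ ∈ I) →
        ∀ x ∈ I, dels l (del b (Psi a ψ)) x = 0 := by
    intro l
    induction l with
    | nil => exact ⟨hΨ1, hΨ1W, hΨ1T, fun I hI h => by simp at h⟩
    | cons f l ih =>
      obtain ⟨h1, h2, h3, h4⟩ := ih
      refine ⟨h1.del f, h2.del d.conjW f, h3.del d.conjT f, ?_⟩
      intro I hI hex x hx
      obtain ⟨f', hf', F, ⟨h, hh, hfF⟩, hF⟩ := hex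
      rcases List.mem_cons.1 hf' with rfl | hf'
      · exact gen _ h1 I (fun x hx hxL => h3 I hI x hx hxL) f' F ⟨h, hh, hfF⟩ hF x hx (d.tame I hI hx)
      · show dels l (del b (Psi a ψ)) (f * x * f⁻¹) - dels l (del b (Psi a ψ)) x = 0
        rw [h4 I hI ⟨f', hf', F, ⟨h, hh, hfF⟩, hF⟩ x hx]
        rw [h4 (I.map (MulAut.conj f).toMonoidHom) (d.conjT I hI f) ⟨f', hf', f * F * f⁻¹, ?_, ?_⟩
          (f * x * f⁻¹) (mem_map_conj hx f), sub_zero]
        · refine ⟨h * (F * f * F⁻¹ * f⁻¹), H.mul_mem hh (d.ab F f), ?_⟩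
          rw [hfF]; group
        · rintro _ ⟨y, hy, rfl⟩
          refine ⟨F * y * F⁻¹, hF y hy, ?_⟩
          show f * (F * y * F⁻¹) * f⁻¹ = f * F * f⁻¹ * (f * y * f⁻¹) * (f * F * f⁻¹)⁻¹
          group
  obtain ⟨h1, h2, h3, h4⟩ := key l
  refine ⟨h1, h2, h3, h4, ?_⟩
  clear h1 h2 h3 h4
  induction l with
  | nil =>
    intro x hx
    show Psi a ψ (b * x * b⁻¹) - Psi a ψ x = del a ψ (b * x * b⁻¹) - del a ψ x
    rw [Psi_eq_del hψ a hx, Psi_eq_del hψ a (hL.conj_mem x hx b)]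
  | cons f l ih =>
    intro x hx
    show dels l (del b (Psi a ψ)) (f * x * f⁻¹) - dels l (del b (Psi a ψ)) x =
      dels l (del b (del a ψ)) (f * x * f⁻¹) - dels l (del b (del a ψ)) x
    rw [ih x hx, ih _ (hL.conj_mem x hx f)]

omit [TopologicalSpace G] [IsTopologicalGroup G] [Group G] in
lemma rd_mono {n m : ℕ} (h : n ≤ m) {a b : Fin r → ℤ_[p]} (hab : rd m a = rd m b) : rd n a = rd n b := by
  induction h with
  | refl => exact hab
  | @step m _ ih => exact ih (by rw [← grT_rd m a, ← grT_rd m b]; exact congrArg _ hab)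

/-- Evaluation at level `n`. -/
noncomputable def evL (n : ℕ) : Lam p r →+* RL p r n := (Pi.evalRingHom (fun n => RL p r n) n).comp (Lim (tL p r)).subtype

lemma redL_coeff {n : ℕ} (x : RL p r n) (b : Gr p r n) : (redL n x).coeff b = cp n (x.coeff b) := by
  simp [redL]

lemma red_coeff (C : Lam p r) (n : ℕ) (b : Gr p r n) :
    ((((C.1 n).coeff b).val : ℕ) : ZMod p) = ((red C).1 n).coeff b := by
  rw [red_apply, redL_coeff]
  show _ = ZMod.castHom (dvd_pow_self p (Nat.succ_ne_zero n)) (ZMod p) _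
  rw [ZMod.castHom_apply, ZMod.natCast_val]

variable {φ : G →* Multiplicative (Fin r → ℤ_[p])} {H L : Subgroup G} {W Tm : Set (Subgroup G)} {F : Subgroup G}
  {ι : Type} [Fintype ι] [DecidableEq ι] {J : ι → Subgroup G} {f τ : ι → G} {U : ι → Subgroup G}
variable [CompactSpace G] [T2Space G] [TotallyDisconnectedSpace G]

/-- The killing property. -/
lemma kill_c [Module (Lam p r) (XX p (W ∪ Tm) L)] (S : Sit φ H L W Tm F)
    (hm : IsIwA (W ∪ Tm) L φ F inferInstance) [hL : L.Normal] (hs : Function.Surjective φ)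
    (C : TCl φ L W Tm J f τ U) (i : ι) (lam : (G → ZMod p) →ₗ[ZMod p] ZMod p)
    (hlam : ∀ F0 ∈ VV H L W Tm J τ i, lam F0 = 0) (Cl : Lam p r) (hCl : red Cl = cOm φ lam)
    (v : Fin r → ℤ_[p]) (ψ : XX p (W ∪ Tm) L →+ ZMod p) (hψ : IsOpen (ψ.ker : Set (XX p (W ∪ Tm) L)))
    (hψH : ∀ h ∈ H, ∀ x, ψ (cj S.d.conjWT h x) = ψ x) (x : XX p (W ∪ Tm) L) :
    ψ ((T v ^ 2 * (∏ j ∈ Finset.univ.erase i, (T (Multiplicative.toAdd (φ (f j))) : Lam p r)) * Cl) • x) = 0 := by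
  classical
  obtain rfl : φ.ker = H := S.ker
  haveI := S.compactL
  obtain ⟨y, rfl⟩ := mkX_surj x
  obtain ⟨σ, hσF, hσ⟩ := S.surjF (Multiplicative.ofAdd v)
  choose t htF ht using fun j => S.surjF (φ (f j))
  have hinv : ∀ y ∈ φ.ker, ∀ x ∈ L, hat ψ (y * x * y⁻¹) = hat ψ x := by
    intro h hh x hx
    have h1 : h * x * h⁻¹ = ((MulAut.conjNormal h (⟨x, hx⟩ : L) : L) : G) := by rw [MulAut.conjNormal_apply]
    rw [h1, hat_apply, ← cj_mkX (p := p) S.d.conjWT, hψH h hh, hat_apply' ψ hx]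
  set l : List G := (Finset.univ.erase i).toList.map t with hl
  set Ψ2 : G → ZMod p := dels l (del σ (Psi σ (hat ψ))) with hΨ2
  obtain ⟨k1, k2, k3, k4, k5⟩ := kill_key S.LH S.d S.abL (hat_isCh ψ hψ) (hat_van Set.subset_union_left ψ)
    (hat_van Set.subset_union_right ψ) hinv σ σ l
  rw [← hΨ2] at k1 k2 k3
  have hDD : DD φ.ker L W Tm J i Ψ2 := by
    refine ⟨k1, k2, k3, fun j hj g x hx => ?_⟩
    refine k4 _ (S.d.conjT _ (C.memJ j) g) ⟨t j, ?_, g * f j * g⁻¹, ⟨t j * (g * f j * g⁻¹)⁻¹, ?_, by group⟩, ?_⟩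
      _ (mem_map_conj hx g)
    · exact List.mem_map.2 ⟨j, by simpa using hj, rfl⟩
    · rw [MonoidHom.mem_ker, φ.map_mul, φ.map_inv, φ.map_mul, φ.map_mul, φ.map_inv, ht, mul_comm (φ g),
        mul_assoc, mul_inv_cancel, mul_one, mul_inv_cancel]
    · rintro _ ⟨z, hz, rfl⟩
      refine ⟨f j * z * (f j)⁻¹, C.frob j z hz, ?_⟩
      show g * (f j * z * (f j)⁻¹) * g⁻¹ = g * f j * g⁻¹ * (g * z * g⁻¹) * (g * f j * g⁻¹)⁻¹
      group
  set ρ : Lam p r := T v ^ 2 * ∏ j ∈ Finset.univ.erase i, (T (Multiplicative.toAdd (φ (f j))) : Lam p r) with hρ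
  have hval : ∀ x : L, Ψ2 x = ψ (ρ • mkX x) := by
    intro x
    have h1 : ∀ x : L, del σ (hat ψ) (x : G) = ψ (T v • mkX x) := by
      intro x
      have := hat_del S hm hσF ψ x
      rw [this, hσ]; rfl
    have h2 : ∀ x : L, del σ (del σ (hat ψ)) (x : G) = ψ (T v ^ 2 • mkX x) := by
      intro x
      show del σ (hat ψ) (σ * x * σ⁻¹) - del σ (hat ψ) x = _
      have h3 : σ * (x : G) * σ⁻¹ = ((MulAut.conjNormal σ x : L) : G) := by rw [MulAut.conjNormal_apply]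
      rw [h3, h1, h1, ← cj_mkX (p := p) S.d.conjWT σ x, ← gr_smul S hm hσF, ← map_sub, hσ, toAdd_ofAdd,
        smul_smul, ← sub_smul]
      congr 2
      rw [T]; ring
    have h3 := k5 x x.2
    rw [hat_dels S hm ψ l (by
      intro f hf
      obtain ⟨g, _, rfl⟩ := List.mem_map.1 hf
      exact htF g) _ _ h2 x] at h3
    rw [hΨ2, h3]
    congr 2
    rw [hρ, hl, List.map_map, ← Finset.prod_map_toList]
    congr 2
    apply List.map_congr_left
    intro j _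
    simp [ht]
  -- levels
  obtain ⟨n1, hn1⟩ := exists_level_smul hm.2 ψ.ker hψ
  obtain ⟨n2, hn2⟩ := exists_level_conj φ hs k1
  set n := max n1 n2 with hn
  choose a ha using fun b : Gr p r n => rd_surj (p := p) (r := r) n b
  choose s hsF hsa using fun b : Gr p r n => S.surjF (Multiplicative.ofAdd (a b))
  have hsr : ∀ b, rd n (Multiplicative.toAdd (φ (s b))) = b := fun b => by rw [hsa, toAdd_ofAdd, ha]
  set C' : Lam p r := ∑ b : Gr p r n, (((Cl.1 n).coeff b).val) • gr (a b) with hC'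
  have hdiff : (Cl - C').1 n1 = 0 := by
    refine lim_zero_of_le (Cl - C') (le_max_left n1 n2) ?_
    show Cl.1 n - evL n C' = 0
    rw [sub_eq_zero, hC', map_sum]
    have h1 : ∀ b ∈ Finset.univ, evL n ((((Cl.1 n).coeff b).val) • gr (a b)) =
        (single b ((Cl.1 n).coeff b) : RL p r n) := by
      intro b _
      rw [map_nsmul]
      show _ • (single (rd n (a b)) 1 : RL p r n) = _
      rw [ha]
      rw [AddMonoidAlgebra.smul_single, nsmul_eq_mul, mul_one, ZMod.natCast_val, ZMod.cast_id]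
    rw [Finset.sum_congr rfl h1]
    apply AddMonoidAlgebra.coeff_injective
    refine Finsupp.ext fun b => ?_
    rw [coeff_sum_single]
  have hrep : ψ ((ρ * Cl) • mkX y) = ψ ((ρ * C') • mkX y) := by
    have h1 : (ρ * Cl) • (mkX y : XX p (W ∪ Tm) L) = (Cl - C') • (ρ • mkX y) + (ρ * C') • mkX y := by
      rw [smul_smul, ← add_smul]; congr 1; ring
    have h2 : ψ ((Cl - C') • (ρ • mkX y)) = 0 := hn1 _ hdiff _
    rw [h1, map_add, h2, zero_add]
  have hsum : ψ ((ρ * C') • mkX y) =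
      ∑ b : Gr p r n, lam (lvl φ n b) * Ψ2 (s b * y * (s b)⁻¹) := by
    rw [hC', Finset.mul_sum, Finset.sum_smul, map_sum]
    refine Finset.sum_congr rfl fun b _ => ?_
    have h1 : (ρ * (((Cl.1 n).coeff b).val • gr (a b))) • (mkX y : XX p (W ∪ Tm) L) =
        (((Cl.1 n).coeff b).val) • (ρ • (gr (a b) • mkX y)) := by
      rw [mul_smul_comm, smul_assoc, mul_smul]
    have h2 : gr (a b) • (mkX y : XX p (W ∪ Tm) L) = mkX (MulAut.conjNormal (s b) y) := by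
      have h3 := gr_smul S hm (hsF b) (mkX y)
      rw [hsa, toAdd_ofAdd, cj_mkX] at h3
      exact h3
    rw [h1, map_nsmul, h2, ← hval, MulAut.conjNormal_apply, nsmul_eq_mul, red_coeff, hCl]
    congr 1
    exact cLvl_coeff φ lam n b
  rw [hrep, hsum]
  -- the combination is a character which vanishes
  set Ψ3 : G → ZMod p := ∑ b : Gr p r n, lam (lvl φ n b) • (fun x => Ψ2 (s b * x * (s b)⁻¹)) with hΨ3
  have hΨ3v : ∀ x, Ψ3 x = ∑ b : Gr p r n, lam (lvl φ n b) * Ψ2 (s b * x * (s b)⁻¹) := by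
    intro x; rw [hΨ3, Finset.sum_apply]; rfl
  rw [← hΨ3v]
  have hDD3 : DD φ.ker L W Tm J i Ψ3 :=
    DD.sum _ _ fun b _ => (hDD.conj S.d.conjW S.d.conjT (s b)).smul _
  refine hDD3.eq_zero S C (fun g => ?_) y (S.LH y.2)
  rw [hΨ3v]
  have h1 := sum_lam_eq_zero S hs hDD lam hlam n (fun g g' hgg => hn2 g g' (rd_mono (le_max_right n1 n2) hgg) _
    (S.d.tame _ (C.memJ i) (C.memt i))) s hsr g
  rw [← h1]
  refine Finset.sum_congr rfl fun b _ => ?_
  congr 2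
  group

open Classical in
/-- The annihilating elements. -/
theorem exists_kill [Module (Lam p r) (XX p (W ∪ Tm) L)] (S : Sit φ H L W Tm F)
    (hm : IsIwA (W ∪ Tm) L φ F inferInstance) [hL : L.Normal] (hs : Function.Surjective φ)
    (C : TCl φ L W Tm J f τ U) (i : ι) : ∃ Cl : Lam p r,
    (∀ c0 : Fin r → ℤ_[p], (∃ g ∈ U i, φ g = Multiplicative.ofAdd c0) → ¬ TO c0 ∣ red Cl) ∧
    ∀ (v : Fin r → ℤ_[p]) (ψ : XX p (W ∪ Tm) L →+ ZMod p), IsOpen (ψ.ker : Set (XX p (W ∪ Tm) L)) →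
    (∀ h ∈ H, ∀ x, ψ (cj S.d.conjWT h x) = ψ x) → ∀ x : XX p (W ∪ Tm) L,
    ψ ((T v ^ 2 * (∏ j ∈ Finset.univ.erase i, (T (Multiplicative.toAdd (φ (f j))) : Lam p r)) * Cl) • x) = 0 := by
  obtain ⟨lam, hlam0, hlam⟩ := Submodule.exists_dual_map_eq_bot_of_notMem (ind_not_mem S C i) inferInstance
  obtain ⟨Cl, hCl⟩ := red_surj (cOm φ lam)
  refine ⟨Cl, fun c0 hc0 => ?_, fun v ψ hψ hψH x => ?_⟩
  · rw [hCl]
    exact cOm_not_dvd hs (C.opn i) (C.kerU i) lam _ (fun g hg => if_pos hg) (fun g hg => if_neg hg) hlam0 hc0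
  · refine kill_c S hm hs C i lam (fun F0 hF0 => ?_) Cl hCl v ψ hψ hψH x
    have h1 : lam F0 ∈ (VV H L W Tm J τ i).map lam := ⟨F0, hF0, rfl⟩
    rw [hlam, Submodule.mem_bot] at h1
    exact h1

end

section
variable {p : ℕ} [Fact p.Prime] {r : ℕ}

lemma prime_sum {A : Type*} [CommRing A] [IsDomain A] {ι : Type} [Fintype ι] [DecidableEq ι] {q w : A}
    (hq : Prime q) (a b : ι → A) (k : ι) (hk : q ∣ a k) (hw : ¬ q ∣ w) (ha : ∀ l, l ≠ k → ¬ q ∣ a l)
    (hb : ¬ q ∣ b k) : ¬ q ∣ ∑ x, w ^ 2 * (∏ l ∈ Finset.univ.erase x, a l) * b x := by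
  intro h
  rw [← Finset.add_sum_erase _ _ (Finset.mem_univ k)] at h
  have h3 : q ∣ ∑ x ∈ Finset.univ.erase k, w ^ 2 * (∏ l ∈ Finset.univ.erase x, a l) * b x := by
    refine Finset.dvd_sum fun x hx => ?_
    have hkx : k ∈ Finset.univ.erase x := Finset.mem_erase.2 ⟨(Finset.mem_erase.1 hx).1.symm, Finset.mem_univ _⟩
    exact Dvd.dvd.mul_right (Dvd.dvd.mul_left (hk.trans (Finset.dvd_prod_of_mem a hkx)) _) _
  have h4 := (dvd_add_left h3).1 h
  rcases hq.dvd_or_dvd h4 with h5 | h5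
  · rcases hq.dvd_or_dvd h5 with h6 | h6
    · exact hw (hq.dvd_of_dvd_pow h6)
    · obtain ⟨l, hl, hl'⟩ := (hq.dvd_finsetProd_iff _).1 h6
      exact ha l (Finset.mem_erase.1 hl).1 hl'
  · exact hb h5

/-- The algebraic part of the criterion. -/
theorem alg_null {i j : Fin r} (hij : i ≠ j) {P : Ideal (Lam p r)} [hP : P.IsPrime] (hh : P.height = 1)
    {ι : Type} [Fintype ι] [DecidableEq ι] (γ : ι → Fin r → ℤ_[p]) (hγ : ∀ k, γ k ≠ 0)
    (hind : ∀ k l, k ≠ l → ∀ a b : ℤ_[p], a • γ k = b • γ l → a = 0) (C : ι → Om p r)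
    (hC : ∀ k (e : ℕ) (c : Fin r → ℤ_[p]), γ k = p ^ e • c → ¬ TO c ∣ C k)
    (h : ∀ m, ∃ N, ∃ α ∈ P, red α = (TO (vv i j m) ^ 2 * ∏ k, TO (γ k)) ^ N)
    (h' : ∀ m, ∃ N, ∃ α ∈ P, red α = (∑ k, TO (vv i j m) ^ 2 * (∏ l ∈ Finset.univ.erase k, TO (γ l)) * C k) ^ N) :
    False := by
  classical
  obtain ⟨k, _, hk⟩ := alg_support hij hh Finset.univ γ (fun k _ => hγ k) h
  obtain ⟨e, c, hc, hce⟩ := exists_prim (hγ k)
  have hcp : Prime (TO c) := TO_prime hc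
  have hp0 : (p : ℤ_[p]) ≠ 0 := by exact_mod_cast (Fact.out : p.Prime).ne_zero
  have hPc : ∀ x ∈ P, TO c ∣ red x := by
    intro x hx
    obtain ⟨n, hn⟩ := hk hx
    obtain ⟨a, b, hab⟩ := Ideal.mem_span_pair.1 hn
    have h1 := congrArg red hab
    rw [map_add, map_mul, map_mul, red_p, mul_zero, zero_add, red_T, map_pow, hce, TO_pow] at h1
    have h2 : TO c ∣ red x ^ n := by
      rw [← h1]
      exact Dvd.dvd.mul_left (dvd_pow_self _ (pow_ne_zero _ (Fact.out : p.Prime).ne_zero)) _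
    exact hcp.dvd_of_dvd_pow h2
  obtain ⟨m, hm⟩ := exists_vv_not_dvd hij hcp.ne_zero
  have hm' : ¬ TO c ∣ TO (vv i j m) := by
    intro hd
    exact hm ((hcp.dvd_prime_iff_associated (TO_prime (vv_prim hij m))).1 hd).dvd'
  have hk1 : TO c ∣ TO (γ k) := by
    rw [hce, TO_pow]; exact dvd_pow_self _ (pow_ne_zero _ (Fact.out : p.Prime).ne_zero)
  have hl1 : ∀ l, l ≠ k → ¬ TO c ∣ TO (γ l) := by
    intro l hl hd
    obtain ⟨x, hx⟩ := TO_dvd_TO hc hd
    have h8 : ((p : ℤ_[p]) ^ e) • γ l = x • γ k := by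
      rw [hx, hce]
      funext t
      rw [Pi.smul_apply, Pi.smul_apply, Pi.smul_apply, Pi.smul_apply, smul_eq_mul, smul_eq_mul, smul_eq_mul,
        nsmul_eq_mul]
      push_cast
      ring
    exact pow_ne_zero e hp0 (hind l k hl _ x h8)
  have hC1 := hC k e c hce
  obtain ⟨N, α, hα, hα'⟩ := h' m
  have h1 := hPc α hα
  rw [hα'] at h1
  have h2 := hcp.dvd_of_dvd_pow h1
  exact prime_sum hcp (fun l => TO (γ l)) C k hk1 hm' hl1 hC1 h2

end

end Pool.Agent.Helper832_EG
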