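import Pool.Agent.Helper832_EG.Cr3

/-!
# The abstract criterion
-/

set_option linter.style.haveILetI false
set_option linter.unusedSectionVars false
set_option linter.unusedVariables false

namespace Pool.Agent.Helper832_EG

section
variable {p : ℕ} [Fact p.Prime] {r : ℕ} {G : Type*} [Group G] [TopologicalSpace G] [IsTopologicalGroup G]
variable {φ : G →* Multiplicative (Fin r → ℤ_[p])} {H L : Subgroup G} {W Tm : Set (Subgroup G)} {F : Subgroup G}
  {ι : Type} [Fintype ι] [DecidableEq ι] {J : ι → Subgroup G} {f τ : ι → G} {U : ι → Subgroup G}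
variable [CompactSpace G] [T2Space G] [TotallyDisconnectedSpace G]

/-- The criterion, abstract form. -/
theorem null_abs [Module (Lam p r) (XX p (W ∪ Tm) L)] (S : Sit φ H L W Tm F)
    (hm : IsIwA (W ∪ Tm) L φ F inferInstance) (hs : Function.Surjective φ)
    (C : TCl φ L W Tm J f τ U) (hf0 : ∀ i, φ (f i) ≠ 1)
    (hind : ∀ k l, k ≠ l → ∀ a b : ℤ_[p], a • Multiplicative.toAdd (φ (f k)) = b • Multiplicative.toAdd (φ (f l)) → a = 0)
    {i j : Fin r} (hij : i ≠ j) {P : Ideal (Lam p r)} [hP : P.IsPrime] (hh : P.height = 1) :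
    ¬ Nontrivial (LocalizedModule P.primeCompl (XX p (W ∪ Tm) L)) := by
  classical
  intro hsupp
  haveI := S.normalL
  have hann : ∀ α : Lam p r, (∀ x : XX p (W ∪ Tm) L, α • x = 0) → α ∈ P := by
    intro α hα
    by_contra h
    have : Subsingleton (LocalizedModule P.primeCompl (XX p (W ∪ Tm) L)) :=
      LocalizedModule.subsingleton_iff.2 fun m => ⟨α, h, hα m⟩
    exact not_nontrivial_iff_subsingleton.2 this hsupp
  have hinj : Function.Injective f := by
    intro k l hkl
    by_contra hne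
    have h1 := hind k l hne 1 1 (by rw [hkl])
    exact one_ne_zero h1
  choose Cl hCl hkill using fun k => exists_kill S hm hs C k
  refine alg_null hij hh (fun k => Multiplicative.toAdd (φ (f k))) (fun k h => hf0 k (Multiplicative.toAdd.injective h))
    hind (fun k => red (Cl k)) (fun k e c hce => ?_) (fun m => ?_) (fun m => ?_)
  · obtain ⟨g, hg⟩ := hs (Multiplicative.ofAdd c)
    refine hCl k c ⟨g, ?_, hg⟩
    refine C.line k g ⟨1, p ^ e, ?_, ?_⟩
    · exact pow_ne_zero e (by exact_mod_cast (Fact.out : p.Prime).ne_zero)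
    · rw [one_smul, hce, hg, toAdd_ofAdd]
      funext t
      rw [Pi.smul_apply, Pi.smul_apply, smul_eq_mul, nsmul_eq_mul]
      push_cast; ring
  · obtain ⟨N, α, hα, hα'⟩ := exists_ann_of_kill S hm
      (T (vv i j m) ^ 2 * ∏ g ∈ Finset.univ.image f, (T (Multiplicative.toAdd (φ g)) : Lam p r))
      (fun ψ hψ hψH x => kill_theta S hm (Finset.univ.image f) (by
        intro I hI
        rcases C.cls I hI with h | ⟨k, g, rfl⟩
        · exact Or.inl h
        · refine Or.inr ⟨f k, Finset.mem_image.2 ⟨k, Finset.mem_univ _, rfl⟩, g * f k * g⁻¹, ?_, ?_⟩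
          · rw [φ.map_mul, φ.map_mul, φ.map_inv, mul_comm (φ g), mul_assoc, mul_inv_cancel, mul_one]
          · rintro _ ⟨z, hz, rfl⟩
            refine ⟨f k * z * (f k)⁻¹, C.frob k z hz, ?_⟩
            show g * (f k * z * (f k)⁻¹) * g⁻¹ = g * f k * g⁻¹ * (g * z * g⁻¹) * (g * f k * g⁻¹)⁻¹
            group) _ ψ hψ hψH x)
    refine ⟨N, α, hann α hα, ?_⟩
    rw [hα', map_mul, map_pow, map_prod, red_T, Finset.prod_image (fun x _ y _ h => hinj h)]
    simp only [red_T]
  · obtain ⟨N, α, hα, hα'⟩ := exists_ann_of_kill S hm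
      (∑ k, T (vv i j m) ^ 2 * (∏ l ∈ Finset.univ.erase k, (T (Multiplicative.toAdd (φ (f l))) : Lam p r)) * Cl k)
      (fun ψ hψ hψH x => by
        rw [Finset.sum_smul, map_sum]
        exact Finset.sum_eq_zero fun k _ => hkill k _ ψ hψ hψH x)
    refine ⟨N, α, hann α hα, ?_⟩
    rw [hα', map_sum]
    congr 1
    refine Finset.sum_congr rfl fun k _ => ?_
    rw [map_mul, map_mul, map_pow, map_prod, red_T]
    simp only [red_T]

end

end Pool.Agent.Helper832_EG
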