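import Pool.Agent.Helper832_EG.Stmt

set_option linter.style.haveILetI false
set_option linter.unusedSectionVars false
set_option linter.unusedVariables false

namespace Pool.Agent.Helper832_EG

open NumberField Pool.Agent.W569.FM Pool.Agent.R417.FK IntermediateField

section
variable {k : Type} [Field k] {p r : ℕ} [hp : Fact p.Prime]

/-- The homomorphism attached to coordinates. -/
def Coord.hom {M : IntermediateField k (AlgebraicClosure k)} {φ : GF k → Fin r → ℤ_[p]} (h : Coord M φ) :
    GF k →* Multiplicative (Fin r → ℤ_[p]) where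
  toFun σ := Multiplicative.ofAdd (φ σ)
  map_one' := by
    have h1 := h.map_mul 1 1
    rw [mul_one] at h1
    rw [left_eq_add.1 h1]; rfl
  map_mul' σ τ := by rw [h.map_mul]; rfl

lemma Coord.hom_apply {M : IntermediateField k (AlgebraicClosure k)} {φ : GF k → Fin r → ℤ_[p]} (h : Coord M φ)
    (σ : GF k) : Multiplicative.toAdd (h.hom σ) = φ σ := rfl

lemma Coord.homM {M : IntermediateField k (AlgebraicClosure k)} {φ : GF k → Fin r → ℤ_[p]} (h : Coord M φ) :
    CoordM M h.hom where
  cont := continuous_ofAdd.comp h.cont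
  surj := fun v => by
    obtain ⟨σ, hσ⟩ := h.surj (Multiplicative.toAdd v)
    exact ⟨σ, congrArg Multiplicative.ofAdd hσ⟩
  ker := by
    ext σ
    rw [MonoidHom.mem_ker, ← h.ker]
    exact ⟨fun h1 => Multiplicative.ofAdd.injective h1, fun h1 => congrArg Multiplicative.ofAdd h1⟩

lemma isNat_iff {M : IntermediateField k (AlgebraicClosure k)} {φ : GF k → Fin r → ℤ_[p]} (h : Coord M φ)
    {K F : IntermediateField k (AlgebraicClosure k)} (m : Module (Iwa p r) (Xur p K)) :
    IsNat K F φ m ↔ IsIw p K F h.hom (m : Module (Lam p r) (XK p K)) :=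
  ⟨fun h => ⟨h.conj, h.cont⟩, fun h => ⟨h.1, h.2⟩⟩

end

section
variable {k : Type} [Field k] [NumberField k] {p r : ℕ} [hp : Fact p.Prime]

theorem exists_isNat (h1 : OnePrime k p) (h : NoUr k p) {M : IntermediateField k (AlgebraicClosure k)}
    {φ : GF k → Fin r → ℤ_[p]} (hφ : Coord M φ) {K F : IntermediateField k (AlgebraicClosure k)} (hK : Ext p M K F) :
    ∃ m : Module (Iwa p r) (Xur p K), IsNat K F φ m := by
  obtain ⟨m, hm⟩ := exists_iw h1 h hφ.homM hK
  exact ⟨m, (isNat_iff hφ m).2 hm⟩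

theorem support_nat (h1 : OnePrime k p) (h : NoUr k p) (hr : 2 ≤ r)
    {M : IntermediateField k (AlgebraicClosure k)} (hM : CycIn p M) {φ : GF k → Fin r → ℤ_[p]}
    (hφ : Coord M φ) {K F : IntermediateField k (AlgebraicClosure k)} (hK : Ext p M K F)
    (m : Module (Iwa p r) (Xur p K)) (hm : IsNat K F φ m) (Q : Ideal (Iwa p r)) [hQ : Q.IsPrime] (hh : Q.height = 1)
    (hs : InSupp m Q) :
    ∃ P : Ideal (OO k), P.IsMaximal ∧ (p : OO k) ∉ P ∧ ¬ inertia P ≤ K.fixingSubgroup ∧
      ∃ σ : GF k, FrobAt (nm P) P σ ∧ Q ≤ (Ideal.span {(p : Iwa p r), gel (φ σ) - 1}).radical :=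
  support_main h1 h hr hM hφ.homM hK m ((isNat_iff hφ m).1 hm) (hQ := hQ) Q hh hs

end

end Pool.Agent.Helper832_EG
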