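import Pool.Agent.Helper832_EG.PD13
import Pool.Agent.W258.FM.TameFin

/-!
# Characters of tame inertia groups
-/

set_option linter.style.haveILetI false
set_option linter.unusedSectionVars false
set_option linter.unusedVariables false

open NumberField Ideal Module IntermediateField Pool.Agent.W569.FM Pool.Agent.W571.FM Pool.Agent.R417.FK
open scoped Pointwise nonZeroDivisors

namespace Pool.Agent.Helper832_EG

section
variable {k : Type} [Field k] [NumberField k] {p : ℕ} [hp : Fact p.Prime]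

/-- A cyclic Sylow subgroup forces the characters of a finite group to be proportional. -/
lemma sylow_prop {I : Type*} [Group I] [Finite I] (f g : I →* Multiplicative (ZMod p))
    (S : Sylow p I) (s0 : I) (hs : ∀ s ∈ S, s ∈ Subgroup.zpowers s0) {x y : I} (hfx : f x ≠ 1) (hgx : g x = 1) :
    g y = 1 := by
  classical
  let F : I →* Multiplicative (ZMod p) × Multiplicative (ZMod p) := f.prod g
  have hpg : IsPGroup p F.range := by
    rintro ⟨z, hz⟩
    refine ⟨1, ?_⟩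
    apply Subtype.ext
    rw [pow_one]
    show z ^ p = 1
    have h1 : ∀ w : Multiplicative (ZMod p), w ^ p = 1 := by
      intro w
      apply Multiplicative.toAdd.injective
      rw [toAdd_pow, nsmul_eq_mul, CharP.cast_eq_zero, zero_mul]; rfl
    exact Prod.ext (h1 _) (h1 _)
  have hsurj : Function.Surjective F.rangeRestrict := F.rangeRestrict_surjective
  have htop : (S.mapSurjective hsurj : Subgroup F.range) = ⊤ := by
    have h1 : IsPGroup p (⊤ : Subgroup F.range) := hpg.to_subgroup ⊤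
    exact ((S.mapSurjective hsurj).is_maximal' h1 le_top).symm
  have key : ∀ z : I, ∃ n : ℤ, f z = f s0 ^ n ∧ g z = g s0 ^ n := by
    intro z
    have h1 : F.rangeRestrict z ∈ (S.mapSurjective hsurj : Subgroup F.range) := by rw [htop]; trivial
    rw [Sylow.coe_mapSurjective] at h1
    obtain ⟨s, hsS, hsz⟩ := h1
    obtain ⟨n, rfl⟩ := Subgroup.mem_zpowers_iff.1 (hs s hsS)
    have h2 : F (s0 ^ n) = F z := congrArg Subtype.val hsz
    have h3 : (f (s0 ^ n), g (s0 ^ n)) = (f z, g z) := h2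
    obtain ⟨h4, h5⟩ := Prod.mk.inj h3
    exact ⟨n, by rw [← h4, map_zpow], by rw [← h5, map_zpow]⟩
  obtain ⟨n, hn1, hn2⟩ := key x
  obtain ⟨m, hm1, hm2⟩ := key y
  have h6 : Multiplicative.toAdd (g s0) = 0 := by
    have h7 : (n : ZMod p) * Multiplicative.toAdd (g s0) = 0 := by
      rw [← zsmul_eq_mul, ← toAdd_zpow, ← hn2, hgx]; rfl
    refine (mul_eq_zero.1 h7).resolve_left fun h8 => hfx ?_
    apply Multiplicative.toAdd.injective
    rw [hn1, toAdd_zpow, zsmul_eq_mul, h8, zero_mul]; rfl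
  have h7 : g s0 = 1 := Multiplicative.toAdd.injective h6
  rw [hm2, h7, one_zpow]

/-- The characters of order `p` of an inertia group at a prime not above `p` are detected by one
element. -/
theorem exists_tame_gen {P : Ideal (OO k)} (hP : P.IsMaximal) (hpP : (p : OO k) ∉ P) :
    ∃ τ0 ∈ inertia P, ∀ ψ : GF k → ZMod p, IsCh (inertia P) ψ → ψ τ0 = 0 → ∀ τ ∈ inertia P, ψ τ = 0 := by
  classical
  by_cases hall : ∀ ψ : GF k → ZMod p, IsCh (inertia P) ψ → ∀ τ ∈ inertia P, ψ τ = 0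
  · exact ⟨1, (inertia P).one_mem, fun ψ hψ _ => hall ψ hψ⟩
  push Not at hall
  obtain ⟨ψ0, hψ0, τ0, hτ0, hne⟩ := hall
  refine ⟨τ0, hτ0, fun ψ hψ hψτ0 τ1 hτ1 => ?_⟩
  obtain ⟨U1, hU1, hU1'⟩ := hψ0.2
  obtain ⟨U2, hU2, hU2'⟩ := hψ.2
  obtain ⟨N0, hN0⟩ := ProfiniteGrp.exist_openNormalSubgroup_sub_open_nhds_of_one (hU1.inter hU2) ⟨U1.one_mem, U2.one_mem⟩
  have hN0open : IsOpen ((N0 : Subgroup (GF k)) : Set (GF k)) := N0.isOpen'
  haveI hN0n : (N0 : Subgroup (GF k)).Normal := N0.isNormal'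
  set N : IntermediateField k (AlgebraicClosure k) := IntermediateField.fixedField (N0 : Subgroup (GF k)) with hN
  have hNfix : N.fixingSubgroup = (N0 : Subgroup (GF k)) :=
    InfiniteGalois.fixingSubgroup_fixedField ⟨(N0 : Subgroup (GF k)), Subgroup.isClosed_of_isOpen _ hN0open⟩
  haveI hNfin : FiniteDimensional k N :=
    (InfiniteGalois.isOpen_iff_finite N).1 (by rw [hNfix]; exact hN0open)
  haveI : NumberField N := NumberField.of_module_finite k N
  haveI hNgal : IsGalois k N := by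
    apply (InfiniteGalois.normal_iff_isGalois N).1
    rw [hNfix]; exact hN0n
  set res : GF k →* Gal(N/k) := AlgEquiv.restrictNormalHom N with hres
  have hker : ∀ g : GF k, res g = 1 ↔ g ∈ (N0 : Subgroup (GF k)) := by
    intro g
    rw [← hNfix, ← N.restrictNormalHom_ker, MonoidHom.mem_ker]
  set Ib : Subgroup Gal(N/k) := (inertia P).map res with hIb
  have hlift : ∀ γ : Ib, ∃ τ ∈ inertia P, res τ = γ := fun γ => γ.2
  choose c hcI hcr using hlift
  have hwd : ∀ χ : GF k → ZMod p, IsCh (inertia P) χ → (∀ x ∈ inertia P, x ∈ (N0 : Subgroup (GF k)) → χ x = 0) →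
      ∀ a ∈ inertia P, ∀ b ∈ inertia P, res a = res b → χ a = χ b := by
    intro χ hχ hχ0 a ha b hb hab
    have h1 : a⁻¹ * b ∈ (N0 : Subgroup (GF k)) := by
      rw [← hker, map_mul, map_inv, hab, inv_mul_cancel]
    have h2 := hχ0 _ ((inertia P).mul_mem ((inertia P).inv_mem ha) hb) h1
    rw [hχ.mul ((inertia P).inv_mem ha) hb, hχ.inv ha] at h2
    exact neg_add_eq_zero.1 h2
  have hz1 : ∀ x ∈ inertia P, x ∈ (N0 : Subgroup (GF k)) → ψ0 x = 0 := fun x hx hxN => hU1' x hx (hN0 hxN).1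
  have hz2 : ∀ x ∈ inertia P, x ∈ (N0 : Subgroup (GF k)) → ψ x = 0 := fun x hx hxN => hU2' x hx (hN0 hxN).2
  let mk : ∀ χ : GF k → ZMod p, IsCh (inertia P) χ → (∀ x ∈ inertia P, x ∈ (N0 : Subgroup (GF k)) → χ x = 0) →
      (Ib →* Multiplicative (ZMod p)) := fun χ hχ hχ0 =>
    { toFun := fun γ => Multiplicative.ofAdd (χ (c γ))
      map_one' := by
        rw [hwd χ hχ hχ0 _ (hcI 1) 1 (inertia P).one_mem (by rw [hcr, map_one]; rfl), hχ.one]; rfl
      map_mul' := fun a b => by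
        rw [hwd χ hχ hχ0 _ (hcI (a * b)) (c a * c b) ((inertia P).mul_mem (hcI a) (hcI b)) (by
          rw [map_mul, hcr, hcr, hcr]; rfl), hχ.mul (hcI a) (hcI b)]; rfl }
  have hmk : ∀ χ hχ hχ0 (τ : GF k) (hτ : τ ∈ inertia P), (mk χ hχ hχ0) ⟨res τ, ⟨τ, hτ, rfl⟩⟩ = Multiplicative.ofAdd (χ τ) := by
    intro χ hχ hχ0 τ hτ
    show Multiplicative.ofAdd (χ (c _)) = _
    rw [hwd χ hχ hχ0 _ (hcI _) τ hτ (hcr _)]
  haveI : Finite Ib := inferInstance
  let S : Sylow p Ib := default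
  have hPm : (P.under (𝓞 N)).IsMaximal := by
    haveI : Algebra.IsIntegral (𝓞 N) (𝓞 (AlgebraicClosure k)) := Algebra.IsIntegral.tower_top (R := ℤ)
    exact Ideal.IsMaximal.under (𝓞 N) P
  obtain ⟨a, ha⟩ := (IsPGroup.iff_card (p := p) (G := (S : Subgroup Ib))).1 S.2
  have hexp : ∀ g : (S : Subgroup Ib), g ^ (p ^ a) = 1 := by
    intro g; rw [← ha]; exact pow_card_eq_one'
  have hNP : ((p ^ a : ℕ) : 𝓞 N) ∉ P.under (𝓞 N) := by
    intro h
    apply hpP
    have h1 : ((p ^ a : ℕ) : OO k) ∈ P := by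
      have h2 : algebraMap (𝓞 N) (OO k) ((p ^ a : ℕ) : 𝓞 N) ∈ P := h
      rwa [map_natCast] at h2
    rw [Nat.cast_pow] at h1
    exact hP.isPrime.mem_of_pow_mem _ h1
  haveI hfaith : FaithfulSMul (S : Subgroup Ib) (𝓞 N) := by
    refine ⟨?_⟩
    intro s t hst
    apply Subtype.ext
    apply Subtype.ext
    ext x
    obtain ⟨y, z, hz, rfl⟩ := IsFractionRing.div_surjective (A := 𝓞 N) x
    have ey : (s : Ib).1 (algebraMap (𝓞 N) N y) = (t : Ib).1 (algebraMap (𝓞 N) N y) :=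
      congrArg (algebraMap (𝓞 N) N) (hst y)
    have ez : (s : Ib).1 (algebraMap (𝓞 N) N z) = (t : Ib).1 (algebraMap (𝓞 N) N z) :=
      congrArg (algebraMap (𝓞 N) N) (hst z)
    rw [map_div₀, map_div₀, ey, ez]
  have hiner : ∀ s : (S : Subgroup Ib), Pool.Agent.W258.FM.Iner (P.under (𝓞 N)) s := by
    intro s x
    obtain ⟨τ, hτ, hτs⟩ := (s : Ib).2
    show algebraMap (𝓞 N) (OO k) (s • x - x) ∈ P
    rw [map_sub]
    have h1 : algebraMap (𝓞 N) (OO k) (s • x) = τ • algebraMap (𝓞 N) (OO k) x := by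
      apply RingOfIntegers.ext
      have h2 := AlgEquiv.restrictNormal_commutes τ N (x : N)
      have h3 : (s : Ib).1 = AlgEquiv.restrictNormal τ N := hτs.symm
      show (((s : Ib).1 (x : N) : N) : AlgebraicClosure k) = τ ((x : N) : AlgebraicClosure k)
      rw [h3]; exact h2
    rw [h1]
    exact hτ _
  obtain ⟨s0, _, hs0⟩ := Pool.Agent.W258.FM.tame_cyclic (G := (S : Subgroup Ib)) hPm
    (Ideal.IsMaximal.ne_bot_of_isIntegral_int _) hNP hexp
  have hres := sylow_prop (mk ψ0 hψ0 hz1) (mk ψ hψ hz2) S (s0 : Ib) (fun s hs => by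
    obtain ⟨n, hn⟩ := Subgroup.mem_zpowers_iff.1 (hs0 ⟨s, hs⟩ (hiner _))
    exact Subgroup.mem_zpowers_iff.2 ⟨n, congrArg Subtype.val hn⟩)
    (x := ⟨res τ0, ⟨τ0, hτ0, rfl⟩⟩) (y := ⟨res τ1, ⟨τ1, hτ1, rfl⟩⟩)
    (by rw [hmk ψ0 hψ0 hz1 τ0 hτ0]; exact fun h => hne (Multiplicative.ofAdd.injective h))
    (by rw [hmk ψ hψ hz2 τ0 hτ0, hψτ0]; rfl)
  rw [hmk ψ hψ hz2 τ1 hτ1] at hres
  exact Multiplicative.ofAdd.injective hres

end

end Pool.Agent.Helper832_EG
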