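import Pool.Agent.Helper832_EG.Cr4
import Pool.Agent.Helper832_EG.PG1
import Pool.Agent.Helper832_EG.Main2

/-!
# The criterion for number fields
-/

set_option linter.style.haveILetI false
set_option linter.unusedSectionVars false
set_option linter.unusedVariables false

namespace Pool.Agent.Helper832_EG

open NumberField Pool.Agent.W569.FM Pool.Agent.W571.FM Pool.Agent.R417.FK IntermediateField

section
variable {k : Type} [Field k] [NumberField k]

/-- Frobenius elements at different primes ramified in `K` (and not above `p`) have linearly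
independent images. -/
def Indep {p r : ℕ} [Fact p.Prime] (K : IntermediateField k (AlgebraicClosure k))
    (φ : GF k → Fin r → ℤ_[p]) : Prop :=
  ∀ P P' : Ideal (OO k), P.IsMaximal → P'.IsMaximal → (p : OO k) ∉ P → (p : OO k) ∉ P' →
    ¬ inertia P ≤ K.fixingSubgroup → ¬ inertia P' ≤ K.fixingSubgroup → cm P ≠ cm P' →
    ∀ σ σ' : GF k, FrobAt (nm P) P σ → FrobAt (nm P') P' σ' → ∀ a b : ℤ_[p], a • φ σ = b • φ σ' → a = 0

/-- There is a finite layer `D`, fixed by all elements whose image lies on the line through the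
Frobenius elements at `P`, with a unit which is not a `p`-th power modulo `P`. -/
def UnitCond {p r : ℕ} [Fact p.Prime] (φ : GF k → Fin r → ℤ_[p]) (P : Ideal (OO k)) : Prop :=
  ∃ D : IntermediateField k (AlgebraicClosure k), FiniteDimensional k D ∧
    (∀ σ τ : GF k, FrobAt (nm P) P σ → (∃ a b : ℤ_[p], b ≠ 0 ∧ a • φ σ = b • φ τ) → τ ∈ D.fixingSubgroup) ∧
    ∃ u : (𝓞 D)ˣ, ∀ z : 𝓞 D, algebraMap (𝓞 D) (OO k) ((u : 𝓞 D) - z ^ p) ∉ P

end

section
variable {k : Type} [Field k] [NumberField k] {p : ℕ} [hp : Fact p.Prime] {r : ℕ}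

/-- The criterion. -/
theorem null_main [IsTotallyComplex k] (h1 : OnePrime k p) (hcl : ¬ p ∣ classNumber k) (hr : 2 ≤ r)
    {M : IntermediateField k (AlgebraicClosure k)} (hM : CycIn p M) {φ : GF k →* Multiplicative (Fin r → ℤ_[p])}
    (hφ : CoordM M φ) {K F : IntermediateField k (AlgebraicClosure k)} (hK : Ext p M K F)
    (hind : Indep K (fun σ => Multiplicative.toAdd (φ σ)))
    (hunit : ∀ P : Ideal (OO k), P.IsMaximal → (p : OO k) ∉ P → ¬ inertia P ≤ K.fixingSubgroup →
      UnitCond (fun σ => Multiplicative.toAdd (φ σ)) P)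
    (m : Module (Lam p r) (XK p K)) (hm : IsIw p K F φ m) (Q : Ideal (Lam p r)) [hQ : Q.IsPrime] (hh : Q.height = 1) :
    ¬ Nontrivial (LocalizedModule Q.primeCompl (XK p K)) := by
  classical
  have h := noUr_of_class hcl
  have S := sit_of h1 h hφ hK
  haveI := S.normalL
  obtain ⟨e, he⟩ := hK.deg
  haveI hFfin : FiniteDimensional k F := FiniteDimensional.of_finrank_pos (by rw [he]; exact pow_pos hp.out.pos _)
  -- the index set
  let R : Set (Ideal (𝓞 k)) := {v | ∃ P : Ideal (OO k), P.IsMaximal ∧ (p : OO k) ∉ P ∧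
    ¬ inertia P ≤ K.fixingSubgroup ∧ cm P = v}
  have hKfix : K.fixingSubgroup = F.fixingSubgroup ⊓ φ.ker := by
    rw [← hK.sup, IntermediateField.fixingSubgroup_sup, hφ.ker]
  have hRfin : R.Finite := by
    obtain ⟨S0, hS0, hS0ram⟩ := finite_ram F
    refine hS0.subset ?_
    rintro _ ⟨P, hP, hpP, hPK, rfl⟩
    refine hS0ram P hP fun hle => hPK ?_
    rw [hKfix]
    exact le_inf hle (fun τ hτ => (MonoidHom.mem_ker).2 (phi_tame hφ.cont hP hpP hτ))
  haveI : Fintype R := hRfin.fintype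
  have hchoice : ∀ i : R, ∃ P : Ideal (OO k), P.IsMaximal ∧ (p : OO k) ∉ P ∧
    ¬ inertia P ≤ K.fixingSubgroup ∧ cm P = i := fun i => i.2
  choose P hPm hpP hPK hPi using hchoice
  choose f hf using fun i => exists_frob (hPm i)
  choose τ hτ hτgen using fun i => exists_tame_gen (hPm i) (hpP i)
  choose D hDfin hDline u hu using fun i => hunit (P i) (hPm i) (hpP i) (hPK i)
  have hkerD : ∀ i, φ.ker ≤ (D i).fixingSubgroup := by
    intro i g hg
    refine hDline i (f i) g (hf i) ⟨0, 1, one_ne_zero, ?_⟩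
    show (0 : ℤ_[p]) • Multiplicative.toAdd (φ (f i)) = (1 : ℤ_[p]) • Multiplicative.toAdd (φ g)
    rw [(MonoidHom.mem_ker).1 hg, zero_smul, one_smul]; rfl
  have C : TCl φ K.fixingSubgroup (wildI k p) (tameI k p) (fun i => inertia (P i)) f τ (fun i => (D i).fixingSubgroup) := by
    refine ⟨fun i => ⟨P i, hPm i, hpP i, rfl⟩, ?_, ?_, hτ, hτgen, fun i => ?_, hkerD, ?_, ?_⟩
    · rintro _ ⟨P0, hP0, hpP0, rfl⟩
      by_cases hle : inertia P0 ≤ K.fixingSubgroup
      · exact Or.inl hle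
      · right
        let i : R := ⟨cm P0, P0, hP0, hpP0, hle, rfl⟩
        obtain ⟨g, hg⟩ := conj_of_cm (hPm i) hP0 (hPi i)
        exact ⟨i, g, hg⟩
    · intro i x hx
      exact frob_normalizes (hPm i).isPrime (hPm i) (hf i) (nm_ne (hPm i)) x hx
    · haveI := hDfin i
      exact (D i).fixingSubgroup_isOpen
    · intro i g hg
      exact hDline i (f i) g (hf i) hg
    · intro i Ψ hΨ hW hT hΨj
      haveI := hDfin i
      haveI : NumberField (D i) := NumberField.of_module_finite k (D i)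
      refine no_char h1 hcl hφ.cont hφ.surj (D i) (hkerD i) (hPm i) (hpP i) (u i) (hu i) hΨ ?_ (τ i) (hτ i)
        (hkerD i (S.d.tame _ ⟨P i, hPm i, hpP i, rfl⟩ (hτ i)))
      rintro Q0 hQ0 ⟨t, ht, htD, htΨ⟩
      have hpQ0 : (p : OO k) ∉ Q0 := fun hp => htΨ (hW _ ⟨Q0, hQ0, hp, rfl⟩ t ht htD)
      have hle : ¬ inertia Q0 ≤ K.fixingSubgroup := fun hle =>
        htΨ (hT _ ⟨Q0, hQ0, hpQ0, rfl⟩ t ht (hle ht))
      let j : R := ⟨cm Q0, Q0, hQ0, hpQ0, hle, rfl⟩
      obtain ⟨g, hg⟩ := exists_smul (P j) Q0 (hPm j).isPrime hQ0.isPrime (hPi j)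
      obtain ⟨Q', hQ', _, _, h4⟩ := exists_conj_ideal (P j) g
      have h3 : Q0 = Q' := by ext x; rw [hg, hQ']
      have h5 : t ∈ (inertia (P j)).map (MulAut.conj g).toMonoidHom := by rw [← h4, ← h3]; exact ht
      obtain ⟨x, hx, hxt⟩ := h5
      have hji : j = i ∧ g ∈ (D i).fixingSubgroup := by
        by_contra hcon
        apply htΨ
        rw [← hxt]
        refine hΨj j g ?_ x hx
        by_cases hj : j = i
        · right; intro hgD; exact hcon ⟨hj, hgD⟩
        · exact Or.inl hj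
      obtain ⟨hji, hgD⟩ := hji
      rw [hji] at hg
      exact ⟨g, hgD, hg⟩
  have hf0 : ∀ i, φ (f i) ≠ 1 := fun i => phi_frob hM hφ.ker (hPm i) (hpP i) (hf i)
  have hind' : ∀ i l, i ≠ l → ∀ a b : ℤ_[p], a • Multiplicative.toAdd (φ (f i)) = b • Multiplicative.toAdd (φ (f l)) → a = 0 := by
    intro i l hil a b hab
    refine hind (P i) (P l) (hPm i) (hPm l) (hpP i) (hpP l) (hPK i) (hPK l) (fun hc => hil ?_) (f i) (f l) (hf i) (hf l) a b hab
    exact Subtype.ext (by rw [← hPi i, ← hPi l, hc])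
  have hij : (⟨0, by omega⟩ : Fin r) ≠ ⟨1, by omega⟩ := by
    intro h; simp at h
  have key : ∀ (J : Set (Subgroup (GF k))) (hJ : J = wildI k p ∪ tameI k p)
      (m : Module (Lam p r) (XX p J K.fixingSubgroup)), IsIwA J K.fixingSubgroup φ F.fixingSubgroup m →
      ¬ Nontrivial (LocalizedModule Q.primeCompl (XX p J K.fixingSubgroup)) := by
    intro J hJ m hm
    subst hJ
    letI := m
    exact null_abs S hm hφ.surj C hf0 hind' hij hh
  exact key (inertias k) (inertias_eq p) m hm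

end

end Pool.Agent.Helper832_EG
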