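import Pool.Agent.Helper832_EG.Main3

/-!
# Adjoining the `p`-th roots of the units of a layer
-/

set_option linter.style.haveILetI false
set_option linter.unusedSectionVars false
set_option linter.unusedVariables false

open NumberField Module IntermediateField Pool.Agent.W569.FM Pool.Agent.W571.FM Pool.Agent.R417.FK

namespace Pool.Agent.Helper832_EG

section
variable {k : Type} [Field k]

/-- The action of a Galois element on the units of the ring of all algebraic integers. -/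
noncomputable def su (g : GF k) : (OO k)ˣ →* (OO k)ˣ :=
  Units.map (MulSemiringAction.toRingHom (GF k) (OO k) g : OO k →* OO k)

lemma su_coe (g : GF k) (y : (OO k)ˣ) : ((su g y : (OO k)ˣ) : OO k) = g • (y : OO k) := rfl

lemma su_mul (g h : GF k) (y : (OO k)ˣ) : su (g * h) y = su g (su h y) := by
  apply Units.ext
  rw [su_coe, su_coe, su_coe, mul_smul]

lemma su_one (y : (OO k)ˣ) : su (1 : GF k) y = y := by
  apply Units.ext
  rw [su_coe, one_smul]

lemma su_inv_eq {g : GF k} {y z : (OO k)ˣ} (h : su g y = z) : su g⁻¹ z = y := by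
  rw [← h, ← su_mul, inv_mul_cancel, su_one]

lemma isOpen_su (y : (OO k)ˣ) : IsOpen {g : GF k | su g y = y} := by
  have h1 := isOpen_fix_integer (y : OO k)
  have h2 : {g : GF k | su g y = y} = {g : GF k | g • (y : OO k) = y} := by
    ext g
    exact ⟨fun h => congrArg Units.val h, fun h => Units.ext h⟩
  rw [h2]; exact h1

/-- The elements of `N` which fix the `p`-th roots of all units fixed by `N`. -/
def HH (p : ℕ) (N : Subgroup (GF k)) : Subgroup (GF k) where
  carrier := {g | g ∈ N ∧ ∀ y : (OO k)ˣ, (∀ h ∈ N, su h (y ^ p) = y ^ p) → su g y = y}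
  mul_mem' := fun {a b} ha hb => ⟨N.mul_mem ha.1 hb.1, fun y hy => by
    rw [su_mul, hb.2 y hy, ha.2 y hy]⟩
  one_mem' := ⟨N.one_mem, fun y _ => su_one y⟩
  inv_mem' := fun {a} ha => ⟨N.inv_mem ha.1, fun y hy => su_inv_eq (ha.2 y hy)⟩

lemma mem_HH {p : ℕ} {N : Subgroup (GF k)} {g : GF k} : g ∈ HH p N ↔ g ∈ N ∧
    ∀ y : (OO k)ˣ, (∀ h ∈ N, su h (y ^ p) = y ^ p) → su g y = y := Iff.rfl

lemma HH_le {p : ℕ} {N : Subgroup (GF k)} : HH p N ≤ N := fun _ h => h.1

lemma HH_conj {p : ℕ} {N : Subgroup (GF k)} (hN : N.Normal) {g : GF k} (hg : g ∈ HH p N) (t : GF k) :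
    t * g * t⁻¹ ∈ HH p N := by
  refine ⟨hN.conj_mem g hg.1 t, fun y hy => ?_⟩
  rw [su_mul, su_mul, hg.2 (su t⁻¹ y), ← su_mul, mul_inv_cancel, su_one]
  intro h hh
  rw [← map_pow, ← su_mul]
  have h1 : t * h * t⁻¹ ∈ N := hN.conj_mem h hh t
  have h2 := hy _ h1
  have h3 : h * t⁻¹ = t⁻¹ * (t * h * t⁻¹) := by group
  rw [h3, su_mul, h2]

/-- The elements of `N` which fix the `p`-th roots of unity. -/
def Nz (p : ℕ) (N : Subgroup (GF k)) : Subgroup (GF k) where
  carrier := {g | g ∈ N ∧ ∀ y : (OO k)ˣ, y ^ p = 1 → su g y = y}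
  mul_mem' := fun {a b} ha hb => ⟨N.mul_mem ha.1 hb.1, fun y hy => by
    rw [su_mul, hb.2 y hy, ha.2 y hy]⟩
  one_mem' := ⟨N.one_mem, fun y _ => su_one y⟩
  inv_mem' := fun {a} ha => ⟨N.inv_mem ha.1, fun y hy => su_inv_eq (ha.2 y hy)⟩

lemma HH_le_Nz {p : ℕ} {N : Subgroup (GF k)} : HH p N ≤ Nz p N := fun g h =>
  ⟨h.1, fun y hy => h.2 y (fun s _ => by rw [hy, map_one])⟩

/-- Units have roots. -/
lemma exists_root {p : ℕ} (hp : p ≠ 0) (u : (OO k)ˣ) : ∃ y : (OO k)ˣ, y ^ p = u := by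
  obtain ⟨z, hz⟩ := IsAlgClosed.exists_pow_nat_eq ((u : OO k) : AlgebraicClosure k) (Nat.pos_of_ne_zero hp)
  have hint : IsIntegral ℤ z := IsIntegral.of_pow (Nat.pos_of_ne_zero hp) (by rw [hz]; exact (u : OO k).isIntegral_coe)
  let w : OO k := ⟨z, hint⟩
  have hw : w ^ p = u := RingOfIntegers.coe_injective (by
    show algebraMap (OO k) (AlgebraicClosure k) (w ^ p) = algebraMap (OO k) (AlgebraicClosure k) (u : OO k)
    rw [map_pow]; exact hz)
  have hwu : IsUnit w := by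
    have h1 : IsUnit (w ^ p) := by rw [hw]; exact u.isUnit
    exact (isUnit_pow_iff hp).1 h1
  obtain ⟨y, hy⟩ := hwu
  exact ⟨y, Units.ext (by rw [Units.val_pow_eq_pow_val, hy, hw])⟩

lemma exists_zeta [CharZero k] (p : ℕ) [hp : Fact p.Prime] : ∃ ζ : (OO k)ˣ, IsPrimitiveRoot ζ p := by
  haveI : CharZero (AlgebraicClosure k) := charZero_of_injective_algebraMap (algebraMap k (AlgebraicClosure k)).injective
  haveI : NeZero p := ⟨hp.out.ne_zero⟩
  haveI : HasEnoughRootsOfUnity (AlgebraicClosure k) p := inferInstance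
  obtain ⟨z, hz⟩ := HasEnoughRootsOfUnity.exists_primitiveRoot (AlgebraicClosure k) p
  have hint : IsIntegral ℤ z := IsIntegral.of_pow hp.out.pos (by rw [hz.pow_eq_one]; exact isIntegral_one)
  let w : OO k := ⟨z, hint⟩
  have hw : w ^ p = 1 := RingOfIntegers.coe_injective (by
    show algebraMap (OO k) (AlgebraicClosure k) (w ^ p) = algebraMap (OO k) (AlgebraicClosure k) 1
    rw [map_pow, map_one]; exact hz.pow_eq_one)
  refine ⟨Units.ofPowEqOne w p hw hp.out.ne_zero, ?_⟩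
  refine IsPrimitiveRoot.mk_of_lt _ hp.out.pos (Units.ext hw) ?_
  intro l hl hlp h
  have h1 : w ^ l = 1 := by
    have := congrArg Units.val h
    exact this
  have h2 : z ^ l = 1 := by
    have h3 := congrArg (algebraMap (OO k) (AlgebraicClosure k)) h1
    rw [map_pow, map_one] at h3
    exact h3
  exact absurd (Nat.le_of_dvd hl ((hz.pow_eq_one_iff_dvd l).1 h2)) (by omega)

/-- `p`-th roots of unity are powers of a primitive one. -/
lemma root_pow {p : ℕ} [hp : Fact p.Prime] {ζ : (OO k)ˣ} (hζ : IsPrimitiveRoot ζ p) {x : (OO k)ˣ} (hx : x ^ p = 1) :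
    ∃ i : ℕ, x = ζ ^ i := by
  have h1 : IsPrimitiveRoot (ζ : OO k) p := (IsPrimitiveRoot.coe_units_iff).2 hζ
  haveI : NeZero p := ⟨hp.out.ne_zero⟩
  obtain ⟨i, _, hi⟩ := h1.eq_pow_of_pow_eq_one (ξ := (x : OO k)) (by rw [← Units.val_pow_eq_pow_val, hx, Units.val_one])
  exact ⟨i, Units.ext (by rw [← hi, Units.val_pow_eq_pow_val])⟩

lemma su_comm_aux {p : ℕ} [hp : Fact p.Prime] {ζ : (OO k)ˣ} (hζ : IsPrimitiveRoot ζ p) {a b : ℕ}
    (h : (a : ZMod p) = b) : ζ ^ a = ζ ^ b := by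
  rw [pow_eq_pow_iff_modEq, ← hζ.eq_orderOf]
  exact (ZMod.natCast_eq_natCast_iff a b p).1 h

/-- Descent: the `p`-th power of an element fixed by `Nz p N` is the `p`-th power of an element fixed
by `N`, if it is fixed by `N`. -/
lemma exists_fixed_root [CharZero k] {p : ℕ} [hp : Fact p.Prime] {N : Subgroup (GF k)} {z : (OO k)ˣ}
    (hz : ∀ g ∈ Nz p N, su g z = z) (hzp : ∀ g ∈ N, su g (z ^ p) = z ^ p) :
    ∃ x : (OO k)ˣ, (∀ g ∈ N, su g x = x) ∧ x ^ p = z ^ p := by
  classical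
  obtain ⟨ζ, hζ⟩ := exists_zeta (k := k) p
  have hζp := hζ.pow_eq_one
  -- the exponents
  have hA : ∀ g : GF k, ∃ a : ℕ, su g ζ = ζ ^ a := fun g => root_pow hζ (by rw [← map_pow, hζp, map_one])
  choose a ha using hA
  have hC : ∀ g ∈ N, ∃ c : ℕ, su g z = ζ ^ c * z := by
    intro g hg
    obtain ⟨c, hc⟩ := root_pow hζ (x := su g z / z) (by
      rw [div_pow, ← map_pow, hzp g hg, div_self'])
    exact ⟨c, by rw [← hc, div_mul_cancel]⟩
  choose! c hc using hC
  by_cases hall : ∀ g ∈ N, ((a g : ℕ) : ZMod p) = 1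
  · refine ⟨z, fun g hg => hz g ⟨hg, fun y hy => ?_⟩, rfl⟩
    obtain ⟨i, rfl⟩ := root_pow hζ hy
    rw [map_pow, ha]
    have h1 : ζ ^ a g = ζ ^ 1 := su_comm_aux hζ (by rw [hall g hg, Nat.cast_one])
    rw [h1, pow_one]
  · push Not at hall
    obtain ⟨g0, hg0, hne⟩ := hall
    -- commutation
    have hcomm : ∀ g ∈ N, ((a g : ZMod p) * c g0 + c g) = (a g0 * c g + c g0) := by
      intro g hg
      have hζ1 : ∀ x y : GF k, su (x * y) ζ = ζ ^ (a x * a y) := by
        intro x y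
        rw [su_mul, ha y, map_pow, ha x, ← pow_mul]
      have hmem : (g0 * g)⁻¹ * (g * g0) ∈ Nz p N := by
        refine ⟨N.mul_mem (N.inv_mem (N.mul_mem hg0 hg)) (N.mul_mem hg hg0), fun y hy => ?_⟩
        obtain ⟨i, rfl⟩ := root_pow hζ hy
        rw [map_pow, su_mul, hζ1 g g0, mul_comm (a g), ← hζ1 g0 g, ← su_mul, inv_mul_cancel, su_one]
      have h1 := hz _ hmem
      rw [su_mul] at h1
      have h2 : su (g * g0) z = su (g0 * g) z := by
        have h3 := congrArg (su (g0 * g)) h1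
        rw [← su_mul, mul_inv_cancel, su_one] at h3
        exact h3
      rw [su_mul, su_mul, hc g hg, hc g0 hg0, map_mul, map_mul, map_pow, map_pow, ha g, ha g0, hc g hg, hc g0 hg0,
        ← mul_assoc, ← mul_assoc, ← pow_mul, ← pow_mul, ← pow_add, ← pow_add] at h2
      have h4 := mul_right_cancel h2
      rw [pow_eq_pow_iff_modEq, ← hζ.eq_orderOf] at h4
      have h5 := (ZMod.natCast_eq_natCast_iff _ _ p).2 h4
      push_cast at h5
      exact h5
    -- the correction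
    have hne' : (a g0 : ZMod p) - 1 ≠ 0 := sub_ne_zero.2 hne
    obtain ⟨e, he⟩ : ∃ e : ℕ, (e : ZMod p) = (c g0 : ZMod p) * ((a g0 : ZMod p) - 1)⁻¹ :=
      ⟨((c g0 : ZMod p) * ((a g0 : ZMod p) - 1)⁻¹).val, by rw [ZMod.natCast_val, ZMod.cast_id]⟩
    have he' : (e : ZMod p) * ((a g0 : ZMod p) - 1) = c g0 := by
      rw [he, mul_assoc, inv_mul_cancel₀ hne', mul_one]
    have hcg : ∀ g ∈ N, (c g : ZMod p) + e = a g * e := by
      intro g hg
      have h1 := hcomm g hg
      have h2 : ((a g0 : ZMod p) - 1) * ((c g : ZMod p) + e - a g * e) = 0 := by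
        linear_combination (-1 : ZMod p) * h1 - (a g - 1 : ZMod p) * he'
      exact sub_eq_zero.1 ((mul_eq_zero.1 h2).resolve_left hne')
    refine ⟨z / ζ ^ e, fun g hg => ?_, ?_⟩
    · rw [map_div, hc g hg, map_pow, ha, div_eq_div_iff_mul_eq_mul, ← pow_mul, mul_right_comm, ← pow_add]
      have h1 : ζ ^ (c g + e) = ζ ^ (a g * e) := su_comm_aux hζ (by push_cast; exact hcg g hg)
      rw [h1, mul_comm]
    · rw [div_pow, ← pow_mul, mul_comm e p, pow_mul, hζp, one_pow, div_one]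

end

end Pool.Agent.Helper832_EG
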