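import Pool.Agent.Helper832_EG.DS1

/-!
# The index of the subgroup fixing the `p`-th roots of the units of a layer
-/

set_option linter.style.haveILetI false
set_option linter.unusedSectionVars false
set_option linter.unusedVariables false

open NumberField Module IntermediateField Pool.Agent.W569.FM Pool.Agent.W571.FM Pool.Agent.R417.FK

namespace Pool.Agent.Helper832_EG

section
variable {k : Type} [Field k] [NumberField k] {p : ℕ} [hp : Fact p.Prime]

/-- The inclusion of the units of a layer. -/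
noncomputable def iu (D : IntermediateField k (AlgebraicClosure k)) : (𝓞 D)ˣ →* (OO k)ˣ :=
  Units.map (algebraMap (𝓞 D) (OO k) : 𝓞 D →* OO k)

lemma iu_inj (D : IntermediateField k (AlgebraicClosure k)) : Function.Injective (iu D) := by
  intro a b h
  apply Units.ext
  have h1 : algebraMap (𝓞 D) (OO k) a = algebraMap (𝓞 D) (OO k) b := congrArg Units.val h
  exact FaithfulSMul.algebraMap_injective (𝓞 D) (OO k) h1

lemma iu_fix {D : IntermediateField k (AlgebraicClosure k)} {g : GF k} (hg : g ∈ D.fixingSubgroup) (u : (𝓞 D)ˣ) :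
    su g (iu D u) = iu D u := by
  apply Units.ext
  rw [su_coe]
  apply RingOfIntegers.ext
  exact (IntermediateField.mem_fixingSubgroup_iff D g).1 hg _ ((u : 𝓞 D) : D).2

lemma mem_of_fixed {D : IntermediateField k (AlgebraicClosure k)} {x : AlgebraicClosure k}
    (hx : ∀ g ∈ D.fixingSubgroup, g x = x) : x ∈ D := by
  have h1 := InfiniteGalois.fixedField_fixingSubgroup D
  rw [← h1, IntermediateField.mem_fixedField_iff]
  exact hx

lemma exists_integer {D : IntermediateField k (AlgebraicClosure k)} {x : OO k}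
    (hx : ∀ g ∈ D.fixingSubgroup, g • x = x) : ∃ y : 𝓞 D, algebraMap (𝓞 D) (OO k) y = x := by
  have h1 : (x : AlgebraicClosure k) ∈ D := by
    refine mem_of_fixed fun g hg => ?_
    exact congrArg (fun z : OO k => (z : AlgebraicClosure k)) (hx g hg)
  have h2 : IsIntegral ℤ (⟨x, h1⟩ : D) := by
    have h3 : IsIntegral ℤ (algebraMap D (AlgebraicClosure k) ⟨x, h1⟩) := x.isIntegral_coe
    exact (isIntegral_algebraMap_iff (algebraMap D (AlgebraicClosure k)).injective).1 h3
  exact ⟨⟨⟨x, h1⟩, h2⟩, rfl⟩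

lemma exists_iu {D : IntermediateField k (AlgebraicClosure k)} {y : (OO k)ˣ}
    (hy : ∀ g ∈ D.fixingSubgroup, su g y = y) : ∃ u : (𝓞 D)ˣ, iu D u = y := by
  obtain ⟨a, ha⟩ := exists_integer (D := D) (x := (y : OO k)) (fun g hg => congrArg Units.val (hy g hg))
  obtain ⟨b, hb⟩ := exists_integer (D := D) (x := ((y⁻¹ : (OO k)ˣ) : OO k)) (fun g hg => by
    have h1 : su g y⁻¹ = y⁻¹ := by rw [map_inv, hy g hg]
    exact congrArg Units.val h1)
  have hinj := FaithfulSMul.algebraMap_injective (𝓞 D) (OO k)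
  have hab : a * b = 1 := by
    apply hinj
    rw [map_mul, ha, hb, map_one, Units.mul_inv]
  exact ⟨⟨a, b, hab, by rw [mul_comm, hab]⟩, Units.ext ha⟩

/-- The subgroup is open. -/
theorem isOpen_HH {D : IntermediateField k (AlgebraicClosure k)} [FiniteDimensional k D] :
    IsOpen (HH p D.fixingSubgroup : Set (GF k)) := by
  classical
  haveI : NumberField D := NumberField.of_module_finite k D
  choose y hy using fun i => exists_root (k := k) hp.out.ne_zero (iu D (Units.fundSystem D i))
  choose w hw using fun t : Units.torsion D => exists_root (k := k) hp.out.ne_zero (iu D (t : (𝓞 D)ˣ))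
  obtain ⟨ζ, hζ⟩ := exists_zeta (k := k) p
  let V : Set (GF k) := (D.fixingSubgroup : Set (GF k)) ∩ ((⋂ i, {g | su g (y i) = y i}) ∩
    ((⋂ t, {g | su g (w t) = w t}) ∩ {g | su g ζ = ζ}))
  have hV : IsOpen V := by
    refine IsOpen.inter D.fixingSubgroup_isOpen (IsOpen.inter ?_ (IsOpen.inter ?_ (isOpen_su ζ)))
    · exact isOpen_iInter_of_finite fun i => isOpen_su _
    · exact isOpen_iInter_of_finite fun i => isOpen_su _
  refine Subgroup.isOpen_of_mem_nhds (g := 1) _ (Filter.mem_of_superset (hV.mem_nhds ?_) ?_)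
  · refine ⟨D.fixingSubgroup.one_mem, ?_, ?_, su_one _⟩
    · exact Set.mem_iInter.2 fun i => su_one _
    · exact Set.mem_iInter.2 fun i => su_one _
  · rintro g ⟨hgD, hg1, hg2, hg3⟩
    refine ⟨hgD, fun x hx => ?_⟩
    obtain ⟨u, hu⟩ := exists_iu (D := D) (y := x ^ p) hx
    obtain ⟨⟨t, e⟩, he, _⟩ := Units.exist_unique_eq_mul_prod D u
    have hg1' : ∀ i, su g (y i) = y i := fun i => Set.mem_iInter.1 hg1 i
    have hg2' : ∀ i, su g (w i) = w i := fun i => Set.mem_iInter.1 hg2 i
    have hg3' : su g ζ = ζ := hg3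
    have h1 : (x / (w t * ∏ i, y i ^ e i)) ^ p = 1 := by
      rw [div_pow, ← hu, he, map_mul, map_prod, mul_pow, hw]
      have h2 : (∏ i, y i ^ e i) ^ p = ∏ i, iu D (Units.fundSystem D i ^ e i) := by
        rw [← Finset.prod_pow]
        refine Finset.prod_congr rfl fun i _ => ?_
        rw [map_zpow, ← hy, ← zpow_natCast, ← zpow_natCast, ← zpow_mul, ← zpow_mul, mul_comm]
      rw [h2, div_self']
    obtain ⟨j, hj⟩ := root_pow hζ h1
    have h3 : x = ζ ^ j * (w t * ∏ i, y i ^ e i) := by rw [← hj, div_mul_cancel]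
    rw [h3, map_mul, map_pow, hg3', map_mul, hg2', map_prod]
    congr 2
    refine Finset.prod_congr rfl fun i _ => ?_
    rw [map_zpow, hg1']

/-- The Kummer character attached to a root of a unit. -/
noncomputable def kch {N : Subgroup (GF k)} {y : (OO k)ˣ} (hy : ∀ h ∈ N, su h (y ^ p) = y ^ p) :
    Nz p N →* AlgebraicClosure k where
  toFun g := algebraMap (OO k) (AlgebraicClosure k) ((su (g : GF k) y / y : (OO k)ˣ) : OO k)
  map_one' := by
    rw [Subgroup.coe_one, su_one, div_self', Units.val_one, map_one]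
  map_mul' := fun g h => by
    rw [← map_mul, ← Units.val_mul]
    congr 2
    have h1 : (su (h : GF k) y / y) ^ p = 1 := by
      rw [div_pow, ← map_pow, hy h h.2.1, div_self']
    have h2 : su (g : GF k) (su (h : GF k) y / y) = su (h : GF k) y / y := g.2.2 _ h1
    rw [map_div] at h2
    rw [Subgroup.coe_mul, su_mul, div_eq_iff_eq_mul, mul_assoc, div_mul_cancel]
    rw [div_eq_iff_eq_mul] at h2
    rw [h2, mul_comm, mul_div_assoc', div_mul_eq_mul_div]

lemma kch_apply {N : Subgroup (GF k)} {y : (OO k)ˣ} (hy : ∀ h ∈ N, su h (y ^ p) = y ^ p) (g : Nz p N) :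
    kch hy g = algebraMap (OO k) (AlgebraicClosure k) ((su (g : GF k) y / y : (OO k)ˣ) : OO k) := rfl

lemma kch_eq {N : Subgroup (GF k)} {y z : (OO k)ˣ} (hy : ∀ h ∈ N, su h (y ^ p) = y ^ p)
    (hz : ∀ h ∈ N, su h (z ^ p) = z ^ p) (h : kch hy = kch hz) : ∀ g ∈ Nz p N, su g (y / z) = y / z := by
  intro g hg
  have h1 := DFunLike.congr_fun h ⟨g, hg⟩
  rw [kch_apply, kch_apply] at h1
  have h2 : (su g y / y : (OO k)ˣ) = su g z / z :=
    Units.ext (FaithfulSMul.algebraMap_injective (OO k) (AlgebraicClosure k) h1)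
  rw [map_div]
  rw [div_eq_div_iff_mul_eq_mul] at h2 ⊢
  rw [h2, mul_comm]

/-- The lower bound for the index. -/
theorem HH_index {D : IntermediateField k (AlgebraicClosure k)} [FiniteDimensional k D] [NumberField D] :
    p ^ (Units.rank D) ≤ (HH p D.fixingSubgroup).index := by
  classical
  set N := D.fixingSubgroup with hN
  have hopen : IsOpen (HH p N : Set (GF k)) := isOpen_HH
  haveI : Finite (GF k ⧸ HH p N) := Subgroup.quotient_finite_of_isOpen _ hopen
  haveI : (HH p N).FiniteIndex := Subgroup.finiteIndex_of_finite_quotient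
  let ι := Fin (Units.rank D) → Fin p
  choose y hy using fun a : ι => exists_root (k := k) hp.out.ne_zero
    (iu D (∏ i, Units.fundSystem D i ^ ((a i : ℕ) : ℤ)))
  have hyN : ∀ a, ∀ h ∈ N, su h (y a ^ p) = y a ^ p := by
    intro a h hh
    rw [hy, iu_fix hh]
  let v : ι → (Nz p N →* AlgebraicClosure k) := fun a => kch (hyN a)
  have hinj : Function.Injective v := by
    intro a b hab
    have h1 := kch_eq (hyN a) (hyN b) hab
    obtain ⟨x, hx, hxp⟩ := exists_fixed_root h1 (fun g hg => by
      rw [div_pow, map_div, hyN a g hg, hyN b g hg])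
    obtain ⟨u, rfl⟩ := exists_iu (D := D) hx
    rw [div_pow, hy, hy, ← map_div, ← map_pow] at hxp
    have h2 := iu_inj D hxp
    obtain ⟨⟨t, e⟩, he, _⟩ := Units.exist_unique_eq_mul_prod D u
    obtain ⟨⟨t0, e0⟩, _, huniq⟩ := Units.exist_unique_eq_mul_prod D (∏ i, Units.fundSystem D i ^ ((a i : ℕ) : ℤ))
    have h3 := huniq (1, fun i => ((a i : ℕ) : ℤ)) (by
      show _ = ((1 : Units.torsion D) : (𝓞 D)ˣ) * _
      rw [OneMemClass.coe_one, one_mul])
    have h4 := huniq (t ^ p, fun i => (p : ℤ) * e i + ((b i : ℕ) : ℤ)) (by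
      show _ = ((t ^ p : Units.torsion D) : (𝓞 D)ˣ) * ∏ i, Units.fundSystem D i ^ ((p : ℤ) * e i + ((b i : ℕ) : ℤ))
      have h5 : ∏ i, Units.fundSystem D i ^ ((a i : ℕ) : ℤ) = u ^ p * ∏ i, Units.fundSystem D i ^ ((b i : ℕ) : ℤ) := by
        rw [h2, div_mul_cancel]
      rw [h5, he, mul_pow, SubmonoidClass.coe_pow, mul_assoc, ← Finset.prod_pow, ← Finset.prod_mul_distrib]
      congr 1
      refine Finset.prod_congr rfl fun i _ => ?_
      rw [zpow_add, mul_comm (p : ℤ), zpow_mul, zpow_natCast (Units.fundSystem D i ^ e i) p])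
    have h5 := congrArg Prod.snd (h3.trans h4.symm)
    funext i
    have h6 : ((a i : ℕ) : ℤ) = (p : ℤ) * e i + ((b i : ℕ) : ℤ) := congrFun h5 i
    apply Fin.ext
    have ha := (a i).2
    have hb := (b i).2
    have h7 : (((a i : ℕ) : ℤ)) % p = ((b i : ℕ) : ℤ) % p := by
      rw [h6, Int.mul_add_emod_self_left]
    rw [← Int.natCast_mod, ← Int.natCast_mod, Nat.mod_eq_of_lt ha, Nat.mod_eq_of_lt hb] at h7
    exact_mod_cast h7
  -- the characters factor through a finite group
  have hlin := (linearIndependent_monoidHom (Nz p N) (AlgebraicClosure k)).comp v hinj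
  set H' : Subgroup (Nz p N) := (HH p N).subgroupOf (Nz p N) with hH'
  haveI : H'.FiniteIndex := inferInstance
  haveI : Finite (Nz p N ⧸ H') := Subgroup.finite_quotient_of_finiteIndex
  haveI : Fintype (Nz p N ⧸ H') := Fintype.ofFinite _
  let F : ι → (Nz p N ⧸ H' → AlgebraicClosure k) := fun a q => v a q.out
  have hF : (LinearMap.funLeft (AlgebraicClosure k) (AlgebraicClosure k) (QuotientGroup.mk : Nz p N → Nz p N ⧸ H')) ∘ F =
      (fun f : Nz p N →* AlgebraicClosure k => (f : Nz p N → AlgebraicClosure k)) ∘ v := by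
    funext a g
    show v a (QuotientGroup.mk g : Nz p N ⧸ H').out = v a g
    obtain ⟨h, hh⟩ := QuotientGroup.mk_out_eq_mul H' g
    rw [hh, map_mul]
    have h1 : v a (h : Nz p N) = 1 := by
      have h2 : ((h : Nz p N) : GF k) ∈ HH p N := h.2
      show algebraMap (OO k) (AlgebraicClosure k) ((su (((h : Nz p N) : GF k)) (y a) / y a : (OO k)ˣ) : OO k) = 1
      rw [h2.2 (y a) (hyN a), div_self', Units.val_one, map_one]
    rw [h1, mul_one]
  have hlin2 : LinearIndependent (AlgebraicClosure k) F := LinearIndependent.of_comp _ (by rw [hF]; exact hlin)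
  have hcard := hlin2.fintype_card_le_finrank
  rw [Module.finrank_fintype_fun_eq_card] at hcard
  have h1 : Fintype.card ι = p ^ Units.rank D := by
    show Fintype.card (Fin (Units.rank D) → Fin p) = _
    rw [Fintype.card_fun, Fintype.card_fin, Fintype.card_fin]
  rw [h1, ← Nat.card_eq_fintype_card, ← Subgroup.index_eq_card] at hcard
  have h2 : H'.index = (HH p N).relIndex (Nz p N) := rfl
  have h3 := Subgroup.relIndex_mul_index (HH_le_Nz (p := p) (N := N))
  have h4 : (HH p N).index ≠ 0 := Subgroup.FiniteIndex.index_ne_zero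
  have h5 : (Nz p N).index ≠ 0 := by
    intro h; rw [h, mul_zero] at h3; exact h4 h3.symm
  calc p ^ Units.rank D ≤ H'.index := hcard
    _ = (HH p N).relIndex (Nz p N) := h2
    _ ≤ (HH p N).relIndex (Nz p N) * (Nz p N).index := Nat.le_mul_of_pos_right _ (Nat.pos_of_ne_zero h5)
    _ = _ := h3

end

end Pool.Agent.Helper832_EG
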