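import Pool.Agent.Helper832_EG.DS2

/-!
# Lines in `ℤ_p ^ r` modulo powers of `p`, and the local condition
-/

set_option linter.style.haveILetI false
set_option linter.unusedSectionVars false
set_option linter.unusedVariables false

open NumberField Module IntermediateField Pool.Agent.W569.FM Pool.Agent.W571.FM Pool.Agent.R417.FK

namespace Pool.Agent.Helper832_EG

section
variable {k : Type} [Field k] [NumberField k] {p : ℕ} [hp : Fact p.Prime]

/-- The rank of the units of a layer. -/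
lemma rank_ge [IsTotallyComplex k] {D : IntermediateField k (AlgebraicClosure k)} [FiniteDimensional k D] [NumberField D] :
    D.fixingSubgroup.index ≤ Units.rank D + 1 := by
  haveI : IsTotallyComplex D := isTotallyComplex_of_algebra k D
  have h1 := IntermediateField.finrank_eq_fixingSubgroup_index (AlgebraicClosure k) D
  have h2 := InfinitePlace.card_add_two_mul_card_eq_rank D
  have h3 := InfinitePlace.card_add_two_mul_card_eq_rank k
  have h4 := InfinitePlace.card_eq_nrRealPlaces_add_nrComplexPlaces D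
  have h5 : InfinitePlace.nrRealPlaces D = 0 := IsTotallyComplex.nrRealPlaces_eq_zero D
  have h6 : InfinitePlace.nrRealPlaces k = 0 := IsTotallyComplex.nrRealPlaces_eq_zero k
  have h7 := Module.finrank_mul_finrank ℚ k D
  have h8 : 0 < finrank ℚ k := finrank_pos
  have h9 : Units.rank D = Fintype.card (InfinitePlace D) - 1 := rfl
  rw [← h1]
  rw [h5, zero_add] at h2 h4
  rw [h6, zero_add] at h3
  rw [h9, h4]
  have h10 : 1 ≤ InfinitePlace.nrComplexPlaces k := by omega
  have h11 : finrank k D ≤ InfinitePlace.nrComplexPlaces k * finrank k D := Nat.le_mul_of_pos_left _ h10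
  have h12 : 2 * InfinitePlace.nrComplexPlaces D = 2 * (InfinitePlace.nrComplexPlaces k * finrank k D) := by
    rw [h2, ← h7, ← h3, mul_assoc]
  omega

variable {r : ℕ} {φ : GF k →* Multiplicative (Fin r → ℤ_[p])}

/-- Reduction of the coordinates modulo `p ^ n`. -/
noncomputable def redn (φ : GF k →* Multiplicative (Fin r → ℤ_[p])) (n : ℕ) :
    GF k →* Multiplicative (Fin r → ZMod (p ^ n)) where
  toFun g := Multiplicative.ofAdd fun i => PadicInt.toZModPow n (Multiplicative.toAdd (φ g) i)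
  map_one' := by
    rw [map_one]
    apply Multiplicative.toAdd.injective
    funext i
    show PadicInt.toZModPow n ((0 : Fin r → ℤ_[p]) i) = 0
    rw [Pi.zero_apply, map_zero]
  map_mul' := fun g h => by
    rw [map_mul]
    apply Multiplicative.toAdd.injective
    funext i
    show PadicInt.toZModPow n (Multiplicative.toAdd (φ g) i + Multiplicative.toAdd (φ h) i) = _
    rw [map_add]; rfl

lemma redn_surj (hs : Function.Surjective φ) (n : ℕ) : Function.Surjective (redn φ n) := by
  intro v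
  have h1 : ∀ i, ∃ x : ℤ_[p], PadicInt.toZModPow n x = Multiplicative.toAdd v i := fun i =>
    ZMod.ringHom_surjective (PadicInt.toZModPow n) _
  choose x hx using h1
  obtain ⟨g, hg⟩ := hs (Multiplicative.ofAdd x)
  refine ⟨g, ?_⟩
  apply Multiplicative.toAdd.injective
  funext i
  show PadicInt.toZModPow n (Multiplicative.toAdd (φ g) i) = _
  rw [hg, ← hx]; rfl

/-- The elements whose image modulo `p ^ n` is a multiple of `w`. -/
noncomputable def Nw (φ : GF k →* Multiplicative (Fin r → ℤ_[p])) (n : ℕ) (w : Fin r → ZMod (p ^ n)) : Subgroup (GF k) :=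
  (AddSubgroup.toSubgroup (AddMonoidHom.range
    (AddMonoidHom.mk' (fun a : ZMod (p ^ n) => a • w) (fun a b => add_smul a b w)))).comap (redn φ n)

lemma mem_Nw {n : ℕ} {w : Fin r → ZMod (p ^ n)} {g : GF k} :
    g ∈ Nw φ n w ↔ ∃ a : ZMod (p ^ n), ∀ i, PadicInt.toZModPow n (Multiplicative.toAdd (φ g) i) = a * w i := by
  constructor
  · rintro ⟨a, ha⟩
    exact ⟨a, fun i => (congrFun ha i).symm⟩
  · rintro ⟨a, ha⟩
    exact ⟨a, funext fun i => (ha i).symm⟩

lemma ker_le_Nw {n : ℕ} {w : Fin r → ZMod (p ^ n)} : φ.ker ≤ Nw φ n w := by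
  intro g hg
  rw [mem_Nw]
  refine ⟨0, fun i => ?_⟩
  rw [(MonoidHom.mem_ker).1 hg, zero_mul]
  show PadicInt.toZModPow n ((0 : Fin r → ℤ_[p]) i) = 0
  rw [Pi.zero_apply, map_zero]

lemma Nw_normal {n : ℕ} {w : Fin r → ZMod (p ^ n)} : (Nw φ n w).Normal := by
  unfold Nw
  infer_instance

lemma isOpen_Nw (hφ : Continuous φ) {n : ℕ} {w : Fin r → ZMod (p ^ n)} : IsOpen (Nw φ n w : Set (GF k)) := by
  have h1 : IsOpen {v : Fin r → ℤ_[p] | ∀ i, (p : ℤ_[p]) ^ n ∣ v i} := by
    have : {v : Fin r → ℤ_[p] | ∀ i, (p : ℤ_[p]) ^ n ∣ v i} = ⋂ i, {v : Fin r → ℤ_[p] | (p : ℤ_[p]) ^ n ∣ v i} := by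
      ext v; simp
    rw [this]
    refine isOpen_iInter_of_finite fun i => ?_
    have hci : Continuous (fun v : Fin r → ℤ_[p] => v i) := continuous_apply i
    exact (Pool.Agent.Y142.isOpen_pow (ℓ := p) n).preimage hci
  have h2 : IsOpen {g : GF k | ∀ i, (p : ℤ_[p]) ^ n ∣ Multiplicative.toAdd (φ g) i} :=
    h1.preimage (continuous_toAdd.comp hφ)
  refine Subgroup.isOpen_of_mem_nhds (g := 1) _ (Filter.mem_of_superset (h2.mem_nhds ?_) ?_)
  · intro i
    rw [map_one]
    exact dvd_zero _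
  · intro g hg
    rw [SetLike.mem_coe, mem_Nw]
    refine ⟨0, fun i => ?_⟩
    rw [zero_mul, ← RingHom.mem_ker, PadicInt.ker_toZModPow, Ideal.mem_span_singleton]
    exact hg i

lemma Nw_index (hs : Function.Surjective φ) {n : ℕ} {w : Fin r → ZMod (p ^ n)} :
    (p ^ n) ^ r ≤ (Nw φ n w).index * p ^ n := by
  haveI : NeZero (p ^ n) := ⟨pow_ne_zero _ hp.out.ne_zero⟩
  set A := AddMonoidHom.range
    (AddMonoidHom.mk' (fun a : ZMod (p ^ n) => a • w) (fun a b => add_smul a b w)) with hA
  have h1 : (Nw φ n w).index = A.index := by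
    show (Subgroup.comap (redn φ n) (AddSubgroup.toSubgroup A)).index = _
    rw [Subgroup.index_comap_of_surjective _ (redn_surj hs n)]
    rfl
  have h2 := A.card_mul_index
  have h3 : Nat.card (Fin r → ZMod (p ^ n)) = (p ^ n) ^ r := by
    rw [Nat.card_eq_fintype_card, Fintype.card_fun, ZMod.card, Fintype.card_fin]
  have h4 : Nat.card A ≤ p ^ n := by
    have h5 : Nat.card A ≤ Nat.card (ZMod (p ^ n)) :=
      Nat.card_le_card_of_surjective (fun a : ZMod (p ^ n) => (⟨a • w, a, rfl⟩ : A)) (by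
        rintro ⟨_, a, rfl⟩
        exact ⟨a, rfl⟩)
    rwa [Nat.card_zmod] at h5
  rw [h3] at h2
  rw [h1, ← h2, mul_comm]
  exact Nat.mul_le_mul_left _ h4

/-- A vector on a line. -/
lemma exists_line {c : Fin r → ℤ_[p]} (hc : c ≠ 0) : ∃ c' : Fin r → ℤ_[p], (∃ d : ℤ_[p], c = d • c') ∧
    ∀ (a b : ℤ_[p]) (x : Fin r → ℤ_[p]), b ≠ 0 → a • c = b • x → ∃ d : ℤ_[p], x = d • c' := by
  classical
  -- a coordinate of minimal valuation
  have hne : (Finset.univ.filter fun i => c i ≠ 0).Nonempty := by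
    by_contra hcon
    rw [Finset.not_nonempty_iff_eq_empty, Finset.filter_eq_empty_iff] at hcon
    exact hc (funext fun i => not_not.1 (hcon (Finset.mem_univ i)))
  obtain ⟨i, hi, hmin⟩ := Finset.exists_min_image _ (fun i => (c i).valuation) hne
  have hi0 : c i ≠ 0 := (Finset.mem_filter.1 hi).2
  have hdvd : ∀ j, (p : ℤ_[p]) ^ (c i).valuation ∣ c j := by
    intro j
    by_cases hj : c j = 0
    · rw [hj]; exact dvd_zero _
    · have h1 := hmin j (Finset.mem_filter.2 ⟨Finset.mem_univ j, hj⟩)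
      rw [← Ideal.mem_span_singleton, PadicInt.mem_span_pow_iff_le_valuation _ hj]
      exact h1
  choose c' hc' using hdvd
  have hpne : (p : ℤ_[p]) ^ (c i).valuation ≠ 0 := pow_ne_zero _ (by exact_mod_cast hp.out.ne_zero)
  have hu : IsUnit (c' i) := by
    have h1 := hc' i
    have h2 := PadicInt.unitCoeff_spec hi0
    have h3 : c' i = (PadicInt.unitCoeff hi0 : ℤ_[p]) := by
      apply mul_left_cancel₀ hpne
      rw [← h1, mul_comm]; exact h2
    rw [h3]; exact Units.isUnit _
  refine ⟨c', ⟨(p : ℤ_[p]) ^ (c i).valuation, funext fun j => by rw [Pi.smul_apply, smul_eq_mul]; exact hc' j⟩, ?_⟩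
  intro a b x hb hab
  obtain ⟨u, hu⟩ := hu
  have key : ∀ j, b * x j = b * (x i * (u⁻¹ : ℤ_[p]ˣ) * c' j) := by
    intro j
    have e1 : a * c i = b * x i := congrFun hab i
    have e2 : a * c j = b * x j := congrFun hab j
    rw [hc' i, ← hu] at e1
    rw [hc' j] at e2
    have e3 : b * (x i * (u⁻¹ : ℤ_[p]ˣ)) = a * (p : ℤ_[p]) ^ (c i).valuation := by
      rw [← mul_assoc, ← e1, ← mul_assoc, mul_assoc, Units.mul_inv, mul_one]
    rw [← mul_assoc b, e3, ← e2]; ring
  exact ⟨x i * (u⁻¹ : ℤ_[p]ˣ), funext fun j => by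
    rw [Pi.smul_apply, smul_eq_mul]; exact mul_left_cancel₀ hb (key j)⟩

end

end Pool.Agent.Helper832_EG
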