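import Pool.Agent.Helper832_EG.DS3

/-!
# Primes at which the unit condition fails
-/

set_option linter.style.haveILetI false
set_option linter.unusedSectionVars false
set_option linter.unusedVariables false

open NumberField Module IntermediateField Pool.Agent.W569.FM Pool.Agent.W571.FM Pool.Agent.R417.FK

namespace Pool.Agent.Helper832_EG

section
variable {k : Type} [Field k] [NumberField k] {p : ℕ} [hp : Fact p.Prime]
variable {r : ℕ} {φ : GF k →* Multiplicative (Fin r → ℤ_[p])}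

/-- The line through the image of an element, modulo `p ^ n`. -/
lemma line_mod {σ : GF k} (hσ : φ σ ≠ 1) (n : ℕ) : ∃ w : Fin r → ZMod (p ^ n), ∀ τ : GF k,
    (∃ a b : ℤ_[p], b ≠ 0 ∧ a • Multiplicative.toAdd (φ σ) = b • Multiplicative.toAdd (φ τ)) → τ ∈ Nw φ n w := by
  have hc : Multiplicative.toAdd (φ σ) ≠ 0 := fun h => hσ (Multiplicative.toAdd.injective h)
  obtain ⟨c', _, hline⟩ := exists_line hc
  refine ⟨fun i => PadicInt.toZModPow n (c' i), ?_⟩
  rintro τ ⟨a, b, hb, hab⟩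
  obtain ⟨d, hd⟩ := hline a b _ hb hab
  rw [mem_Nw]
  refine ⟨PadicInt.toZModPow n d, fun i => ?_⟩
  rw [hd, Pi.smul_apply, smul_eq_mul, map_mul]

/-- Elements whose `p`-th powers agree modulo `P` differ by a root of unity modulo `P`. -/
lemma root_mod {P : Ideal (OO k)} (hP : P.IsPrime) {x y : OO k} (h : x ^ p - y ^ p ∈ P) :
    ∃ ξ : OO k, ξ ^ p = 1 ∧ x - ξ * y ∈ P := by
  obtain ⟨ζ, hζ⟩ := exists_zeta (k := k) p
  have h1 : IsPrimitiveRoot (ζ : OO k) p := (IsPrimitiveRoot.coe_units_iff).2 hζ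
  rw [h1.pow_sub_pow_eq_prod_sub_mul _ _ hp.out.pos] at h
  obtain ⟨ξ, hξ, hξ'⟩ := (hP.prod_mem_iff).1 h
  refine ⟨ξ, ?_, hξ'⟩
  rwa [Polynomial.mem_nthRootsFinset hp.out.pos] at hξ

/-- If the unit condition fails at `P`, then the Frobenius element lies in a small subgroup. -/
theorem bad_mem (hφ : Continuous φ) {P : Ideal (OO k)} (hP : P.IsMaximal) (hpP : (p : OO k) ∉ P)
    (hN : p ∣ nm P - 1) {σ : GF k} (hσ : FrobAt (nm P) P σ) (hσ1 : φ σ ≠ 1)
    (hbad : ¬ UnitCond (fun σ => Multiplicative.toAdd (φ σ)) P) (n : ℕ) :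
    ∃ w : Fin r → ZMod (p ^ n), σ ∈ HH p (Nw φ n w) := by
  classical
  obtain ⟨w, hw⟩ := line_mod hσ1 n
  refine ⟨w, ?_⟩
  have hopen := isOpen_Nw hφ (n := n) (w := w)
  set D : IntermediateField k (AlgebraicClosure k) := IntermediateField.fixedField (Nw φ n w) with hD
  have hDfix : D.fixingSubgroup = Nw φ n w :=
    InfiniteGalois.fixingSubgroup_fixedField ⟨Nw φ n w, Subgroup.isClosed_of_isOpen _ hopen⟩
  haveI hDfin : FiniteDimensional k D :=
    (InfiniteGalois.isOpen_iff_finite D).1 (by rw [hDfix]; exact hopen)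
  have hσN : σ ∈ Nw φ n w := hw σ ⟨1, 1, one_ne_zero, rfl⟩
  have hline : ∀ σ' τ : GF k, FrobAt (nm P) P σ' → (∃ a b : ℤ_[p], b ≠ 0 ∧
      a • (fun σ => Multiplicative.toAdd (φ σ)) σ' = b • (fun σ => Multiplicative.toAdd (φ σ)) τ) →
      τ ∈ D.fixingSubgroup := by
    rintro σ' τ hσ' ⟨a, b, hb, hab⟩
    rw [hDfix]
    refine hw τ ⟨a, b, hb, ?_⟩
    rw [frob_phi hφ hP hpP hσ hσ']; exact hab
  have hunit : ∀ u : (𝓞 D)ˣ, ∃ z : 𝓞 D, algebraMap (𝓞 D) (OO k) ((u : 𝓞 D) - z ^ p) ∈ P := by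
    by_contra hcon
    push Not at hcon
    exact hbad ⟨D, hDfin, hline, hcon⟩
  haveI := hP.isPrime
  refine ⟨hσN, fun y hy => ?_⟩
  obtain ⟨u, hu⟩ := exists_iu (D := D) (y := y ^ p) (fun g hg => hy g (by rw [← hDfix]; exact hg))
  obtain ⟨z, hz⟩ := hunit u
  set Z : OO k := algebraMap (𝓞 D) (OO k) z with hZ
  have hyz : (y : OO k) ^ p - Z ^ p ∈ P := by
    have h1 : (y : OO k) ^ p = algebraMap (𝓞 D) (OO k) (u : 𝓞 D) := by
      rw [← Units.val_pow_eq_pow_val, ← hu]; rfl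
    rw [h1, hZ, ← map_pow, ← map_sub]; exact hz
  obtain ⟨ξ, hξ, hξz⟩ := root_mod hP.isPrime hyz
  have hσZ : σ • Z = Z := by
    apply RingOfIntegers.ext
    exact (IntermediateField.mem_fixingSubgroup_iff D σ).1 (by rw [hDfix]; exact hσN) _ ((z : 𝓞 D) : D).2
  have hN0 := nm_ne hP
  have hξN : ξ ^ nm P = ξ := by
    obtain ⟨m, hm⟩ := hN
    have h1 : nm P = p * m + 1 := by omega
    rw [h1, pow_succ, pow_mul, hξ, one_pow, one_mul]
  -- computation modulo `P`
  set qm := Ideal.Quotient.mk P with hqm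
  have e1 : qm (y : OO k) = qm ξ * qm Z := by rw [← map_mul]; exact Ideal.Quotient.eq.2 hξz
  have e2 : qm (σ • (y : OO k)) = qm (y : OO k) ^ nm P := by rw [← map_pow]; exact Ideal.Quotient.eq.2 (hσ _)
  have e3 : qm Z = qm Z ^ nm P := by
    rw [← map_pow]
    have h1 := hσ Z
    rw [hσZ] at h1
    exact Ideal.Quotient.eq.2 h1
  have e4 : qm (σ • (y : OO k)) = qm (y : OO k) := by
    rw [e2, e1, mul_pow, ← e3, ← map_pow, hξN]
  have e5 : (su σ y / y) ^ p = 1 := by
    rw [div_pow, ← map_pow, hy σ hσN, div_self']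
  have e6 : (((su σ y / y : (OO k)ˣ)) : OO k) - 1 ∈ P := by
    rw [← Ideal.Quotient.eq, map_one]
    have h1 : ((su σ y / y : (OO k)ˣ) : OO k) * (y : OO k) = σ • (y : OO k) := by
      rw [← Units.val_mul, div_mul_cancel]; rfl
    have h2 := congrArg qm h1
    rw [map_mul, e4] at h2
    have h3 : IsUnit (qm (y : OO k)) := y.isUnit.map qm
    exact h3.mul_right_cancel (by rw [h2, one_mul])
  have e7 := root_cong (P := P) (N := p) hp.out.ne_zero hpP (a := ((su σ y / y : (OO k)ˣ) : OO k)) (b := 1)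
    (by rw [← Units.val_pow_eq_pow_val, e5, Units.val_one]) (one_pow p) e6
  have e8 : su σ y / y = 1 := Units.ext (by rw [e7, Units.val_one])
  exact div_eq_one.1 e8

/-- Tamely ramified primes have norm congruent to one. -/
lemma norm_one_of_ram {M K F : IntermediateField k (AlgebraicClosure k)} (hφ : CoordM M φ) (hK : Ext p M K F)
    {P : Ideal (OO k)} (hP : P.IsMaximal) (hpP : (p : OO k) ∉ P) (hram : ¬ inertia P ≤ K.fixingSubgroup) :
    p ∣ nm P - 1 := by
  classical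
  obtain ⟨e, he⟩ := hK.deg
  haveI hFfin : FiniteDimensional k F := FiniteDimensional.of_finrank_pos (by rw [he]; exact pow_pos hp.out.pos _)
  haveI := hK.abel
  obtain ⟨τ, hτ, hτK⟩ := SetLike.not_le_iff_exists.1 hram
  have hKfix : K.fixingSubgroup = F.fixingSubgroup ⊓ φ.ker := by
    rw [← hK.sup, IntermediateField.fixingSubgroup_sup, hφ.ker]
  have hτF : τ ∉ F.fixingSubgroup := fun h => hτK (by
    rw [hKfix]; exact ⟨h, (MonoidHom.mem_ker).2 (phi_tame hφ.cont hP hpP hτ)⟩)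
  have hFK : F ≤ K := by rw [← hK.sup]; exact le_sup_left
  -- the commutators lie in the fixing subgroup
  have hcomm : ∀ a b : GF k, a * b * a⁻¹ * b⁻¹ ∈ F.fixingSubgroup := by
    intro a b
    have h1 : a * b * a⁻¹ * b⁻¹ ∈ K.fixingSubgroup := by
      haveI : IsGalois k K := inferInstance
      rw [← K.restrictNormalHom_ker, MonoidHom.mem_ker, map_mul, map_mul, map_mul, map_inv, map_inv]
      have h2 : ∀ x y : Gal(K/k), x * y = y * x := fun x y => (IsMulCommutative.is_comm (M := Gal(K/k))).comm x y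
      rw [h2 (AlgEquiv.restrictNormalHom K a), mul_inv_cancel_right, mul_inv_cancel]
    exact IntermediateField.fixingSubgroup_antitone hFK h1
  haveI hFn : F.fixingSubgroup.Normal := by
    refine ⟨fun g hg t => ?_⟩
    have h1 := hcomm t g
    have h2 : t * g * t⁻¹ = (t * g * t⁻¹ * g⁻¹) * g := by group
    rw [h2]
    exact F.fixingSubgroup.mul_mem h1 hg
  have hidx := IntermediateField.finrank_eq_fixingSubgroup_index (AlgebraicClosure k) F
  rw [he] at hidx
  let E := GF k ⧸ F.fixingSubgroup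
  have hcard : Nat.card E = p ^ e := by rw [hidx]; rfl
  have hE : IsPGroup p E := IsPGroup.of_card hcard
  have hker : (QuotientGroup.mk' F.fixingSubgroup).ker = F.fixingSubgroup := QuotientGroup.ker_mk' _
  obtain ⟨σ, hσ⟩ := exists_frob hP
  have h1 := tame_fin hp.out hP hpP hE (QuotientGroup.mk' F.fixingSubgroup)
    (by rw [hker]; exact F.fixingSubgroup_isOpen) hτ hσ
  have h2 : QuotientGroup.mk' F.fixingSubgroup (σ * τ * σ⁻¹) = QuotientGroup.mk' F.fixingSubgroup τ := by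
    have h3 : σ * τ * σ⁻¹ = (σ * τ * σ⁻¹ * τ⁻¹) * τ := by group
    rw [h3, map_mul]
    have h4 : QuotientGroup.mk' F.fixingSubgroup (σ * τ * σ⁻¹ * τ⁻¹) = 1 := by
      rw [← MonoidHom.mem_ker, hker]; exact hcomm σ τ
    rw [h4, one_mul]
  rw [h2] at h1
  set t := QuotientGroup.mk' F.fixingSubgroup τ with ht
  have ht1 : t ≠ 1 := by
    intro h
    rw [ht, ← MonoidHom.mem_ker, hker] at h
    exact hτF h
  have h3 : t ^ (nm P - 1) = 1 := by
    have h4 : 1 ≤ nm P := Nat.one_le_iff_ne_zero.2 (nm_ne hP)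
    have h5 : t ^ (nm P - 1) * t = 1 * t := by rw [← pow_succ, Nat.sub_add_cancel h4, ← h1, one_mul]
    exact mul_right_cancel h5
  have h4 := orderOf_dvd_of_pow_eq_one h3
  obtain ⟨j, hj⟩ := (IsPGroup.iff_orderOf.1 hE) t
  rw [hj] at h4
  have hj0 : j ≠ 0 := by
    rintro rfl
    rw [pow_zero, orderOf_eq_one_iff] at hj
    exact ht1 hj
  exact (dvd_pow_self p hj0).trans h4

end

end Pool.Agent.Helper832_EG
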