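import Pool.Agent.Helper832_EG.DS4
import Pool.Agent.Y142.Split

/-!
# Upper bounds for densities
-/

set_option linter.style.haveILetI false
set_option linter.unusedSectionVars false
set_option linter.unusedVariables false

open NumberField Module IntermediateField Filter Topology IsDedekindDomain
open Pool.Agent.W569.FM Pool.Agent.W571.FM Pool.Agent.R417.FK Pool.Agent.W401.Cheb

namespace Pool.Agent.Helper832_EG

section
variable {k : Type} [Field k] [NumberField k]

/-- The density of the primes with a Frobenius element in one of finitely many normal subgroups. -/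
theorem dens_union {J : Type} [Fintype J] [Nonempty J] (H : J → Subgroup (GK k)) (hn : ∀ j, (H j).Normal)
    (ho : ∀ j, IsOpen (H j : Set (GK k))) {m : ℕ} (hm : 0 < m) (hi : ∀ j, m ≤ (H j).index) :
    ∃ δ : ℝ, δ ≤ (Fintype.card J : ℝ) / m ∧
      Tendsto (dens fun v : HeightOneSpectrum (𝓞 k) => ∃ j, ∃ σ ∈ H j, IsFrob v σ) atTop (𝓝 δ) := by
  classical
  let U : Subgroup (GK k) := ⨅ j, H j
  haveI hUn : U.Normal := Subgroup.normal_iInf_normal hn
  have hUo : IsOpen (U : Set (GK k)) := by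
    have : (U : Set (GK k)) = ⋂ j, (H j : Set (GK k)) := Subgroup.coe_iInf
    rw [this]
    exact isOpen_iInter_of_finite ho
  have hUH : ∀ j, U ≤ H j := fun j => iInf_le _ j
  let C : Set (GK k) := ⋃ j, (H j : Set (GK k))
  have h1 := Pool.Agent.Y142.chebK k U hUo C (by
    intro σ hσ τ
    obtain ⟨j, hj⟩ := Set.mem_iUnion.1 hσ
    exact Set.mem_iUnion.2 ⟨j, (hn j).conj_mem σ hj τ⟩) (by
    intro σ hσ u hu
    obtain ⟨j, hj⟩ := Set.mem_iUnion.1 hσ
    exact Set.mem_iUnion.2 ⟨j, (H j).mul_mem hj (hUH j hu)⟩)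
  have h2 : (fun v : HeightOneSpectrum (𝓞 k) => ∃ σ ∈ C, IsFrob v σ) =
      fun v => ∃ j, ∃ σ ∈ H j, IsFrob v σ := by
    funext v
    apply propext
    constructor
    · rintro ⟨σ, hσ, hv⟩
      obtain ⟨j, hj⟩ := Set.mem_iUnion.1 hσ
      exact ⟨j, σ, hj, hv⟩
    · rintro ⟨j, σ, hσ, hv⟩
      exact ⟨σ, Set.mem_iUnion.2 ⟨j, hσ⟩, hv⟩
  rw [h2] at h1
  refine ⟨_, ?_, h1⟩
  haveI hfin : Finite (GK k ⧸ U) := Subgroup.quotient_finite_of_isOpen U hUo
  haveI hfi : U.FiniteIndex := Subgroup.finiteIndex_of_finite_quotient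
  have hcardU : Nat.card (GK k ⧸ U) = U.index := rfl
  have hU0 : U.index ≠ 0 := Subgroup.FiniteIndex.index_ne_zero
  have hrel : ∀ j, U.relIndex (H j) * (H j).index = U.index := fun j => Subgroup.relIndex_mul_index (hUH j)
  have himg : ∀ j, ((QuotientGroup.mk : GK k → GK k ⧸ U) '' (H j : Set (GK k))).ncard = U.relIndex (H j) := by
    intro j
    have e1 : ((QuotientGroup.mk : GK k → GK k ⧸ U) '' (H j : Set (GK k))) =
        (((H j).map (QuotientGroup.mk' U) : Subgroup (GK k ⧸ U)) : Set (GK k ⧸ U)) := rfl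
    rw [e1, ← Nat.card_coe_set_eq]
    show Nat.card ((H j).map (QuotientGroup.mk' U)) = _
    have e2 := Subgroup.relIndex_ker (QuotientGroup.mk' U) (K := H j)
    rw [QuotientGroup.ker_mk'] at e2
    exact e2.symm
  have hC : ((QuotientGroup.mk : GK k → GK k ⧸ U) '' C).ncard ≤ ∑ j, U.relIndex (H j) := by
    have e1 : ((QuotientGroup.mk : GK k → GK k ⧸ U) '' C) =
        ⋃ j ∈ (Finset.univ : Finset J), (QuotientGroup.mk : GK k → GK k ⧸ U) '' (H j : Set (GK k)) := by
      simp only [C, Set.image_iUnion, Finset.mem_univ, Set.iUnion_true]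
    rw [e1]
    refine (Finset.set_ncard_biUnion_le _ _).trans ?_
    exact Finset.sum_le_sum fun j _ => (himg j).le
  rw [hcardU]
  have hUpos : (0 : ℝ) < U.index := by exact_mod_cast Nat.pos_of_ne_zero hU0
  have hmpos : (0 : ℝ) < m := by exact_mod_cast hm
  rw [div_le_div_iff₀ hUpos hmpos]
  have h3 : (∑ j, U.relIndex (H j)) * m ≤ Fintype.card J * U.index := by
    rw [Finset.sum_mul]
    have : ∀ j ∈ (Finset.univ : Finset J), U.relIndex (H j) * m ≤ U.index := by
      intro j _
      rw [← hrel j]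
      exact Nat.mul_le_mul_left _ (hi j)
    refine (Finset.sum_le_card_nsmul _ _ _ this).trans ?_
    rw [smul_eq_mul, Finset.card_univ]
  have h4 : ((QuotientGroup.mk : GK k → GK k ⧸ U) '' C).ncard * m ≤ Fintype.card J * U.index :=
    (Nat.mul_le_mul_right _ hC).trans h3
  exact_mod_cast h4

end

end Pool.Agent.Helper832_EG
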