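import Pool.Agent.Helper832_EG.DS5

/-!
# Counting primes of bounded norm
-/

set_option linter.style.haveILetI false
set_option linter.unusedSectionVars false
set_option linter.unusedVariables false

open NumberField Module IntermediateField Filter Topology IsDedekindDomain
open Pool.Agent.W569.FM Pool.Agent.W571.FM Pool.Agent.R417.FK Pool.Agent.W401.Cheb

namespace Pool.Agent.Helper832_EG

section
variable {k : Type} [Field k] [NumberField k]

lemma finite_norm (X : ℕ) : {v : HeightOneSpectrum (𝓞 k) | Ideal.absNorm v.asIdeal ≤ X}.Finite := by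
  have h1 : {I : Ideal (𝓞 k) | Ideal.absNorm I ≤ X}.Finite := Ideal.finite_setOfPred_absNorm_le X
  refine Set.Finite.of_finite_image (f := fun v : HeightOneSpectrum (𝓞 k) => v.asIdeal) (h1.subset ?_) ?_
  · rintro _ ⟨v, hv, rfl⟩
    exact hv
  · intro v _ w _ h
    exact HeightOneSpectrum.ext h

variable (k) in
/-- The primes of norm at most `X`. -/
noncomputable def SX (X : ℕ) : Finset (HeightOneSpectrum (𝓞 k)) := (finite_norm X).toFinset

lemma mem_SX {X : ℕ} {v : HeightOneSpectrum (𝓞 k)} : v ∈ SX k X ↔ Ideal.absNorm v.asIdeal ≤ X := by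
  rw [SX, Set.Finite.mem_toFinset]; rfl

/-- The primes of norm at most `X` with the property `P`. -/
noncomputable def FX (P : HeightOneSpectrum (𝓞 k) → Prop) (X : ℕ) : Finset (HeightOneSpectrum (𝓞 k)) :=
  @Finset.filter _ P (fun _ => Classical.propDecidable _) (SX k X)

lemma mem_FX {P : HeightOneSpectrum (𝓞 k) → Prop} {X : ℕ} {v : HeightOneSpectrum (𝓞 k)} :
    v ∈ FX P X ↔ v ∈ SX k X ∧ P v := by
  unfold FX
  exact @Finset.mem_filter _ P (fun _ => Classical.propDecidable _) (SX k X) v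

lemma FX_sub (P : HeightOneSpectrum (𝓞 k) → Prop) (X : ℕ) : FX P X ⊆ SX k X := fun v hv => (mem_FX.1 hv).1

lemma dens_eq (P : HeightOneSpectrum (𝓞 k) → Prop) (X : ℕ) :
    dens P X = ((FX P X).card : ℝ) / (Nat.primeCounting X : ℝ) := by
  have h1 : Nat.card {v : HeightOneSpectrum (𝓞 k) // Ideal.absNorm v.asIdeal ≤ X ∧ P v} = (FX P X).card :=
    Nat.subtype_card _ (fun v => by rw [mem_FX, mem_SX])
  rw [dens, h1]

variable (k) in
/-- Almost all primes, in the normalization of the density, have density one. -/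
lemma dens_all : Tendsto (fun X : ℕ => ((SX k X).card : ℝ) / (Nat.primeCounting X : ℝ)) atTop (𝓝 1) := by
  classical
  have h1 := Pool.Agent.Y142.chebK k ⊤ isOpen_univ Set.univ (fun _ _ _ => Set.mem_univ _) (fun _ _ _ _ => Set.mem_univ _)
  have h2 : ((QuotientGroup.mk : GK k → GK k ⧸ (⊤ : Subgroup (GK k))) '' Set.univ).ncard = 1 := by
    haveI : Subsingleton (GK k ⧸ (⊤ : Subgroup (GK k))) := QuotientGroup.subsingleton_quotient_top
    rw [Set.image_univ, Set.ncard_eq_one]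
    refine ⟨QuotientGroup.mk 1, ?_⟩
    ext x
    simp only [Set.mem_range, Set.mem_singleton_iff]
    exact ⟨fun _ => Subsingleton.elim _ _, fun h => ⟨1, h.symm⟩⟩
  have h3 : Nat.card (GK k ⧸ (⊤ : Subgroup (GK k))) = 1 := Subgroup.index_top
  rw [h2, h3, Nat.cast_one, div_one] at h1
  refine h1.congr fun X => ?_
  rw [dens_eq]
  congr 3
  ext v
  rw [mem_FX]
  refine ⟨fun h => h.1, fun h => ⟨h, ?_⟩⟩
  obtain ⟨P, σ, hP, hcm, hσ⟩ := frob_cm v
  exact ⟨σ, Set.mem_univ _, P, hP, hcm, hσ⟩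

lemma ev_le {P : HeightOneSpectrum (𝓞 k) → Prop} {δ ε : ℝ} (h : Tendsto (dens P) atTop (𝓝 δ)) (hδ : δ < ε) :
    ∀ᶠ X in atTop, ((FX P X).card : ℝ) ≤ ε * ((SX k X).card : ℝ) := by
  have h1 : Tendsto (fun X : ℕ => ε * (((SX k X).card : ℝ) / (Nat.primeCounting X : ℝ))) atTop (𝓝 (ε * 1)) :=
    (dens_all k).const_mul ε
  rw [mul_one] at h1
  filter_upwards [h.eventually_lt h1 hδ] with X hX
  rw [dens_eq] at hX
  rcases Nat.eq_zero_or_pos (Nat.primeCounting X) with h0 | h0
  · rw [h0] at hX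
    simp at hX
  · have h2 : (0 : ℝ) < (Nat.primeCounting X : ℝ) := by exact_mod_cast h0
    rw [← mul_div_assoc, div_lt_div_iff_of_pos_right h2] at hX
    exact hX.le

variable (k) in
lemma ev_pos : ∀ᶠ X in atTop, 0 < (SX k X).card := by
  have h1 := (dens_all k).eventually_const_lt (show (0 : ℝ) < 1 from one_pos)
  filter_upwards [h1] with X hX
  by_contra hcon
  have h2 : (SX k X).card = 0 := by omega
  rw [h2, Nat.cast_zero, zero_div] at hX
  exact lt_irrefl _ hX

end

section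
variable {k : Type} [Field k] [NumberField k] {p : ℕ} [hp : Fact p.Prime]
variable {r : ℕ} {φ : GF k →* Multiplicative (Fin r → ℤ_[p])}

lemma pow_ge (hr : 2 ≤ r) (hs : Function.Surjective φ) {n : ℕ} {w : Fin r → ZMod (p ^ n)} :
    p ^ n ≤ (Nw φ n w).index := by
  have h1 := Nw_index hs (n := n) (w := w)
  have hx : 0 < p ^ n := pow_pos hp.out.pos n
  have h2 : p ^ n * p ^ n ≤ (Nw φ n w).index * p ^ n := by
    refine le_trans ?_ h1
    rw [← pow_two]
    exact Nat.pow_le_pow_right hx hr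
  exact Nat.le_of_mul_le_mul_right h2 hx

/-- The size of the exceptional density. -/
lemma exists_small (p : ℕ) [hp : Fact p.Prime] (r : ℕ) {ε : ℝ} (hε : 0 < ε) :
    ∃ n : ℕ, (((p ^ n) ^ r : ℕ) : ℝ) / ((2 ^ (p ^ n - 1) : ℕ) : ℝ) < ε := by
  have h1 : Tendsto (fun x : ℕ => (x : ℝ) ^ r / (2 : ℝ) ^ x) atTop (𝓝 0) :=
    tendsto_pow_const_div_const_pow_of_one_lt r (by norm_num)
  have h2 : Tendsto (fun n : ℕ => p ^ n) atTop atTop := tendsto_pow_atTop_atTop_of_one_lt hp.out.one_lt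
  have h3 := (h1.comp h2).eventually_lt_const (show (0 : ℝ) < ε / 2 by positivity)
  obtain ⟨n, hn⟩ := h3.exists
  refine ⟨n, ?_⟩
  simp only [Function.comp_apply] at hn
  have hx : 1 ≤ p ^ n := Nat.one_le_pow _ _ hp.out.pos
  have h4 : (2 : ℝ) ^ (p ^ n) = 2 * ((2 ^ (p ^ n - 1) : ℕ) : ℝ) := by
    push_cast
    rw [← pow_succ', Nat.sub_add_cancel hx]
  rw [h4] at hn
  have h5 : (0 : ℝ) < ((2 ^ (p ^ n - 1) : ℕ) : ℝ) := by positivity
  rw [div_lt_iff₀ (by positivity)] at hn
  rw [div_lt_iff₀ h5]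
  push_cast at hn ⊢
  nlinarith [hn]

end

end Pool.Agent.Helper832_EG
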