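import Pool.Agent.Helper832_EG.DS6

/-!
# The exceptional primes and the dependent pairs are rare
-/

set_option linter.style.haveILetI false
set_option linter.unusedSectionVars false
set_option linter.unusedVariables false

open NumberField Module IntermediateField Filter Topology IsDedekindDomain
open Pool.Agent.W569.FM Pool.Agent.W571.FM Pool.Agent.R417.FK Pool.Agent.W401.Cheb

namespace Pool.Agent.Helper832_EG

section
variable {k : Type} [Field k] [NumberField k] {p : ℕ} [hp : Fact p.Prime]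
variable {r : ℕ} {φ : GF k →* Multiplicative (Fin r → ℤ_[p])}

/-- The exceptional primes. -/
def BadP (φ : GF k →* Multiplicative (Fin r → ℤ_[p])) (v : HeightOneSpectrum (𝓞 k)) : Prop :=
  ∃ P : Ideal (OO k), P.IsMaximal ∧ cm P = v.asIdeal ∧ (p : OO k) ∉ P ∧ p ∣ nm P - 1 ∧
    ¬ UnitCond (fun σ => Multiplicative.toAdd (φ σ)) P

/-- The primes whose Frobenius elements are on the line of a given element. -/
def DepP (φ : GF k →* Multiplicative (Fin r → ℤ_[p])) (σ : GF k) (v : HeightOneSpectrum (𝓞 k)) : Prop :=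
  ∃ P : Ideal (OO k), P.IsMaximal ∧ cm P = v.asIdeal ∧ ∃ τ : GF k, FrobAt (nm P) P τ ∧
    ∃ a b : ℤ_[p], b ≠ 0 ∧ a • Multiplicative.toAdd (φ σ) = b • Multiplicative.toAdd (φ τ)

lemma isFrob_of {P : Ideal (OO k)} (hP : P.IsMaximal) {v : HeightOneSpectrum (𝓞 k)} (h : cm P = v.asIdeal)
    {σ : GF k} (hσ : FrobAt (nm P) P σ) : IsFrob v σ := by
  refine ⟨P, hP, h, fun x => ?_⟩
  have h1 : nm P = Ideal.absNorm v.asIdeal := by rw [← h]; rfl
  rw [← h1]
  exact hσ x

lemma HH_props [IsTotallyComplex k] (hφ : Continuous φ) (hs : Function.Surjective φ) (hr : 2 ≤ r) {n : ℕ}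
    (w : Fin r → ZMod (p ^ n)) : (HH p (Nw φ n w)).Normal ∧ IsOpen (HH p (Nw φ n w) : Set (GF k)) ∧
      2 ^ (p ^ n - 1) ≤ (HH p (Nw φ n w)).index := by
  have hopen := isOpen_Nw hφ (n := n) (w := w)
  set D : IntermediateField k (AlgebraicClosure k) := IntermediateField.fixedField (Nw φ n w) with hD
  have hDfix : D.fixingSubgroup = Nw φ n w :=
    InfiniteGalois.fixingSubgroup_fixedField ⟨Nw φ n w, Subgroup.isClosed_of_isOpen _ hopen⟩
  haveI hDfin : FiniteDimensional k D :=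
    (InfiniteGalois.isOpen_iff_finite D).1 (by rw [hDfix]; exact hopen)
  haveI : NumberField D := NumberField.of_module_finite k D
  have h1 : IsOpen (HH p D.fixingSubgroup : Set (GF k)) := isOpen_HH
  have h2 := HH_index (p := p) (D := D)
  have h3 := rank_ge (D := D)
  rw [hDfix] at h1 h2 h3
  refine ⟨⟨fun g hg t => HH_conj Nw_normal hg t⟩, h1, le_trans ?_ h2⟩
  have h4 := pow_ge hr hs (n := n) (w := w)
  have h5 : p ^ n - 1 ≤ Units.rank D := by omega
  calc 2 ^ (p ^ n - 1) ≤ 2 ^ Units.rank D := Nat.pow_le_pow_right (by norm_num) h5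
    _ ≤ p ^ Units.rank D := Nat.pow_le_pow_left hp.out.two_le _

/-- The exceptional primes have density zero. -/
theorem bad_ev [IsTotallyComplex k] {M : IntermediateField k (AlgebraicClosure k)} (hφ : CoordM M φ)
    (hM : CycIn p M) (hr : 2 ≤ r) {ε : ℝ} (hε : 0 < ε) :
    ∀ᶠ X in atTop, ((FX (BadP φ) X).card : ℝ) ≤ ε * ((SX k X).card : ℝ) := by
  obtain ⟨n, hn⟩ := exists_small p r hε
  haveI : NeZero (p ^ n) := ⟨pow_ne_zero _ hp.out.ne_zero⟩
  obtain ⟨δ, hδ, hδ'⟩ := dens_union (fun w : Fin r → ZMod (p ^ n) => HH p (Nw φ n w))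
    (fun w => (HH_props hφ.cont hφ.surj hr w).1) (fun w => (HH_props hφ.cont hφ.surj hr w).2.1)
    (m := 2 ^ (p ^ n - 1)) (by positivity) (fun w => (HH_props hφ.cont hφ.surj hr w).2.2)
  have hcard : Fintype.card (Fin r → ZMod (p ^ n)) = (p ^ n) ^ r := by
    rw [Fintype.card_fun, ZMod.card, Fintype.card_fin]
  rw [hcard] at hδ
  filter_upwards [ev_le hδ' (hδ.trans_lt hn)] with X hX
  refine le_trans ?_ hX
  norm_cast
  refine Finset.card_le_card fun v hv => ?_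
  rw [mem_FX] at hv ⊢
  refine ⟨hv.1, ?_⟩
  obtain ⟨P, hP, hcm, hpP, hN, hbad⟩ := hv.2
  obtain ⟨σ, hσ⟩ := exists_frob hP
  obtain ⟨w, hw⟩ := bad_mem hφ.cont hP hpP hN hσ (phi_frob hM hφ.ker hP hpP hσ) hbad n
  exact ⟨w, σ, hw, isFrob_of hP hcm hσ⟩

/-- The primes dependent of a given one have density zero, uniformly. -/
theorem dep_ev (hφ : Continuous φ) (hs : Function.Surjective φ) (hr : 2 ≤ r) {ε : ℝ} (hε : 0 < ε) :
    ∀ᶠ X in atTop, ∀ σ : GF k, φ σ ≠ 1 →
      ((FX (DepP φ σ) X).card : ℝ) ≤ ε * ((SX k X).card : ℝ) := by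
  obtain ⟨n, hn⟩ : ∃ n : ℕ, (1 : ℝ) / ((p ^ n : ℕ) : ℝ) < ε := by
    obtain ⟨n, hn⟩ := exists_pow_lt_of_lt_one hε (show (1 : ℝ) / p < 1 by
      rw [div_lt_one (by exact_mod_cast hp.out.pos)]; exact_mod_cast hp.out.one_lt)
    refine ⟨n, ?_⟩
    rw [div_pow, one_pow] at hn
    push_cast; exact hn
  haveI : NeZero (p ^ n) := ⟨pow_ne_zero _ hp.out.ne_zero⟩
  have key : ∀ w : Fin r → ZMod (p ^ n), ∀ᶠ X in atTop,
      ((FX (fun v => ∃ _ : Unit, ∃ σ ∈ Nw φ n w, IsFrob v σ) X).card : ℝ) ≤ ε * ((SX k X).card : ℝ) := by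
    intro w
    obtain ⟨δ, hδ, hδ'⟩ := dens_union (fun _ : Unit => Nw φ n w) (fun _ => Nw_normal)
      (fun _ => isOpen_Nw hφ) (m := p ^ n) (pow_pos hp.out.pos n) (fun _ => pow_ge hr hs)
    rw [Fintype.card_unit, Nat.cast_one] at hδ
    exact ev_le hδ' (hδ.trans_lt hn)
  filter_upwards [eventually_all.2 key] with X hX σ hσ
  obtain ⟨w, hw⟩ := line_mod hσ n
  refine le_trans ?_ (hX w)
  norm_cast
  refine Finset.card_le_card fun v hv => ?_
  rw [mem_FX] at hv ⊢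
  refine ⟨hv.1, ?_⟩
  obtain ⟨P, hP, hcm, τ, hτ, hab⟩ := hv.2
  exact ⟨(), τ, hw τ hab, isFrob_of hP hcm hτ⟩

/-- Frobenius elements at primes with the same restriction to the base have the same image. -/
lemma frob_phi' (hφ : Continuous φ) {P P' : Ideal (OO k)} (hP : P.IsMaximal) (hP' : P'.IsMaximal)
    (hcm : cm P = cm P') (hpP : (p : OO k) ∉ P) {σ σ' : GF k}
    (hσ : FrobAt (nm P) P σ) (hσ' : FrobAt (nm P') P' σ') : φ σ = φ σ' := by
  obtain ⟨g, hg⟩ := exists_smul P P' hP.isPrime hP'.isPrime hcm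
  have hnm : nm P = nm P' := by
    show Ideal.absNorm (cm P) = Ideal.absNorm (cm P')
    rw [hcm]
  have h1 : FrobAt (nm P') P' (g * σ * g⁻¹) := by
    intro x
    rw [← hnm]
    have h1 := hσ (g⁻¹ • x)
    have e : (g * σ * g⁻¹) • x - x ^ (nm P) = g • (σ • (g⁻¹ • x) - (g⁻¹ • x) ^ (nm P)) := by
      rw [smul_sub, smul_pow', smul_inv_smul, mul_smul, mul_smul]
    rw [e, hg, inv_smul_smul]
    exact h1
  have hpP' : (p : OO k) ∉ P' := by
    intro h
    apply hpP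
    have h2 : (p : 𝓞 k) ∈ cm P' := natCast_mem_cm.2 h
    rw [← hcm] at h2
    exact natCast_mem_cm.1 h2
  have h2 := frob_phi hφ hP' hpP' h1 hσ'
  rw [← h2, map_mul, map_mul, map_inv, mul_comm (φ g), mul_inv_cancel_right]

end

end Pool.Agent.Helper832_EG
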