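import Mathlib

/-!
# Counting tuples with an exceptional entry or an exceptional pair of entries
-/

set_option linter.style.haveILetI false
set_option linter.unusedSectionVars false
set_option linter.unusedVariables false

namespace Pool.Agent.Helper832_EG

open Finset

section
variable {V : Type} [DecidableEq V] {t : ℕ}

lemma card_update (F : Fin t → Finset V) (i : Fin t) (A : Finset V) :
    (Fintype.piFinset (Function.update F i A)).card * (F i).card = (Fintype.piFinset F).card * A.card := by
  rw [Fintype.card_piFinset, Fintype.card_piFinset]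
  have h1 : (fun l => (Function.update F i A l).card) = Function.update (fun l => (F l).card) i A.card := by
    funext l
    exact Function.apply_update (fun _ => Finset.card) F i A l
  have h2 : ∏ l, (Function.update F i A l).card = A.card * ∏ l ∈ univ \ {i}, (F l).card := by
    rw [h1]
    exact Finset.prod_update_of_mem (Finset.mem_univ i) _ _
  have h3 : ∏ l, (F l).card = (F i).card * ∏ l ∈ univ \ {i}, (F l).card := by
    have := Finset.prod_update_of_mem (Finset.mem_univ i) (fun l => (F l).card) (F i).card
    rw [← this]
    congr 1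
    funext l
    by_cases h : l = i
    · subst h; rw [Function.update_self]
    · rw [Function.update_of_ne h]
  rw [h2, h3]; ring

/-- The number of tuples with an exceptional entry or an exceptional pair of entries. -/
theorem count_tuples (S B : Finset V) (R : V → Finset V) {δ : ℝ} (hδ : 0 ≤ δ) (hS : 0 < S.card)
    (h1 : (B.card : ℝ) ≤ δ * S.card) (h2 : ∀ v ∈ S, ((R v).card : ℝ) ≤ δ * S.card)
    (T : Finset (Fin t → V)) (hT : ∀ f ∈ T, (∀ i, f i ∈ S) ∧ ((∃ i, f i ∈ B) ∨ ∃ i j, i ≠ j ∧ f j ∈ R (f i))) :
    (T.card : ℝ) ≤ (t + t * t : ℝ) * δ * (S.card : ℝ) ^ t := by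
  classical
  have hSr : (0 : ℝ) < S.card := by exact_mod_cast hS
  let F : Fin t → Finset V := fun _ => S
  have hF : (Fintype.piFinset F).card = S.card ^ t := by
    rw [Fintype.card_piFinset]
    show ∏ _i : Fin t, S.card = _
    rw [Finset.prod_const, Finset.card_univ, Fintype.card_fin]
  let A : Fin t → Finset (Fin t → V) := fun i => Fintype.piFinset (Function.update F i B)
  let C : Fin t → Fin t → V → Finset (Fin t → V) := fun i j s =>
    if i = j then ∅ else Fintype.piFinset (Function.update (Function.update F i {s}) j (R s))
  have hA : ∀ i, ((A i).card : ℝ) ≤ δ * (S.card : ℝ) ^ t := by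
    intro i
    have e1 : (A i).card * S.card = S.card ^ t * B.card := by
      have := card_update F i B
      rw [hF] at this
      exact this
    have e2 : ((A i).card : ℝ) * S.card = (S.card : ℝ) ^ t * B.card := by exact_mod_cast e1
    have e3 : ((A i).card : ℝ) * S.card ≤ (δ * (S.card : ℝ) ^ t) * S.card := by
      rw [e2]
      calc (S.card : ℝ) ^ t * B.card ≤ (S.card : ℝ) ^ t * (δ * S.card) := by
            exact mul_le_mul_of_nonneg_left h1 (by positivity)
        _ = (δ * (S.card : ℝ) ^ t) * S.card := by ring
    exact le_of_mul_le_mul_right e3 hSr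
  have hC : ∀ i j, ∀ s ∈ S, ((C i j s).card : ℝ) * S.card ≤ δ * (S.card : ℝ) ^ t := by
    intro i j s hs
    by_cases hij : i = j
    · have : C i j s = ∅ := if_pos hij
      rw [this, Finset.card_empty, Nat.cast_zero, zero_mul]
      positivity
    · have e0 : C i j s = Fintype.piFinset (Function.update (Function.update F i {s}) j (R s)) := if_neg hij
      have e1 : (Fintype.piFinset (Function.update F i {s})).card * S.card = S.card ^ t * 1 := by
        have := card_update F i {s}
        rw [hF, Finset.card_singleton] at this
        exact this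
      have e2 : (C i j s).card * S.card = (Fintype.piFinset (Function.update F i {s})).card * (R s).card := by
        have := card_update (Function.update F i {s}) j (R s)
        rw [Function.update_of_ne (Ne.symm hij)] at this
        rw [e0]
        exact this
      have e3 : (((C i j s).card : ℝ) * S.card) * S.card = (S.card : ℝ) ^ t * (R s).card := by
        have : ((C i j s).card * S.card) * S.card = S.card ^ t * (R s).card := by
          rw [e2, mul_right_comm, e1, mul_one]
        exact_mod_cast this
      have e4 : (((C i j s).card : ℝ) * S.card) * S.card ≤ (δ * (S.card : ℝ) ^ t) * S.card := by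
        rw [e3]
        calc (S.card : ℝ) ^ t * (R s).card ≤ (S.card : ℝ) ^ t * (δ * S.card) := by
              exact mul_le_mul_of_nonneg_left (h2 s hs) (by positivity)
          _ = (δ * (S.card : ℝ) ^ t) * S.card := by ring
      exact le_of_mul_le_mul_right e4 hSr
  have hsub : T ⊆ (univ.biUnion A) ∪ ((univ : Finset (Fin t)).biUnion fun i => univ.biUnion fun j => S.biUnion fun s => C i j s) := by
    intro f hf
    obtain ⟨hfS, h3⟩ := hT f hf
    rw [Finset.mem_union]
    rcases h3 with ⟨i, hi⟩ | ⟨i, j, hij, hj⟩
    · left
      refine Finset.mem_biUnion.2 ⟨i, Finset.mem_univ i, ?_⟩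
      refine Fintype.mem_piFinset.2 fun l => ?_
      by_cases hl : l = i
      · subst hl; rw [Function.update_self]; exact hi
      · rw [Function.update_of_ne hl]; exact hfS l
    · right
      refine Finset.mem_biUnion.2 ⟨i, Finset.mem_univ i, Finset.mem_biUnion.2 ⟨j, Finset.mem_univ j,
        Finset.mem_biUnion.2 ⟨f i, hfS i, ?_⟩⟩⟩
      have e0 : C i j (f i) = Fintype.piFinset (Function.update (Function.update F i {f i}) j (R (f i))) := if_neg hij
      rw [e0]
      refine Fintype.mem_piFinset.2 fun l => ?_
      by_cases hl : l = j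
      · subst hl; rw [Function.update_self]; exact hj
      · rw [Function.update_of_ne hl]
        by_cases hl2 : l = i
        · subst hl2; rw [Function.update_self]; exact Finset.mem_singleton_self _
        · rw [Function.update_of_ne hl2]; exact hfS l
  have hcardA : ((univ.biUnion A).card : ℝ) ≤ t * (δ * (S.card : ℝ) ^ t) := by
    have e1 : ((univ.biUnion A).card : ℝ) ≤ ∑ i : Fin t, ((A i).card : ℝ) := by exact_mod_cast Finset.card_biUnion_le
    refine e1.trans ((Finset.sum_le_card_nsmul _ _ _ fun i _ => hA i).trans ?_)
    rw [Finset.card_univ, Fintype.card_fin, nsmul_eq_mul]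
  have hcardC : (((univ : Finset (Fin t)).biUnion fun i => univ.biUnion fun j => S.biUnion fun s => C i j s).card : ℝ) ≤
      t * (t * (δ * (S.card : ℝ) ^ t)) := by
    have hin : ∀ i j, ((S.biUnion fun s => C i j s).card : ℝ) ≤ δ * (S.card : ℝ) ^ t := by
      intro i j
      have e1 : ((S.biUnion fun s => C i j s).card : ℝ) ≤ ∑ s ∈ S, ((C i j s).card : ℝ) := by
        exact_mod_cast Finset.card_biUnion_le
      have e2 : ∀ s ∈ S, ((C i j s).card : ℝ) ≤ δ * (S.card : ℝ) ^ t / S.card := fun s hs => by
        rw [le_div_iff₀ hSr]; exact hC i j s hs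
      refine e1.trans ((Finset.sum_le_card_nsmul _ _ _ e2).trans ?_)
      rw [nsmul_eq_mul, mul_div_cancel₀ _ hSr.ne']
    have hin2 : ∀ i, ((univ.biUnion fun j => S.biUnion fun s => C i j s).card : ℝ) ≤ t * (δ * (S.card : ℝ) ^ t) := by
      intro i
      have e1 : ((univ.biUnion fun j => S.biUnion fun s => C i j s).card : ℝ) ≤
          ∑ j : Fin t, ((S.biUnion fun s => C i j s).card : ℝ) := by exact_mod_cast Finset.card_biUnion_le
      refine e1.trans ((Finset.sum_le_card_nsmul _ _ _ fun j _ => hin i j).trans ?_)
      rw [Finset.card_univ, Fintype.card_fin, nsmul_eq_mul]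
    have e1 : (((univ : Finset (Fin t)).biUnion fun i => univ.biUnion fun j => S.biUnion fun s => C i j s).card : ℝ) ≤
        ∑ i : Fin t, ((univ.biUnion fun j => S.biUnion fun s => C i j s).card : ℝ) := by exact_mod_cast Finset.card_biUnion_le
    refine e1.trans ((Finset.sum_le_card_nsmul _ _ _ fun i _ => hin2 i).trans ?_)
    rw [Finset.card_univ, Fintype.card_fin, nsmul_eq_mul]
  calc (T.card : ℝ) ≤ (((univ.biUnion A) ∪ ((univ : Finset (Fin t)).biUnion fun i => univ.biUnion fun j => S.biUnion fun s => C i j s)).card : ℝ) := by
        exact_mod_cast Finset.card_le_card hsub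
    _ ≤ ((univ.biUnion A).card : ℝ) + (((univ : Finset (Fin t)).biUnion fun i => univ.biUnion fun j => S.biUnion fun s => C i j s).card : ℝ) := by
        exact_mod_cast Finset.card_union_le _ _
    _ ≤ t * (δ * (S.card : ℝ) ^ t) + t * (t * (δ * (S.card : ℝ) ^ t)) := add_le_add hcardA hcardC
    _ = (t + t * t : ℝ) * δ * (S.card : ℝ) ^ t := by ring

end

end Pool.Agent.Helper832_EG
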