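import Pool.Agent.Helper832_EG.DS7
import Pool.Agent.Helper832_EG.DS8

/-!
# Pseudo-nullity for almost all tuples of tamely ramified primes
-/

set_option linter.style.haveILetI false
set_option linter.unusedSectionVars false
set_option linter.unusedVariables false

open NumberField Module IntermediateField Filter Topology IsDedekindDomain
open Pool.Agent.W569.FM Pool.Agent.W571.FM Pool.Agent.R417.FK Pool.Agent.W401.Cheb

namespace Pool.Agent.Helper832_EG

section
variable {k : Type} [Field k] [NumberField k]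

/-- Outside `p`, the field `K` is ramified at most at the primes of the tuple `v`. -/
def RamIn (p : ℕ) (K : IntermediateField k (AlgebraicClosure k)) {t : ℕ}
    (v : Fin t → HeightOneSpectrum (𝓞 k)) : Prop :=
  ∀ P : Ideal (OO k), P.IsMaximal → (p : OO k) ∉ P → ¬ inertia P ≤ K.fixingSubgroup → ∃ i, cm P = (v i).asIdeal

/-- For all `K` as in `Ext` which are ramified outside `p` at most at the primes of the tuple `v`, the
unramified Iwasawa module has a natural structure, and it is pseudo-null. -/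
def AllNull (p : ℕ) [Fact p.Prime] {r : ℕ} (M : IntermediateField k (AlgebraicClosure k))
    (φ : GF k → Fin r → ℤ_[p]) {t : ℕ} (v : Fin t → HeightOneSpectrum (𝓞 k)) : Prop :=
  ∀ K F : IntermediateField k (AlgebraicClosure k), Ext p M K F → RamIn p K v →
    (∃ m : Module (Iwa p r) (Xur p K), IsNat K F φ m) ∧
    ∀ m : Module (Iwa p r) (Xur p K), IsNat K F φ m → PseudoNull m

/-- The tuples of `t` primes of norm at most `X` with the property `G`. -/
noncomputable def cnt (k : Type) [Field k] [NumberField k] {t : ℕ} (G : (Fin t → HeightOneSpectrum (𝓞 k)) → Prop)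
    (X : ℕ) : ℕ :=
  Nat.card {v : Fin t → HeightOneSpectrum (𝓞 k) // (∀ i, Ideal.absNorm (v i).asIdeal ≤ X) ∧ G v}

end

section
variable {k : Type} [Field k] [NumberField k] {p : ℕ} [hp : Fact p.Prime] {r : ℕ}

/-- A tuple without exceptional entries and pairs is good. -/
theorem allNull_of [IsTotallyComplex k] (h1 : OnePrime k p) (hcl : ¬ p ∣ classNumber k) (hr : 2 ≤ r)
    {M : IntermediateField k (AlgebraicClosure k)} (hM : CycIn p M) {φ : GF k → Fin r → ℤ_[p]}
    (hφ : Coord M φ) {t : ℕ} {v : Fin t → HeightOneSpectrum (𝓞 k)}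
    (s : HeightOneSpectrum (𝓞 k) → GF k) (Pv : HeightOneSpectrum (𝓞 k) → Ideal (OO k))
    (hPv : ∀ w, (Pv w).IsMaximal) (hcm : ∀ w, cm (Pv w) = w.asIdeal) (hs : ∀ w, FrobAt (nm (Pv w)) (Pv w) (s w))
    (hbad : ∀ i, ¬ BadP hφ.hom (v i))
    (hdep : ∀ i j, i ≠ j → hφ.hom (s (v i)) ≠ 1 → ¬ DepP hφ.hom (s (v i)) (v j)) : AllNull p M φ v := by
  intro K F hK hram
  refine ⟨exists_isNat h1 (noUr_of_class hcl) hφ hK, fun m hm => ?_⟩
  refine null_nat h1 hcl hr hM hφ hK ?_ ?_ m hm
  · intro P P' hP hP' hpP hpP' hPK hPK' hne σ σ' hσ hσ' a b hab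
    by_contra ha
    obtain ⟨i, hi⟩ := hram P hP hpP hPK
    obtain ⟨j, hj⟩ := hram P' hP' hpP' hPK'
    have hij : i ≠ j := by
      rintro rfl
      exact hne (hi.trans hj.symm)
    have h2 : hφ.hom (s (v i)) = hφ.hom σ := by
      have hpv : (p : OO k) ∉ Pv (v i) := by
        intro h
        apply hpP
        have h3 : (p : 𝓞 k) ∈ cm (Pv (v i)) := natCast_mem_cm.2 h
        rw [hcm, ← hi] at h3
        exact natCast_mem_cm.1 h3
      exact frob_phi' hφ.homM.cont (hPv _) hP (by rw [hcm, hi]) hpv (hs _) hσ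
    have h3 : hφ.hom σ ≠ 1 := phi_frob hM hφ.homM.ker hP hpP hσ
    refine hdep i j hij (by rw [h2]; exact h3) ⟨P', hP', hj, σ', hσ', a, b, ?_, ?_⟩
    · rintro rfl
      rw [zero_smul] at hab
      apply h3
      apply Multiplicative.toAdd.injective
      exact (smul_eq_zero.1 hab).resolve_left ha
    · rw [h2]; exact hab
  · intro P hP hpP hPK
    obtain ⟨i, hi⟩ := hram P hP hpP hPK
    by_contra hcon
    exact hbad i ⟨P, hP, hi, hpP, norm_one_of_ram hφ.homM hK hP hpP hPK, hcon⟩

/-- The main theorem on densities. -/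
theorem tuples_main [IsTotallyComplex k] (h1 : OnePrime k p) (hcl : ¬ p ∣ classNumber k) (hr : 2 ≤ r)
    {M : IntermediateField k (AlgebraicClosure k)} (hM : CycIn p M) {φ : GF k → Fin r → ℤ_[p]}
    (hφ : Coord M φ) (t : ℕ) :
    Tendsto (fun X : ℕ => (cnt k (AllNull p M φ (t := t)) X : ℝ) / (cnt k (fun _ : Fin t → HeightOneSpectrum (𝓞 k) => True) X : ℝ))
      atTop (𝓝 1) := by
  classical
  choose Pv s0 hPv hcm hs0 using fun w : HeightOneSpectrum (𝓞 k) => frob_cm w
  have hs : ∀ w, FrobAt (nm (Pv w)) (Pv w) (s0 w) := by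
    intro w
    have h2 : nm (Pv w) = Ideal.absNorm w.asIdeal := by rw [← hcm w]; rfl
    rw [h2]; exact hs0 w
  -- the finsets
  let TX : ℕ → Finset (Fin t → HeightOneSpectrum (𝓞 k)) := fun X => Fintype.piFinset (fun _ => SX k X)
  have hTX : ∀ X f, f ∈ TX X ↔ ∀ i, Ideal.absNorm (f i).asIdeal ≤ X := by
    intro X f
    rw [Fintype.mem_piFinset]
    exact forall_congr' fun i => mem_SX
  have hc1 : ∀ X, cnt k (fun _ : Fin t → HeightOneSpectrum (𝓞 k) => True) X = (TX X).card := fun X =>
    Nat.subtype_card _ (fun f => by rw [hTX, and_true])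
  have hc2 : ∀ X, cnt k (AllNull p M φ (t := t)) X = ((TX X).filter (AllNull p M φ (t := t))).card := fun X =>
    Nat.subtype_card _ (fun f => by rw [Finset.mem_filter, hTX])
  have hc3 : ∀ X, (TX X).card = (SX k X).card ^ t := by
    intro X
    rw [Fintype.card_piFinset]
    show ∏ _i : Fin t, (SX k X).card = _
    rw [Finset.prod_const, Finset.card_univ, Fintype.card_fin]
  have key : ∀ δ : ℝ, 0 < δ → ∀ᶠ X in atTop, 1 - (t + t * t : ℝ) * δ ≤
      (cnt k (AllNull p M φ (t := t)) X : ℝ) / (cnt k (fun _ : Fin t → HeightOneSpectrum (𝓞 k) => True) X : ℝ) := by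
    intro δ hδ
    filter_upwards [bad_ev hφ.homM hM hr hδ, dep_ev hφ.homM.cont hφ.homM.surj hr hδ, ev_pos k] with X hX1 hX2 hX3
    have hpos : (0 : ℝ) < (SX k X).card ^ t := by
      have : (0 : ℝ) < (SX k X).card := by exact_mod_cast hX3
      positivity
    have h2 := count_tuples (t := t) (SX k X) (FX (BadP hφ.hom) X)
      (fun w => if hφ.hom (s0 w) = 1 then ∅ else FX (DepP hφ.hom (s0 w)) X) hδ.le hX3 hX1 (by
        intro w _
        split_ifs with h3
        · rw [Finset.card_empty, Nat.cast_zero]; positivity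
        · exact hX2 _ h3) ((TX X).filter fun f => ¬ AllNull p M φ (t := t) f) (by
        intro f hf
        rw [Finset.mem_filter, hTX] at hf
        refine ⟨fun i => mem_SX.2 (hf.1 i), ?_⟩
        by_contra hcon
        push Not at hcon
        apply hf.2
        refine allNull_of h1 hcl hr hM hφ s0 Pv hPv hcm hs (fun i hi => hcon.1 i (mem_FX.2 ⟨mem_SX.2 (hf.1 i), hi⟩))
          (fun i j hij hne hd => hcon.2 i j hij ?_)
        rw [if_neg hne]
        exact mem_FX.2 ⟨mem_SX.2 (hf.1 j), hd⟩)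
    have h3 := Finset.card_filter_add_card_filter_not (s := TX X) (AllNull p M φ (t := t))
    rw [hc1, hc2, hc3]
    have h4 : (((TX X).filter (AllNull p M φ (t := t))).card : ℝ) = ((SX k X).card : ℝ) ^ t -
        (((TX X).filter fun f => ¬ AllNull p M φ (t := t) f).card : ℝ) := by
      rw [hc3] at h3
      have h5 : ((((TX X).filter (AllNull p M φ (t := t))).card : ℝ) +
        (((TX X).filter fun f => ¬ AllNull p M φ (t := t) f).card : ℝ)) = ((SX k X).card : ℝ) ^ t := by exact_mod_cast h3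
      linarith
    rw [h4, Nat.cast_pow, le_div_iff₀ hpos]
    nlinarith [h2]
  rw [Metric.tendsto_atTop']
  intro ε hε
  have hC : (0 : ℝ) < (t + t * t : ℝ) + 1 := by positivity
  have h2 := key (ε / (2 * ((t + t * t : ℝ) + 1))) (by positivity)
  obtain ⟨N, hN⟩ := eventually_atTop.1 h2
  refine ⟨N, fun X hX => ?_⟩
  have h3 := hN X hX.le
  have h4 : (cnt k (AllNull p M φ (t := t)) X : ℝ) / (cnt k (fun _ : Fin t → HeightOneSpectrum (𝓞 k) => True) X : ℝ) ≤ 1 := by
    apply div_le_one_of_le₀ _ (Nat.cast_nonneg _)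
    rw [hc1, hc2]
    exact_mod_cast Finset.card_filter_le _ _
  have h5 : (t + t * t : ℝ) * (ε / (2 * ((t + t * t : ℝ) + 1))) < ε := by
    have h6 : (t + t * t : ℝ) * (ε / (2 * ((t + t * t : ℝ) + 1))) ≤ ((t + t * t : ℝ) + 1) * (ε / (2 * ((t + t * t : ℝ) + 1))) := by
      apply mul_le_mul_of_nonneg_right (by linarith) (by positivity)
    have h7 : ((t + t * t : ℝ) + 1) * (ε / (2 * ((t + t * t : ℝ) + 1))) = ε / 2 := by
      field_simp
    linarith
  rw [Real.dist_eq, abs_lt]
  constructor <;> linarith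

end

end Pool.Agent.Helper832_EG
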