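import Mathlib

set_option linter.style.haveILetI false
set_option linter.unusedSectionVars false
set_option linter.unusedVariables false

namespace Pool.Agent.Helper832_EG

section
variable {p : ℕ} [Fact p.Prime]

lemma sub_one_pow {V : Type*} [AddCommGroup V] [Module (ZMod p) V] (D : Module.End (ZMod p) V) (k : ℕ) :
    (D - 1) ^ (p ^ k) = D ^ (p ^ k) - 1 := by
  have h : ((Polynomial.X : Polynomial (ZMod p)) - 1) ^ (p ^ k) = Polynomial.X ^ (p ^ k) - 1 := by
    rw [sub_pow_char_pow, one_pow]
  have := congrArg (Polynomial.aeval D) h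
  simpa using this

/-- If `θ` is nilpotent on the fixed vectors of a finite commuting family of unipotent operators,
then it is nilpotent. -/
theorem kill_of_fixed {V : Type*} [AddCommGroup V] [Module (ZMod p) V] (θ : Module.End (ZMod p) V)
    (C : Submodule (ZMod p) V) (hCθ : ∀ v ∈ C, θ v ∈ C) (S : Finset (Module.End (ZMod p) V))
    (hS : ∀ D ∈ S, ∃ k, ∀ v ∈ C, (D ^ (p ^ k)) v = v)
    (hcomm : ∀ D ∈ S, ∀ D' ∈ S, ∀ v ∈ C, D (D' v) = D' (D v)) (hθ : ∀ D ∈ S, ∀ v ∈ C, D (θ v) = θ (D v))
    (hC : ∀ D ∈ S, ∀ v ∈ C, D v ∈ C)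
    (hkill : ∃ M, ∀ v ∈ C, (∀ D ∈ S, D v = v) → (θ ^ M) v = 0) : ∃ M, ∀ v ∈ C, (θ ^ M) v = 0 := by
  classical
  have hCθk : ∀ (k : ℕ), ∀ v ∈ C, (θ ^ k) v ∈ C := by
    intro k
    induction k with
    | zero => intro v hv; simpa using hv
    | succ k ih => intro v hv; rw [pow_succ, Module.End.mul_apply]; exact ih _ (hCθ v hv)
  induction S using Finset.induction_on with
  | empty =>
    obtain ⟨M, hM⟩ := hkill
    exact ⟨M, fun v hv => hM v hv (by simp)⟩
  | insert D S hD ih =>
    obtain ⟨M, hM⟩ := hkill
    apply ih (fun D' hD' => hS D' (Finset.mem_insert_of_mem hD'))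
      (fun D1 h1 D2 h2 => hcomm D1 (Finset.mem_insert_of_mem h1) D2 (Finset.mem_insert_of_mem h2))
      (fun D' hD' => hθ D' (Finset.mem_insert_of_mem hD')) (fun D' hD' => hC D' (Finset.mem_insert_of_mem hD'))
    have hDi := Finset.mem_insert_self D S
    obtain ⟨k, hk⟩ := hS D hDi
    have hθk : ∀ D' ∈ insert D S, ∀ (j : ℕ), ∀ v ∈ C, D' ((θ ^ j) v) = (θ ^ j) (D' v) := by
      intro D' hD' j
      induction j with
      | zero => intro v _; simp
      | succ j ihj =>
        intro v hv
        rw [pow_succ, Module.End.mul_apply, Module.End.mul_apply, ihj _ (hCθ v hv), hθ D' hD' v hv]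
    have key : ∀ j, ∀ v ∈ C, (∀ D' ∈ S, D' v = v) → ((D - 1) ^ j) v = 0 → (θ ^ (M * j)) v = 0 := by
      intro j
      induction j with
      | zero => intro v _ _ h; simpa using h
      | succ j ihj =>
        intro v hv hv' h
        have hw : (D - 1) v ∈ C := by
          rw [LinearMap.sub_apply, Module.End.one_apply]
          exact C.sub_mem (hC D hDi v hv) hv
        have hw' : ∀ D' ∈ S, D' ((D - 1) v) = (D - 1) v := by
          intro D' hD'
          rw [LinearMap.sub_apply, Module.End.one_apply, map_sub,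
            hcomm D' (Finset.mem_insert_of_mem hD') D hDi v hv, hv' D' hD']
        have h1 := ihj ((D - 1) v) hw hw' (by rw [← Module.End.mul_apply, ← pow_succ]; exact h)
        rw [LinearMap.sub_apply, Module.End.one_apply, map_sub, ← hθk D hDi _ v hv, sub_eq_zero] at h1
        have hu := hCθk (M * j) v hv
        have h2 := hM _ hu (fun D' hD' => by
          rcases Finset.mem_insert.1 hD' with rfl | hD''
          · exact h1
          · rw [hθk D' hD' _ v hv, hv' D' hD''])
        rw [← Module.End.mul_apply, ← pow_add] at h2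
        have h3 : M * (j + 1) = M + M * j := by ring
        rw [h3]
        exact h2
    refine ⟨M * p ^ k, fun v hv hv' => key _ v hv hv' ?_⟩
    rw [sub_one_pow, LinearMap.sub_apply, Module.End.one_apply, hk v hv, sub_self]

/-- A finite nonzero space over the field with `p` elements with a commuting family of operators
of `p`-power order has a nonzero fixed vector. -/
theorem exists_fixed {V : Type*} [AddCommGroup V] [Module (ZMod p) V] (S : Set (Module.End (ZMod p) V))
    (C : Submodule (ZMod p) V) (hfin : Finite C) (hne : C ≠ ⊥)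
    (hS : ∀ D ∈ S, ∃ k, ∀ v ∈ C, (D ^ (p ^ k)) v = v)
    (hcomm : ∀ D ∈ S, ∀ D' ∈ S, ∀ v ∈ C, D (D' v) = D' (D v)) (hC : ∀ D ∈ S, ∀ v ∈ C, D v ∈ C) :
    ∃ v ∈ C, v ≠ 0 ∧ ∀ D ∈ S, D v = v := by
  classical
  obtain ⟨n, hn⟩ : ∃ n, n = Nat.card C := ⟨_, rfl⟩
  induction n using Nat.strong_induction_on generalizing C with
  | _ n ih =>
    by_cases hall : ∀ D ∈ S, ∀ v ∈ C, D v = v
    · obtain ⟨v, hv, hv0⟩ := (Submodule.ne_bot_iff C).1 hne
      exact ⟨v, hv, hv0, fun D hD => hall D hD v hv⟩
    · push Not at hall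
      obtain ⟨D, hD, v, hv, hDv⟩ := hall
      let C' : Submodule (ZMod p) V := C ⊓ LinearMap.ker (D - 1)
      have hCC' : C' < C := by
        refine lt_of_le_of_ne inf_le_left (fun h => hDv ?_)
        have : v ∈ C' := by rw [h]; exact hv
        have h1 := (LinearMap.mem_ker).1 this.2
        rw [LinearMap.sub_apply, Module.End.one_apply, sub_eq_zero] at h1
        exact h1
      have hfin' : Finite C' := Finite.of_injective (Submodule.inclusion hCC'.le) (Submodule.inclusion_injective _)
      have hne' : C' ≠ ⊥ := by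
        intro hb
        have hinj : ∀ w ∈ C, (D - 1) w = 0 → w = 0 := by
          intro w hw h
          have : w ∈ C' := ⟨hw, (LinearMap.mem_ker).2 h⟩
          rw [hb] at this
          exact this
        obtain ⟨k, hk⟩ := hS D hD
        have hstab : ∀ w ∈ C, (D - 1) w ∈ C := by
          intro w hw
          rw [LinearMap.sub_apply, Module.End.one_apply]
          exact C.sub_mem (hC D hD w hw) hw
        have hpow : ∀ j : ℕ, ∀ w ∈ C, ((D - 1) ^ j) w = 0 → w = 0 := by
          intro j
          induction j with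
          | zero => intro w _ h; simpa using h
          | succ j ihj =>
            intro w hw h
            rw [pow_succ, Module.End.mul_apply] at h
            exact hinj w hw (ihj _ (hstab w hw) h)
        obtain ⟨w, hw, hw0⟩ := (Submodule.ne_bot_iff C).1 hne
        exact hw0 (hpow (p ^ k) w hw (by
          rw [sub_one_pow, LinearMap.sub_apply, Module.End.one_apply, hk w hw, sub_self]))
      have hcard : Nat.card C' < n := by
        rw [hn]
        exact Set.Finite.card_lt_card (Set.toFinite (C : Set V)) (by exact_mod_cast hCC')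
      obtain ⟨w, hw, hw0, hwD⟩ := ih _ hcard C' hfin' hne'
        (fun D' hD' => by
          obtain ⟨k, hk⟩ := hS D' hD'
          exact ⟨k, fun v hv => hk v hv.1⟩)
        (fun D1 h1 D2 h2 v hv => hcomm D1 h1 D2 h2 v hv.1)
        (fun D' hD' v hv => ⟨hC D' hD' v hv.1, by
          have h1 := (LinearMap.mem_ker).1 hv.2
          rw [LinearMap.sub_apply, Module.End.one_apply, sub_eq_zero] at h1
          refine (LinearMap.mem_ker).2 ?_
          rw [LinearMap.sub_apply, Module.End.one_apply, hcomm D hD D' hD' v hv.1, h1, sub_self]⟩)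
        rfl
      exact ⟨w, hw.1, hw0, hwD⟩

end

end Pool.Agent.Helper832_EG
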