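import Pool.Agent.Helper832_EG.Mod

set_option linter.style.haveILetI false
set_option linter.unusedSectionVars false
set_option linter.unusedVariables false

namespace Pool.Agent.Helper832_EG

section
variable {p : ℕ} [Fact p.Prime] {r : ℕ} {G : Type*} [Group G] [TopologicalSpace G] [IsTopologicalGroup G]
variable {φ : G →* Multiplicative (Fin r → ℤ_[p])} {H L : Subgroup G} {W Tm : Set (Subgroup G)}
    {F : Subgroup G}

/-- Every open subgroup of `XX` contains `p ^ m XX` for some `m`. -/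
lemma exists_pow_mem [CompactSpace G] (J : Set (Subgroup G)) (hL : IsClosed (L : Set G))
    (V : AddSubgroup (XX p J L)) (hV : IsOpen (V : Set (XX p J L))) : ∃ m : ℕ, ∀ x, p ^ m • x ∈ V := by
  classical
  haveI : CompactSpace L := isCompact_iff_compactSpace.1 hL.isCompact
  have h1 : ∀ y : XX p J L, ∃ (n : ℕ) (B : AddSubgroup (XX p J L)), IsOpen (B : Set (XX p J L)) ∧
      (y ∉ V → y ∉ B) ∧ ∀ z, p ^ n • z ∈ B := by
    intro y
    by_cases hy : y ∈ V
    · exact ⟨0, ⊤, isOpen_univ, fun h => absurd hy h, fun z => trivial⟩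
    obtain ⟨x, rfl⟩ := mkX_surj y
    have hx : x ∉ Nn p J L := fun h => hy (by rw [mkX_zero h]; exact V.zero_mem)
    rw [mem_Nn] at hx
    push Not at hx
    obtain ⟨n, χ, hχo, hχJ, hχx⟩ := hx
    have hN : ∀ z ∈ Nn p J L, χ z = 1 := fun z hz => mem_Nn.1 hz n χ hχo hχJ
    let B' : Subgroup (L ⧸ Nn p J L) := χ.ker.map (QuotientGroup.mk' (Nn p J L))
    have hB' : ∀ z : L, (mkX z : XX p J L) ∈ B'.toAddSubgroup ↔ χ z = 1 := by
      intro z
      constructor
      · rintro ⟨w, hw, hwz⟩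
        have h2 : w⁻¹ * z ∈ Nn p J L := QuotientGroup.eq.1 hwz
        have h3 := hN _ h2
        rw [map_mul, map_inv, (MonoidHom.mem_ker).1 hw, inv_one, one_mul] at h3
        exact h3
      · intro hz
        exact ⟨z, hz, rfl⟩
    refine ⟨n, B'.toAddSubgroup, ?_, fun _ h => hχx ((hB' x).1 h), fun z => ?_⟩
    · have h2 : (B'.toAddSubgroup : Set (XX p J L)) = mkX '' (χ.ker : Set L) := by
        ext z
        constructor
        · rintro ⟨w, hw, hwz⟩
          exact ⟨w, hw, congrArg Additive.ofMul hwz⟩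
        · rintro ⟨w, hw, rfl⟩
          exact ⟨w, hw, rfl⟩
      rw [h2]
      exact isOpenMap_mkX _ hχo
    · obtain ⟨w, rfl⟩ := mkX_surj z
      have h2 : p ^ n • (mkX w : XX p J L) = mkX (w ^ (p ^ n)) := rfl
      rw [h2, hB', map_pow]
      have h3 : p ^ n • (Multiplicative.toAdd (χ w)) = 0 := by
        rw [nsmul_eq_mul, ZMod.natCast_self, zero_mul]
      exact Multiplicative.toAdd.injective h3
  choose n B hBo hBV hBp using h1
  obtain ⟨t, ht, htc⟩ := (AddSubgroup.isClosed_of_isOpen V hV |> fun _ => hV.isClosed_compl.isCompact).elim_nhds_subcover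
    (fun y => {z | z - y ∈ B y}) (fun y _ => by
      refine ((hBo y).preimage (continuous_id.sub continuous_const)).mem_nhds ?_
      show y - y ∈ B y
      rw [sub_self]; exact (B y).zero_mem)
  refine ⟨t.sup n, fun x => ?_⟩
  by_contra hcon
  have h2 := htc hcon
  simp only [Set.mem_iUnion] at h2
  obtain ⟨y, hy, hyx⟩ := h2
  have h3 : p ^ (t.sup n) • x ∈ B y := by
    have h4 : n y ≤ t.sup n := Finset.le_sup (f := n) hy
    have h5 : p ^ (t.sup n) = p ^ (t.sup n - n y) * p ^ n y := by rw [← pow_add]; congr 1; omega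
    rw [h5, mul_nsmul]
    exact hBp y _
  have h4 : y ∈ B y := by
    have := (B y).sub_mem h3 hyx
    rwa [sub_sub_cancel] at this
  exact hBV y (ht y hy) h4

/-- Existence of the Iwasawa module structure. -/
theorem exists_iwA [CompactSpace G] [T2Space G] [TotallyDisconnectedSpace G] (S : Sit φ H L W Tm F)
    (hFH : ∀ σ ∈ F, σ ∈ H → σ ∈ L) : ∃ m : Module (Lam p r) (XX p (W ∪ Tm) L), IsIwA (W ∪ Tm) L φ F m := by
  classical
  haveI := S.normalH
  haveI := S.normalL
  haveI : CompactSpace L := isCompact_iff_compactSpace.1 S.closedL.isCompact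
  choose σ hσF hσ using fun v : Fin r → ℤ_[p] => S.surjF (Multiplicative.ofAdd v)
  have hwd : ∀ g ∈ F, ∀ g' ∈ F, φ g = φ g' → ∀ x : XX p (W ∪ Tm) L, cj S.d.conjWT g x = cj S.d.conjWT g' x := by
    intro g hg g' hg' hgg x
    have h1 : g = g' * (g'⁻¹ * g) := by group
    have h2 : g'⁻¹ * g ∈ L := hFH _ (F.mul_mem (F.inv_mem hg') hg) (by
      rw [← S.ker, MonoidHom.mem_ker, map_mul, map_inv, hgg, inv_mul_cancel])
    rw [h1, cj_mul, cj_L S.d.conjWT h2]
  let ρ : (Fin r → ℤ_[p]) → XX p (W ∪ Tm) L →+ XX p (W ∪ Tm) L := fun v => cj S.d.conjWT (σ v)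
  have hρ : ∀ g ∈ F, ∀ x, ρ (Multiplicative.toAdd (φ g)) x = cj S.d.conjWT g x := fun g hg x =>
    hwd _ (hσF _) g hg (by rw [hσ]; rfl) x
  have hρ0 : ∀ x, ρ 0 x = x := by
    intro x
    show cj S.d.conjWT (σ 0) x = x
    refine cj_L S.d.conjWT (hFH _ (hσF 0) ?_) x
    rw [← S.ker, MonoidHom.mem_ker, hσ]; rfl
  have hρa : ∀ v w x, ρ (v + w) x = ρ v (ρ w x) := by
    intro v w x
    show cj S.d.conjWT (σ (v + w)) x = cj S.d.conjWT (σ v) (cj S.d.conjWT (σ w) x)
    rw [← cj_mul]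
    refine hwd _ (hσF _) _ (F.mul_mem (hσF v) (hσF w)) ?_ x
    rw [map_mul, hσ, hσ, hσ]; rfl
  obtain ⟨m, hm1, hm2⟩ := exists_module (X := XX p (W ∪ Tm) L) hρ0 hρa (by
    intro U hU
    have h1 : (mkX : L → XX p (W ∪ Tm) L) ⁻¹' U ∈ nhds (1 : L) := continuous_mkX.continuousAt (by exact hU)
    obtain ⟨O, hO, hOU⟩ := mem_nhds_subtype _ _ _ |>.1 h1
    obtain ⟨O', hO'O, hO'open, h1O'⟩ := mem_nhds_iff.1 hO
    obtain ⟨N, hN⟩ := ProfiniteGrp.exist_openNormalSubgroup_sub_open_nhds_of_one hO'open h1O'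
    have hNopen : IsOpen ((N : Subgroup G) : Set G) := N.isOpen'
    haveI hNn : (N : Subgroup G).Normal := N.isNormal'
    let V' : Subgroup (L ⧸ Nn p (W ∪ Tm) L) := ((N : Subgroup G).subgroupOf L).map (QuotientGroup.mk' (Nn p (W ∪ Tm) L))
    have hVmem : ∀ y : XX p (W ∪ Tm) L, y ∈ V'.toAddSubgroup ↔ ∃ x : L, (x : G) ∈ (N : Subgroup G) ∧ mkX x = y := by
      intro y
      constructor
      · rintro ⟨x, hx, hxy⟩
        exact ⟨x, (Subgroup.mem_subgroupOf).1 hx, congrArg Additive.ofMul hxy⟩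
      · rintro ⟨x, hx, rfl⟩
        exact ⟨x, (Subgroup.mem_subgroupOf).2 hx, rfl⟩
    have hVo : IsOpen (V'.toAddSubgroup : Set (XX p (W ∪ Tm) L)) := by
      have h2 : (V'.toAddSubgroup : Set (XX p (W ∪ Tm) L)) = mkX '' {x : L | (x : G) ∈ (N : Subgroup G)} := by
        ext y
        rw [SetLike.mem_coe, hVmem]; rfl
      rw [h2]
      exact isOpenMap_mkX _ (hNopen.preimage continuous_subtype_val)
    have hVU : (V'.toAddSubgroup : Set (XX p (W ∪ Tm) L)) ⊆ U := by
      intro y hy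
      obtain ⟨x, hx, rfl⟩ := (hVmem y).1 hy
      exact hOU (hO'O (hN hx))
    obtain ⟨m0, hm0⟩ := exists_pow_mem (W ∪ Tm) S.closedL V'.toAddSubgroup hVo
    haveI : Finite (G ⧸ (N : Subgroup G)) := Subgroup.quotient_finite_of_isOpen _ hNopen
    haveI : (N : Subgroup G).FiniteIndex := Subgroup.finiteIndex_of_finite_quotient
    set k := (N : Subgroup G).index with hk
    have hk0 : k ≠ 0 := Subgroup.FiniteIndex.index_ne_zero
    obtain ⟨a, u, hu, hku⟩ := Nat.exists_eq_pow_mul_and_not_dvd hk0 p (Fact.out : p.Prime).ne_one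
    -- elements of `k Γ` act trivially modulo `V`
    have htriv : ∀ g ∈ (N : Subgroup G), ∀ x : XX p (W ∪ Tm) L, cj S.d.conjWT g x - x ∈ V'.toAddSubgroup := by
      intro g hg x
      obtain ⟨y, rfl⟩ := mkX_surj x
      rw [hVmem]
      refine ⟨MulAut.conjNormal g y * y⁻¹, ?_, ?_⟩
      · have h2 : ((MulAut.conjNormal g y * y⁻¹ : L) : G) = g * ((y : G) * g⁻¹ * (y : G)⁻¹) := by
          rw [Subgroup.coe_mul, MulAut.conjNormal_apply, Subgroup.coe_inv]; group
        rw [h2]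
        exact (N : Subgroup G).mul_mem hg (hNn.conj_mem _ ((N : Subgroup G).inv_mem hg) _)
      · rw [mkX_mul, cj_mkX, sub_eq_add_neg]; rfl
    have hkact : ∀ v x, ρ (k • v) x - x ∈ V'.toAddSubgroup := by
      intro v x
      have h2 : (σ v) ^ k ∈ (N : Subgroup G) := Subgroup.pow_index_mem _ _
      have h3 := hρ ((σ v) ^ k) (F.pow_mem (hσF v) k) x
      rw [map_pow, hσ] at h3
      have h4 : Multiplicative.toAdd ((Multiplicative.ofAdd v) ^ k) = k • v := rfl
      rw [h4] at h3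
      rw [h3]
      exact htriv _ h2 x
    have huu : IsUnit ((u : ℤ_[p])) := by
      rw [PadicInt.isUnit_iff, PadicInt.norm_natCast_eq_one_iff]
      exact (Nat.Prime.coprime_iff_not_dvd Fact.out).2 hu
    obtain ⟨w, hw⟩ := huu.exists_right_inv
    have hpact : ∀ v x, ρ (p ^ a • v) x - x ∈ V'.toAddSubgroup := by
      intro v x
      have h2 : p ^ a • v = k • (w • v) := by
        rw [hku]
        funext i
        simp only [Pi.smul_apply, nsmul_eq_mul, smul_eq_mul, Nat.cast_mul]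
        rw [mul_assoc, ← mul_assoc (u : ℤ_[p]), hw, one_mul]
      rw [h2]; exact hkact _ x
    refine ⟨V'.toAddSubgroup, max m0 a, ⟨hVo, ?_, ?_, ?_⟩, hVU⟩
    · intro v x hx
      obtain ⟨y, hy, rfl⟩ := (hVmem x).1 hx
      rw [hVmem]
      refine ⟨MulAut.conjNormal (σ v) y, ?_, rfl⟩
      rw [MulAut.conjNormal_apply]
      exact hNn.conj_mem _ hy _
    · intro x
      have h5 : p ^ (max m0 a + 1) = p ^ (max m0 a + 1 - m0) * p ^ m0 := by
        rw [← pow_add]; congr 1; omega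
      rw [h5, mul_nsmul]
      exact hm0 _
    · intro v x
      have h5 : p ^ (max m0 a + 1) = p ^ a * p ^ (max m0 a + 1 - a) := by
        rw [← pow_add]; congr 1; omega
      rw [h5, mul_smul]
      exact hpact _ x)
  refine ⟨m, ?_, hm2⟩
  intro g hg x y hxy
  have h1 := hm1 (Multiplicative.toAdd (φ g)) (mkX x)
  rw [h1, hρ g hg, cj_mkX]
  congr 1
  apply Subtype.ext
  rw [MulAut.conjNormal_apply, hxy]

end

end Pool.Agent.Helper832_EG
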