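import Mathlib
import Pool.Agent.R417.FK.Gen
import Pool.Agent.Helper832_EG.ModX

/-!
# Definitions in terms of number fields
-/

set_option linter.style.haveILetI false
set_option linter.unusedSectionVars false
set_option linter.unusedVariables false

namespace Pool.Agent.Helper832_EG

open NumberField Pool.Agent.W569.FM

section
variable {E : Type} [Field E]

/-- The inertia group of the ideal `P` of the ring of all algebraic integers. -/
def inertia (P : Ideal (OO E)) : Subgroup (GF E) where
  carrier := {σ | InInertia P σ}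
  mul_mem' := fun {a b} ha hb x => by
    have h1 : (a * b) • x - x = (a • (b • x) - b • x) + (b • x - x) := by rw [mul_smul]; ring
    rw [h1]
    exact P.add_mem (ha _) (hb x)
  one_mem' := fun x => by rw [one_smul, sub_self]; exact P.zero_mem
  inv_mem' := fun {a} ha x => by
    have h1 : a⁻¹ • x - x = -(a • (a⁻¹ • x) - a⁻¹ • x) := by rw [smul_inv_smul]; ring
    rw [h1]
    exact P.neg_mem (ha _)

lemma mem_inertia {P : Ideal (OO E)} {σ : GF E} : σ ∈ inertia P ↔ InInertia P σ := Iff.rfl

variable (E) in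
/-- All inertia groups at the primes of the ring of all algebraic integers. -/
def inertias : Set (Subgroup (GF E)) := {I | ∃ P : Ideal (OO E), P.IsMaximal ∧ I = inertia P}

variable (E) in
/-- The inertia groups at the primes above `p`. -/
def wildI (p : ℕ) : Set (Subgroup (GF E)) := {I | ∃ P : Ideal (OO E), P.IsMaximal ∧ (p : OO E) ∈ P ∧ I = inertia P}

variable (E) in
/-- The inertia groups at the primes not above `p`. -/
def tameI (p : ℕ) : Set (Subgroup (GF E)) := {I | ∃ P : Ideal (OO E), P.IsMaximal ∧ (p : OO E) ∉ P ∧ I = inertia P}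

lemma inertias_eq (p : ℕ) : inertias E = wildI E p ∪ tameI E p := by
  ext I
  constructor
  · rintro ⟨P, hP, rfl⟩
    by_cases h : (p : OO E) ∈ P
    · exact Or.inl ⟨P, hP, h, rfl⟩
    · exact Or.inr ⟨P, hP, h, rfl⟩
  · rintro (⟨P, hP, _, rfl⟩ | ⟨P, hP, _, rfl⟩) <;> exact ⟨P, hP, rfl⟩

/-- The Iwasawa module of `K`: the Galois group over `K` of the maximal abelian pro-`p` extension
of `K` unramified at all finite primes. -/
abbrev XK (p : ℕ) (K : IntermediateField E (AlgebraicClosure E)) : Type :=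
  XX p (inertias E) K.fixingSubgroup

/-- A `ℤ_p`-extension of `E` inside the algebraic closure. -/
def IsZp (p : ℕ) [Fact p.Prime] (M : IntermediateField E (AlgebraicClosure E)) : Prop :=
  IsGalois E M ∧ Nonempty (Gal(M/E) ≃ₜ* Multiplicative ℤ_[p])

variable (E) in
/-- The composite of all `ℤ_p`-extensions of `E`. -/
noncomputable def tilde (p : ℕ) [Fact p.Prime] : IntermediateField E (AlgebraicClosure E) :=
  sSup {M | IsZp p M}

/-! ### elementary facts -/

lemma isOpen_fix_integer (x : OO E) : IsOpen {g : GF E | g • x = x} := by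
  have hx : IsIntegral E (x : AlgebraicClosure E) := Algebra.IsIntegral.isIntegral _
  have h1 := stabilizer_isOpen_of_isIntegral (K := E) (x : AlgebraicClosure E)
  have h2 : {g : GF E | g • x = x} = (MulAction.stabilizer (GF E) (x : AlgebraicClosure E) : Set (GF E)) := by
    ext g
    rw [SetLike.mem_coe, MulAction.mem_stabilizer_iff]
    constructor
    · intro h
      exact congrArg (fun z : OO E => (z : AlgebraicClosure E)) h
    · intro h
      exact RingOfIntegers.ext h
  rw [h2]; exact h1

lemma inertia_isClosed (P : Ideal (OO E)) : IsClosed (inertia P : Set (GF E)) := by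
  have h1 : (inertia P : Set (GF E)) = ⋂ x : OO E, {g : GF E | g • x - x ∈ P} := by
    ext g; simp only [Set.mem_iInter]; rfl
  rw [h1]
  refine isClosed_iInter fun x => ?_
  rw [← isOpen_compl_iff, isOpen_iff_mem_nhds]
  intro g hg
  have h2 : IsOpen {h : GF E | (g⁻¹ * h) • x = x} :=
    (isOpen_fix_integer x).preimage (continuous_const.mul continuous_id)
  refine Filter.mem_of_superset (h2.mem_nhds (by simp)) ?_
  intro h hh hcon
  apply hg
  have h3 : h • x = g • x := by
    have h4 : (g⁻¹ * h) • x = x := hh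
    rw [mul_smul, inv_smul_eq_iff] at h4
    exact h4
  show g • x - x ∈ P
  rw [← h3]; exact hcon

/-- The conjugate ideal. -/
lemma exists_conj_ideal (P : Ideal (OO E)) (g : GF E) : ∃ Q : Ideal (OO E), (∀ x : OO E, x ∈ Q ↔ g⁻¹ • x ∈ P) ∧
    (P.IsMaximal → Q.IsMaximal) ∧ (∀ n : ℕ, (n : OO E) ∈ Q ↔ (n : OO E) ∈ P) ∧
    inertia Q = (inertia P).map (MulAut.conj g).toMonoidHom := by
  let e : OO E ≃+* OO E := MulSemiringAction.toRingEquiv (GF E) (OO E) g⁻¹
  have hmem : ∀ x : OO E, x ∈ P.comap (e : OO E →+* OO E) ↔ g⁻¹ • x ∈ P := fun x => Iff.rfl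
  refine ⟨P.comap (e : OO E →+* OO E), hmem, fun hP => ?_, fun n => ?_, ?_⟩
  · exact Ideal.comap_isMaximal_of_equiv e
  · rw [hmem]
    have h1 : g⁻¹ • (n : OO E) = (n : OO E) := by
      have := map_natCast e n
      exact this
    rw [h1]
  · ext τ
    constructor
    · intro hτ
      refine ⟨g⁻¹ * τ * g, ?_, ?_⟩
      · intro x
        have h1 := (hmem _).1 (hτ (g • x))
        rw [smul_sub, inv_smul_smul, smul_smul, smul_smul] at h1
        exact h1
      · show g * (g⁻¹ * τ * g) * g⁻¹ = τ
        group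
    · rintro ⟨ρ, hρ, rfl⟩ x
      rw [hmem]
      have h1 := hρ (g⁻¹ • x)
      have h2 : g⁻¹ • ((MulAut.conj g).toMonoidHom ρ • x - x) = ρ • (g⁻¹ • x) - g⁻¹ • x := by
        have h3 : (MulAut.conj g).toMonoidHom ρ = g * ρ * g⁻¹ := rfl
        rw [h3, smul_sub, smul_smul, smul_smul]
        congr 2
        group
      rw [h2]; exact h1

lemma conj_wild (p : ℕ) : ConjClosed (wildI E p) := by
  rintro _ ⟨P, hP, hp, rfl⟩ g
  obtain ⟨Q, _, h2, h3, h4⟩ := exists_conj_ideal P g
  exact ⟨Q, h2 hP, (h3 p).2 hp, h4.symm⟩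

lemma conj_tame (p : ℕ) : ConjClosed (tameI E p) := by
  rintro _ ⟨P, hP, hp, rfl⟩ g
  obtain ⟨Q, _, h2, h3, h4⟩ := exists_conj_ideal P g
  exact ⟨Q, h2 hP, fun h => hp ((h3 p).1 h), h4.symm⟩

end

end Pool.Agent.Helper832_EG
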