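import Pool.Agent.Helper832_EG.Fld
import Pool.Agent.R417.FK.Tame
import Pool.Agent.Y142.Char

set_option linter.style.haveILetI false
set_option linter.unusedSectionVars false
set_option linter.unusedVariables false

namespace Pool.Agent.Helper832_EG

open NumberField Pool.Agent.W569.FM Pool.Agent.W571.FM Pool.Agent.R417.FK

section
variable {E : Type} [Field E] [NumberField E] {p : ℕ} [hp : Fact p.Prime] {r : ℕ}

/-- There is exactly one prime of `E` above `p` (at most one is the relevant part). -/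
def OnePrime (E : Type) [Field E] (p : ℕ) : Prop :=
  ∀ v w : Ideal (𝓞 E), v.IsPrime → w.IsPrime → (p : 𝓞 E) ∈ v → (p : 𝓞 E) ∈ w → v = w

lemma trans_wild (h1 : OnePrime E p) : ∀ I ∈ wildI E p, ∀ I' ∈ wildI E p, ∃ g : GF E,
    I' = I.map (MulAut.conj g).toMonoidHom := by
  rintro _ ⟨P, hP, hpP, rfl⟩ _ ⟨Q, hQ, hpQ, rfl⟩
  have h2 : cm P = cm Q := h1 _ _ (cm_max hP).isPrime (cm_max hQ).isPrime (natCast_mem_cm.2 hpP) (natCast_mem_cm.2 hpQ)
  obtain ⟨g, hg⟩ := exists_smul P Q hP.isPrime hQ.isPrime h2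
  obtain ⟨Q', hQ', _, _, h4⟩ := exists_conj_ideal P g
  refine ⟨g, ?_⟩
  have h3 : Q = Q' := by ext x; rw [hg, hQ']
  rw [h3, h4]

lemma conj_of_cm {P Q : Ideal (OO E)} (hP : P.IsMaximal) (hQ : Q.IsMaximal) (h2 : cm P = cm Q) :
    ∃ g : GF E, inertia Q = (inertia P).map (MulAut.conj g).toMonoidHom := by
  obtain ⟨g, hg⟩ := exists_smul P Q hP.isPrime hQ.isPrime h2
  obtain ⟨Q', hQ', _, _, h4⟩ := exists_conj_ideal P g
  refine ⟨g, ?_⟩
  have h3 : Q = Q' := by ext x; rw [hg, hQ']
  rw [h3, h4]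

lemma exists_wild : (wildI E p).Nonempty := by
  -- a maximal ideal containing `p`
  have h1 : Ideal.span {(p : OO E)} ≠ ⊤ := by
    intro h
    rw [Ideal.span_singleton_eq_top] at h
    obtain ⟨u, hu⟩ := h.exists_right_inv
    -- `1 / p` would be integral
    have h2 : IsIntegral ℤ ((p : AlgebraicClosure E)⁻¹) := by
      have h3 : ((u : OO E) : AlgebraicClosure E) = (p : AlgebraicClosure E)⁻¹ := by
        have h4 := congrArg (fun z : OO E => (z : AlgebraicClosure E)) hu
        simp only [map_mul, map_natCast, map_one] at h4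
        have h5 : (p : AlgebraicClosure E) ≠ 0 := by exact_mod_cast hp.out.ne_zero
        field_simp
        rw [mul_comm] at h4
        exact h4
      rw [← h3]; exact u.2
    have h3 : IsIntegral ℤ ((p : ℚ)⁻¹) := by
      have h4 : algebraMap ℚ (AlgebraicClosure E) ((p : ℚ)⁻¹) = (p : AlgebraicClosure E)⁻¹ := by simp
      rw [← h4] at h2
      exact (isIntegral_algebraMap_iff (algebraMap ℚ (AlgebraicClosure E)).injective).1 h2
    obtain ⟨z, hz⟩ := (IsIntegrallyClosed.isIntegral_iff).1 h3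
    have h5 : (z : ℚ) * p = 1 := by
      have h6 : (p : ℚ) ≠ 0 := by exact_mod_cast hp.out.ne_zero
      have h7 : (z : ℚ) = (p : ℚ)⁻¹ := by simpa using hz
      rw [h7]; field_simp
    have h6 : z * (p : ℤ) = 1 := by exact_mod_cast h5
    have h7 := Int.eq_one_or_neg_one_of_mul_eq_one' h6
    have h8 := hp.out.one_lt
    rcases h7 with ⟨_, h9⟩ | ⟨_, h9⟩ <;> omega
  obtain ⟨P, hP, hle⟩ := Ideal.exists_le_maximal _ h1
  exact ⟨_, P, hP, hle (Ideal.mem_span_singleton_self _), rfl⟩

lemma noUr_ch (h : NoUr E p) : ∀ χ : GF E → ZMod p, IsCh ⊤ χ → Van (wildI E p) ⊤ χ → Van (tameI E p) ⊤ χ →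
    ∀ x, χ x = 0 := by
  intro χ hχ hW hT x
  let f : GF E →* Multiplicative (ZMod p) :=
    { toFun := fun g => Multiplicative.ofAdd (χ g)
      map_one' := by rw [hχ.one]; rfl
      map_mul' := fun x y => by rw [hχ.mul (Subgroup.mem_top x) (Subgroup.mem_top y)]; rfl }
  obtain ⟨U, hU, hU'⟩ := hχ.2
  have hf : IsOpen (f.ker : Set (GF E)) := by
    refine Subgroup.isOpen_mono (H₁ := U) (fun x hx => ?_) hU
    refine (MonoidHom.mem_ker).2 ?_
    show Multiplicative.ofAdd (χ x) = 1
    rw [hU' x (Subgroup.mem_top x) hx]; rfl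
  have h1 := h f hf (fun P hP τ hτ => by
    show Multiplicative.ofAdd (χ τ) = 1
    by_cases hpP : (p : OO E) ∈ P
    · rw [hW (inertia P) ⟨P, hP, hpP, rfl⟩ τ hτ (Subgroup.mem_top _)]; rfl
    · rw [hT (inertia P) ⟨P, hP, hpP, rfl⟩ τ hτ (Subgroup.mem_top _)]; rfl) x
  exact Multiplicative.ofAdd.injective h1

/-- Continuous homomorphisms to `ℤ_p ^ r` are unramified outside `p`. -/
lemma phi_tame {φ : GF E →* Multiplicative (Fin r → ℤ_[p])} (hφ : Continuous φ) {P : Ideal (OO E)}
    (hP : P.IsMaximal) (hpP : (p : OO E) ∉ P) {τ : GF E} (hτ : InInertia P τ) : φ τ = 1 := by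
  obtain ⟨σ, hσ⟩ := exists_frob hP
  have hcard : 1 < nm P := by
    have h1 := nm_ne hP
    have h2 : nm P ≠ 1 := by
      intro h3
      have h4 : Ideal.absNorm (cm P) = 1 := h3
      rw [Ideal.absNorm_eq_one_iff] at h4
      exact (cm_max hP).ne_top h4
    omega
  apply Multiplicative.toAdd.injective
  funext i
  -- work with the `i`-th coordinate
  let f : GF E →* Multiplicative ℤ_[p] :=
    { toFun := fun g => Multiplicative.ofAdd ((Multiplicative.toAdd (φ g)) i)
      map_one' := by rw [map_one]; rfl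
      map_mul' := fun x y => by rw [map_mul]; rfl }
  have hf : Continuous f :=
    continuous_ofAdd.comp ((continuous_apply i).comp (continuous_toAdd.comp hφ))
  have key : ∀ n : ℕ, (p : ℤ_[p]) ^ n ∣ ((nm P - 1 : ℕ) : ℤ_[p]) * (Multiplicative.toAdd (φ τ)) i := by
    intro n
    let g : GF E →* Multiplicative (ZMod (p ^ n)) :=
      (AddMonoidHom.toMultiplicative (PadicInt.toZModPow n : ℤ_[p] →+* ZMod (p ^ n)).toAddMonoidHom).comp f
    have hgval : ∀ x, Multiplicative.toAdd (g x) = PadicInt.toZModPow n ((Multiplicative.toAdd (φ x)) i) := fun x => rfl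
    have hgo : IsOpen (g.ker : Set (GF E)) := by
      have h1 : (g.ker : Set (GF E)) = (fun x => Multiplicative.toAdd (f x)) ⁻¹' {x : ℤ_[p] | (p : ℤ_[p]) ^ n ∣ x} := by
        ext x
        rw [SetLike.mem_coe, MonoidHom.mem_ker]
        show g x = 1 ↔ (p : ℤ_[p]) ^ n ∣ Multiplicative.toAdd (f x)
        have h2 : (Multiplicative.toAdd (f x)) ∈ RingHom.ker (PadicInt.toZModPow n : ℤ_[p] →+* ZMod (p ^ n)) ↔
            (p : ℤ_[p]) ^ n ∣ Multiplicative.toAdd (f x) := by
          rw [PadicInt.ker_toZModPow, Ideal.mem_span_singleton]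
        rw [← h2, RingHom.mem_ker]
        constructor
        · intro h; exact congrArg Multiplicative.toAdd h
        · intro h; exact Multiplicative.toAdd.injective h
      rw [h1]
      exact (Pool.Agent.Y142.isOpen_pow n).preimage (continuous_toAdd.comp hf)
    haveI : Finite (Multiplicative (ZMod (p ^ n))) := by
      haveI : NeZero (p ^ n) := ⟨pow_ne_zero _ hp.out.ne_zero⟩
      exact inferInstanceAs (Finite (ZMod (p ^ n)))
    have h3 := (tame_full hp.out hP hpP (Pool.Agent.Y142.isPGroup_zmod n) g hgo).1 τ hτ σ hσ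
    rw [map_mul, map_mul, map_inv, mul_comm (g σ), mul_assoc, mul_inv_cancel, mul_one] at h3
    have h4 : (nm P - 1) • Multiplicative.toAdd (g τ) = 0 := by
      have h5 : Multiplicative.toAdd (g τ) = (nm P) • Multiplicative.toAdd (g τ) := congrArg Multiplicative.toAdd h3
      have h6 : nm P = (nm P - 1) + 1 := by omega
      rw [h6, succ_nsmul] at h5
      simpa using h5
    rw [hgval, nsmul_eq_mul, ← map_natCast (PadicInt.toZModPow n : ℤ_[p] →+* ZMod (p ^ n)), ← map_mul,
      ← RingHom.mem_ker, PadicInt.ker_toZModPow, Ideal.mem_span_singleton] at h4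
    exact h4
  have h2 := Pool.Agent.Y142.eq_zero_of_dvd key
  have h3 : ((nm P - 1 : ℕ) : ℤ_[p]) ≠ 0 := by
    have : nm P - 1 ≠ 0 := by omega
    exact_mod_cast this
  exact (mul_eq_zero.1 h2).resolve_left h3

/-- A closed subgroup `A` of `ℤ_p ^ r` such that every homomorphism to `ℤ / p` killing `A` is zero
is everything. -/
lemma closed_top_of_char (A : AddSubgroup (Fin r → ℤ_[p])) (hA : IsClosed (A : Set (Fin r → ℤ_[p])))
    (h : ∀ ψ : (Fin r → ℤ_[p]) →+ ZMod p, (∀ a ∈ A, ψ a = 0) → ψ = 0) : A = ⊤ := by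
  -- `A + p Γ = Γ`
  have h1 : A ⊔ (nsmulAddMonoidHom (α := Fin r → ℤ_[p]) p).range = ⊤ := by
    by_contra hcon
    obtain ⟨x, hx⟩ : ∃ x, x ∉ A ⊔ (nsmulAddMonoidHom (α := Fin r → ℤ_[p]) p).range := by
      by_contra h'
      push Not at h'
      exact hcon ((AddSubgroup.eq_top_iff' _).2 h')
    obtain ⟨ψ, hψ, hψx⟩ := exists_char (p := p) (A ⊔ (nsmulAddMonoidHom (α := Fin r → ℤ_[p]) p).range)
      (fun y => AddSubgroup.mem_sup_right ⟨y, rfl⟩) hx
    have := h ψ (fun a ha => hψ a (AddSubgroup.mem_sup_left ha))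
    rw [this] at hψx
    exact hψx rfl
  have h2 : ∀ (n : ℕ) (x : Fin r → ℤ_[p]), ∃ a ∈ A, ∃ y, x = a + p ^ n • y := by
    intro n
    induction n with
    | zero => intro x; exact ⟨0, A.zero_mem, x, by simp⟩
    | succ n ih =>
      intro x
      obtain ⟨a, ha, y, hy⟩ := ih x
      have hy' : y ∈ A ⊔ (nsmulAddMonoidHom (α := Fin r → ℤ_[p]) p).range := by rw [h1]; trivial
      obtain ⟨b, hb, _, ⟨z, rfl⟩, hbz⟩ := AddSubgroup.mem_sup.1 hy'
      refine ⟨a + p ^ n • b, A.add_mem ha (A.nsmul_mem hb _), z, ?_⟩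
      have h3 : (nsmulAddMonoidHom (α := Fin r → ℤ_[p]) p) z = p • z := rfl
      rw [hy, ← hbz, h3, smul_add, smul_smul, ← pow_succ, add_assoc]
  rw [AddSubgroup.eq_top_iff']
  intro x
  choose a ha y hy using fun n => h2 n x
  have hlim : Filter.Tendsto a Filter.atTop (nhds x) := by
    rw [tendsto_pi_nhds]
    intro i
    rw [tendsto_iff_norm_sub_tendsto_zero]
    have h3 : ∀ n, ‖a n i - x i‖ ≤ (p : ℝ) ^ (-(n : ℤ)) := by
      intro n
      rw [PadicInt.norm_le_pow_iff_mem_span_pow, Ideal.mem_span_singleton]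
      have h4 : x i = a n i + (p ^ n • y n) i := by
        conv_lhs => rw [hy n]
        rfl
      rw [h4, Pi.smul_apply, nsmul_eq_mul]
      refine ⟨-(y n i), ?_⟩
      push_cast; ring
    refine squeeze_zero (fun _ => norm_nonneg _) h3 ?_
    have h5 : Filter.Tendsto (fun n : ℕ => ((p : ℝ)⁻¹) ^ n) Filter.atTop (nhds 0) := by
      apply tendsto_pow_atTop_nhds_zero_of_lt_one
      · positivity
      · exact inv_lt_one_of_one_lt₀ (by exact_mod_cast hp.out.one_lt)
    refine h5.congr fun n => ?_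
    rw [zpow_neg, zpow_natCast, inv_pow]
  exact hA.mem_of_tendsto hlim (Filter.Eventually.of_forall ha)

/-- Wild inertia surjects onto `ℤ_p ^ r`. -/
lemma phi_wild (h1 : OnePrime E p) (h : NoUr E p) {φ : GF E →* Multiplicative (Fin r → ℤ_[p])} (hφ : Continuous φ)
    (hs : Function.Surjective φ) : ∀ I ∈ wildI E p, ∀ v, ∃ s ∈ I, φ s = v := by
  intro I hI
  have hIc : IsClosed (I : Set (GF E)) := by
    obtain ⟨P, _, _, rfl⟩ := hI
    exact inertia_isClosed P
  let A : AddSubgroup (Fin r → ℤ_[p]) :=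
    { carrier := {v | ∃ x ∈ I, φ x = Multiplicative.ofAdd v}
      add_mem' := by
        rintro a b ⟨x, hx, hxa⟩ ⟨y, hy, hyb⟩
        exact ⟨x * y, I.mul_mem hx hy, by rw [map_mul, hxa, hyb]; rfl⟩
      zero_mem' := ⟨1, I.one_mem, by rw [map_one]; rfl⟩
      neg_mem' := by
        rintro a ⟨x, hx, hxa⟩
        exact ⟨x⁻¹, I.inv_mem hx, by rw [map_inv, hxa]; rfl⟩ }
  have hAc : IsClosed (A : Set (Fin r → ℤ_[p])) := by
    have h1 : (A : Set (Fin r → ℤ_[p])) = (fun x => Multiplicative.toAdd (φ x)) '' (I : Set (GF E)) := by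
      ext v
      constructor
      · rintro ⟨x, hx, hxv⟩
        exact ⟨x, hx, by show Multiplicative.toAdd (φ x) = v; rw [hxv]; rfl⟩
      · rintro ⟨x, hx, rfl⟩
        exact ⟨x, hx, rfl⟩
    rw [h1]
    have hcont : Continuous (fun x => Multiplicative.toAdd (φ x)) := continuous_toAdd.comp hφ
    exact (hIc.isCompact.image hcont).isClosed
  have hA : A = ⊤ := by
    refine closed_top_of_char A hAc fun ψ hψ => ?_
    -- the composite character is unramified
    have hψp : ∀ v : Fin r → ℤ_[p], ψ (p • v) = 0 := by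
      intro v; rw [map_nsmul, nsmul_eq_mul, CharP.cast_eq_zero, zero_mul]
    let χ : GF E → ZMod p := fun g => ψ (Multiplicative.toAdd (φ g))
    have hχmul : ∀ x y, χ (x * y) = χ x + χ y := by
      intro x y
      show ψ (Multiplicative.toAdd (φ (x * y))) = _
      rw [map_mul, toAdd_mul, map_add]
    have hpo : IsOpen {v : Fin r → ℤ_[p] | ∀ i, (p : ℤ_[p]) ^ 1 ∣ v i} := by
      have : {v : Fin r → ℤ_[p] | ∀ i, (p : ℤ_[p]) ^ 1 ∣ v i} = ⋂ i, {v : Fin r → ℤ_[p] | (p : ℤ_[p]) ^ 1 ∣ v i} := by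
        ext v; simp
      rw [this]
      refine isOpen_iInter_of_finite fun i => ?_
      have hci : Continuous (fun v : Fin r → ℤ_[p] => v i) := continuous_apply i
      exact (Pool.Agent.Y142.isOpen_pow (ℓ := p) 1).preimage hci
    have hχ : IsCh ⊤ χ := by
      refine ⟨fun x _ y _ => hχmul x y, ?_⟩
      let U : Subgroup (GF E) :=
        { carrier := {g | ∀ i, (p : ℤ_[p]) ^ 1 ∣ (Multiplicative.toAdd (φ g)) i}
          mul_mem' := fun {a b} ha hb i => by
            rw [map_mul, toAdd_mul, Pi.add_apply]; exact dvd_add (ha i) (hb i)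
          one_mem' := fun i => by rw [map_one, toAdd_one, Pi.zero_apply]; exact dvd_zero _
          inv_mem' := fun {a} ha i => by
            rw [map_inv, toAdd_inv, Pi.neg_apply]; exact (dvd_neg).2 (ha i) }
      refine ⟨U, hpo.preimage (continuous_toAdd.comp hφ), fun x _ hx => ?_⟩
      choose w hw using hx
      show ψ (Multiplicative.toAdd (φ x)) = 0
      have h2 : Multiplicative.toAdd (φ x) = p • w := by
        funext i
        rw [hw i, pow_one, Pi.smul_apply, nsmul_eq_mul]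
      rw [h2, hψp]
    have hzero := noUr_ch h χ hχ (by
      intro I' hI' x hx _
      obtain ⟨g, rfl⟩ := trans_wild h1 I hI I' hI'
      obtain ⟨z, hz, rfl⟩ := hx
      have h5 : χ ((MulAut.conj g).toMonoidHom z) = χ z := hχ.conj (Subgroup.mem_top g) (Subgroup.mem_top z)
      rw [h5]
      exact hψ _ ⟨z, hz, rfl⟩) (by
      rintro _ ⟨P, hP, hpP, rfl⟩ x hx _
      show ψ (Multiplicative.toAdd (φ x)) = 0
      rw [phi_tame hφ hP hpP hx, toAdd_one, map_zero])
    refine AddMonoidHom.ext fun v => ?_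
    obtain ⟨g, hg⟩ := hs (Multiplicative.ofAdd v)
    have := hzero g
    show ψ v = 0
    rw [← this]
    show ψ v = ψ (Multiplicative.toAdd (φ g))
    rw [hg]; rfl
  intro v
  have : Multiplicative.toAdd v ∈ A := by rw [hA]; trivial
  exact this

end

end Pool.Agent.Helper832_EG
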