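import Pool.Agent.Helper832_EG.Fld2

set_option linter.style.haveILetI false
set_option linter.unusedSectionVars false
set_option linter.unusedVariables false

namespace Pool.Agent.Helper832_EG

open NumberField Pool.Agent.W569.FM Pool.Agent.W571.FM Pool.Agent.R417.FK IntermediateField

section
variable {E : Type} [Field E] [NumberField E] {p : ℕ} [hp : Fact p.Prime] {r : ℕ}

/-- Only finitely many primes below ramify in a finite extension. -/
lemma finite_ram (F : IntermediateField E (AlgebraicClosure E)) [FiniteDimensional E F] :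
    ∃ S : Set (Ideal (𝓞 E)), S.Finite ∧ ∀ P : Ideal (OO E), P.IsMaximal → ¬ (inertia P ≤ F.fixingSubgroup) →
      cm P ∈ S := by
  classical
  obtain ⟨α, hα⟩ := Field.exists_primitive_element E F
  have halg : IsAlgebraic ℤ (α : AlgebraicClosure E) := by
    haveI : Algebra.IsAlgebraic ℚ (AlgebraicClosure E) := Algebra.IsAlgebraic.trans ℚ E _
    have h1 : IsAlgebraic ℚ (α : AlgebraicClosure E) := Algebra.IsAlgebraic.isAlgebraic _
    exact (IsFractionRing.isAlgebraic_iff ℤ ℚ (AlgebraicClosure E)).2 h1
  obtain ⟨n, hn, hint⟩ := halg.exists_integral_multiple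
  let a : OO E := ⟨n • (α : AlgebraicClosure E), hint⟩
  have ha : ((a : OO E) : AlgebraicClosure E) = n • (α : AlgebraicClosure E) := rfl
  -- an automorphism fixing `a` fixes `F`
  have hfix : ∀ σ : GF E, σ • a = a → σ ∈ F.fixingSubgroup := by
    intro σ hσ
    have h1 : σ (n • (α : AlgebraicClosure E)) = n • (α : AlgebraicClosure E) :=
      congrArg (fun z : OO E => (z : AlgebraicClosure E)) hσ
    rw [map_zsmul] at h1
    have h2 : σ (α : AlgebraicClosure E) = α := by
      have h3 : (n : ℤ) • (σ (α : AlgebraicClosure E) - α) = 0 := by rw [smul_sub, h1, sub_self]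
      rcases smul_eq_zero.1 h3 with h4 | h4
      · exact absurd h4 hn
      · exact sub_eq_zero.1 h4
    rw [IntermediateField.mem_fixingSubgroup_iff]
    intro x hx
    have h3 : (⟨x, hx⟩ : F) ∈ (E⟮α⟯ : IntermediateField E F) := by rw [hα]; trivial
    have h4 : ∀ y : F, y ∈ (E⟮α⟯ : IntermediateField E F) → σ (y : AlgebraicClosure E) = y := by
      intro y hy
      refine IntermediateField.adjoin_induction E (p := fun (y : F) _ => σ (y : AlgebraicClosure E) = y) ?_ ?_ ?_ ?_ ?_ hy
      · intro z hz
        rw [Set.mem_singleton_iff.1 hz]; exact h2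
      · intro z
        exact σ.commutes z
      · intro u v _ _ hu hv
        simp only [IntermediateField.coe_add, map_add, hu, hv]
      · intro u _ hu
        simp only [IntermediateField.coe_inv, map_inv₀, hu]
      · intro u v _ _ hu hv
        simp only [IntermediateField.coe_mul, map_mul, hu, hv]
    exact h4 _ h3
  let D : Set (OO E) := Set.range (fun σ : GF E => σ • a - a)
  have hDfin : D.Finite := by
    have h1 : (Set.range (fun σ : GF E => σ • a)).Finite := by
      have h2 : ((minpoly E ((a : OO E) : AlgebraicClosure E)).rootSet (AlgebraicClosure E)).Finite := Set.toFinite _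
      refine Set.Finite.of_finite_image (f := fun z : OO E => (z : AlgebraicClosure E)) (h2.subset ?_)
        (RingOfIntegers.coe_injective.injOn)
      rintro _ ⟨_, ⟨σ, rfl⟩, rfl⟩
      rw [Polynomial.mem_rootSet]
      refine ⟨minpoly.ne_zero (Algebra.IsIntegral.isIntegral _), ?_⟩
      show Polynomial.aeval (σ ((a : OO E) : AlgebraicClosure E)) _ = 0
      rw [Polynomial.aeval_algHom_apply, minpoly.aeval, map_zero]
    have h3 : D = (fun z => z - a) '' (Set.range (fun σ : GF E => σ • a)) := by
      ext z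
      constructor
      · rintro ⟨σ, rfl⟩; exact ⟨_, ⟨σ, rfl⟩, rfl⟩
      · rintro ⟨_, ⟨σ, rfl⟩, rfl⟩; exact ⟨σ, rfl⟩
    rw [h3]; exact h1.image _
  haveI : Algebra.IsIntegral (𝓞 E) (OO E) := ⟨fun x => (RingOfIntegers.isIntegral x).tower_top⟩
  let S : Set (Ideal (𝓞 E)) := ⋃ d ∈ D \ {0}, {v | v ∣ (Ideal.span {d}).comap (algebraMap (𝓞 E) (OO E))}
  refine ⟨S, ?_, ?_⟩
  · refine (hDfin.subset Set.sdiff_subset).biUnion fun d hd => ?_
    have hne : (Ideal.span {d}).comap (algebraMap (𝓞 E) (OO E)) ≠ ⊥ :=
      Ideal.comap_ne_bot_of_integral_mem (fun h => hd.2 h) (Ideal.mem_span_singleton_self d)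
        (Algebra.IsIntegral.isIntegral d)
    haveI := UniqueFactorizationMonoid.fintypeSubtypeDvd _ hne
    exact Set.finite_coe_iff.1 (Finite.of_fintype {x // x ∣ (Ideal.span {d}).comap (algebraMap (𝓞 E) (OO E))})
  · intro P hP hram
    obtain ⟨σ, hσ, hσF⟩ := Set.not_subset.1 hram
    have h1 : σ • a ≠ a := fun h => hσF (hfix σ h)
    have h2 : σ • a - a ∈ P := hσ a
    refine Set.mem_biUnion (x := σ • a - a) ⟨⟨σ, rfl⟩, fun h => h1 (sub_eq_zero.1 h)⟩ ?_
    show cm P ∣ _
    rw [Ideal.dvd_iff_le]
    intro x hx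
    have h3 : algebraMap (𝓞 E) (OO E) x ∈ Ideal.span {σ • a - a} := hx
    exact (Ideal.span_singleton_le_iff_mem P).2 h2 h3

/-- The kernel of every continuous homomorphism to `ℤ_p` contains the automorphisms fixing the
composite of all `ℤ_p`-extensions. -/
lemma tilde_ker (f : GF E →* Multiplicative ℤ_[p]) (hf : Continuous f) : (tilde E p).fixingSubgroup ≤ f.ker := by
  by_cases htriv : ∀ g, f g = 1
  · intro g _; exact htriv g
  push Not at htriv
  obtain ⟨g1, hg1⟩ := htriv
  let a : GF E → ℤ_[p] := fun g => Multiplicative.toAdd (f g)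
  have ha : ∀ x y, a (x * y) = a x + a y := fun x y => by
    show Multiplicative.toAdd (f (x * y)) = _
    rw [map_mul]; rfl
  have ha1 : a g1 ≠ 0 := fun h => hg1 (Multiplicative.toAdd.injective h)
  have hac : Continuous a := continuous_toAdd.comp hf
  -- minimal valuation
  obtain ⟨k, ⟨g0, hg0, hk⟩, hmin⟩ : ∃ k : ℕ, (∃ g, a g ≠ 0 ∧ (a g).valuation = k) ∧
      ∀ g, a g ≠ 0 → k ≤ (a g).valuation := by
    classical
    have hex : ∃ k : ℕ, ∃ g, a g ≠ 0 ∧ (a g).valuation = k := ⟨_, g1, ha1, rfl⟩
    exact ⟨Nat.find hex, Nat.find_spec hex, fun g hg => Nat.find_min' hex ⟨g, hg, rfl⟩⟩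
  have hdvd : ∀ g, ∃ b : ℤ_[p], a g = (p : ℤ_[p]) ^ k * b := by
    intro g
    by_cases hg : a g = 0
    · exact ⟨0, by rw [hg, mul_zero]⟩
    · have h1 := hmin g hg
      have h2 : (p : ℤ_[p]) ^ k ∣ a g := by
        rw [PadicInt.unitCoeff_spec hg]
        exact Dvd.dvd.mul_left (pow_dvd_pow _ h1) _
      exact h2
  choose b hb using hdvd
  have hpk : (p : ℤ_[p]) ^ k ≠ 0 := pow_ne_zero _ (by exact_mod_cast hp.out.ne_zero)
  have hbmul : ∀ x y, b (x * y) = b x + b y := by
    intro x y
    apply mul_left_cancel₀ hpk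
    rw [← hb, ha, hb, hb]; ring
  have hbc : Continuous b := by
    have hemb : Topology.IsEmbedding (fun x : ℤ_[p] => (p : ℤ_[p]) ^ k * x) :=
      ((continuous_const.mul continuous_id).isClosedEmbedding (fun x y h => mul_left_cancel₀ hpk h)).isEmbedding
    rw [hemb.continuous_iff]
    have : (fun x : ℤ_[p] => (p : ℤ_[p]) ^ k * x) ∘ b = a := by funext g; exact (hb g).symm
    rw [this]; exact hac
  have hbu : IsUnit (b g0) := by
    have h2 := PadicInt.unitCoeff_spec hg0
    rw [hk] at h2
    have h3 : (p : ℤ_[p]) ^ k * b g0 = (p : ℤ_[p]) ^ k * (PadicInt.unitCoeff hg0) := by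
      rw [← hb, mul_comm _ ((PadicInt.unitCoeff hg0 : ℤ_[p]ˣ) : ℤ_[p]), ← h2]
    rw [mul_left_cancel₀ hpk h3]
    exact (PadicInt.unitCoeff hg0).isUnit
  let B : GF E →* Multiplicative ℤ_[p] :=
    { toFun := fun g => Multiplicative.ofAdd (b g)
      map_one' := by
        have h1 := hbmul 1 1
        rw [mul_one] at h1
        rw [left_eq_add.1 h1]; rfl
      map_mul' := fun x y => by rw [hbmul]; rfl }
  have hBc : Continuous B := continuous_ofAdd.comp hbc
  have hBs : Function.Surjective B := by
    intro y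
    obtain ⟨w, hw⟩ := hbu.exists_right_inv
    have hcl : IsClosed {x : ℤ_[p] | ∃ g, b g = x * b g0} := by
      have h1 : IsClosed (Set.range b) := (isCompact_range hbc).isClosed
      have h2 : {x : ℤ_[p] | ∃ g, b g = x * b g0} = (fun x => x * b g0) ⁻¹' (Set.range b) := rfl
      rw [h2]; exact h1.preimage (continuous_id.mul continuous_const)
    have hall : ∀ x : ℤ_[p], x ∈ {x : ℤ_[p] | ∃ g, b g = x * b g0} := by
      intro x
      refine PadicInt.denseRange_natCast.induction_on (p := fun x => x ∈ {x : ℤ_[p] | ∃ g, b g = x * b g0}) x hcl ?_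
      intro n
      refine ⟨g0 ^ n, ?_⟩
      induction n with
      | zero =>
        have h1 := hbmul 1 1
        rw [mul_one] at h1
        rw [pow_zero, left_eq_add.1 h1]; simp
      | succ n ih => rw [pow_succ, hbmul, ih]; push_cast; ring
    obtain ⟨g, hg⟩ := hall (Multiplicative.toAdd y * w)
    refine ⟨g, Multiplicative.toAdd.injective ?_⟩
    show b g = Multiplicative.toAdd y
    rw [hg, mul_assoc, mul_comm w, hw, mul_one]
  have hker : B.ker = f.ker := by
    ext g
    rw [MonoidHom.mem_ker, MonoidHom.mem_ker]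
    constructor
    · intro h
      have h1 : b g = 0 := congrArg Multiplicative.toAdd h
      apply Multiplicative.toAdd.injective
      show a g = 0
      rw [hb, h1, mul_zero]
    · intro h
      have h1 : a g = 0 := congrArg Multiplicative.toAdd h
      rw [hb] at h1
      apply Multiplicative.toAdd.injective
      exact (mul_eq_zero.1 h1).resolve_left hpk
  have hBcl : IsClosed (B.ker : Set (GF E)) := by
    have : (B.ker : Set (GF E)) = B ⁻¹' {1} := by ext; rfl
    rw [this]; exact isClosed_singleton.preimage hBc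
  let M : IntermediateField E (AlgebraicClosure E) := IntermediateField.fixedField B.ker
  have hMfix : M.fixingSubgroup = B.ker := InfiniteGalois.fixingSubgroup_fixedField ⟨B.ker, hBcl⟩
  haveI hMg : IsGalois E M := (InfiniteGalois.normal_iff_isGalois M).1 (by rw [hMfix]; infer_instance)
  -- the isomorphism
  let ρ : GF E →* Gal(M/E) := AlgEquiv.restrictNormalHom M
  have hρs : Function.Surjective ρ := AlgEquiv.restrictNormalHom_surjective _
  have hρc : Continuous ρ := InfiniteGalois.restrictNormalHom_continuous M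
  have hρk : ρ.ker = B.ker := by
    rw [← hMfix]; exact M.restrictNormalHom_ker
  let e : Gal(M/E) ≃* Multiplicative ℤ_[p] :=
    ((QuotientGroup.quotientKerEquivOfSurjective ρ hρs).symm.trans
      (QuotientGroup.quotientMulEquivOfEq hρk)).trans (QuotientGroup.quotientKerEquivOfSurjective B hBs)
  have he : ∀ g, e (ρ g) = B g := by
    intro g
    have h1 : (QuotientGroup.quotientKerEquivOfSurjective ρ hρs).symm (ρ g) = QuotientGroup.mk g := by
      rw [MulEquiv.symm_apply_eq]; rfl
    show QuotientGroup.quotientKerEquivOfSurjective B hBs (QuotientGroup.quotientMulEquivOfEq hρk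
      ((QuotientGroup.quotientKerEquivOfSurjective ρ hρs).symm (ρ g))) = B g
    rw [h1]; rfl
  have hq : Topology.IsQuotientMap ρ := hρc.isClosedMap.isQuotientMap hρc hρs
  have hec : Continuous e := by
    rw [hq.continuous_iff]
    have : (e : Gal(M/E) → Multiplicative ℤ_[p]) ∘ ρ = B := by funext g; exact he g
    rw [this]; exact hBc
  let e' : Gal(M/E) ≃ₜ* Multiplicative ℤ_[p] :=
    { e with
      continuous_toFun := hec
      continuous_invFun := (hec.continuous_symm_of_equiv_compact_to_t2 (f := e.toEquiv)) }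
  have hMz : IsZp p M := ⟨hMg, ⟨e'⟩⟩
  have hle : M ≤ tilde E p := le_sSup hMz
  rw [← hker, ← hMfix]
  exact IntermediateField.fixingSubgroup_antitone hle

end

end Pool.Agent.Helper832_EG
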