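import Pool.Agent.Helper832_EG.Fld3

set_option linter.style.haveILetI false
set_option linter.unusedSectionVars false
set_option linter.unusedVariables false

namespace Pool.Agent.Helper832_EG

open NumberField Pool.Agent.W569.FM Pool.Agent.W571.FM Pool.Agent.R417.FK IntermediateField

section
variable {E : Type} [Field E] [NumberField E] {p : ℕ} [hp : Fact p.Prime] {r : ℕ}

/-- Roots of unity of order prime to the residue characteristic are distinct modulo `P`. -/
lemma root_cong {P : Ideal (OO E)} [hP : P.IsPrime] {N : ℕ} (hN0 : N ≠ 0) (hN : (N : OO E) ∉ P) {a b : OO E}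
    (ha : a ^ N = 1) (hb : b ^ N = 1) (h : a - b ∈ P) : a = b := by
  set c := a * b ^ (N - 1) with hc
  have hbb : b ^ (N - 1) * b = 1 := by rw [← pow_succ, Nat.sub_add_cancel (Nat.one_le_iff_ne_zero.2 hN0), hb]
  have hcN : c ^ N = 1 := by
    rw [hc, mul_pow, ha, one_mul, ← pow_mul, mul_comm, pow_mul, hb, one_pow]
  have hc1 : c - 1 ∈ P := by
    have h1 : c - 1 = (a - b) * b ^ (N - 1) := by
      rw [hc, sub_mul, mul_comm b, hbb]
    rw [h1]; exact P.mul_mem_right _ h
  by_cases hc2 : c = 1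
  · have h1 : a = c * b := by rw [hc, mul_assoc, hbb, mul_one]
    rw [h1, hc2, one_mul]
  · exfalso
    apply hN
    have h1 : (c - 1) * (∑ i ∈ Finset.range N, c ^ i) = 0 := by
      rw [mul_geom_sum, hcN, sub_self]
    have h2 : (∑ i ∈ Finset.range N, c ^ i) = 0 := (mul_eq_zero.1 h1).resolve_left (sub_ne_zero.2 hc2)
    have h3 : (∑ i ∈ Finset.range N, c ^ i) - (N : OO E) ∈ P := by
      have h4 : (∑ i ∈ Finset.range N, c ^ i) - (N : OO E) = ∑ i ∈ Finset.range N, (c ^ i - 1) := by
        rw [Finset.sum_sub_distrib]; simp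
      rw [h4]
      refine P.sum_mem fun i _ => ?_
      obtain ⟨d, hd⟩ : c - 1 ∣ c ^ i - 1 := by simpa using sub_dvd_pow_sub_pow c 1 i
      rw [hd]; exact P.mul_mem_right _ hc1
    rw [h2, zero_sub] at h3
    simpa using P.neg_mem h3

lemma prim_pow_modEq {L : Type*} [Field L] {ζ : L} {N : ℕ} (hN : N ≠ 0) (hζ : IsPrimitiveRoot ζ N) {a b : ℕ}
    (h : ζ ^ a = ζ ^ b) : a ≡ b [MOD N] := by
  have key : ∀ a b : ℕ, b ≤ a → ζ ^ a = ζ ^ b → b ≡ a [MOD N] := by
    intro a b hab h
    have h1 : ζ ^ b * ζ ^ (a - b) = ζ ^ b * 1 := by rw [← pow_add, Nat.add_sub_cancel' hab, h, mul_one]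
    have h2 : ζ ^ (a - b) = 1 := mul_left_cancel₀ (pow_ne_zero _ (hζ.ne_zero hN)) h1
    exact (Nat.modEq_iff_dvd' hab).2 ((hζ.pow_eq_one_iff_dvd _).1 h2)
  rcases le_total b a with hab | hab
  · exact (key a b hab h).symm
  · exact key b a hab h.symm

/-- Frobenius elements away from `p` raise `p`-power roots of unity to the norm. -/
lemma frob_root {P : Ideal (OO E)} (hP : P.IsMaximal) (hpP : (p : OO E) ∉ P) {σ : GF E} (hσ : FrobAt (nm P) P σ)
    {n : ℕ} {ζ : AlgebraicClosure E} (hζ : ζ ^ (p ^ n) = 1) : σ ζ = ζ ^ (nm P) := by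
  have hpn : p ^ n ≠ 0 := pow_ne_zero _ hp.out.ne_zero
  have hint : IsIntegral ℤ ζ := IsIntegral.of_pow (Nat.pos_of_ne_zero hpn) (by rw [hζ]; exact isIntegral_one)
  let z : OO E := ⟨ζ, hint⟩
  have hz : z ^ (p ^ n) = 1 := RingOfIntegers.coe_injective (by
    show algebraMap (OO E) (AlgebraicClosure E) (z ^ (p ^ n)) = algebraMap (OO E) (AlgebraicClosure E) 1
    rw [map_pow, map_one]; exact hζ)
  haveI := hP.isPrime
  have h1 := root_cong (P := P) (N := p ^ n) hpn (by
    intro h
    apply hpP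
    rw [Nat.cast_pow] at h
    exact hP.isPrime.mem_of_pow_mem _ h) (a := σ • z) (b := z ^ (nm P)) (by rw [← smul_pow', hz, smul_one])
    (by rw [← pow_mul, mul_comm, pow_mul, hz, one_pow]) (hσ z)
  have h2 : algebraMap (OO E) (AlgebraicClosure E) (σ • z) = algebraMap (OO E) (AlgebraicClosure E) (z ^ (nm P)) :=
    congrArg (algebraMap (OO E) (AlgebraicClosure E)) h1
  rw [map_pow] at h2
  exact h2

lemma nm_ge_two {P : Ideal (OO E)} (hP : P.IsMaximal) : 2 ≤ nm P := by
  have h1 := nm_ne hP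
  have h2 : nm P ≠ 1 := by
    intro h3
    have h4 : Ideal.absNorm (cm P) = 1 := h3
    rw [Ideal.absNorm_eq_one_iff] at h4
    exact (cm_max hP).ne_top h4
  omega

/-- All `p`-power roots of unity lie in a finite extension of `M`; equivalently, the field `M`
contains the cyclotomic `ℤ_p`-extension up to a finite extension. -/
def CycIn (p : ℕ) (M : IntermediateField E (AlgebraicClosure E)) : Prop :=
  ∃ B : IntermediateField E (AlgebraicClosure E), FiniteDimensional E B ∧
    ∀ (n : ℕ) (ζ : AlgebraicClosure E), ζ ^ p ^ n = 1 → ζ ∈ B ⊔ M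

/-- Frobenius elements away from `p` do not fix `M`. -/
lemma frob_not_mem {M : IntermediateField E (AlgebraicClosure E)} (hM : CycIn p M)
    {P : Ideal (OO E)} (hP : P.IsMaximal) (hpP : (p : OO E) ∉ P) {σ : GF E} (hσ : FrobAt (nm P) P σ) :
    σ ∉ M.fixingSubgroup := by
  intro hmem
  obtain ⟨B, hB, hBM⟩ := hM
  haveI : Finite (GF E ⧸ B.fixingSubgroup) := Subgroup.quotient_finite_of_isOpen _ B.fixingSubgroup_isOpen
  haveI : B.fixingSubgroup.FiniteIndex := Subgroup.finiteIndex_of_finite_quotient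
  obtain ⟨n, hn0, hn⟩ : ∃ n : ℕ, 0 < n ∧ σ ^ n ∈ B.fixingSubgroup := by
    obtain ⟨n, hn, _, hn'⟩ := Subgroup.exists_pow_mem_of_index_ne_zero (H := B.fixingSubgroup)
      Subgroup.FiniteIndex.index_ne_zero σ
    exact ⟨n, hn, hn'⟩
  have hfix : σ ^ n ∈ (B ⊔ M).fixingSubgroup := by
    rw [IntermediateField.fixingSubgroup_sup]
    exact ⟨hn, Subgroup.pow_mem _ hmem n⟩
  -- all `p`-power roots of unity are fixed by `σ ^ n`
  have hroot : ∀ (m : ℕ) (ζ : AlgebraicClosure E), ζ ^ p ^ m = 1 → ζ ^ (nm P) ^ n = ζ := by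
    intro m ζ hζ
    have h1 : ∀ j : ℕ, (σ ^ j) ζ = ζ ^ (nm P) ^ j := by
      intro j
      induction j with
      | zero => simp
      | succ j ih =>
        rw [pow_succ', AlgEquiv.mul_apply, ih, map_pow, frob_root hP hpP hσ hζ, ← pow_mul, ← pow_succ']
    rw [← h1]
    exact hfix ⟨ζ, hBM m ζ hζ⟩
  have h2 := nm_ge_two hP
  have h3 : 2 ≤ (nm P) ^ n := le_trans h2 (Nat.le_self_pow hn0.ne' _)
  haveI : NeZero (p ^ (nm P) ^ n) := ⟨pow_ne_zero _ hp.out.ne_zero⟩
  haveI : HasEnoughRootsOfUnity (AlgebraicClosure E) (p ^ (nm P) ^ n) := inferInstance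
  obtain ⟨ζ, hζ⟩ := HasEnoughRootsOfUnity.exists_primitiveRoot (AlgebraicClosure E) (p ^ (nm P) ^ n)
  have h4 := hroot _ ζ hζ.pow_eq_one
  have h5 : ζ ^ ((nm P) ^ n - 1) = 1 := by
    have h6 : ζ ^ ((nm P) ^ n - 1) * ζ = 1 * ζ := by
      rw [← pow_succ, Nat.sub_add_cancel (by omega), h4, one_mul]
    exact mul_right_cancel₀ (hζ.ne_zero (NeZero.ne _)) h6
  have h7 := (hζ.pow_eq_one_iff_dvd _).1 h5
  have h8 := Nat.le_of_dvd (by omega) h7
  have h9 : (nm P) ^ n < p ^ (nm P) ^ n := Nat.lt_pow_self hp.out.one_lt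
  omega

/-- Frobenius elements away from `p` are nontrivial in `ℤ_p ^ r`. -/
lemma phi_frob {M : IntermediateField E (AlgebraicClosure E)} (hM : CycIn p M)
    {φ : GF E →* Multiplicative (Fin r → ℤ_[p])} (hk : φ.ker = M.fixingSubgroup)
    {P : Ideal (OO E)} (hP : P.IsMaximal) (hpP : (p : OO E) ∉ P) {σ : GF E} (hσ : FrobAt (nm P) P σ) : φ σ ≠ 1 := by
  intro h
  have h1 : σ ∈ φ.ker := (MonoidHom.mem_ker).2 h
  rw [hk] at h1
  exact frob_not_mem hM hP hpP hσ h1

/-- The field `K` is abelian over `E` and is the composite of `M` and of an extension `F` of `E`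
of `p`-power degree with `F ∩ M = E`. -/
structure Ext (p : ℕ) (M K F : IntermediateField E (AlgebraicClosure E)) : Prop where
  abel : IsAbelianGalois E K
  sup : F ⊔ M = K
  inf : F ⊓ M = ⊥
  deg : ∃ k : ℕ, Module.finrank E F = p ^ k

/-- `φ` identifies the Galois group of `M` with `ℤ_p ^ r`. -/
structure CoordM (M : IntermediateField E (AlgebraicClosure E)) (φ : GF E →* Multiplicative (Fin r → ℤ_[p])) : Prop where
  cont : Continuous φ
  surj : Function.Surjective φ
  ker : φ.ker = M.fixingSubgroup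

lemma frob_normalizes {P : Ideal (OO E)} {q : ℕ} (hP : P.IsPrime) (hP' : P.IsMaximal) {σ : GF E} (hσ : FrobAt q P σ) (hq : q ≠ 0) :
    ∀ τ ∈ inertia P, σ * τ * σ⁻¹ ∈ inertia P := by
  -- `σ` stabilises `P`
  have h1 : ∀ x : OO E, x ∈ P → σ • x ∈ P := by
    intro x hx
    have h2 := hσ x
    have h3 := P.add_mem h2 (P.pow_mem_of_mem hx q (Nat.pos_of_ne_zero hq))
    rwa [sub_add_cancel] at h3
  intro τ hτ x
  have h4 : (σ * τ * σ⁻¹) • x - x = σ • (τ • (σ⁻¹ • x) - σ⁻¹ • x) := by
    rw [smul_sub, smul_inv_smul, mul_smul, mul_smul]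
  rw [h4]
  exact h1 _ (hτ _)

/-- The group theoretic situation attached to an extension. -/
theorem sit_of (h1 : OnePrime E p) (h : NoUr E p) {M : IntermediateField E (AlgebraicClosure E)}
    {φ : GF E →* Multiplicative (Fin r → ℤ_[p])} (hφ : CoordM M φ)
    {K F : IntermediateField E (AlgebraicClosure E)} (hK : Ext p M K F) :
    Sit φ φ.ker K.fixingSubgroup (wildI E p) (tameI E p) F.fixingSubgroup := by
  haveI := hK.abel
  obtain ⟨k, hk⟩ := hK.deg
  haveI hFfin : FiniteDimensional E F := FiniteDimensional.of_finrank_pos (by rw [hk]; exact pow_pos hp.out.pos _)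
  have hKfix : K.fixingSubgroup = F.fixingSubgroup ⊓ φ.ker := by
    rw [← hK.sup, IntermediateField.fixingSubgroup_sup, hφ.ker]
  have habL : ∀ g h : GF E, g * h * g⁻¹ * h⁻¹ ∈ K.fixingSubgroup := by
    intro g h
    rw [← K.restrictNormalHom_ker, MonoidHom.mem_ker, map_mul, map_mul, map_mul, map_inv, map_inv]
    have h2 : AlgEquiv.restrictNormalHom K g * AlgEquiv.restrictNormalHom K h =
        AlgEquiv.restrictNormalHom K h * AlgEquiv.restrictNormalHom K g := IsMulCommutative.is_comm.comm _ _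
    rw [h2]; group
  have hFn : F.fixingSubgroup.Normal := by
    refine ⟨fun x hx g => ?_⟩
    have h2 : g * x * g⁻¹ * x⁻¹ ∈ F.fixingSubgroup := by
      have := habL g x
      rw [hKfix] at this
      exact this.1
    have h3 := F.fixingSubgroup.mul_mem h2 hx
    rwa [inv_mul_cancel_right] at h3
  haveI hFg : IsGalois E F := (InfiniteGalois.normal_iff_isGalois F).1 hFn
  have hFo : IsOpen (F.fixingSubgroup : Set (GF E)) := F.fixingSubgroup_isOpen
  have hHc : IsClosed (φ.ker : Set (GF E)) := by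
    have : (φ.ker : Set (GF E)) = φ ⁻¹' {1} := by ext; rfl
    rw [this]; exact isClosed_singleton.preimage hφ.cont
  have hpow : ∀ g : GF E, g ^ (p ^ k) ∈ F.fixingSubgroup := by
    intro g
    rw [← F.restrictNormalHom_ker, MonoidHom.mem_ker, map_pow, ← hk, ← IsGalois.card_aut_eq_finrank]
    exact pow_card_eq_one'
  have hFHtop : F.fixingSubgroup ⊔ φ.ker = ⊤ := by
    have hSo : IsOpen ((F.fixingSubgroup ⊔ φ.ker : Subgroup (GF E)) : Set (GF E)) :=
      Subgroup.isOpen_mono (H₁ := F.fixingSubgroup) le_sup_left hFo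
    have hSc : IsClosed ((F.fixingSubgroup ⊔ φ.ker : Subgroup (GF E)) : Set (GF E)) := Subgroup.isClosed_of_isOpen _ hSo
    have h2 := InfiniteGalois.fixingSubgroup_fixedField (k := E) (K := AlgebraicClosure E)
      ⟨F.fixingSubgroup ⊔ φ.ker, hSc⟩
    have h3 : IntermediateField.fixedField (F.fixingSubgroup ⊔ φ.ker) ≤ F ⊓ M := by
      refine le_inf ?_ ?_
      · calc IntermediateField.fixedField (F.fixingSubgroup ⊔ φ.ker) ≤ IntermediateField.fixedField F.fixingSubgroup :=
              IntermediateField.fixedField_antitone le_sup_left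
          _ = F := InfiniteGalois.fixedField_fixingSubgroup F
      · calc IntermediateField.fixedField (F.fixingSubgroup ⊔ φ.ker) ≤ IntermediateField.fixedField φ.ker :=
              IntermediateField.fixedField_antitone le_sup_right
          _ = M := by rw [hφ.ker]; exact InfiniteGalois.fixedField_fixingSubgroup _
    rw [hK.inf, le_bot_iff] at h3
    have h4 : (IntermediateField.fixedField (F.fixingSubgroup ⊔ φ.ker)).fixingSubgroup = F.fixingSubgroup ⊔ φ.ker := h2
    rw [← h4, h3, IntermediateField.fixingSubgroup_bot]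
  refine
    { d :=
        { closedH := hHc
          ab := fun g h => by
            rw [MonoidHom.mem_ker, map_mul, map_mul, map_mul, map_inv, map_inv, mul_comm (φ g), mul_assoc,
              mul_assoc, ← mul_assoc (φ g), mul_inv_cancel, one_mul, mul_inv_cancel]
          pro := ?_
          conjW := conj_wild p
          conjT := conj_tame p
          closedW := by
            rintro _ ⟨P, _, _, rfl⟩
            exact inertia_isClosed P
          neW := exists_wild
          transW := trans_wild h1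
          surjW := ?_
          tame := by
            rintro _ ⟨P, hP, hpP, rfl⟩ τ hτ
            exact (MonoidHom.mem_ker).2 (phi_tame hφ.cont hP hpP hτ)
          noUr := noUr_ch h }
      cont := hφ.cont
      ker := rfl
      LH := by rw [hKfix]; exact inf_le_right
      closedL := InfiniteGalois.fixingSubgroup_isClosed K
      abL := habL
      fin := ?_
      pgrp := ?_
      surjW := phi_wild h1 h hφ.cont hφ.surj
      surjF := ?_
      tameFin := ?_ }
  · intro U hU g
    obtain ⟨N, hN⟩ := ProfiniteGrp.exist_openNormalSubgroup_sub_open_nhds_of_one hU U.one_mem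
    have hNopen : IsOpen ((N : Subgroup (GF E)) : Set (GF E)) := N.isOpen'
    haveI hNn : (N : Subgroup (GF E)).Normal := N.isNormal'
    haveI : Finite (GF E ⧸ (N : Subgroup (GF E))) := Subgroup.quotient_finite_of_isOpen _ hNopen
    haveI : (N : Subgroup (GF E)).FiniteIndex := Subgroup.finiteIndex_of_finite_quotient
    set n := (N : Subgroup (GF E)).index with hn
    have hn0 : n ≠ 0 := Subgroup.FiniteIndex.index_ne_zero
    obtain ⟨a, u, hu, hnu⟩ := Nat.exists_eq_pow_mul_and_not_dvd hn0 p hp.out.ne_one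
    have huu : IsUnit ((u : ℤ_[p])) := by
      rw [PadicInt.isUnit_iff, PadicInt.norm_natCast_eq_one_iff]
      exact (Nat.Prime.coprime_iff_not_dvd hp.out).2 hu
    obtain ⟨w, hw⟩ := huu.exists_right_inv
    obtain ⟨g', hg'⟩ := hφ.surj (Multiplicative.ofAdd (w • Multiplicative.toAdd (φ g)))
    have h2 : g' ^ n ∈ (N : Subgroup (GF E)) := Subgroup.pow_index_mem _ _
    refine ⟨a, (g ^ (p ^ a))⁻¹ * g' ^ n, ?_, ?_⟩
    · rw [MonoidHom.mem_ker, map_mul, map_inv, map_pow, map_pow, hg', inv_mul_eq_one]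
      apply Multiplicative.toAdd.injective
      rw [toAdd_pow, toAdd_pow, toAdd_ofAdd, hnu]
      funext i
      simp only [Pi.smul_apply, nsmul_eq_mul, smul_eq_mul, Nat.cast_mul]
      rw [mul_assoc, ← mul_assoc (u : ℤ_[p]), hw, one_mul]
    · rw [mul_inv_cancel_left]
      exact hN h2
  · intro I hI g
    obtain ⟨s, hs, hsg⟩ := phi_wild h1 h hφ.cont hφ.surj I hI (φ g)
    exact ⟨g * s⁻¹, by rw [MonoidHom.mem_ker, map_mul, map_inv, hsg, mul_inv_cancel], s, hs, by group⟩
  · haveI : Finite (GF E ⧸ F.fixingSubgroup) := Subgroup.quotient_finite_of_isOpen _ hFo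
    haveI : F.fixingSubgroup.FiniteIndex := Subgroup.finiteIndex_of_finite_quotient
    have h2 : K.fixingSubgroup.subgroupOf φ.ker = F.fixingSubgroup.subgroupOf φ.ker := by
      rw [hKfix, Subgroup.inf_subgroupOf_right]
    rw [h2]; infer_instance
  · refine ⟨k, fun h hh => ?_⟩
    rw [hKfix]
    exact ⟨hpow h, Subgroup.pow_mem _ hh _⟩
  · intro v
    obtain ⟨g, hg⟩ := hφ.surj v
    have h2 : g ∈ ((F.fixingSubgroup ⊔ φ.ker : Subgroup (GF E)) : Set (GF E)) := by rw [hFHtop]; trivial
    rw [Subgroup.mul_normal] at h2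
    obtain ⟨s, hs, t, ht, rfl⟩ := h2
    exact ⟨s, hs, by rw [← hg, map_mul, (MonoidHom.mem_ker).1 ht, mul_one]⟩
  · obtain ⟨S, hS, hSram⟩ := finite_ram F
    classical
    -- choose one prime above each element of `S`
    let c : Ideal (𝓞 E) → Subgroup (GF E) := fun v =>
      if h : ∃ P : Ideal (OO E), P.IsMaximal ∧ (p : OO E) ∉ P ∧ cm P = v then inertia h.choose else ⊥
    refine ⟨(c '' S) ∩ tameI E p, (hS.image c).inter_of_left _, Set.inter_subset_right, ?_⟩
    rintro _ ⟨P, hP, hpP, rfl⟩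
    by_cases hPF : inertia P ≤ F.fixingSubgroup
    · left
      rw [hKfix]
      exact le_inf hPF (fun τ hτ => (MonoidHom.mem_ker).2 (phi_tame hφ.cont hP hpP hτ))
    · right
      have hv := hSram P hP hPF
      have hex : ∃ P' : Ideal (OO E), P'.IsMaximal ∧ (p : OO E) ∉ P' ∧ cm P' = cm P := ⟨P, hP, hpP, rfl⟩
      have hc : c (cm P) = inertia hex.choose := dif_pos hex
      refine ⟨c (cm P), ⟨⟨_, hv, rfl⟩, ?_⟩, ?_⟩
      · rw [hc]; exact ⟨_, hex.choose_spec.1, hex.choose_spec.2.1, rfl⟩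
      · rw [hc]
        exact conj_of_cm hex.choose_spec.1 hP hex.choose_spec.2.2

end

end Pool.Agent.Helper832_EG
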