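import Pool.Agent.Helper832_EG.Del

set_option linter.style.haveILetI false
set_option linter.unusedSectionVars false
set_option linter.unusedVariables false

namespace Pool.Agent.Helper832_EG

section
variable {p : ℕ} [Fact p.Prime] {G : Type*} [Group G] [TopologicalSpace G] [IsTopologicalGroup G]

/-- The function `ψ` restricts to a continuous homomorphism on the subgroup `L`. -/
def IsCh (L : Subgroup G) (ψ : G → ZMod p) : Prop :=
  (∀ x ∈ L, ∀ y ∈ L, ψ (x * y) = ψ x + ψ y) ∧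
    ∃ U : Subgroup G, IsOpen (U : Set G) ∧ ∀ x ∈ L, x ∈ U → ψ x = 0

namespace IsCh
variable {L : Subgroup G} {ψ : G → ZMod p} (h : IsCh L ψ)
include h

lemma mul {x y : G} (hx : x ∈ L) (hy : y ∈ L) : ψ (x * y) = ψ x + ψ y := h.1 x hx y hy

lemma one : ψ 1 = 0 := by
  have := h.mul L.one_mem L.one_mem
  rw [mul_one] at this
  exact left_eq_add.1 this

lemma inv {x : G} (hx : x ∈ L) : ψ x⁻¹ = - ψ x := by
  have := h.mul (L.inv_mem hx) hx
  rw [inv_mul_cancel, h.one] at this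
  exact (neg_eq_of_add_eq_zero_left this.symm).symm

lemma pow {x : G} (hx : x ∈ L) (n : ℕ) : ψ (x ^ n) = n • ψ x := by
  induction n with
  | zero => rw [pow_zero, h.one, zero_smul]
  | succ n ih => rw [pow_succ, h.mul (L.pow_mem hx n) hx, ih, succ_nsmul]

lemma conj {x y : G} (hx : x ∈ L) (hy : y ∈ L) : ψ (x * y * x⁻¹) = ψ y := by
  rw [h.mul (L.mul_mem hx hy) (L.inv_mem hx), h.mul hx hy, h.inv hx]; ring

lemma mono {L' : Subgroup G} (hL : L' ≤ L) : IsCh L' ψ :=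
  ⟨fun x hx y hy => h.1 x (hL hx) y (hL hy), by
    obtain ⟨U, hU, hU'⟩ := h.2
    exact ⟨U, hU, fun x hx => hU' x (hL hx)⟩⟩

end IsCh

/-- The difference between the conjugate by `g` and the function. -/
def del (g : G) (ψ : G → ZMod p) : G → ZMod p := fun x => ψ (g * x * g⁻¹) - ψ x

lemma isOpen_comap_conj (U : Subgroup G) (hU : IsOpen (U : Set G)) (g : G) :
    IsOpen ((U.comap (MulAut.conj g).toMonoidHom : Subgroup G) : Set G) := by
  have : Continuous (fun x : G => g * x * g⁻¹) := by fun_prop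
  exact hU.preimage this

lemma IsCh.conj_act {L : Subgroup G} [hL : L.Normal] {ψ : G → ZMod p} (h : IsCh L ψ) (g : G) :
    IsCh L (fun x => ψ (g * x * g⁻¹)) := by
  obtain ⟨U, hU, hU'⟩ := h.2
  refine ⟨fun x hx y hy => ?_, U.comap (MulAut.conj g).toMonoidHom, isOpen_comap_conj U hU g, ?_⟩
  · show ψ (g * (x * y) * g⁻¹) = ψ (g * x * g⁻¹) + ψ (g * y * g⁻¹)
    rw [← h.mul (hL.conj_mem x hx g) (hL.conj_mem y hy g)]
    congr 1; group
  · intro x hx hxU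
    exact hU' _ (hL.conj_mem x hx g) hxU

lemma IsCh.sub {L : Subgroup G} {ψ ψ' : G → ZMod p} (h : IsCh L ψ) (h' : IsCh L ψ') :
    IsCh L (fun x => ψ x - ψ' x) := by
  obtain ⟨U, hU, hU'⟩ := h.2
  obtain ⟨V, hV, hV'⟩ := h'.2
  refine ⟨fun x hx y hy => ?_, U ⊓ V, hU.inter hV, fun x hx hxU => ?_⟩
  · show ψ (x * y) - ψ' (x * y) = (ψ x - ψ' x) + (ψ y - ψ' y)
    rw [h.mul hx hy, h'.mul hx hy]; ring
  · show ψ x - ψ' x = 0
    rw [hU' x hx hxU.1, hV' x hx hxU.2, sub_zero]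

lemma IsCh.add {L : Subgroup G} {ψ ψ' : G → ZMod p} (h : IsCh L ψ) (h' : IsCh L ψ') :
    IsCh L (ψ + ψ') := by
  obtain ⟨U, hU, hU'⟩ := h.2
  obtain ⟨V, hV, hV'⟩ := h'.2
  refine ⟨fun x hx y hy => ?_, U ⊓ V, hU.inter hV, fun x hx hxU => ?_⟩
  · show ψ (x * y) + ψ' (x * y) = (ψ x + ψ' x) + (ψ y + ψ' y)
    rw [h.mul hx hy, h'.mul hx hy]; ring
  · show ψ x + ψ' x = 0
    rw [hU' x hx hxU.1, hV' x hx hxU.2, add_zero]

lemma IsCh.smul {L : Subgroup G} {ψ : G → ZMod p} (h : IsCh L ψ) (c : ZMod p) : IsCh L (c • ψ) := by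
  obtain ⟨U, hU, hU'⟩ := h.2
  refine ⟨fun x hx y hy => ?_, U, hU, fun x hx hxU => ?_⟩
  · show c * ψ (x * y) = c * ψ x + c * ψ y
    rw [h.mul hx hy]; ring
  · show c * ψ x = 0
    rw [hU' x hx hxU, mul_zero]

lemma isCh_zero (L : Subgroup G) : IsCh L (0 : G → ZMod p) :=
  ⟨fun _ _ _ _ => by simp, ⊤, isOpen_univ, fun _ _ _ => rfl⟩

lemma IsCh.congr {L : Subgroup G} {ψ ψ' : G → ZMod p} (h : IsCh L ψ) (hh : ∀ x ∈ L, ψ' x = ψ x) : IsCh L ψ' := by
  obtain ⟨U, hU, hU'⟩ := h.2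
  refine ⟨fun x hx y hy => ?_, U, hU, fun x hx hxU => ?_⟩
  · rw [hh _ (L.mul_mem hx hy), hh x hx, hh y hy, h.mul hx hy]
  · rw [hh x hx, hU' x hx hxU]

lemma IsCh.del {L : Subgroup G} [hL : L.Normal] {ψ : G → ZMod p} (h : IsCh L ψ) (g : G) : IsCh L (del g ψ) :=
  (h.conj_act g).sub h

/-- A family of subgroups closed under conjugation. -/
def ConjClosed (J : Set (Subgroup G)) : Prop := ∀ I ∈ J, ∀ g : G, I.map (MulAut.conj g).toMonoidHom ∈ J

/-- The function `ψ` vanishes on `I ∩ M` for all `I` in the family. -/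
def Van (J : Set (Subgroup G)) (M : Subgroup G) (ψ : G → ZMod p) : Prop := ∀ I ∈ J, ∀ x ∈ I, x ∈ M → ψ x = 0

lemma mem_map_conj {I : Subgroup G} {x : G} (hx : x ∈ I) (g : G) :
    g * x * g⁻¹ ∈ I.map (MulAut.conj g).toMonoidHom := ⟨x, hx, rfl⟩

lemma Van.conj_act {J : Set (Subgroup G)} (hJ : ConjClosed J) {M : Subgroup G} [hM : M.Normal] {ψ : G → ZMod p}
    (h : Van J M ψ) (g : G) : Van J M (fun x => ψ (g * x * g⁻¹)) := by
  intro I hI x hx hxM
  exact h _ (hJ I hI g) _ (mem_map_conj hx g) (hM.conj_mem x hxM g)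

lemma Van.del {J : Set (Subgroup G)} (hJ : ConjClosed J) {M : Subgroup G} [hM : M.Normal] {ψ : G → ZMod p}
    (h : Van J M ψ) (g : G) : Van J M (del g ψ) := by
  intro I hI x hx hxM
  show ψ (g * x * g⁻¹) - ψ x = 0
  rw [h _ (hJ I hI g) _ (mem_map_conj hx g) (hM.conj_mem x hxM g), h I hI x hx hxM, sub_zero]

/-- The commutator function. -/
def Psi (g : G) (ψ : G → ZMod p) : G → ZMod p := fun h => ψ (g * h * g⁻¹ * h⁻¹)

lemma Psi_eq_del {L : Subgroup G} [hL : L.Normal] {ψ : G → ZMod p} (h : IsCh L ψ) (g : G) {x : G} (hx : x ∈ L) :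
    Psi g ψ x = del g ψ x := by
  show ψ (g * x * g⁻¹ * x⁻¹) = ψ (g * x * g⁻¹) - ψ x
  rw [h.mul (hL.conj_mem x hx g) (L.inv_mem hx), h.inv hx, sub_eq_add_neg]

lemma Psi_isCh {H L : Subgroup G} [hH : H.Normal] [hL : L.Normal] (hab : ∀ g h : G, g * h * g⁻¹ * h⁻¹ ∈ L)
    {ψ : G → ZMod p} (h : IsCh L ψ) (hinv : ∀ y ∈ H, ∀ x ∈ L, ψ (y * x * y⁻¹) = ψ x) (g : G) :
    IsCh H (Psi g ψ) := by
  obtain ⟨U, hU, hU'⟩ := h.2
  refine ⟨fun x hx y hy => ?_, U ⊓ U.comap (MulAut.conj g).toMonoidHom, hU.inter (isOpen_comap_conj U hU g), ?_⟩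
  · show ψ (g * (x * y) * g⁻¹ * (x * y)⁻¹) = ψ (g * x * g⁻¹ * x⁻¹) + ψ (g * y * g⁻¹ * y⁻¹)
    have h1 : g * (x * y) * g⁻¹ * (x * y)⁻¹ = (g * x * g⁻¹ * x⁻¹) * (x * (g * y * g⁻¹ * y⁻¹) * x⁻¹) := by group
    rw [h1, h.mul (hab g x) (hL.conj_mem _ (hab g y) x), hinv x hx _ (hab g y)]
  · intro x hx hxU
    exact hU' _ (hab g x) (U.mul_mem hxU.2 (U.inv_mem hxU.1))

/-- The conjugation operator on functions. -/
def opc (g : G) : Module.End (ZMod p) (G → ZMod p) := LinearMap.funLeft (ZMod p) (ZMod p) (fun x => g * x * g⁻¹)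

lemma opc_apply (g : G) (ψ : G → ZMod p) (x : G) : opc g ψ x = ψ (g * x * g⁻¹) := rfl

lemma opc_pow (g : G) (ψ : G → ZMod p) (n : ℕ) (x : G) : ((opc g) ^ n) ψ x = ψ (g ^ n * x * (g ^ n)⁻¹) := by
  induction n generalizing ψ x with
  | zero => simp
  | succ n ih =>
    rw [pow_succ, Module.End.mul_apply, ih, opc_apply]
    congr 1
    rw [pow_succ']; group

/-- A nonzero unramified character on a normal subgroup can be replaced by an invariant one. -/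
lemma exists_inv_unr [CompactSpace G] [T2Space G] [TotallyDisconnectedSpace G] {H : Subgroup G} [hH : H.Normal]
    (hab : ∀ g h : G, g * h * g⁻¹ * h⁻¹ ∈ H)
    (hp : ∀ U : Subgroup G, IsOpen (U : Set G) → ∀ g : G, ∃ k : ℕ, ∃ h ∈ H, g ^ (p ^ k) * h ∈ U)
    {J : Set (Subgroup G)} (hJ : ConjClosed J) {ψ : G → ZMod p} (hψ : IsCh H ψ) (hv : Van J H ψ)
    {x0 : G} (hx0 : x0 ∈ H) (hne : ψ x0 ≠ 0) :
    ∃ χ : G → ZMod p, IsCh H χ ∧ Van J H χ ∧ (∀ g, ∀ x ∈ H, χ (g * x * g⁻¹) = χ x) ∧ ∃ x ∈ H, χ x ≠ 0 := by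
  classical
  obtain ⟨U0, hU0, hU0'⟩ := hψ.2
  obtain ⟨U, hUU0⟩ := ProfiniteGrp.exist_openNormalSubgroup_sub_open_nhds_of_one hU0 U0.one_mem
  have hUopen : IsOpen ((U : Subgroup G) : Set G) := U.isOpen'
  have hUn : (U : Subgroup G).Normal := U.isNormal'
  let C : Submodule (ZMod p) (G → ZMod p) :=
    { carrier := {v | (∀ x ∉ H, v x = 0) ∧ (∀ x ∈ H, ∀ y ∈ H, v (x * y) = v x + v y) ∧
        (∀ x ∈ H, x ∈ (U : Subgroup G) → v x = 0) ∧ Van J H v}
      add_mem' := by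
        rintro a b ⟨h1, h2, h3, h4⟩ ⟨h1', h2', h3', h4'⟩
        refine ⟨fun x hx => ?_, fun x hx y hy => ?_, fun x hx hxU => ?_, fun I hI x hx hxH => ?_⟩
        · rw [Pi.add_apply, h1 x hx, h1' x hx, add_zero]
        · rw [Pi.add_apply, Pi.add_apply, Pi.add_apply, h2 x hx y hy, h2' x hx y hy]; ring
        · rw [Pi.add_apply, h3 x hx hxU, h3' x hx hxU, add_zero]
        · rw [Pi.add_apply, h4 I hI x hx hxH, h4' I hI x hx hxH, add_zero]
      zero_mem' := ⟨fun _ _ => rfl, fun _ _ _ _ => by simp, fun _ _ _ => rfl, fun _ _ _ _ _ => rfl⟩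
      smul_mem' := by
        rintro c a ⟨h1, h2, h3, h4⟩
        refine ⟨fun x hx => ?_, fun x hx y hy => ?_, fun x hx hxU => ?_, fun I hI x hx hxH => ?_⟩
        · rw [Pi.smul_apply, h1 x hx, smul_zero]
        · rw [Pi.smul_apply, Pi.smul_apply, Pi.smul_apply, h2 x hx y hy, smul_add]
        · rw [Pi.smul_apply, h3 x hx hxU, smul_zero]
        · rw [Pi.smul_apply, h4 I hI x hx hxH, smul_zero] }
  have hCch : ∀ v ∈ C, IsCh H v := fun v hv => ⟨hv.2.1, (U : Subgroup G), hUopen, hv.2.2.1⟩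
  have hfin : Finite C := by
    haveI : Finite (G ⧸ (U : Subgroup G)) := Subgroup.quotient_finite_of_isOpen _ hUopen
    haveI : (U : Subgroup G).FiniteIndex := Subgroup.finiteIndex_of_finite_quotient
    haveI : Finite (H ⧸ (U : Subgroup G).subgroupOf H) := inferInstance
    refine Finite.of_injective (β := (H ⧸ (U : Subgroup G).subgroupOf H) → ZMod p)
      (fun v q => v.1 (q.out : H)) ?_
    intro v w hvw
    apply Subtype.ext
    funext x
    by_cases hx : x ∈ H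
    · set q : H ⧸ (U : Subgroup G).subgroupOf H := QuotientGroup.mk (⟨x, hx⟩ : H) with hq
      obtain ⟨⟨u, huH⟩, hu⟩ := QuotientGroup.mk_out_eq_mul ((U : Subgroup G).subgroupOf H) (⟨x, hx⟩ : H)
      have huU : (u : G) ∈ (U : Subgroup G) := (Subgroup.mem_subgroupOf).1 huH
      have h1 : ((q.out : H) : G) = x * u := congrArg Subtype.val hu
      have h2 : v.1 (q.out : H) = w.1 (q.out : H) := congrFun hvw q
      rw [h1, v.2.2.1 x hx u u.2, w.2.2.1 x hx u u.2, v.2.2.2.1 u u.2 huU, w.2.2.2.1 u u.2 huU,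
        add_zero, add_zero] at h2
      exact h2
    · rw [v.2.1 x hx, w.2.1 x hx]
  let v0 : G → ZMod p := fun x => if x ∈ H then ψ x else 0
  have hv0 : ∀ x ∈ H, v0 x = ψ x := fun x hx => if_pos hx
  have hv0C : v0 ∈ C := by
    refine ⟨fun x hx => if_neg hx, fun x hx y hy => ?_, fun x hx hxU => ?_, fun I hI x hx hxH => ?_⟩
    · rw [hv0 _ (H.mul_mem hx hy), hv0 x hx, hv0 y hy, hψ.mul hx hy]
    · rw [hv0 x hx]; exact hU0' x hx (hUU0 hxU)
    · rw [hv0 x hxH]; exact hv I hI x hx hxH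
  have hCne : C ≠ ⊥ := by
    intro h
    have : v0 ∈ C := hv0C
    rw [h, Submodule.mem_bot] at this
    apply hne
    rw [← hv0 x0 hx0, this]; rfl
  obtain ⟨χ, hχ, hχ0, hχD⟩ := exists_fixed (Set.range (opc (p := p) (G := G))) C hfin hCne
    (by
      rintro _ ⟨g, rfl⟩
      obtain ⟨k, h, hhH, hgU⟩ := hp (U : Subgroup G) hUopen g
      refine ⟨k, fun v hv => ?_⟩
      funext x
      rw [opc_pow]
      by_cases hx : x ∈ H
      · have hch := hCch v hv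
        have h1 : g ^ (p ^ k) * x * (g ^ (p ^ k))⁻¹ =
            ((g ^ (p ^ k) * h) * (h⁻¹ * x * h) * (g ^ (p ^ k) * h)⁻¹ * (h⁻¹ * x * h)⁻¹) * (h⁻¹ * x * h) := by group
        have hy : h⁻¹ * x * h ∈ H := H.mul_mem (H.mul_mem (H.inv_mem hhH) hx) hhH
        have hcU : (g ^ (p ^ k) * h) * (h⁻¹ * x * h) * (g ^ (p ^ k) * h)⁻¹ * (h⁻¹ * x * h)⁻¹ ∈ (U : Subgroup G) := by
          have : (g ^ (p ^ k) * h) * (h⁻¹ * x * h) * (g ^ (p ^ k) * h)⁻¹ * (h⁻¹ * x * h)⁻¹ =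
            (g ^ (p ^ k) * h) * ((h⁻¹ * x * h) * (g ^ (p ^ k) * h)⁻¹ * (h⁻¹ * x * h)⁻¹) := by group
          rw [this]
          exact (U : Subgroup G).mul_mem hgU (hUn.conj_mem _ ((U : Subgroup G).inv_mem hgU) _)
        rw [h1, hch.mul (hab _ _) hy, hv.2.2.1 _ (hab _ _) hcU, zero_add]
        have h2 : h⁻¹ * x * h = h⁻¹ * x * (h⁻¹)⁻¹ := by group
        rw [h2, hch.conj (H.inv_mem hhH) hx]
      · rw [hv.1 x hx, hv.1]
        intro hmem
        apply hx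
        have := hH.conj_mem _ hmem (g ^ (p ^ k))⁻¹
        have h3 : (g ^ (p ^ k))⁻¹ * (g ^ (p ^ k) * x * (g ^ (p ^ k))⁻¹) * ((g ^ (p ^ k))⁻¹)⁻¹ = x := by group
        rwa [h3] at this)
    (by
      rintro _ ⟨g, rfl⟩ _ ⟨g', rfl⟩ v hv
      funext x
      rw [opc_apply, opc_apply, opc_apply, opc_apply]
      by_cases hx : x ∈ H
      · have hch := hCch v hv
        have h1 : g' * (g * x * g⁻¹) * g'⁻¹ =
            (g' * g * g'⁻¹ * g⁻¹) * (g * (g' * x * g'⁻¹) * g⁻¹) * (g' * g * g'⁻¹ * g⁻¹)⁻¹ := by group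
        rw [h1, hch.conj (hab g' g) (hH.conj_mem _ (hH.conj_mem x hx g') g)]
      · rw [hv.1, hv.1]
        · intro hmem
          apply hx
          have := hH.conj_mem _ (hH.conj_mem _ hmem g⁻¹) g'⁻¹
          have h3 : g'⁻¹ * (g⁻¹ * (g * (g' * x * g'⁻¹) * g⁻¹) * g⁻¹⁻¹) * g'⁻¹⁻¹ = x := by group
          rwa [h3] at this
        · intro hmem
          apply hx
          have := hH.conj_mem _ (hH.conj_mem _ hmem g'⁻¹) g⁻¹
          have h3 : g⁻¹ * (g'⁻¹ * (g' * (g * x * g⁻¹) * g'⁻¹) * g'⁻¹⁻¹) * g⁻¹⁻¹ = x := by group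
          rwa [h3] at this)
    (by
      rintro _ ⟨g, rfl⟩ v hv
      refine ⟨fun x hx => ?_, fun x hx y hy => ?_, fun x hx hxU => ?_, ?_⟩
      · rw [opc_apply]
        apply hv.1
        intro hmem
        apply hx
        have := hH.conj_mem _ hmem g⁻¹
        have h3 : g⁻¹ * (g * x * g⁻¹) * g⁻¹⁻¹ = x := by group
        rwa [h3] at this
      · rw [opc_apply, opc_apply, opc_apply, ← hv.2.1 _ (hH.conj_mem x hx g) _ (hH.conj_mem y hy g)]
        congr 1; group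
      · rw [opc_apply]
        exact hv.2.2.1 _ (hH.conj_mem x hx g) (hUn.conj_mem x hxU g)
      · exact Van.conj_act hJ hv.2.2.2 g)
  refine ⟨χ, hCch χ hχ, hχ.2.2.2, fun g x _ => congrFun (hχD _ ⟨g, rfl⟩) x, ?_⟩
  obtain ⟨x, hx⟩ := Function.ne_iff.1 hχ0
  exact ⟨x, by
    by_contra hxH
    exact hx (hχ.1 x hxH), hx⟩

end

end Pool.Agent.Helper832_EG
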