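import Pool.Agent.Helper832_EG.Grp

set_option linter.style.haveILetI false
set_option linter.unusedSectionVars false
set_option linter.unusedVariables false

namespace Pool.Agent.Helper832_EG

section
variable {p : ℕ} [Fact p.Prime] {G : Type*} [Group G] [TopologicalSpace G] [IsTopologicalGroup G]

/-- The kernel of a character on a closed subgroup is closed. -/
lemma IsCh.isClosed_ker {H : Subgroup G} (hHc : IsClosed (H : Set G)) {ψ : G → ZMod p} (h : IsCh H ψ) :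
    IsClosed {x : G | x ∈ H ∧ ψ x = 0} := by
  obtain ⟨U, hU, hU'⟩ := h.2
  rw [← isOpen_compl_iff, isOpen_iff_mem_nhds]
  intro x hx
  by_cases hxH : x ∈ H
  · have hxψ : ψ x ≠ 0 := fun h0 => hx ⟨hxH, h0⟩
    have hopen : IsOpen {y : G | x⁻¹ * y ∈ U} := hU.preimage (continuous_const.mul continuous_id)
    refine Filter.mem_of_superset (hopen.mem_nhds (by simp)) ?_
    rintro y hy ⟨hyH, hy0⟩
    apply hxψ
    have h1 : ψ y = ψ x + ψ (x⁻¹ * y) := by
      rw [← h.mul hxH (H.mul_mem (H.inv_mem hxH) hyH), mul_inv_cancel_left]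
    rw [hU' _ (H.mul_mem (H.inv_mem hxH) hyH) hy, add_zero, hy0] at h1
    exact h1.symm
  · refine Filter.mem_of_superset (hHc.isOpen_compl.mem_nhds hxH) ?_
    rintro y hy ⟨hyH, _⟩
    exact hy hyH

/-- An invariant character on `H` vanishing on `I ∩ H`, where `G = H I`, extends to `G`. -/
lemma exists_extend [CompactSpace G] [T2Space G] {H : Subgroup G} [hH : H.Normal] (hHc : IsClosed (H : Set G))
    {I : Subgroup G} (hI : IsClosed (I : Set G)) (hHI : ∀ g : G, ∃ h ∈ H, ∃ s ∈ I, g = h * s)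
    {ψ : G → ZMod p} (hψ : IsCh H ψ) (hinv : ∀ g, ∀ x ∈ H, ψ (g * x * g⁻¹) = ψ x)
    (hv : ∀ x ∈ I, x ∈ H → ψ x = 0) : ∃ χ : G → ZMod p, IsCh ⊤ χ ∧ (∀ x ∈ H, χ x = ψ x) ∧ ∀ x ∈ I, χ x = 0 := by
  choose a ha b hb hab using hHI
  have key : ∀ h ∈ H, ∀ s ∈ I, ψ (a (h * s)) = ψ h := by
    intro h hh s hs
    have h1 : h * s = a (h * s) * b (h * s) := hab _
    have h2 : h⁻¹ * a (h * s) = s * (b (h * s))⁻¹ := by
      rw [eq_mul_inv_iff_mul_eq, mul_assoc, ← h1]; group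
    have h3 : ψ (h⁻¹ * a (h * s)) = 0 := by
      apply hv
      · rw [h2]; exact I.mul_mem hs (I.inv_mem (hb _))
      · exact H.mul_mem (H.inv_mem hh) (ha _)
    rw [hψ.mul (H.inv_mem hh) (ha _), hψ.inv hh] at h3
    exact (neg_add_eq_zero.1 h3).symm
  let χ : G → ZMod p := fun g => ψ (a g)
  have hmul : ∀ x y, χ (x * y) = χ x + χ y := by
    intro x y
    have h1 : x * y = (a x * (b x * a y * (b x)⁻¹)) * (b x * b y) := by
      conv_lhs => rw [hab x, hab y]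
      group
    show ψ (a (x * y)) = ψ (a x) + ψ (a y)
    rw [h1, key _ (H.mul_mem (ha x) (hH.conj_mem _ (ha y) (b x))) _ (I.mul_mem (hb x) (hb y)),
      hψ.mul (ha x) (hH.conj_mem _ (ha y) (b x)), hinv (b x) _ (ha y)]
  have hH' : ∀ x ∈ H, χ x = ψ x := by
    intro x hx
    have := key x hx 1 I.one_mem
    rwa [mul_one] at this
  have hI' : ∀ x ∈ I, χ x = 0 := by
    intro x hx
    have := key 1 H.one_mem x hx
    rw [one_mul, hψ.one] at this
    exact this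
  refine ⟨χ, ⟨fun x _ y _ => hmul x y, ?_⟩, hH', hI'⟩
  let f : G →* Multiplicative (ZMod p) :=
    { toFun := fun g => Multiplicative.ofAdd (χ g)
      map_one' := by rw [hI' 1 I.one_mem]; rfl
      map_mul' := fun x y => by rw [hmul]; rfl }
  have hker : (f.ker : Set G) = (fun q : G × G => q.1 * q.2) '' ({x : G | x ∈ H ∧ ψ x = 0} ×ˢ (I : Set G)) := by
    ext x
    constructor
    · intro hx
      have hx' : χ x = 0 := Multiplicative.ofAdd.injective ((MonoidHom.mem_ker).1 hx)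
      exact ⟨(a x, b x), ⟨⟨ha x, hx'⟩, hb x⟩, (hab x).symm⟩
    · rintro ⟨⟨y, z⟩, ⟨⟨hy, hy0⟩, hz⟩, rfl⟩
      refine (MonoidHom.mem_ker).2 ?_
      show Multiplicative.ofAdd (χ (y * z)) = 1
      rw [hmul, hH' y hy, hy0, hI' z hz, add_zero]; rfl
  have hclosed : IsClosed (f.ker : Set G) := by
    rw [hker]
    exact (((hψ.isClosed_ker hHc).isCompact.prod hI.isCompact).image continuous_mul).isClosed
  haveI : Finite (Multiplicative (ZMod p)) := inferInstanceAs (Finite (ZMod p))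
  haveI : f.ker.FiniteIndex := Subgroup.finiteIndex_ker f
  refine ⟨f.ker, Subgroup.isOpen_of_isClosed_of_finiteIndex _ hclosed, fun x _ hx => ?_⟩
  exact Multiplicative.ofAdd.injective ((MonoidHom.mem_ker).1 hx)

/-- The basic data: a normal closed subgroup `H` of `G` and families of subgroups (the inertia
groups above `p` and away from `p`). -/
structure Dat (p : ℕ) [Fact p.Prime] {G : Type*} [Group G] [TopologicalSpace G] (H : Subgroup G)
    (W Tm : Set (Subgroup G)) : Prop where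
  closedH : IsClosed (H : Set G)
  ab : ∀ g h : G, g * h * g⁻¹ * h⁻¹ ∈ H
  pro : ∀ U : Subgroup G, IsOpen (U : Set G) → ∀ g : G, ∃ k : ℕ, ∃ h ∈ H, g ^ (p ^ k) * h ∈ U
  conjW : ConjClosed W
  conjT : ConjClosed Tm
  closedW : ∀ I ∈ W, IsClosed (I : Set G)
  neW : W.Nonempty
  transW : ∀ I ∈ W, ∀ I' ∈ W, ∃ g : G, I' = I.map (MulAut.conj g).toMonoidHom
  surjW : ∀ I ∈ W, ∀ g : G, ∃ h ∈ H, ∃ s ∈ I, g = h * s
  tame : ∀ I ∈ Tm, I ≤ H
  noUr : ∀ χ : G → ZMod p, IsCh ⊤ χ → Van W ⊤ χ → Van Tm ⊤ χ → ∀ x, χ x = 0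

variable [CompactSpace G] [T2Space G] [TotallyDisconnectedSpace G]

/-- Unramified characters vanish. -/
lemma Dat.unr_zero {H : Subgroup G} [hH : H.Normal] {W Tm : Set (Subgroup G)} (d : Dat p H W Tm)
    {ψ : G → ZMod p} (hψ : IsCh H ψ) (hW : Van W H ψ) (hT : Van Tm H ψ) : ∀ x ∈ H, ψ x = 0 := by
  by_contra hcon
  push Not at hcon
  obtain ⟨x0, hx0, hx0'⟩ := hcon
  have hJ : ConjClosed (W ∪ Tm) := by
    rintro I (hI | hI) g
    · exact Or.inl (d.conjW I hI g)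
    · exact Or.inr (d.conjT I hI g)
  obtain ⟨χ, hχ, hχv, hχi, x, hx, hxne⟩ := exists_inv_unr (H := H) d.ab d.pro hJ hψ
    (by rintro I (hI | hI) x hx hxH
        · exact hW I hI x hx hxH
        · exact hT I hI x hx hxH) hx0 hx0'
  obtain ⟨I, hI⟩ := d.neW
  obtain ⟨η, hη, hηH, hηI⟩ := exists_extend d.closedH (d.closedW I hI) (d.surjW I hI) hχ hχi
    (fun x hx hxH => hχv I (Or.inl hI) x hx hxH)
  apply hxne
  rw [← hηH x hx]
  refine d.noUr η hη ?_ ?_ x
  · intro I' hI' y hy _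
    obtain ⟨g, rfl⟩ := d.transW I hI I' hI'
    obtain ⟨z, hz, rfl⟩ := hy
    have h1 : η ((MulAut.conj g).toMonoidHom z) = η z := hη.conj (Subgroup.mem_top g) (Subgroup.mem_top z)
    rw [h1]; exact hηI z hz
  · intro I' hI' y hy _
    rw [hηH y (d.tame I' hI' hy)]
    exact hχv I' (Or.inr hI') y hy (d.tame I' hI' hy)

/-- Iterated differences. -/
def dels (l : List G) (ψ : G → ZMod p) : G → ZMod p := l.foldr del ψ

/-- The key vanishing statement. -/
theorem kill {H L : Subgroup G} [hH : H.Normal] [hL : L.Normal] (hLH : L ≤ H) {W Tm : Set (Subgroup G)}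
    (d : Dat p H W Tm) (habL : ∀ g h : G, g * h * g⁻¹ * h⁻¹ ∈ L) {ψ : G → ZMod p} (hψ : IsCh L ψ)
    (hW : Van W L ψ) (hT : Van Tm L ψ) (hinv : ∀ y ∈ H, ∀ x ∈ L, ψ (y * x * y⁻¹) = ψ x)
    (l : List G) (hl : ∀ I ∈ Tm, I ≤ L ∨ ∃ f ∈ l, ∃ F : G, (∃ h ∈ H, f = h * F) ∧ ∀ x ∈ I, F * x * F⁻¹ ∈ I)
    (a b : G) : ∀ x ∈ L, dels l (del b (del a ψ)) x = 0 := by
  -- the extension to `H`
  have hΨ : IsCh H (Psi a ψ) := Psi_isCh habL hψ hinv a
  have hΨW : Van W L (Psi a ψ) := by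
    intro I hI x hx hxL
    rw [Psi_eq_del hψ a hxL]
    exact (hW.del d.conjW a) I hI x hx hxL
  have hΨT : Van Tm L (Psi a ψ) := by
    intro I hI x hx hxL
    rw [Psi_eq_del hψ a hxL]
    exact (hT.del d.conjT a) I hI x hx hxL
  -- general principle: `del f` kills `I` if `f` acts on `I` up to `H`
  have gen : ∀ (χ : G → ZMod p), IsCh H χ → ∀ I : Subgroup G, (∀ x ∈ I, x ∈ L → χ x = 0) →
      ∀ f F : G, (∃ h ∈ H, f = h * F) → (∀ x ∈ I, F * x * F⁻¹ ∈ I) → ∀ x ∈ I, x ∈ H → del f χ x = 0 := by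
    rintro χ hχ I hI f F ⟨h, hh, rfl⟩ hF x hx hxH
    show χ (h * F * x * (h * F)⁻¹) - χ x = 0
    have h1 : h * F * x * (h * F)⁻¹ = h * (F * x * F⁻¹) * h⁻¹ := by group
    rw [h1, hχ.conj hh (hH.conj_mem x hxH F)]
    have h2 : χ (F * x * F⁻¹ * x⁻¹) = 0 := hI _ (I.mul_mem (hF x hx) (I.inv_mem hx)) (habL F x)
    rw [hχ.mul (hH.conj_mem x hxH F) (H.inv_mem hxH), hχ.inv hxH, ← sub_eq_add_neg] at h2
    exact h2
  have hΨ1 : IsCh H (del b (Psi a ψ)) := hΨ.del b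
  have hΨ1W : Van W H (del b (Psi a ψ)) := by
    intro I hI x hx hxH
    obtain ⟨h, hh, s, hs, hb⟩ := d.surjW I hI b
    exact gen _ hΨ I (fun x hx hxL => hΨW I hI x hx hxL) b s ⟨h, hh, hb⟩
      (fun x hx => I.mul_mem (I.mul_mem hs hx) (I.inv_mem hs)) x hx hxH
  have hΨ1T : Van Tm L (del b (Psi a ψ)) := hΨT.del d.conjT b
  -- iterate
  have key : ∀ l : List G, IsCh H (dels l (del b (Psi a ψ))) ∧ Van W H (dels l (del b (Psi a ψ))) ∧
      Van Tm L (dels l (del b (Psi a ψ))) ∧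
      ∀ I ∈ Tm, (∃ f ∈ l, ∃ F : G, (∃ h ∈ H, f = h * F) ∧ ∀ x ∈ I, F * x * F⁻¹ ∈ I) →
        ∀ x ∈ I, dels l (del b (Psi a ψ)) x = 0 := by
    intro l
    induction l with
    | nil => exact ⟨hΨ1, hΨ1W, hΨ1T, fun I hI h => by simp at h⟩
    | cons f l ih =>
      obtain ⟨h1, h2, h3, h4⟩ := ih
      refine ⟨h1.del f, h2.del d.conjW f, h3.del d.conjT f, ?_⟩
      intro I hI hex x hx
      obtain ⟨f', hf', F, ⟨h, hh, hfF⟩, hF⟩ := hex
      rcases List.mem_cons.1 hf' with rfl | hf'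
      · exact gen _ h1 I (fun x hx hxL => h3 I hI x hx hxL) f' F ⟨h, hh, hfF⟩ hF x hx (d.tame I hI hx)
      · -- conjugates of `I` are again killed
        show dels l (del b (Psi a ψ)) (f * x * f⁻¹) - dels l (del b (Psi a ψ)) x = 0
        rw [h4 I hI ⟨f', hf', F, ⟨h, hh, hfF⟩, hF⟩ x hx]
        rw [h4 (I.map (MulAut.conj f).toMonoidHom) (d.conjT I hI f) ⟨f', hf', f * F * f⁻¹, ?_, ?_⟩
          (f * x * f⁻¹) (mem_map_conj hx f), sub_zero]
        · refine ⟨h * (F * f * F⁻¹ * f⁻¹), H.mul_mem hh (d.ab F f), ?_⟩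
          rw [hfF]; group
        · rintro _ ⟨y, hy, rfl⟩
          refine ⟨F * y * F⁻¹, hF y hy, ?_⟩
          show f * (F * y * F⁻¹) * f⁻¹ = f * F * f⁻¹ * (f * y * f⁻¹) * (f * F * f⁻¹)⁻¹
          group
  obtain ⟨h1, h2, h3, h4⟩ := key l
  have hzero := d.unr_zero h1 h2 (by
    intro I hI x hx hxH
    rcases hl I hI with hIL | hex
    · exact h3 I hI x hx (hIL hx)
    · exact h4 I hI hex x hx)
  -- compare on `L`
  have hcmp : ∀ l : List G, ∀ x ∈ L, dels l (del b (Psi a ψ)) x = dels l (del b (del a ψ)) x := by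
    intro l
    induction l with
    | nil =>
      intro x hx
      show Psi a ψ (b * x * b⁻¹) - Psi a ψ x = del a ψ (b * x * b⁻¹) - del a ψ x
      rw [Psi_eq_del hψ a hx, Psi_eq_del hψ a (hL.conj_mem x hx b)]
    | cons f l ih =>
      intro x hx
      show dels l (del b (Psi a ψ)) (f * x * f⁻¹) - dels l (del b (Psi a ψ)) x =
        dels l (del b (del a ψ)) (f * x * f⁻¹) - dels l (del b (del a ψ)) x
      rw [ih x hx, ih _ (hL.conj_mem x hx f)]
  intro x hx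
  rw [← hcmp l x hx]
  exact hzero x (hLH hx)

end

end Pool.Agent.Helper832_EG
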