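import Pool.Agent.Helper832_EG.Reg

set_option linter.style.haveILetI false
set_option linter.unusedSectionVars false
set_option linter.unusedVariables false

namespace Pool.Agent.Helper832_EG

section
variable {p : ℕ} [Fact p.Prime] {r : ℕ}

lemma Module.exists_dual_map_ne_zero' {V : Type*} [AddCommGroup V] [Module (ZMod p) V] {v : V} (hv : v ≠ 0) :
    ∃ f : Module.Dual (ZMod p) V, f v ≠ 0 := by
  by_contra h
  push Not at h
  exact hv ((Module.forall_dual_apply_eq_zero_iff (ZMod p) v).1 h)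

lemma exists_char {X : Type*} [AddCommGroup X] (M : AddSubgroup X) (hp : ∀ x : X, p • x ∈ M) {x : X}
    (hx : x ∉ M) : ∃ ψ : X →+ ZMod p, (∀ y ∈ M, ψ y = 0) ∧ ψ x ≠ 0 := by
  letI : Module (ZMod p) (X ⧸ M) := QuotientAddGroup.zmodModule hp
  have h1 : (QuotientAddGroup.mk' M x) ≠ 0 := by
    intro h
    exact hx ((QuotientAddGroup.eq_zero_iff x).1 h)
  obtain ⟨f, hf⟩ := Module.exists_dual_map_ne_zero' (p := p) (V := X ⧸ M) h1
  refine ⟨f.toAddMonoidHom.comp (QuotientAddGroup.mk' M), fun y hy => ?_, hf⟩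
  have : QuotientAddGroup.mk' M y = 0 := (QuotientAddGroup.eq_zero_iff y).2 hy
  rw [AddMonoidHom.comp_apply, this, map_zero]

variable {X : Type*} [AddCommGroup X] [TopologicalSpace X] [IsTopologicalAddGroup X] [CompactSpace X]
  [T2Space X] [Module (Lam p r) X]

/-- Scalars deep enough in the Iwasawa algebra map everything into a given open subgroup. -/
lemma exists_level_smul (hc : Continuous (fun q : Lam p r × X => q.1 • q.2)) (U : AddSubgroup X)
    (hU : IsOpen (U : Set X)) : ∃ n, ∀ f : Lam p r, f.1 n = 0 → ∀ x : X, f • x ∈ U := by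
  obtain ⟨u, v, hu, hv, hsu, htv, huv⟩ := generalized_tube_lemma (s := ({0} : Set (Lam p r)))
    isCompact_singleton (t := (Set.univ : Set X)) isCompact_univ (hU.preimage hc) (by
      rintro ⟨a, b⟩ ⟨ha, _⟩
      simp only [Set.mem_singleton_iff] at ha
      simp only [Set.mem_preimage, ha, zero_smul]
      exact U.zero_mem)
  obtain ⟨n, hn⟩ := exists_level_nhds (hu.mem_nhds (hsu (Set.mem_singleton _)))
  exact ⟨n, fun f hf x => huv (Set.mk_mem_prod (hn f hf) (htv (Set.mem_univ x)))⟩

/-- Open subgroups contain open submodules. -/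
lemma exists_open_submodule (hc : Continuous (fun q : Lam p r × X => q.1 • q.2)) (U : AddSubgroup X)
    (hU : IsOpen (U : Set X)) : ∃ W : Submodule (Lam p r) X, IsOpen (W : Set X) ∧ (W : Set X) ⊆ U := by
  let W : Submodule (Lam p r) X :=
    { carrier := {x | ∀ f : Lam p r, f • x ∈ U}
      add_mem' := fun {a b} ha hb f => by rw [smul_add]; exact U.add_mem (ha f) (hb f)
      zero_mem' := fun f => by rw [smul_zero]; exact U.zero_mem
      smul_mem' := fun c x hx f => by rw [smul_smul]; exact hx _ }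
  obtain ⟨u, v, hu, hv, hsu, htv, huv⟩ := generalized_tube_lemma (s := (Set.univ : Set (Lam p r)))
    isCompact_univ (t := ({0} : Set X)) isCompact_singleton (hU.preimage hc) (by
      rintro ⟨a, b⟩ ⟨_, hb⟩
      simp only [Set.mem_singleton_iff] at hb
      simp only [Set.mem_preimage, hb, smul_zero]
      exact U.zero_mem)
  refine ⟨W, ?_, fun x hx => by simpa using hx 1⟩
  have : IsOpen (W.toAddSubgroup : Set X) := by
    refine AddSubgroup.isOpen_of_mem_nhds W.toAddSubgroup (g := 0) ?_
    refine Filter.mem_of_superset (hv.mem_nhds (htv (Set.mem_singleton _))) ?_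
    intro x hx f
    exact huv (Set.mk_mem_prod (hsu (Set.mem_univ f)) hx)
  exact this

lemma T_pow_level (n : ℕ) (a : Fin r → ℤ_[p]) : ((T a) ^ (p ^ (n + 1) * (n + 1))).1 n = 0 := by
  -- level `n` of `T a ^ (p ^ (n+1))` is divisible by `p`
  have h1 : redL n ((T a ^ (p ^ (n + 1))).1 n) = 0 := by
    have h2 : redL n ((T a ^ (p ^ (n + 1))).1 n) = (red (T a ^ (p ^ (n + 1)))).1 n := rfl
    rw [h2, map_pow, red_T, TO_level]
  obtain ⟨y, hy⟩ := redL_eq_zero h1
  have h3 : ((T a) ^ (p ^ (n + 1) * (n + 1))).1 n = ((T a ^ (p ^ (n + 1))).1 n) ^ (n + 1) := by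
    rw [pow_mul]; rfl
  rw [h3, hy, mul_pow]
  have h4 : ((p : RL p r n)) ^ (n + 1) = ((p : Lam p r) ^ (n + 1)).1 n := rfl
  rw [h4, p_pow_level n (n + 1) (Nat.lt_succ_self n), zero_mul]

/-- Every proper open submodule is contained in the kernel of a nonzero invariant character. -/
lemma exists_inv_char (hc : Continuous (fun q : Lam p r × X => q.1 • q.2)) (U : Submodule (Lam p r) X)
    (hU : IsOpen (U : Set X)) (hUt : U ≠ ⊤) :
    ∃ ψ : X →+ ZMod p, (∀ x ∈ U, ψ x = 0) ∧ (∀ (a : Fin r → ℤ_[p]) (x : X), ψ (T a • x) = 0) ∧ ∃ x, ψ x ≠ 0 := by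
  obtain ⟨n, hn⟩ := exists_level_smul hc U.toAddSubgroup hU
  haveI : Finite (X ⧸ U) := by
    have : Finite (X ⧸ U.toAddSubgroup) := AddSubgroup.quotient_finite_of_isOpen U.toAddSubgroup hU
    exact this
  haveI : Module.Finite (Lam p r) (X ⧸ U) := Module.Finite.of_finite
  obtain ⟨M, hM, hUM⟩ : ∃ M : Submodule (Lam p r) X, IsCoatom M ∧ U ≤ M := by
    haveI : Nontrivial (X ⧸ U) := Submodule.Quotient.nontrivial_iff.2 hUt
    obtain ⟨M', hM', _⟩ := (eq_top_or_exists_le_coatom (⊥ : Submodule (Lam p r) (X ⧸ U))).resolve_left bot_ne_top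
    refine ⟨M'.comap U.mkQ, ?_, ?_⟩
    · exact (Submodule.isCoatom_comap_iff U.mkQ_surjective).2 hM'
    · intro x hx
      rw [Submodule.mem_comap]
      have : U.mkQ x = 0 := (Submodule.Quotient.mk_eq_zero U).2 hx
      rw [this]; exact M'.zero_mem
  have hnil : ∀ (f : Lam p r) (k : ℕ), (∀ x : X, f ^ k • x ∈ U) → ∀ x : X, f • x ∈ M := by
    intro f k hk
    by_contra hcon
    push Not at hcon
    obtain ⟨x0, hx0⟩ := hcon
    let V : Submodule (Lam p r) X := LinearMap.range (LinearMap.lsmul (Lam p r) X f) ⊔ M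
    have hV : V = ⊤ := by
      refine hM.2 _ (lt_of_le_of_ne le_sup_right (fun h => hx0 ?_))
      have : f • x0 ∈ V := Submodule.mem_sup_left ⟨x0, rfl⟩
      rwa [← h] at this
    have hall : ∀ j (x : X), ∃ y, x - f ^ j • y ∈ M := by
      intro j
      induction j with
      | zero => intro x; exact ⟨x, by simp⟩
      | succ j ih =>
        intro x
        obtain ⟨y, hy⟩ := ih x
        have : y ∈ V := by rw [hV]; trivial
        obtain ⟨z, ⟨w, hw⟩, m, hm, hzm⟩ := Submodule.mem_sup.1 this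
        refine ⟨w, ?_⟩
        have h1 : f • w = z := hw
        have : x - f ^ (j + 1) • w = (x - f ^ j • y) + f ^ j • m := by
          rw [pow_succ, mul_smul, h1, ← hzm, smul_add]; abel
        rw [this]
        exact M.add_mem hy (M.smul_mem _ hm)
    apply hM.1
    rw [Submodule.eq_top_iff']
    intro x
    obtain ⟨y, hy⟩ := hall k x
    have := M.add_mem hy (hUM (hk y))
    simpa using this
  have hpM : ∀ x : X, p • x ∈ M.toAddSubgroup := by
    intro x
    have := hnil (p : Lam p r) (n + 1) (fun x => hn _ (p_pow_level n (n + 1) (Nat.lt_succ_self n)) x) x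
    rwa [Nat.cast_smul_eq_nsmul] at this
  have hTM : ∀ a (x : X), T a • x ∈ M := fun a =>
    hnil (T a) _ (fun x => hn _ (T_pow_level n a) x)
  obtain ⟨x, hx⟩ : ∃ x, x ∉ M := by
    by_contra h
    push Not at h
    exact hM.1 ((Submodule.eq_top_iff').2 h)
  obtain ⟨ψ, hψ, hψx⟩ := exists_char (p := p) M.toAddSubgroup hpM (x := x) hx
  exact ⟨ψ, fun y hy => hψ y (hUM hy), fun a y => hψ _ (hTM a y), x, hψx⟩

lemma isClosed_span (hc : Continuous (fun q : Lam p r × X => q.1 • q.2)) (s : Finset X) :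
    IsClosed ((Submodule.span (Lam p r) (s : Set X) : Submodule (Lam p r) X) : Set X) := by
  have h1 : ((Submodule.span (Lam p r) (s : Set X) : Submodule (Lam p r) X) : Set X) =
      Set.range (fun c : s → Lam p r => ∑ i, c i • (i : X)) := by
    ext x
    have h2 : (s : Set X) = Set.range (fun i : s => (i : X)) := by simp
    rw [SetLike.mem_coe, h2, Submodule.mem_span_range_iff_exists_fun]
    rfl
  rw [h1]
  refine (isCompact_range ?_).isClosed
  refine continuous_finsetSum _ fun i _ => ?_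
  have h3 : Continuous (fun c : s → Lam p r => ((c i, (i : X)) : Lam p r × X)) :=
    (continuous_apply i).prodMk continuous_const
  exact hc.comp h3

/-- Topological Nakayama lemma. -/
lemma nakayama (hc : Continuous (fun q : Lam p r × X => q.1 • q.2))
    (hB : ∀ U ∈ nhds (0 : X), ∃ V : AddSubgroup X, IsOpen (V : Set X) ∧ (V : Set X) ⊆ U)
    (s : Finset X) (hs : ∀ ψ : X →+ ZMod p, IsOpen (ψ.ker : Set X) → (∀ (a : Fin r → ℤ_[p]) (x : X), ψ (T a • x) = 0) →
      (∀ x ∈ s, ψ x = 0) → ψ = 0) : Submodule.span (Lam p r) (s : Set X) = ⊤ := by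
  by_contra hcon
  obtain ⟨x, hx⟩ : ∃ x, x ∉ Submodule.span (Lam p r) (s : Set X) := by
    by_contra h
    push Not at h
    exact hcon ((Submodule.eq_top_iff').2 h)
  have hopen : IsOpen {y : X | x + y ∉ Submodule.span (Lam p r) (s : Set X)} :=
    (isClosed_span hc s).isOpen_compl.preimage (continuous_const.add continuous_id)
  obtain ⟨V, hV, hVs⟩ := hB _ (hopen.mem_nhds (by simpa using hx))
  obtain ⟨W, hW, hWV⟩ := exists_open_submodule hc V hV
  have hopenY : IsOpen ((Submodule.span (Lam p r) (s : Set X) ⊔ W : Submodule (Lam p r) X) : Set X) := by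
    have : IsOpen ((Submodule.span (Lam p r) (s : Set X) ⊔ W : Submodule (Lam p r) X).toAddSubgroup : Set X) :=
      AddSubgroup.isOpen_mono (H₁ := W.toAddSubgroup) (fun y hy => Submodule.mem_sup_right hy) hW
    exact this
  have hne : (Submodule.span (Lam p r) (s : Set X) ⊔ W : Submodule (Lam p r) X) ≠ ⊤ := by
    intro h
    have : x ∈ (Submodule.span (Lam p r) (s : Set X) ⊔ W : Submodule (Lam p r) X) := by rw [h]; trivial
    obtain ⟨y, hy, w, hw, hyw⟩ := Submodule.mem_sup.1 this
    have h1 : (-w) ∈ V := hWV (W.neg_mem hw)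
    apply hVs h1
    rw [← hyw]
    simpa using hy
  obtain ⟨ψ, hψ, hψT, z, hz⟩ := exists_inv_char hc _ hopenY hne
  have hker : IsOpen (ψ.ker : Set X) := by
    refine AddSubgroup.isOpen_mono (H₁ := (Submodule.span (Lam p r) (s : Set X) ⊔ W : Submodule (Lam p r) X).toAddSubgroup) ?_ hopenY
    intro y hy
    exact (AddMonoidHom.mem_ker).2 (hψ y hy)
  have := hs ψ hker hψT (fun y hy => hψ y (Submodule.mem_sup_left (Submodule.subset_span hy)))
  rw [this] at hz
  exact hz rfl

/-- Characters with open kernel detect divisibility by `p`. -/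
lemma mem_p_of_char (hB : ∀ U ∈ nhds (0 : X), ∃ V : AddSubgroup X, IsOpen (V : Set X) ∧ (V : Set X) ⊆ U)
    (x : X) (hx : ∀ ψ : X →+ ZMod p, IsOpen (ψ.ker : Set X) → ψ x = 0) : ∃ y : X, x = p • y := by
  by_contra hcon
  have hcl : IsClosed (Set.range (fun y : X => p • y)) :=
    (isCompact_range (continuous_nsmul p)).isClosed
  have hx' : x ∉ Set.range (fun y : X => p • y) := by
    rintro ⟨y, hy⟩
    exact hcon ⟨y, hy.symm⟩
  have hopen : IsOpen {y : X | x + y ∉ Set.range (fun y : X => p • y)} :=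
    hcl.isOpen_compl.preimage (continuous_const.add continuous_id)
  obtain ⟨V, hV, hVs⟩ := hB _ (hopen.mem_nhds (by
    show x + 0 ∉ _
    rwa [add_zero]))
  let M : AddSubgroup X := (nsmulAddMonoidHom (α := X) p).range ⊔ V
  have hM : IsOpen (M : Set X) := AddSubgroup.isOpen_mono (H₁ := V) le_sup_right hV
  have hxM : x ∉ M := by
    intro h
    obtain ⟨y, ⟨z, hz⟩, v, hv, hyv⟩ := AddSubgroup.mem_sup.1 h
    have h1 : (-v) ∈ V := V.neg_mem hv
    apply hVs h1
    rw [← hyv]
    exact ⟨z, by simpa using hz⟩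
  obtain ⟨ψ, hψ, hψx⟩ := exists_char (p := p) M (fun y => AddSubgroup.mem_sup_left ⟨y, rfl⟩) hxM
  refine hψx (hx ψ (AddSubgroup.isOpen_mono (H₁ := M) (fun y hy => (AddMonoidHom.mem_ker).2 (hψ y hy)) hM))

/-- If an element of the Iwasawa algebra maps a finitely generated module into `p` times itself,
then some element with the same reduction as one of its powers kills the module. -/
lemma exists_ann [hfin : Module.Finite (Lam p r) X] (θ : Lam p r) (hθ : ∀ x : X, ∃ y : X, θ • x = p • y) :
    ∃ N, ∃ α : Lam p r, (∀ x : X, α • x = 0) ∧ red α = red θ ^ N := by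
  obtain ⟨q, hq, _, hcoef, haev⟩ := LinearMap.exists_monic_and_natDegree_eq_and_coeff_mem_pow_and_aeval_eq_zero
    (R := Lam p r) (M := X) (LinearMap.lsmul (Lam p r) X θ) (Ideal.span {(p : Lam p r)}) (by
      rintro _ ⟨x, rfl⟩
      obtain ⟨y, hy⟩ := hθ x
      have : (LinearMap.lsmul (Lam p r) X θ) x = (p : Lam p r) • y := by
        rw [LinearMap.lsmul_apply, hy, Nat.cast_smul_eq_nsmul]
      rw [this]
      exact Submodule.smul_mem_smul (Ideal.mem_span_singleton_self _) trivial)
  refine ⟨q.natDegree, q.eval θ, fun x => ?_, ?_⟩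
  · have h1 : (Polynomial.aeval (LinearMap.lsmul (Lam p r) X θ) q) x = q.eval θ • x := by
      have : (LinearMap.lsmul (Lam p r) X θ) = Algebra.algHom (Lam p r) (Lam p r) (Module.End (Lam p r) X) θ := by
        ext x; rfl
      rw [this, Polynomial.aeval_algHom_apply]
      simp [Polynomial.aeval_def, Polynomial.eval₂_eq_eval_map]
      rfl
    rw [← h1, haev]; rfl
  · rw [Polynomial.eval_eq_sum_range, map_sum, Finset.sum_range_succ, Finset.sum_eq_zero, zero_add]
    · rw [hq.coeff_natDegree, one_mul, map_pow]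
    · intro i hi
      have hi' := Finset.mem_range.1 hi
      have h2 := hcoef i
      rw [Ideal.span_singleton_pow, Ideal.mem_span_singleton] at h2
      obtain ⟨c, hc⟩ := h2
      rw [map_mul, hc, map_mul, map_pow, red_p, zero_pow (by omega), zero_mul, zero_mul]

end

end Pool.Agent.Helper832_EG
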