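import Pool.Agent.Helper832_EG.Grp2
import Pool.Agent.Helper832_EG.Nak

set_option linter.style.haveILetI false
set_option linter.unusedSectionVars false
set_option linter.unusedVariables false

namespace Pool.Agent.Helper832_EG

section
variable {p : ℕ} [Fact p.Prime] {r : ℕ}

/-- A closed subgroup of `ℤ_p ^ r` containing the standard basis is everything. -/
lemma closed_eq_top (A : AddSubgroup (Fin r → ℤ_[p])) (hA : IsClosed (A : Set (Fin r → ℤ_[p])))
    (h : ∀ i, Pi.single i 1 ∈ A) : A = ⊤ := by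
  have h1 : ∀ (i : Fin r) (x : ℤ_[p]), Pi.single i x ∈ A := by
    intro i x
    have hcl : IsClosed {x : ℤ_[p] | (Pi.single i x : Fin r → ℤ_[p]) ∈ A} := by
      have hc : Continuous (fun x : ℤ_[p] => (Pi.single i x : Fin r → ℤ_[p])) := by
        refine continuous_pi fun j => ?_
        by_cases hj : j = i
        · subst hj
          have : (fun x : ℤ_[p] => (Pi.single j x : Fin r → ℤ_[p]) j) = id := by funext x; simp
          rw [this]; exact continuous_id
        · simpa [hj] using continuous_const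
      exact hA.preimage hc
    refine PadicInt.denseRange_natCast.induction_on (p := fun x => (Pi.single i x : Fin r → ℤ_[p]) ∈ A) x hcl ?_
    intro n
    have h2 : (Pi.single i (n : ℤ_[p]) : Fin r → ℤ_[p]) = n • Pi.single i 1 := by
      funext j
      by_cases hj : j = i
      · subst hj; simp
      · simp [hj]
    rw [h2]
    exact A.nsmul_mem (h i) n
  rw [AddSubgroup.eq_top_iff']
  intro x
  have h2 : x = ∑ i, Pi.single i (x i) := (Finset.univ_sum_single x).symm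
  rw [h2]
  exact A.sum_mem fun i _ => h1 i _

variable {G : Type*} [Group G] [TopologicalSpace G] [IsTopologicalGroup G]

/-- Representatives inside `I ∩ H` modulo `L`. -/
lemma exists_reps {H L : Subgroup G} (hfin : (L.subgroupOf H).FiniteIndex) (I : Subgroup G) :
    ∃ s : Finset G, (∀ x ∈ s, x ∈ I ∧ x ∈ H) ∧ ∀ x ∈ I, x ∈ H → ∃ y ∈ s, y⁻¹ * x ∈ L := by
  classical
  haveI : Finite (H ⧸ L.subgroupOf H) := inferInstance
  haveI := Fintype.ofFinite (H ⧸ L.subgroupOf H)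
  let f : (H ⧸ L.subgroupOf H) → G := fun q =>
    if h : ∃ y : H, (y : G) ∈ I ∧ QuotientGroup.mk y = q then (h.choose : G) else 1
  refine ⟨Finset.univ.image f, ?_, ?_⟩
  · intro x hx
    obtain ⟨q, _, rfl⟩ := Finset.mem_image.1 hx
    by_cases h : ∃ y : H, (y : G) ∈ I ∧ QuotientGroup.mk y = q
    · have : f q = (h.choose : G) := dif_pos h
      rw [this]
      exact ⟨h.choose_spec.1, h.choose.2⟩
    · have : f q = 1 := dif_neg h
      rw [this]
      exact ⟨I.one_mem, H.one_mem⟩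
  · intro x hx hxH
    have h : ∃ y : H, (y : G) ∈ I ∧ (QuotientGroup.mk y : H ⧸ L.subgroupOf H) = QuotientGroup.mk (⟨x, hxH⟩ : H) :=
      ⟨⟨x, hxH⟩, hx, rfl⟩
    refine ⟨f (QuotientGroup.mk (⟨x, hxH⟩ : H)), Finset.mem_image.2 ⟨_, Finset.mem_univ _, rfl⟩, ?_⟩
    have h1 : f (QuotientGroup.mk (⟨x, hxH⟩ : H)) = (h.choose : G) := dif_pos h
    rw [h1]
    have h2 := QuotientGroup.eq.1 h.choose_spec.2
    exact (Subgroup.mem_subgroupOf).1 h2

/-- Topological finite generation modulo `L` of a closed subgroup surjecting onto `ℤ_p ^ r`. -/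
lemma exists_tfg [CompactSpace G] [T2Space G] {H L : Subgroup G} (hfin : (L.subgroupOf H).FiniteIndex)
    (φ : G →* Multiplicative (Fin r → ℤ_[p])) (hφ : Continuous φ) (hker : φ.ker = H)
    {I : Subgroup G} (hI : IsClosed (I : Set G)) (hsurj : ∀ v, ∃ s ∈ I, φ s = v) :
    ∃ s : Finset G, (∀ x ∈ s, x ∈ I) ∧ ∀ χ : G → ZMod p, IsCh I χ → (∀ x ∈ I, x ∈ L → χ x = 0) →
      (∀ x ∈ s, χ x = 0) → ∀ x ∈ I, χ x = 0 := by
  classical
  obtain ⟨s1, hs1, hs1'⟩ := exists_reps hfin I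
  choose g hg hgφ using fun i : Fin r => hsurj (Multiplicative.ofAdd (Pi.single i (1 : ℤ_[p])))
  refine ⟨s1 ∪ Finset.univ.image g, ?_, ?_⟩
  · intro x hx
    rcases Finset.mem_union.1 hx with hx | hx
    · exact (hs1 x hx).1
    · obtain ⟨i, _, rfl⟩ := Finset.mem_image.1 hx
      exact hg i
  · intro χ hχ hχL hχs
    have hχ1 : ∀ x ∈ I, x ∈ H → χ x = 0 := by
      intro x hx hxH
      obtain ⟨y, hy, hyL⟩ := hs1' x hx hxH
      have h1 := hχL _ (I.mul_mem (I.inv_mem (hs1 y hy).1) hx) hyL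
      rw [hχ.mul (I.inv_mem (hs1 y hy).1) hx, hχ.inv (hs1 y hy).1, hχs y (Finset.mem_union_left _ hy), neg_zero,
        zero_add] at h1
      exact h1
    let A : AddSubgroup (Fin r → ℤ_[p]) :=
      { carrier := {v | ∃ x ∈ I, χ x = 0 ∧ φ x = Multiplicative.ofAdd v}
        add_mem' := by
          rintro a b ⟨x, hx, hx0, hxa⟩ ⟨y, hy, hy0, hyb⟩
          exact ⟨x * y, I.mul_mem hx hy, by rw [hχ.mul hx hy, hx0, hy0, add_zero], by rw [map_mul, hxa, hyb]; rfl⟩
        zero_mem' := ⟨1, I.one_mem, hχ.one, by rw [map_one]; rfl⟩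
        neg_mem' := by
          rintro a ⟨x, hx, hx0, hxa⟩
          exact ⟨x⁻¹, I.inv_mem hx, by rw [hχ.inv hx, hx0, neg_zero], by rw [map_inv, hxa]; rfl⟩ }
    have hAc : IsClosed (A : Set (Fin r → ℤ_[p])) := by
      have h1 : (A : Set (Fin r → ℤ_[p])) = (fun x => Multiplicative.toAdd (φ x)) '' {x : G | x ∈ I ∧ χ x = 0} := by
        ext v
        constructor
        · rintro ⟨x, hx, hx0, hxv⟩
          exact ⟨x, ⟨hx, hx0⟩, by show Multiplicative.toAdd (φ x) = v; rw [hxv]; rfl⟩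
        · rintro ⟨x, ⟨hx, hx0⟩, rfl⟩
          exact ⟨x, hx, hx0, rfl⟩
      rw [h1]
      have hcont : Continuous (fun x => Multiplicative.toAdd (φ x)) := continuous_toAdd.comp hφ
      exact ((hχ.isClosed_ker hI).isCompact.image hcont).isClosed
    have hAtop : A = ⊤ := closed_eq_top A hAc (fun i => ⟨g i, hg i,
      hχs _ (Finset.mem_union_right _ (Finset.mem_image.2 ⟨i, Finset.mem_univ _, rfl⟩)), hgφ i⟩)
    intro x hx
    have hxA : Multiplicative.toAdd (φ x) ∈ A := by rw [hAtop]; trivial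
    obtain ⟨y, hy, hy0, hyx⟩ := hxA
    have h1 : y⁻¹ * x ∈ H := by
      rw [← hker, MonoidHom.mem_ker, map_mul, map_inv, hyx]
      exact inv_mul_cancel _
    have h2 := hχ1 _ (I.mul_mem (I.inv_mem hy) hx) h1
    rw [hχ.mul (I.inv_mem hy) hx, hχ.inv hy, hy0, neg_zero, zero_add] at h2
    exact h2

/-- An invariant character on `L` killing commutators and `p`-th powers extends to `G`. -/
lemma ext_of_comm [CompactSpace G] [T2Space G] [TotallyDisconnectedSpace G] {L : Subgroup G} [hL : L.Normal]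
    (hLc : IsClosed (L : Set G)) (habL : ∀ g h : G, g * h * g⁻¹ * h⁻¹ ∈ L) {ψ : G → ZMod p} (hψ : IsCh L ψ)
    (hinv : ∀ g, ∀ x ∈ L, ψ (g * x * g⁻¹) = ψ x) (hc : ∀ g h : G, ψ (g * h * g⁻¹ * h⁻¹) = 0)
    (hq : ∀ g : G, g ^ p ∈ L → ψ (g ^ p) = 0) : ∃ χ : G → ZMod p, IsCh ⊤ χ ∧ ∀ x ∈ L, χ x = ψ x := by
  by_cases hzero : ∀ x ∈ L, ψ x = 0
  · exact ⟨0, isCh_zero ⊤, fun x hx => (hzero x hx).symm⟩
  push Not at hzero
  obtain ⟨x0, hx0, hx0'⟩ := hzero
  let M : Subgroup G :=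
    { carrier := {x | x ∈ L ∧ ψ x = 0}
      mul_mem' := fun {a b} ha hb => ⟨L.mul_mem ha.1 hb.1, by rw [hψ.mul ha.1 hb.1, ha.2, hb.2, add_zero]⟩
      one_mem' := ⟨L.one_mem, hψ.one⟩
      inv_mem' := fun {a} ha => ⟨L.inv_mem ha.1, by rw [hψ.inv ha.1, ha.2, neg_zero]⟩ }
  have hMc : IsClosed (M : Set G) := hψ.isClosed_ker hLc
  haveI hMn : M.Normal := ⟨fun x hx g => ⟨hL.conj_mem x hx.1 g, by rw [hinv g x hx.1, hx.2]⟩⟩
  have hcM : ∀ g h : G, g * h * g⁻¹ * h⁻¹ ∈ M := fun g h => ⟨habL g h, hc g h⟩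
  letI : CommGroup (G ⧸ M) :=
    { QuotientGroup.Quotient.group M with
      mul_comm := by
        intro a b
        induction a using QuotientGroup.induction_on with | _ x =>
        induction b using QuotientGroup.induction_on with | _ y =>
        rw [← QuotientGroup.mk_mul, ← QuotientGroup.mk_mul, QuotientGroup.eq]
        have := hcM y⁻¹ x⁻¹
        have h2 : (x * y)⁻¹ * (y * x) = y⁻¹ * x⁻¹ * y⁻¹⁻¹ * x⁻¹⁻¹ := by group
        rw [h2]; exact this }
  let Q : Subgroup G := (powMonoidHom p : (G ⧸ M) →* (G ⧸ M)).range.comap (QuotientGroup.mk' M)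
  have hQ : ∀ g : G, g ∈ Q ↔ ∃ b : G, ∃ m ∈ M, g = b ^ p * m := by
    intro g
    constructor
    · rintro ⟨b, hb⟩
      induction b using QuotientGroup.induction_on with | _ b =>
      have h1 : (QuotientGroup.mk (b ^ p) : G ⧸ M) = QuotientGroup.mk g := by
        rw [QuotientGroup.mk_pow]; exact hb
      rw [QuotientGroup.eq] at h1
      exact ⟨b, _, h1, by group⟩
    · rintro ⟨b, m, hm, rfl⟩
      refine ⟨QuotientGroup.mk b, ?_⟩
      show (QuotientGroup.mk b : G ⧸ M) ^ p = QuotientGroup.mk (b ^ p * m)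
      rw [← QuotientGroup.mk_pow, QuotientGroup.eq]
      simpa using hm
  have hQc : IsClosed (Q : Set G) := by
    have h1 : (Q : Set G) = (fun q : G × G => q.1 ^ p * q.2) '' (Set.univ ×ˢ (M : Set G)) := by
      ext g
      rw [SetLike.mem_coe, hQ]
      constructor
      · rintro ⟨b, m, hm, rfl⟩
        exact ⟨(b, m), ⟨trivial, hm⟩, rfl⟩
      · rintro ⟨⟨b, m⟩, ⟨_, hm⟩, rfl⟩
        exact ⟨b, m, hm, rfl⟩
    rw [h1]
    have hcont : Continuous (fun q : G × G => q.1 ^ p * q.2) := by fun_prop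
    exact ((isCompact_univ.prod hMc.isCompact).image hcont).isClosed
  have hx0Q : x0 ∉ Q := by
    rw [hQ]
    rintro ⟨b, m, hm, hbm⟩
    have hb : b ^ p = x0 * m⁻¹ := by rw [hbm]; group
    have hbL : b ^ p ∈ L := by rw [hb]; exact L.mul_mem hx0 (L.inv_mem hm.1)
    have h1 := hq b hbL
    rw [hb, hψ.mul hx0 (L.inv_mem hm.1), hψ.inv hm.1, hm.2, neg_zero, add_zero] at h1
    exact hx0' h1
  have hopen : IsOpen {y : G | x0 * y ∉ Q} := hQc.isOpen_compl.preimage (continuous_const.mul continuous_id)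
  obtain ⟨U, hU⟩ := ProfiniteGrp.exist_openNormalSubgroup_sub_open_nhds_of_one hopen (by simpa using hx0Q)
  have hUopen : IsOpen ((U : Subgroup G) : Set G) := U.isOpen'
  haveI hUn : (U : Subgroup G).Normal := U.isNormal'
  let Q' : Subgroup G := Q ⊔ (U : Subgroup G)
  have hQ'o : IsOpen (Q' : Set G) := Subgroup.isOpen_mono (H₁ := (U : Subgroup G)) le_sup_right hUopen
  have hx0Q' : x0 ∉ Q' := by
    intro h
    have h' : x0 ∈ ((Q ⊔ (U : Subgroup G) : Subgroup G) : Set G) := h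
    rw [Subgroup.mul_normal] at h'
    obtain ⟨q, hq', u, hu, hqu⟩ := h'
    have h1 : u⁻¹ ∈ (U : Set G) := (U : Subgroup G).inv_mem hu
    apply hU h1
    have h2 : x0 * u⁻¹ = q := by rw [← hqu]; exact mul_inv_cancel_right q u
    rw [h2]; exact hq'
  have hMQ : M ≤ Q' := fun m hm => Subgroup.mem_sup_left ((hQ m).2 ⟨1, m, hm, by simp⟩)
  let MA : AddSubgroup (Additive (G ⧸ M)) := (Q'.map (QuotientGroup.mk' M)).toAddSubgroup
  obtain ⟨f, hf, hfx⟩ := exists_char (p := p) MA (by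
    intro x
    obtain ⟨b, hb⟩ := QuotientGroup.mk_surjective (s := M) x.toMul
    refine ⟨b ^ p, Subgroup.mem_sup_left ((hQ _).2 ⟨b, 1, M.one_mem, by simp⟩), ?_⟩
    show QuotientGroup.mk (b ^ p) = (x.toMul) ^ p
    rw [← hb, ← QuotientGroup.mk_pow])
    (x := Additive.ofMul (QuotientGroup.mk x0)) (by
      rintro ⟨y, hy, hyx⟩
      have h1 : (QuotientGroup.mk y : G ⧸ M) = QuotientGroup.mk x0 := hyx
      rw [QuotientGroup.eq] at h1
      apply hx0Q'
      have := Q'.mul_mem hy (hMQ h1)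
      rwa [mul_inv_cancel_left] at this)
  let χ0 : G → ZMod p := fun g => f (Additive.ofMul (QuotientGroup.mk g))
  have hχ0mul : ∀ x y, χ0 (x * y) = χ0 x + χ0 y := by
    intro x y
    show f (Additive.ofMul (QuotientGroup.mk (x * y))) = _
    rw [QuotientGroup.mk_mul, ofMul_mul, map_add]
  have hχ0 : IsCh ⊤ χ0 := ⟨fun x _ y _ => hχ0mul x y, Q', hQ'o, fun x _ hx => hf _ ⟨x, hx, rfl⟩⟩
  have hχ0M : ∀ m ∈ M, χ0 m = 0 := fun m hm => hf _ ⟨m, hMQ hm, rfl⟩
  refine ⟨(ψ x0 / χ0 x0) • χ0, hχ0.smul _, fun x hx => ?_⟩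
  have hfx' : χ0 x0 ≠ 0 := hfx
  set n : ℕ := (ψ x / ψ x0).val with hn
  have hn' : (n : ZMod p) = ψ x / ψ x0 := by rw [hn, ZMod.natCast_val, ZMod.cast_id]
  have h1 : x * (x0 ^ n)⁻¹ ∈ M := by
    refine ⟨L.mul_mem hx (L.inv_mem (L.pow_mem hx0 n)), ?_⟩
    rw [hψ.mul hx (L.inv_mem (L.pow_mem hx0 n)), hψ.inv (L.pow_mem hx0 n), hψ.pow hx0, nsmul_eq_mul, hn']
    field_simp
    ring
  have h2 := hχ0M _ h1
  rw [hχ0mul, hχ0.inv (Subgroup.mem_top _), hχ0.pow (Subgroup.mem_top _), nsmul_eq_mul, hn', ← sub_eq_add_neg, sub_eq_zero] at h2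
  show (ψ x0 / χ0 x0) * χ0 x = ψ x
  rw [h2]
  field_simp

/-- Invariant unramified characters on `L` are separated by finitely many elements of `L`. -/
theorem finite_inv [CompactSpace G] [T2Space G] [TotallyDisconnectedSpace G] {H L : Subgroup G}
    [hH : H.Normal] [hL : L.Normal] (hLH : L ≤ H) (hLc : IsClosed (L : Set G)) {W Tm : Set (Subgroup G)}
    (d : Dat p H W Tm) (habL : ∀ g h : G, g * h * g⁻¹ * h⁻¹ ∈ L) (hfin : (L.subgroupOf H).FiniteIndex)
    (φ : G →* Multiplicative (Fin r → ℤ_[p])) (hφ : Continuous φ) (hker : φ.ker = H)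
    (hsurjW : ∀ I ∈ W, ∀ v, ∃ s ∈ I, φ s = v)
    (hT : ∃ F : Set (Subgroup G), F.Finite ∧ F ⊆ Tm ∧ ∀ I ∈ Tm, I ≤ L ∨ ∃ J ∈ F, ∃ g : G,
      I = J.map (MulAut.conj g).toMonoidHom) :
    ∃ s : Finset G, (∀ x ∈ s, x ∈ L) ∧ ∀ ψ : G → ZMod p, IsCh L ψ → Van W L ψ → Van Tm L ψ →
      (∀ g, ∀ x ∈ L, ψ (g * x * g⁻¹) = ψ x) → (∀ x ∈ s, ψ x = 0) → ∀ x ∈ L, ψ x = 0 := by
  classical
  obtain ⟨F, hFfin, hFT, hF⟩ := hT
  obtain ⟨I0, hI0⟩ := d.neW
  -- generators of `G` modulo `L`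
  obtain ⟨sG, _, hsG⟩ := exists_tfg hfin φ hφ hker (I := ⊤) isClosed_univ (fun v => by
    obtain ⟨s, _, hs⟩ := hsurjW I0 hI0 v
    exact ⟨s, trivial, hs⟩)
  obtain ⟨sI, _, hsI⟩ := exists_tfg hfin φ hφ hker (I := I0) (d.closedW I0 hI0) (hsurjW I0 hI0)
  choose sJ hsJ hsJ' using fun J : Subgroup G => exists_reps (H := H) (L := L) hfin J
  let s2 : Finset G := sI ∪ hFfin.toFinset.biUnion sJ
  -- the finite set of ambient characters
  let V2 : Set (G → ZMod p) := {χ | IsCh ⊤ χ ∧ Van W L χ ∧ Van Tm L χ}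
  have hV2zero : ∀ χ ∈ V2, (∀ x ∈ s2, χ x = 0) → ∀ x, χ x = 0 := by
    rintro χ ⟨h1, h2, h3⟩ hs
    have hI : ∀ x ∈ I0, χ x = 0 := hsI χ (h1.mono le_top) (fun x hx hxL => h2 I0 hI0 x hx hxL)
      (fun x hx => hs x (Finset.mem_union_left _ hx))
    have hJ : ∀ J ∈ F, ∀ x ∈ J, χ x = 0 := by
      intro J hJ x hx
      obtain ⟨y, hy, hyL⟩ := hsJ' J x hx (d.tame J (hFT hJ) hx)
      have h4 := h3 J (hFT hJ) _ (J.mul_mem (J.inv_mem (hsJ J y hy).1) hx) hyL
      rw [h1.mul (Subgroup.mem_top _) (Subgroup.mem_top _), h1.inv (Subgroup.mem_top _),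
        hs y (Finset.mem_union_right _ (Finset.mem_biUnion.2 ⟨J, by simpa using hJ, hy⟩)), neg_zero, zero_add] at h4
      exact h4
    refine d.noUr χ h1 ?_ ?_
    · intro I hIW x hx _
      obtain ⟨g, rfl⟩ := d.transW I0 hI0 I hIW
      obtain ⟨z, hz, rfl⟩ := hx
      have h5 : χ ((MulAut.conj g).toMonoidHom z) = χ z := h1.conj (Subgroup.mem_top g) (Subgroup.mem_top z)
      rw [h5]; exact hI z hz
    · intro I hIT x hx _
      rcases hF I hIT with hIL | ⟨J, hJF, g, rfl⟩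
      · exact h3 I hIT x hx (hIL hx)
      · obtain ⟨z, hz, rfl⟩ := hx
        have h5 : χ ((MulAut.conj g).toMonoidHom z) = χ z := h1.conj (Subgroup.mem_top g) (Subgroup.mem_top z)
        rw [h5]; exact hJ J hJF z hz
  have hV2fin : V2.Finite := by
    let f : (G → ZMod p) → (s2 → ZMod p) := fun χ x => χ x
    refine Set.Finite.of_finite_image (f := f) (Set.toFinite _) ?_
    intro χ hχ χ' hχ' hff
    have h1 : (fun x => χ x - χ' x) ∈ V2 := by
      refine ⟨hχ.1.sub hχ'.1, fun I hI x hx hxL => ?_, fun I hI x hx hxL => ?_⟩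
      · show χ x - χ' x = 0
        rw [hχ.2.1 I hI x hx hxL, hχ'.2.1 I hI x hx hxL, sub_zero]
      · show χ x - χ' x = 0
        rw [hχ.2.2 I hI x hx hxL, hχ'.2.2 I hI x hx hxL, sub_zero]
    funext x
    refine sub_eq_zero.1 (hV2zero _ h1 (fun y hy => ?_) x)
    have := congrFun hff ⟨y, hy⟩
    exact sub_eq_zero.2 this
  -- separating elements for `V2`
  let pt : (G → ZMod p) → G := fun χ => if h : ∃ x ∈ L, χ x ≠ 0 then h.choose else 1
  have hptL : ∀ χ, pt χ ∈ L := by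
    intro χ
    by_cases h : ∃ x ∈ L, χ x ≠ 0
    · have : pt χ = h.choose := dif_pos h
      rw [this]; exact h.choose_spec.1
    · have : pt χ = 1 := dif_neg h
      rw [this]; exact L.one_mem
  -- representatives of the elements whose `p`-th power lies in `L`
  obtain ⟨sH, hsH, hsH'⟩ := exists_reps (H := H) (L := L) hfin ⊤
  let s : Finset G := ((sG ×ˢ sG).image (fun q => q.1 * q.2 * q.1⁻¹ * q.2⁻¹)) ∪
    ((sH.image (fun g => g ^ p)).filter (fun x => x ∈ L)) ∪ hV2fin.toFinset.image pt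
  refine ⟨s, ?_, ?_⟩
  · intro x hx
    rcases Finset.mem_union.1 hx with hx | hx
    · rcases Finset.mem_union.1 hx with hx | hx
      · obtain ⟨q, _, rfl⟩ := Finset.mem_image.1 hx
        exact habL _ _
      · exact (Finset.mem_filter.1 hx).2
    · obtain ⟨χ, _, rfl⟩ := Finset.mem_image.1 hx
      exact hptL χ
  · intro ψ hψ hψW hψT hinv hs
    -- commutators
    have hcomm0 : ∀ h : G, IsCh ⊤ (fun g => ψ (g * h * g⁻¹ * h⁻¹)) ∧ ∀ x ∈ L, ψ (x * h * x⁻¹ * h⁻¹) = 0 := by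
      intro h
      obtain ⟨U, hU, hU'⟩ := hψ.2
      refine ⟨⟨fun x _ y _ => ?_, U ⊓ U.comap (MulAut.conj h).toMonoidHom, hU.inter (isOpen_comap_conj U hU h), ?_⟩, ?_⟩
      · have h1 : x * y * h * (x * y)⁻¹ * h⁻¹ = (x * (y * h * y⁻¹ * h⁻¹) * x⁻¹) * (x * h * x⁻¹ * h⁻¹) := by group
        show ψ (x * y * h * (x * y)⁻¹ * h⁻¹) = _
        rw [h1, hψ.mul (hL.conj_mem _ (habL y h) x) (habL x h), hinv x _ (habL y h), add_comm]
      · intro x _ hxU
        refine hU' _ (habL x h) ?_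
        have h1 : x * h * x⁻¹ * h⁻¹ = x * (h * x * h⁻¹)⁻¹ := by group
        rw [h1]
        exact U.mul_mem hxU.1 (U.inv_mem hxU.2)
      · intro x hx
        have h1 : x * h * x⁻¹ * h⁻¹ = x * (h * x * h⁻¹)⁻¹ := by group
        rw [h1, hψ.mul hx (L.inv_mem (hL.conj_mem x hx h)), hψ.inv (hL.conj_mem x hx h), hinv h x hx]
        ring
    have hanti : ∀ g h : G, ψ (g * h * g⁻¹ * h⁻¹) = - ψ (h * g * h⁻¹ * g⁻¹) := by
      intro g h
      have h1 : g * h * g⁻¹ * h⁻¹ = (h * g * h⁻¹ * g⁻¹)⁻¹ := by group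
      rw [h1, hψ.inv (habL h g)]
    have hc1 : ∀ h ∈ sG, ∀ g, ψ (g * h * g⁻¹ * h⁻¹) = 0 := by
      intro h hh g
      refine hsG _ (hcomm0 h).1 (fun x _ hxL => (hcomm0 h).2 x hxL) (fun x hx => ?_) g trivial
      exact hs _ (Finset.mem_union_left _ (Finset.mem_union_left _
        (Finset.mem_image.2 ⟨(x, h), Finset.mem_product.2 ⟨hx, hh⟩, rfl⟩)))
    have hc : ∀ g h : G, ψ (g * h * g⁻¹ * h⁻¹) = 0 := by
      intro g h
      refine hsG _ (hcomm0 h).1 (fun x _ hxL => (hcomm0 h).2 x hxL) (fun x hx => ?_) g trivial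
      show ψ (x * h * x⁻¹ * h⁻¹) = 0
      rw [hanti, hc1 x hx h, neg_zero]
    -- `p`-th powers
    have hpow : ∀ g y : G, y ∈ L → ψ y = ψ y → g ^ p ∈ L → ψ ((g * y) ^ p) = ψ (g ^ p) := by
      intro g y hy _ hg
      have h1 : ∀ n : ℕ, ∃ z ∈ L, (g * y) ^ n = g ^ n * z ∧ ψ z = n • ψ y := by
        intro n
        induction n with
        | zero => exact ⟨1, L.one_mem, by simp, by rw [hψ.one]; simp⟩
        | succ n ih =>
          obtain ⟨z, hz, hz1, hz2⟩ := ih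
          refine ⟨(g⁻¹ * z * g⁻¹⁻¹) * y, L.mul_mem (hL.conj_mem z hz g⁻¹) hy, ?_, ?_⟩
          · rw [pow_succ, hz1, pow_succ]; group
          · rw [hψ.mul (hL.conj_mem z hz g⁻¹) hy, hinv g⁻¹ z hz, hz2, succ_nsmul]
      obtain ⟨z, hz, hz1, hz2⟩ := h1 p
      rw [hz1, hψ.mul hg hz, hz2, nsmul_eq_mul, CharP.cast_eq_zero, zero_mul, add_zero]
    have hq : ∀ g : G, g ^ p ∈ L → ψ (g ^ p) = 0 := by
      intro g hg
      have hgH : g ∈ H := by
        rw [← hker, MonoidHom.mem_ker]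
        have h1 : (φ g) ^ p = 1 := by
          rw [← map_pow, ← MonoidHom.mem_ker, hker]
          exact hLH hg
        have h2 : p • Multiplicative.toAdd (φ g) = 0 := by
          rw [← toAdd_pow, h1]; rfl
        have h3 : Multiplicative.toAdd (φ g) = 0 := by
          funext i
          have h4 := congrFun h2 i
          rw [Pi.smul_apply, nsmul_eq_mul, Pi.zero_apply] at h4
          exact (mul_eq_zero.1 h4).resolve_left (by exact_mod_cast (Fact.out : p.Prime).ne_zero)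
        exact Multiplicative.toAdd.injective h3
      obtain ⟨y, hy, hyL⟩ := hsH' g trivial hgH
      have hy1 : y = g * (y⁻¹ * g)⁻¹ := by group
      have hyp : ψ (y ^ p) = ψ (g ^ p) := by
        conv_lhs => rw [hy1]
        exact hpow g _ (L.inv_mem hyL) rfl hg
      have hypL : y ^ p ∈ L := by
        -- `y ^ p` and `g ^ p` agree modulo `L`
        have h1 : (QuotientGroup.mk y : G ⧸ L) = QuotientGroup.mk g := QuotientGroup.eq.2 hyL
        have h2 : (QuotientGroup.mk (y ^ p) : G ⧸ L) = 1 := by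
          rw [QuotientGroup.mk_pow, h1, ← QuotientGroup.mk_pow]
          exact (QuotientGroup.eq_one_iff _).2 hg
        exact (QuotientGroup.eq_one_iff _).1 h2
      rw [← hyp]
      exact hs _ (Finset.mem_union_left _ (Finset.mem_union_right _
        (Finset.mem_filter.2 ⟨Finset.mem_image.2 ⟨y, hy, rfl⟩, hypL⟩)))
    obtain ⟨χ, hχ, hχψ⟩ := ext_of_comm hLc habL hψ hinv hc hq
    have hχV : χ ∈ V2 := ⟨hχ, fun I hI x hx hxL => by rw [hχψ x hxL]; exact hψW I hI x hx hxL,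
      fun I hI x hx hxL => by rw [hχψ x hxL]; exact hψT I hI x hx hxL⟩
    have hptχ : χ (pt χ) = 0 := by
      rw [hχψ _ (hptL χ)]
      exact hs _ (Finset.mem_union_right _ (Finset.mem_image.2 ⟨χ, by simpa using hχV, rfl⟩))
    intro x hx
    by_contra hne
    have h : ∃ x ∈ L, χ x ≠ 0 := ⟨x, hx, by rw [hχψ x hx]; exact hne⟩
    have h1 : pt χ = h.choose := dif_pos h
    rw [h1] at hptχ
    exact h.choose_spec.2 hptχ

end

end Pool.Agent.Helper832_EG
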