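import Pool.Agent.Helper832_EG.Lim

set_option linter.style.haveILetI false
set_option linter.unusedSectionVars false

namespace Pool.Agent.Helper832_EG

open AddMonoidAlgebra

section
variable (p : ℕ) [Fact p.Prime] (r : ℕ)

/-- The quotient `(ℤ / p ^ (n+1)) ^ r` of `ℤ_p ^ r`. -/
abbrev Gr (n : ℕ) : Type := Fin r → ZMod (p ^ (n + 1))

/-- Reduction `ℤ / p ^ (n+2) → ℤ / p ^ (n+1)`. -/
def cz (n : ℕ) : ZMod (p ^ (n + 1 + 1)) →+* ZMod (p ^ (n + 1)) :=
  ZMod.castHom (pow_dvd_pow p (Nat.le_succ (n + 1))) (ZMod (p ^ (n + 1)))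

/-- Coordinatewise reduction. -/
def grT (n : ℕ) : Gr p r (n + 1) →+ Gr p r n :=
  (cz p n).toAddMonoidHom.compLeft (Fin r)

/-- Level `n` of the Iwasawa algebra: the group ring of `(ℤ / p ^ (n+1)) ^ r` over
`ℤ / p ^ (n+1)`. -/
abbrev RL (n : ℕ) : Type := AddMonoidAlgebra (ZMod (p ^ (n + 1))) (Gr p r n)

/-- The transition maps of the Iwasawa algebra. -/
noncomputable def tL (n : ℕ) : RL p r (n + 1) →+* RL p r n :=
  (AddMonoidAlgebra.mapDomainRingHom (ZMod (p ^ (n + 1))) (grT p r n)).comp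
    (AddMonoidAlgebra.mapRingHom (Gr p r (n + 1)) (cz p n))

/-- The Iwasawa algebra `ℤ_p[[ℤ_p ^ r]]`, the inverse limit over `n` of the group rings
`(ℤ / p ^ (n+1))[(ℤ / p ^ (n+1)) ^ r]`. -/
abbrev Lam : Type := Lim (tL p r)

abbrev RO (n : ℕ) : Type := AddMonoidAlgebra (ZMod p) (Gr p r n)

noncomputable def tO (n : ℕ) : RO p r (n + 1) →+* RO p r n :=
  AddMonoidAlgebra.mapDomainRingHom (ZMod p) (grT p r n)

abbrev Om : Type := Lim (tO p r)

end

section
variable {p : ℕ} [Fact p.Prime] {r : ℕ}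

instance (n : ℕ) : NeZero (p ^ (n + 1)) := ⟨pow_ne_zero _ (Fact.out : p.Prime).ne_zero⟩

instance finAM {k A : Type*} [Semiring k] [Finite k] [Finite A] : Finite (AddMonoidAlgebra k A) := by
  have : Finite (A →₀ k) := Finite.of_injective (fun f : A →₀ k => (f : A → k)) DFunLike.coe_injective
  exact Finite.of_injective (fun f : AddMonoidAlgebra k A => f.coeff) (fun a b h => by
    ext x; exact DFunLike.congr_fun h x)

lemma cz_toZModPow (n : ℕ) (x : ℤ_[p]) :
    cz p n (PadicInt.toZModPow (n + 1 + 1) x) = PadicInt.toZModPow (n + 1) x := by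
  have := PadicInt.zmod_cast_comp_toZModPow (p := p) (n + 1) (n + 1 + 1) (Nat.le_succ _)
  exact RingHom.congr_fun this x

/-- Reduction of a vector of `p`-adic integers. -/
noncomputable def rd (n : ℕ) (a : Fin r → ℤ_[p]) : Gr p r n := fun i => PadicInt.toZModPow (n + 1) (a i)

lemma grT_rd (n : ℕ) (a : Fin r → ℤ_[p]) : grT p r n (rd (n + 1) a) = rd n a := by
  funext i; exact cz_toZModPow n (a i)

lemma rd_add (n : ℕ) (a b : Fin r → ℤ_[p]) : rd n (a + b) = rd n a + rd n b := by
  funext i; simp [rd]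

lemma rd_zero (n : ℕ) : rd n (0 : Fin r → ℤ_[p]) = 0 := by
  funext i; simp [rd]

lemma rd_surj (n : ℕ) (b : Gr p r n) : ∃ a : Fin r → ℤ_[p], rd n a = b := by
  refine ⟨fun i => ((b i).val : ℤ_[p]), ?_⟩
  funext i
  simp [rd]

lemma tL_single (n : ℕ) (a : Gr p r (n + 1)) (x : ZMod (p ^ (n + 1 + 1))) :
    tL p r n (single a x) = single (grT p r n a) (cz p n x) := by
  simp [tL]

lemma tO_single (n : ℕ) (a : Gr p r (n + 1)) (x : ZMod p) :
    tO p r n (single a x) = single (grT p r n a) x := by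
  simp [tO]

/-- The group element of the Iwasawa algebra attached to a vector of `ℤ_p ^ r`. -/
noncomputable def gr (a : Fin r → ℤ_[p]) : Lam p r :=
  ⟨fun n => single (rd n a) 1, fun n => by
    rw [tL_single, grT_rd, map_one]⟩

noncomputable def gO (a : Fin r → ℤ_[p]) : Om p r :=
  ⟨fun n => single (rd n a) 1, fun n => by rw [tO_single, grT_rd]⟩

lemma gr_add (a b : Fin r → ℤ_[p]) : gr (a + b) = gr a * gr b := by
  refine lim_ext fun n => ?_
  show (single (rd n (a + b)) 1 : RL p r n) = single (rd n a) 1 * single (rd n b) 1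
  rw [single_mul_single, rd_add, mul_one]

lemma gr_zero : gr (0 : Fin r → ℤ_[p]) = 1 := by
  refine lim_ext fun n => ?_
  show single (rd n 0) 1 = (1 : RL p r n)
  rw [rd_zero]; rfl

lemma gO_add (a b : Fin r → ℤ_[p]) : gO (a + b) = gO a * gO b := by
  refine lim_ext fun n => ?_
  show (single (rd n (a + b)) 1 : RO p r n) = single (rd n a) 1 * single (rd n b) 1
  rw [single_mul_single, rd_add, mul_one]

lemma gO_zero : gO (0 : Fin r → ℤ_[p]) = 1 := by
  refine lim_ext fun n => ?_
  show single (rd n 0) 1 = (1 : RO p r n)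
  rw [rd_zero]; rfl

/-- Reduction modulo `p`. -/
noncomputable def cp (n : ℕ) : ZMod (p ^ (n + 1)) →+* ZMod p :=
  ZMod.castHom (dvd_pow_self p (Nat.succ_ne_zero n)) (ZMod p)

lemma cp_cz (n : ℕ) : (cp n).comp (cz p n) = cp (n + 1) := by
  apply RingHom.ext
  intro x
  obtain ⟨a, rfl⟩ := ZMod.natCast_zmod_surjective x
  simp

lemma cp_surj (n : ℕ) : Function.Surjective (cp (p := p) n) := ZMod.ringHom_surjective _

noncomputable def redL (n : ℕ) : RL p r n →+* RO p r n := AddMonoidAlgebra.mapRingHom (Gr p r n) (cp n)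

lemma redL_single (n : ℕ) (a : Gr p r n) (x : ZMod (p ^ (n + 1))) :
    redL n (single a x) = single a (cp n x) := by simp [redL]

lemma redL_surj (n : ℕ) : Function.Surjective (redL (p := p) (r := r) n) := by
  have := AddMonoidAlgebra.map_surjective (M := Gr p r n) (cp (p := p) n).toAddMonoidHom (cp_surj n)
  exact this

lemma tO_redL (n : ℕ) (x : RL p r (n + 1)) : tO p r n (redL (n + 1) x) = redL n (tL p r n x) := by
  induction x using AddMonoidAlgebra.induction_linear with
  | zero => simp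
  | add x y hx hy => simp only [map_add, hx, hy]
  | single a x =>
    rw [redL_single, tO_single, tL_single, redL_single, ← cp_cz]; rfl

/-- Reduction modulo `p` from the Iwasawa algebra to its mod `p` version. -/
noncomputable def red : Lam p r →+* Om p r where
  toFun f := ⟨fun n => redL n (f.1 n), fun n => by rw [tO_redL, lim_tr f n]⟩
  map_one' := lim_ext fun n => map_one (redL n)
  map_mul' f g := lim_ext fun n => map_mul (redL n) _ _
  map_zero' := lim_ext fun n => map_zero (redL n)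
  map_add' f g := lim_ext fun n => map_add (redL n) _ _

lemma red_apply (f : Lam p r) (n : ℕ) : (red f).1 n = redL n (f.1 n) := rfl

lemma red_surj : Function.Surjective (red (p := p) (r := r)) := by
  intro f
  obtain ⟨g, hg⟩ := exists_lim (t := tL p r) (fun n x => redL n x = f.1 n)
    (fun n => redL_surj n _) (by
      intro n x hx
      rw [← tO_redL, hx, lim_tr f n])
  exact ⟨g, lim_ext hg⟩

lemma red_gr (a : Fin r → ℤ_[p]) : red (gr a) = gO a := by
  refine lim_ext fun n => ?_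
  show redL n (single (rd n a) 1) = single (rd n a) 1
  rw [redL_single, map_one]

lemma red_p : red (p : Lam p r) = 0 := by
  rw [map_natCast]
  refine lim_ext fun n => ?_
  show ((p : ∀ n, RO p r n) n) = 0
  rw [Pi.natCast_apply, ← map_natCast (algebraMap (ZMod p) (RO p r n))]
  simp

lemma cp_eq_zero {n : ℕ} {x : ZMod (p ^ (n + 1))} (h : cp n x = 0) : ∃ y, x = (p : ZMod (p ^ (n + 1))) * y := by
  obtain ⟨a, rfl⟩ := ZMod.natCast_zmod_surjective x
  rw [map_natCast, ZMod.natCast_eq_zero_iff] at h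
  obtain ⟨b, rfl⟩ := h
  exact ⟨(b : ZMod (p ^ (n + 1))), by push_cast; ring⟩

lemma coeff_natCast_mul {k A : Type*} [CommSemiring k] [AddCommMonoid A] (m : ℕ)
    (x : AddMonoidAlgebra k A) (a : A) :
    ((m : AddMonoidAlgebra k A) * x).coeff a = (m : k) * x.coeff a := by
  rw [AddMonoidAlgebra.natCast_def, coeff_single_zero_mul]

lemma redL_eq_zero {n : ℕ} {x : RL p r n} (h : redL n x = 0) : (p : RL p r n) ∣ x := by
  have h1 : ∀ a, ∃ y, x.coeff a = (p : ZMod (p ^ (n + 1))) * y := by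
    intro a
    apply cp_eq_zero
    have := congrArg (fun f : RO p r n => f.coeff a) h
    simpa [redL] using this
  choose y hy using h1
  refine ⟨ofCoeff (Finsupp.equivFunOnFinite.symm y), ?_⟩
  ext a
  rw [coeff_natCast_mul, hy a]
  simp

lemma p_dvd_of_red {f : Lam p r} (h : red f = 0) : (p : Lam p r) ∣ f := by
  refine dvd_of_levels _ _ fun n => ?_
  have : redL n (f.1 n) = 0 := by rw [← red_apply, h]; rfl
  exact redL_eq_zero this

lemma red_eq_zero_iff {f : Lam p r} : red f = 0 ↔ (p : Lam p r) ∣ f :=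
  ⟨p_dvd_of_red, fun ⟨g, hg⟩ => by rw [hg, map_mul, red_p, zero_mul]⟩

lemma cz_of_p_mul {n : ℕ} {x : ZMod (p ^ (n + 1 + 1))} (h : (p : ZMod (p ^ (n + 1 + 1))) * x = 0) :
    cz p n x = 0 := by
  obtain ⟨a, rfl⟩ := ZMod.natCast_zmod_surjective x
  rw [map_natCast, ZMod.natCast_eq_zero_iff]
  rw [← Nat.cast_mul, ZMod.natCast_eq_zero_iff, pow_succ' p (n + 1)] at h
  exact (Nat.mul_dvd_mul_iff_left (Fact.out : p.Prime).pos).1 h

lemma p_nzd {f : Lam p r} (h : (p : Lam p r) * f = 0) : f = 0 := by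
  refine lim_ext fun n => ?_
  have h1 : (p : RL p r (n + 1)) * f.1 (n + 1) = 0 := by
    have := congrArg (fun f : Lam p r => f.1 (n + 1)) h
    exact this
  rw [← lim_tr f n]
  have h2 : AddMonoidAlgebra.mapRingHom (Gr p r (n + 1)) (cz p n) (f.1 (n + 1)) = 0 := by
    ext a
    have h3 := congrArg (fun f : RL p r (n + 1) => f.coeff a) h1
    rw [coeff_natCast_mul] at h3
    simpa using cz_of_p_mul (x := (f.1 (n + 1)).coeff a) (by simpa using h3)
  rw [tL, RingHom.comp_apply, h2, map_zero]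
  rfl

lemma p_pow_level (n k : ℕ) (hk : n < k) : ((p : Lam p r) ^ k).1 n = 0 := by
  have h1 : ((p : Lam p r) ^ k).1 n = (p : RL p r n) ^ k := rfl
  rw [h1, ← map_natCast (algebraMap (ZMod (p ^ (n + 1))) (RL p r n)), ← map_pow]
  have : ((p : ZMod (p ^ (n + 1))) ^ k) = 0 := by
    rw [← Nat.cast_pow, ZMod.natCast_eq_zero_iff]
    exact pow_dvd_pow p hk
  rw [this, map_zero]

end

end Pool.Agent.Helper832_EG
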