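import Pool.Agent.Helper832_EG.PD13

/-!
# Kummer generators for cyclic extensions ramified at one prime
-/

set_option linter.style.haveILetI false
set_option linter.unusedSectionVars false
set_option linter.unusedVariables false

open NumberField Ideal Module
open scoped Pointwise nonZeroDivisors

namespace Pool.Agent.Helper832_EG

section
variable {K L : Type} [Field K] [NumberField K] [Field L] [NumberField L] [Algebra K L] [IsGalois K L]

/-- The power of an ideal to the class number is principal. -/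
lemma pow_class (A : Ideal (𝓞 K)) (hA : A ≠ ⊥) : ∃ a : 𝓞 K, A ^ classNumber K = Ideal.span {a} := by
  have h1 : (ClassGroup.mk0 (⟨A, mem_nonZeroDivisors_of_ne_zero hA⟩ : (Ideal (𝓞 K))⁰)) ^ classNumber K = 1 :=
    pow_card_eq_one
  rw [← map_pow, ClassGroup.mk0_eq_one_iff] at h1
  obtain ⟨⟨a, ha⟩⟩ := h1
  exact ⟨a, ha⟩

variable {p : ℕ} [hp : Fact p.Prime] {P : Ideal (𝓞 L)} (hR : OneRam K L p P)
include hR

lemma OneRam.unique {Q : Ideal (𝓞 L)} (hQ : Q.IsPrime) (hQP : Q.LiesOver (P.under (𝓞 K))) : Q = P := by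
  haveI : IsGaloisGroup Gal(L/K) (𝓞 K) (𝓞 L) := isGalGrp
  have hPm := hR.max
  haveI : P.LiesOver (P.under (𝓞 K)) := ⟨rfl⟩
  have hP0 : P ≠ ⊥ := Ideal.IsMaximal.ne_bot_of_isIntegral_int P
  have hq0 : P.under (𝓞 K) ≠ ⊥ := Ideal.under_ne_bot _ hP0
  haveI : (P.under (𝓞 K)).IsMaximal := Ideal.isMaximal_comap_of_isIntegral_of_isMaximal P
  have hQm : Q.IsMaximal := hQ.isMaximal (Ideal.ne_bot_of_liesOver_of_ne_bot hq0 Q)
  by_contra hne
  have h1 := hR.other Q hQm hne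
  have h2 := Ideal.ramificationIdxIn_eq_ramificationIdx (P.under (𝓞 K)) P Gal(L/K)
  have h3 := Ideal.ramificationIdxIn_eq_ramificationIdx (P.under (𝓞 K)) Q Gal(L/K)
  rw [h2, hR.ram, h1] at h3
  exact hp.out.ne_one h3

lemma OneRam.map_under : (P.under (𝓞 K)).map (algebraMap (𝓞 K) (𝓞 L)) = P ^ p := by
  haveI := hR.max
  haveI : P.LiesOver (P.under (𝓞 K)) := ⟨rfl⟩
  have hP0 : P ≠ ⊥ := Ideal.IsMaximal.ne_bot_of_isIntegral_int P
  have hq0 : P.under (𝓞 K) ≠ ⊥ := Ideal.under_ne_bot _ hP0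
  haveI : (P.under (𝓞 K)).IsMaximal := Ideal.isMaximal_comap_of_isIntegral_of_isMaximal P
  rw [Ideal.map_algebraMap_eq_finsetProd_pow hq0]
  rw [Finset.prod_eq_single P]
  · rw [hR.ram]
  · intro Q hQ hne
    obtain ⟨h1, h2⟩ := Set.mem_toFinset.1 hQ
    exact absurd (hR.unique h1 h2) hne
  · intro h
    have h9 : P ∈ (P.under (𝓞 K)).primesOver (𝓞 L) := ⟨hR.max.isPrime, ⟨rfl⟩⟩
    exact absurd (Set.mem_toFinset.2 h9) h

lemma OneRam.inv (g : Gal(L/K)) : g • P = P := by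
  haveI : IsGaloisGroup Gal(L/K) (𝓞 K) (𝓞 L) := isGalGrp
  haveI := hR.max
  refine hR.unique inferInstance ⟨?_⟩
  ext x
  show _ ∈ P ↔ _ ∈ g • P
  rw [Ideal.mem_pointwise_smul_iff_inv_smul_mem, smul_algebraMap]

/-- A generator of a power of the ramified prime below is, up to units and powers, a `p`-th power. -/
lemma OneRam.gen_pow (hcl : ¬ p ∣ classNumber L) {π : 𝓞 K} {h : ℕ} (hπ : (P.under (𝓞 K)) ^ h = Ideal.span {π}) :
    ∃ n : ℕ, ¬ p ∣ n ∧ ∃ (u : (𝓞 L)ˣ) (w : 𝓞 L), algebraMap (𝓞 K) (𝓞 L) π ^ n = u * w ^ p := by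
  haveI := hR.max
  have hP0 : P ≠ ⊥ := Ideal.IsMaximal.ne_bot_of_isIntegral_int P
  obtain ⟨w, hw⟩ := pow_class P hP0
  refine ⟨classNumber L, hcl, ?_⟩
  have h1 : Ideal.span {algebraMap (𝓞 K) (𝓞 L) π ^ classNumber L} = Ideal.span {(w ^ h) ^ p} := by
    rw [← Ideal.span_singleton_pow, ← Set.image_singleton, ← Ideal.map_span, ← hπ, Ideal.map_pow, hR.map_under,
      ← Ideal.span_singleton_pow, ← Ideal.span_singleton_pow, ← hw]
    rw [← pow_mul, ← pow_mul, ← pow_mul, ← pow_mul]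
    congr 1
    ring
  obtain ⟨u, hu⟩ := Ideal.span_singleton_eq_span_singleton.1 h1
  exact ⟨u⁻¹, w ^ h, by
    rw [← hu, mul_comm, mul_assoc, Units.mul_inv, mul_one]⟩

/-- The Kummer generator. -/
theorem OneRam.kummer (hcard : Nat.card Gal(L/K) = p) (hcl : ¬ p ∣ classNumber K) {σ : Gal(L/K)}
    (hσ : ∀ g : Gal(L/K), g ∈ Subgroup.zpowers σ) {ζ : (𝓞 K)ˣ} (hζ : ζ ^ p = 1) :
    ∃ (α : 𝓞 L) (β π : 𝓞 K) (n : ℕ) (u : (𝓞 K)ˣ), α ≠ 0 ∧
      σ • α = algebraMap (𝓞 K) (𝓞 L) ((ζ : 𝓞 K) ^ classNumber K) * α ∧ α ^ p = algebraMap (𝓞 K) (𝓞 L) β ∧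
      (P.under (𝓞 K)) ^ classNumber K = Ideal.span {π} ∧ β = u * π ^ n := by
  classical
  haveI : IsGaloisGroup Gal(L/K) (𝓞 K) (𝓞 L) := isGalGrp
  haveI := hR.max
  have hinjK : Function.Injective (algebraMap (𝓞 K) (𝓞 L)) := FaithfulSMul.algebraMap_injective (𝓞 K) (𝓞 L)
  have hP0 : P ≠ ⊥ := Ideal.IsMaximal.ne_bot_of_isIntegral_int P
  have hq0 : P.under (𝓞 K) ≠ ⊥ := Ideal.under_ne_bot _ hP0
  set z : (𝓞 L)ˣ := Units.map (algebraMap (𝓞 K) (𝓞 L) : 𝓞 K →* 𝓞 L) ζ with hz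
  have hzp : nU p σ z = 1 := by
    have h1 : ∀ i, (sU σ)^[i] z = z := by
      intro i
      apply Units.ext
      rw [sU_iter]
      exact smul_algebraMap _ _
    show ∏ i ∈ Finset.range p, (sU σ)^[i] z = 1
    rw [Finset.prod_congr rfl (fun i _ => h1 i), Finset.prod_const, Finset.card_range, hz, ← map_pow, hζ, map_one]
  obtain ⟨b, hb, hbσ⟩ := h90 hcard hσ hzp
  have hspan : Ideal.span {b} ≠ (⊥ : Ideal (𝓞 L)) := by simpa using hb
  -- choose the exponent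
  obtain ⟨t, ht⟩ : ∃ t : ℕ, p ∣ multiplicity P (Ideal.span {b}) + t := by
    refine ⟨multiplicity P (Ideal.span {b}) * (p - 1), ?_⟩
    have h1 : multiplicity P (Ideal.span {b}) + multiplicity P (Ideal.span {b}) * (p - 1) =
        multiplicity P (Ideal.span {b}) * p := by
      have := hp.out.one_lt
      obtain ⟨q, hq⟩ : ∃ q, p = q + 1 := ⟨p - 1, by omega⟩
      rw [hq, Nat.add_sub_cancel]; ring
    rw [h1]; exact dvd_mul_left _ _
  set I : Ideal (𝓞 L) := Ideal.span {b} * P ^ t with hI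
  have hI0 : I ≠ ⊥ := mul_ne_zero hspan (pow_ne_zero _ hP0)
  have hpow : ∀ (g : Gal(L/K)) (n : ℕ) (A : Ideal (𝓞 L)), g • A = A → g • (A ^ n) = A ^ n := by
    intro g n A hA
    induction n with
    | zero =>
      rw [pow_zero, Ideal.pointwise_smul_def, Ideal.one_eq_top]
      exact Ideal.map_top _
    | succ n ih => rw [pow_succ, smul_mul_ideal, ih, hA]
  have hinv : ∀ g : Gal(L/K), g • I = I := by
    intro g
    rw [hI, smul_mul_ideal, inv_span hσ hbσ g, hpow g t P (hR.inv g)]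
  have hPP : multiplicity P P = 1 := multiplicity_self
  have hmult : p ∣ multiplicity P I := by
    rw [hI, mult_mul hR.max hspan (pow_ne_zero _ hP0), mult_pow hR.max hP0, hPP, mul_one]
    exact ht
  obtain ⟨A, hA⟩ := descent (K := K) _ I hI0 le_rfl hinv (hR.dvd hmult)
  have hA0 : A ≠ ⊥ := by
    rintro rfl
    rw [Ideal.map_bot] at hA
    exact hI0 hA
  obtain ⟨a, ha⟩ := pow_class A hA0
  obtain ⟨π, hπ⟩ := pow_class (P.under (𝓞 K)) hq0
  set h := classNumber K with hh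
  have ha0 : a ≠ 0 := by
    rintro rfl
    rw [Ideal.span_singleton_zero] at ha
    exact pow_ne_zero _ hA0 ha
  have hπ0 : π ≠ 0 := by
    rintro rfl
    rw [Ideal.span_singleton_zero] at hπ
    exact pow_ne_zero _ hq0 hπ
  -- the ideal relation
  have hrel : Ideal.span {(b ^ h) ^ p * algebraMap (𝓞 K) (𝓞 L) π ^ t} =
      Ideal.span {algebraMap (𝓞 K) (𝓞 L) a ^ p} := by
    have e1 : Ideal.span {algebraMap (𝓞 K) (𝓞 L) a} = I ^ h := by
      rw [← Set.image_singleton, ← Ideal.map_span, ← ha, Ideal.map_pow, ← hA]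
    have e2 : Ideal.span {algebraMap (𝓞 K) (𝓞 L) π} = (P ^ p) ^ h := by
      rw [← Set.image_singleton, ← Ideal.map_span, ← hπ, Ideal.map_pow, hR.map_under]
    rw [← Ideal.span_singleton_mul_span_singleton, ← Ideal.span_singleton_pow, ← Ideal.span_singleton_pow,
      ← Ideal.span_singleton_pow, ← Ideal.span_singleton_pow, e1, e2, hI]
    ring
  obtain ⟨v, hv⟩ := Ideal.span_singleton_eq_span_singleton.1 hrel.symm
  -- `v` comes from the base field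
  have hbp : ∃ c : 𝓞 K, algebraMap (𝓞 K) (𝓞 L) c = b ^ p := by
    refine Algebra.IsInvariant.isInvariant (A := 𝓞 K) (G := Gal(L/K)) (b ^ p) (fun g => ?_)
    obtain ⟨n, rfl⟩ := Subgroup.mem_zpowers_iff.1 (hσ g)
    have h4 : σ ∈ MulAction.stabilizer Gal(L/K) (b ^ p) := by
      rw [MulAction.mem_stabilizer_iff, smul_pow', hbσ, mul_pow, ← Units.val_pow_eq_pow_val]
      have : z ^ p = 1 := by rw [hz, ← map_pow, hζ, map_one]
      rw [this, Units.val_one, one_mul]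
    exact Subgroup.zpow_mem _ h4 n
  obtain ⟨c, hc⟩ := hbp
  have hvK : (v : 𝓞 L) * algebraMap (𝓞 K) (𝓞 L) a ^ p = algebraMap (𝓞 K) (𝓞 L) (c ^ h * π ^ t) := by
    rw [mul_comm, hv, map_mul, map_pow, map_pow, hc, ← pow_mul, ← pow_mul, mul_comm h p]
  have hvσ : sU σ v = v := by
    apply Units.ext
    rw [sU_coe]
    have h5 : σ • ((v : 𝓞 L) * algebraMap (𝓞 K) (𝓞 L) a ^ p) = (v : 𝓞 L) * algebraMap (𝓞 K) (𝓞 L) a ^ p := by
      rw [hvK]; exact smul_algebraMap _ _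
    rw [smul_mul', smul_pow', smul_algebraMap] at h5
    exact mul_right_cancel₀ (pow_ne_zero _ (fun h => ha0 (hinjK (by rw [h, map_zero])))) h5
  obtain ⟨u, hu⟩ := (mem_ker_dU hσ v).1 ((MonoidHom.mem_ker).2 (div_eq_one.2 hvσ))
  have hu' : algebraMap (𝓞 K) (𝓞 L) u = v := congrArg Units.val hu
  -- divide by `a`
  have hdvd : algebraMap (𝓞 K) (𝓞 L) a ∣ b ^ h * algebraMap (𝓞 K) (𝓞 L) π ^ t := by
    rw [← IsIntegrallyClosed.pow_dvd_pow_iff (n := p) hp.out.ne_zero]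
    refine ⟨(v : 𝓞 L) * (algebraMap (𝓞 K) (𝓞 L) π ^ t) ^ (p - 1), ?_⟩
    have e3 : (algebraMap (𝓞 K) (𝓞 L) π ^ t) ^ p = algebraMap (𝓞 K) (𝓞 L) π ^ t * (algebraMap (𝓞 K) (𝓞 L) π ^ t) ^ (p - 1) := by
      rw [← pow_succ', Nat.sub_add_cancel hp.out.pos]
    rw [mul_pow, e3, ← mul_assoc, ← hv]; ring
  obtain ⟨α, hα⟩ := hdvd
  have haL : algebraMap (𝓞 K) (𝓞 L) a ≠ 0 := fun h => ha0 (hinjK (by rw [h, map_zero]))
  refine ⟨α, u * π ^ (t * (p - 1)), π, t * (p - 1), u, ?_, ?_, ?_, hπ, rfl⟩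
  · rintro rfl
    rw [mul_zero] at hα
    refine mul_ne_zero (pow_ne_zero _ hb) (pow_ne_zero _ ?_) hα
    exact fun h => hπ0 (hinjK (by rw [h, map_zero]))
  · apply mul_left_cancel₀ haL
    have h6 : algebraMap (𝓞 K) (𝓞 L) a * (σ • α) = σ • (b ^ h * algebraMap (𝓞 K) (𝓞 L) π ^ t) := by
      rw [hα, smul_mul', smul_algebraMap]
    rw [h6, smul_mul', smul_pow', smul_pow', smul_algebraMap, hbσ, mul_pow]
    have h7 : ((z : (𝓞 L)ˣ) : 𝓞 L) = algebraMap (𝓞 K) (𝓞 L) (ζ : 𝓞 K) := rfl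
    rw [h7, map_pow]
    linear_combination (algebraMap (𝓞 K) (𝓞 L) (ζ : 𝓞 K)) ^ h * hα
  · have haLp := pow_ne_zero p haL
    apply mul_left_cancel₀ haLp
    rw [← mul_pow, ← hα, map_mul, hu', map_pow, mul_pow]
    have e3 : (algebraMap (𝓞 K) (𝓞 L) π ^ t) ^ p = algebraMap (𝓞 K) (𝓞 L) π ^ t * algebraMap (𝓞 K) (𝓞 L) π ^ (t * (p - 1)) := by
      rw [← pow_mul, ← pow_add]
      congr 1
      have := hp.out.one_lt
      obtain ⟨q, hq⟩ : ∃ q, p = q + 1 := ⟨p - 1, by omega⟩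
      rw [hq, Nat.add_sub_cancel]; ring
    rw [e3, ← mul_assoc, ← hv]; ring

end

end Pool.Agent.Helper832_EG
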