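import Pool.Agent.Helper832_EG.KA1
import Pool.Agent.Helper832_EG.Cr5

/-!
# Units which are not `p`-th powers modulo primes with primitive Frobenius
-/

set_option linter.style.haveILetI false
set_option linter.unusedSectionVars false
set_option linter.unusedVariables false

open NumberField Ideal Module IntermediateField Pool.Agent.W569.FM Pool.Agent.W571.FM Pool.Agent.R417.FK
open scoped Pointwise nonZeroDivisors

namespace Pool.Agent.Helper832_EG

section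
variable {k : Type} [Field k] [NumberField k] {p : ℕ} [hp : Fact p.Prime]
variable {r : ℕ} {φ : GF k →* Multiplicative (Fin r → ℤ_[p])}

/-- The first layer attached to a character of `ℤ_p ^ r`. -/
lemma exists_layer [IsTotallyComplex k] (h1 : OnePrime k p) (hcl : ¬ p ∣ classNumber k) (hφ : Continuous φ)
    (hs : Function.Surjective φ) {Q0 : Ideal (OO k)} (hQ0 : Q0.IsMaximal) (hpQ0 : (p : OO k) ∈ Q0)
    [NumberField (⊥ : IntermediateField k (AlgebraicClosure k))]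
    {χ : GF k → ZMod p} (hχ : IsCh ⊤ χ) (hker : ∀ g ∈ φ.ker, χ g = 0) {g0 : GF k} (hne : χ g0 ≠ 0) :
    ∃ (L : IntermediateField (⊥ : IntermediateField k (AlgebraicClosure k)) (AlgebraicClosure k)) (_ : NumberField L)
      (_ : IsGalois (⊥ : IntermediateField k (AlgebraicClosure k)) L),
      Nat.card Gal(L/(⊥ : IntermediateField k (AlgebraicClosure k))) = p ∧
      (∃ σ : Gal(L/(⊥ : IntermediateField k (AlgebraicClosure k))), ∀ g, g ∈ Subgroup.zpowers σ) ∧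
      (∀ x : AlgebraicClosure k, x ∈ L ↔ ∀ g, χ g = 0 → g x = x) ∧
      OneRam (⊥ : IntermediateField k (AlgebraicClosure k)) L p (Q0.under (𝓞 L)) := by
  classical
  have h := noUr_of_class hcl
  have hBfix : (⊥ : IntermediateField k (AlgebraicClosure k)).fixingSubgroup = ⊤ := IntermediateField.fixingSubgroup_bot
  obtain ⟨M, hMn, hMg, hcard, hσ, hMx, hMr⟩ := exists_ext (⊥ : IntermediateField k (AlgebraicClosure k))
    (χ := χ) (by rw [hBfix]; exact hχ) (g0 := g0) (by rw [hBfix]; trivial) hne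
  have hall : ∀ g : GF k, g ∈ (⊥ : IntermediateField k (AlgebraicClosure k)).fixingSubgroup := by
    intro g; rw [hBfix]; trivial
  refine ⟨M, hMn, hMg, hcard, hσ, fun x => ?_, ?_⟩
  · rw [hMx]
    exact ⟨fun h g hg => h g (hall g) hg, fun h g _ hg => h g hg⟩
  · refine oneRam_of hMr hQ0 ?_ ?_
    · obtain ⟨s, hs1, hs2⟩ := phi_wild h1 h hφ hs (inertia Q0) ⟨Q0, hQ0, hpQ0, rfl⟩ (φ g0)
      have h5 : g0 * s⁻¹ ∈ φ.ker := by rw [MonoidHom.mem_ker, map_mul, map_inv, hs2, mul_inv_cancel]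
      refine ⟨s, hs1, hall s, fun h0 => hne ?_⟩
      have h8 : χ g0 = χ (g0 * s⁻¹) + χ s := by
        rw [← hχ.mul (Subgroup.mem_top _) (Subgroup.mem_top _), inv_mul_cancel_right]
      rw [h8, hker _ h5, h0, add_zero]
    · rintro Q hQ ⟨τ, hτ, hτD, hτχ⟩
      have hpQ : (p : OO k) ∈ Q := by
        by_contra hpQ
        exact hτχ (hker τ ((MonoidHom.mem_ker).2 (phi_tame hφ hQ hpQ hτ)))
      ext y
      refine under_eq_of_wild h1 h hφ hs hQ hQ0 hpQ hpQ0 (fun g hg => ?_)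
      apply RingOfIntegers.ext
      exact (hMx _).1 (y : M).2 g (hall g) (hker g hg)

/-- The key step, with all the data as hypotheses. -/
theorem unit_of_chars_aux [IsTotallyComplex k] {ζ : k} (hζ : IsPrimitiveRoot ζ p)
    {χ1 χ2 : GF k → ZMod p} (hχ2 : IsCh ⊤ χ2)
    {P : Ideal (OO k)} (hP : P.IsMaximal) (hpP : (p : OO k) ∉ P) {σ : GF k} (hσ : FrobAt (nm P) P σ)
    (hσ1 : χ1 σ = 0) (hσ2 : χ2 σ ≠ 0) {D : IntermediateField k (AlgebraicClosure k)}
    (hD : ∀ x, x ∈ D ↔ ∀ g, χ1 g = 0 → g x = x)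
    (hcon : ∀ u : (𝓞 D)ˣ, ∃ z : 𝓞 D, algebraMap (𝓞 D) (OO k) ((u : 𝓞 D) - z ^ p) ∈ P)
    {Q0 : Ideal (OO k)} (hQ0 : Q0.IsMaximal) (hpQ0 : (p : OO k) ∈ Q0)
    (B : IntermediateField k (AlgebraicClosure k)) [NumberField B] [IsTotallyComplex B] (hclB : ¬ p ∣ classNumber B)
    (hσB : σ ∈ B.fixingSubgroup) (L1 L2 : IntermediateField B (AlgebraicClosure k)) [NumberField L1] [NumberField L2]
    [IsGalois B L1] [IsGalois B L2]
    (hcard1 : Nat.card Gal(L1/B) = p) (hcard2 : Nat.card Gal(L2/B) = p)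
    {σ1 : Gal(L1/B)} (hσ1g : ∀ g, g ∈ Subgroup.zpowers σ1) {σ2 : Gal(L2/B)} (hσ2g : ∀ g, g ∈ Subgroup.zpowers σ2)
    (hL1 : ∀ x : AlgebraicClosure k, x ∈ L1 ↔ ∀ g, χ1 g = 0 → g x = x)
    (hL2 : ∀ x : AlgebraicClosure k, x ∈ L2 ↔ ∀ g, χ2 g = 0 → g x = x)
    (hR1 : OneRam B L1 p (Q0.under (𝓞 L1))) (hR2 : OneRam B L2 p (Q0.under (𝓞 L2))) : False := by
  classical
  have hcl1 : ¬ p ∣ classNumber L1 := class_step hcard1 hclB hσ1g hR1
  -- the root of unity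
  set z0 : 𝓞 B := algebraMap (𝓞 k) (𝓞 B) hζ.toInteger with hz0
  have hz0p : z0 ^ p = 1 := by
    rw [hz0, ← map_pow, hζ.toInteger_isPrimitiveRoot.pow_eq_one, map_one]
  set zB : (𝓞 B)ˣ := Units.ofPowEqOne z0 p hz0p hp.out.ne_zero with hzB
  have hzBp : zB ^ p = 1 := Units.ext hz0p
  obtain ⟨α, β, π, n, u, hα0, hασ, hαβ, hπ, hβ⟩ := hR2.kummer hcard2 hclB hσ2g hzBp
  obtain ⟨n1, hn1, u1, w, hw⟩ := hR1.gen_pow hcl1 (π := π) (h := classNumber B) hπ
  -- passage to the residue field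
  set qm := Ideal.Quotient.mk P with hqm
  haveI : P.IsPrime := hP.isPrime
  set N := nm P with hN
  have hfix : ∀ y : OO k, σ • y = y → qm y ^ N = qm y := by
    intro y hy
    have h2 := hσ y
    rw [hy] at h2
    rw [← map_pow]
    exact (Ideal.Quotient.eq.2 h2).symm
  have hL1σ : ∀ y : 𝓞 L1, σ • (algebraMap (𝓞 L1) (OO k) y) = algebraMap (𝓞 L1) (OO k) y := by
    intro y
    apply RingOfIntegers.ext
    exact (hL1 _).1 (y : L1).2 σ hσ1
  have hBL1 : ∀ y : 𝓞 B, algebraMap (𝓞 B) (OO k) y = algebraMap (𝓞 L1) (OO k) (algebraMap (𝓞 B) (𝓞 L1) y) :=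
    fun y => rfl
  have hBL2 : ∀ y : 𝓞 B, algebraMap (𝓞 B) (OO k) y = algebraMap (𝓞 L2) (OO k) (algebraMap (𝓞 B) (𝓞 L2) y) :=
    fun y => rfl
  have hBσ : ∀ y : 𝓞 B, σ • (algebraMap (𝓞 B) (OO k) y) = algebraMap (𝓞 B) (OO k) y := by
    intro y; rw [hBL1]; exact hL1σ _
  -- units of `L1` are `p`-th powers modulo `P`
  have hunit : ∀ v : (𝓞 L1)ˣ, ∃ y : 𝓞 L1, qm (algebraMap (𝓞 L1) (OO k) (v : 𝓞 L1)) = qm (algebraMap (𝓞 L1) (OO k) y) ^ p := by
    intro v
    have hmem : ∀ x : AlgebraicClosure k, x ∈ L1 ↔ x ∈ D := fun x => by rw [hL1, hD]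
    let e : L1 ≃+* D :=
      { toFun := fun x => ⟨x.1, (hmem _).1 x.2⟩
        invFun := fun x => ⟨x.1, (hmem _).2 x.2⟩
        left_inv := fun x => rfl
        right_inv := fun x => rfl
        map_mul' := fun x y => rfl
        map_add' := fun x y => rfl }
    let eO : 𝓞 L1 ≃+* 𝓞 D := RingOfIntegers.mapRingEquiv e
    obtain ⟨z, hz⟩ := hcon (Units.mapEquiv eO.toMulEquiv v)
    refine ⟨eO.symm z, ?_⟩
    have h2 : algebraMap (𝓞 L1) (OO k) (v : 𝓞 L1) = algebraMap (𝓞 D) (OO k) ((Units.mapEquiv eO.toMulEquiv v : (𝓞 D)ˣ) : 𝓞 D) := by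
      apply RingOfIntegers.ext; rfl
    have h3 : algebraMap (𝓞 L1) (OO k) (eO.symm z) = algebraMap (𝓞 D) (OO k) z := by
      apply RingOfIntegers.ext; rfl
    rw [h2, h3, ← map_pow, Ideal.Quotient.eq, ← map_pow, ← map_sub]
    exact hz
  -- the prime `π` is not in `P`
  have hπP : qm (algebraMap (𝓞 B) (OO k) π) ≠ 0 := by
    intro h2
    rw [Ideal.Quotient.eq_zero_iff_mem] at h2
    have h3 : ((Q0.under (𝓞 L2)).under (𝓞 B)) ^ classNumber B ≤ P.under (𝓞 B) := by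
      rw [hπ, Ideal.span_singleton_le_iff_mem]; exact h2
    have h4 : (Q0.under (𝓞 L2)).under (𝓞 B) ≤ P.under (𝓞 B) := Ideal.IsPrime.le_of_pow_le h3
    have h5 : (p : 𝓞 B) ∈ (Q0.under (𝓞 L2)).under (𝓞 B) := by
      rw [Ideal.mem_comap, map_natCast, Ideal.mem_comap, map_natCast]; exact hpQ0
    have h6 := h4 h5
    rw [Ideal.mem_comap, map_natCast] at h6
    exact hpP h6
  have hunit0 : ∀ v : (𝓞 B)ˣ, qm (algebraMap (𝓞 B) (OO k) (v : 𝓞 B)) ≠ 0 := by
    intro v h2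
    have h3 : qm (algebraMap (𝓞 B) (OO k) (v : 𝓞 B)) * qm (algebraMap (𝓞 B) (OO k) ((v⁻¹ : (𝓞 B)ˣ) : 𝓞 B)) = 1 := by
      rw [← map_mul, ← map_mul, Units.mul_inv, map_one, map_one]
    rw [h2, zero_mul] at h3
    exact zero_ne_one h3
  have hβP : qm (algebraMap (𝓞 B) (OO k) β) ≠ 0 := by
    rw [hβ, map_mul, map_mul, map_pow, map_pow]
    exact mul_ne_zero (hunit0 u) (pow_ne_zero _ hπP)
  -- `β ^ n1` is a `p`-th power
  obtain ⟨y, hy⟩ : ∃ y : 𝓞 L1, qm (algebraMap (𝓞 B) (OO k) β) ^ n1 = qm (algebraMap (𝓞 L1) (OO k) y) ^ p := by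
    obtain ⟨y1, hy1⟩ := hunit (Units.map (algebraMap (𝓞 B) (𝓞 L1) : 𝓞 B →* 𝓞 L1) u)
    obtain ⟨y2, hy2⟩ := hunit u1
    refine ⟨y1 ^ n1 * (y2 * w) ^ n, ?_⟩
    have e1 : qm (algebraMap (𝓞 B) (OO k) (u : 𝓞 B)) = qm (algebraMap (𝓞 L1) (OO k) y1) ^ p := hy1
    have e2 : qm (algebraMap (𝓞 B) (OO k) π) ^ n1 = qm (algebraMap (𝓞 L1) (OO k) y2) ^ p * qm (algebraMap (𝓞 L1) (OO k) w) ^ p := by
      rw [hBL1, ← map_pow, ← map_pow, hw, map_mul, map_mul, hy2, map_pow, map_pow]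
    rw [hβ, map_mul, map_mul, map_pow, map_pow, mul_pow, e1, ← pow_mul _ n n1, mul_comm n n1, pow_mul _ n1 n, e2]
    simp only [map_mul, map_pow]
    ring
  have hy0 : qm (algebraMap (𝓞 L1) (OO k) y) ≠ 0 := by
    intro h2
    rw [h2, zero_pow hp.out.ne_zero] at hy
    exact pow_ne_zero _ hβP hy
  -- the action of Frobenius on `α`
  set a : OO k := algebraMap (𝓞 L2) (OO k) α with ha
  have hap : qm a ^ p = qm (algebraMap (𝓞 B) (OO k) β) := by
    rw [ha, ← map_pow, ← map_pow, hαβ]; rfl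
  have ha0 : qm a ≠ 0 := by
    intro h2
    rw [h2, zero_pow hp.out.ne_zero] at hap
    exact hβP hap.symm
  set eB := IntermediateField.fixingSubgroupEquiv B with heB
  set γ : Gal(L2/B) := AlgEquiv.restrictNormalHom L2 (eB ⟨σ, hσB⟩) with hγ
  haveI : Finite Gal(L2/B) := Nat.finite_of_card_ne_zero (by rw [hcard2]; exact hp.out.ne_zero)
  obtain ⟨c, hc⟩ : ∃ c : ℕ, σ2 ^ c = γ := by
    have h2 := hσ2g γ
    rw [← mem_powers_iff_mem_zpowers] at h2
    exact h2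
  have hact : ∀ c : ℕ, (σ2 ^ c) • α = algebraMap (𝓞 B) (𝓞 L2) (z0 ^ (classNumber B * c)) * α := by
    intro c
    induction c with
    | zero => simp
    | succ c ih =>
      rw [pow_succ', mul_smul, ih, smul_mul', smul_algebraMap, hασ, mul_add, pow_add, mul_one, map_mul]
      have : ((zB : (𝓞 B)ˣ) : 𝓞 B) = z0 := rfl
      rw [this]; ring
  have hσa : σ • a = algebraMap (𝓞 B) (OO k) (z0 ^ (classNumber B * c)) * a := by
    have h2 : algebraMap (𝓞 L2) (OO k) (γ • α) = σ • a := by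
      apply RingOfIntegers.ext
      exact AlgEquiv.restrictNormal_commutes (eB ⟨σ, hσB⟩) L2 (α : L2)
    rw [← h2, ← hc, hact, map_mul]; rfl
  set Z : OO k := algebraMap (𝓞 B) (OO k) z0 with hZ
  have hZp : Z ^ p = 1 := by rw [hZ, ← map_pow, hz0p, map_one]
  have hN1 : 1 ≤ N := Nat.one_le_iff_ne_zero.2 (nm_ne hP)
  have hZprim : ∀ m : ℕ, qm Z ^ m = 1 → p ∣ m := by
    intro m hm
    have h2 : Z ^ m = 1 := by
      refine root_cong (P := P) (N := p) hp.out.ne_zero hpP (by rw [← pow_mul, mul_comm, pow_mul, hZp, one_pow]) (one_pow p) ?_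
      rw [← Ideal.Quotient.eq, map_pow, map_one]; exact hm
    have h3 : ζ ^ m = 1 := by
      apply (algebraMap k (AlgebraicClosure k)).injective
      rw [map_pow, map_one]
      have h4 := congrArg (algebraMap (OO k) (AlgebraicClosure k)) h2
      rw [map_pow, map_one] at h4
      exact h4
    exact (hζ.pow_eq_one_iff_dvd m).1 h3
  have hcanc : ∀ x : OO k ⧸ P, x ≠ 0 → ∀ e : OO k ⧸ P, x ^ N = e * x → x ^ (N - 1) = e := by
    intro x hx e he
    have h2 : x ^ (N - 1) * x = e * x := by rw [← pow_succ, Nat.sub_add_cancel hN1]; exact he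
    exact mul_right_cancel₀ hx h2
  have hNp : p ∣ N - 1 := by
    have hZ0 : qm Z ≠ 0 := by
      intro h2
      have h3 : qm Z ^ p = 1 := by rw [← map_pow, hZp, map_one]
      rw [h2, zero_pow hp.out.ne_zero] at h3
      exact zero_ne_one h3
    apply hZprim
    exact hcanc _ hZ0 1 (by rw [one_mul]; exact hfix Z (hBσ z0))
  obtain ⟨m, hm⟩ := hNp
  have haN : qm a ^ (N - 1) = qm Z ^ (classNumber B * c) := by
    apply hcanc _ ha0
    have h2 := Ideal.Quotient.eq.2 (hσ a)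
    rw [hσa, map_mul, map_pow, map_pow, map_pow] at h2
    exact h2.symm
  have hyN : qm (algebraMap (𝓞 L1) (OO k) y) ^ (N - 1) = 1 :=
    hcanc _ hy0 1 (by rw [one_mul]; exact hfix _ (hL1σ y))
  have hfin : qm Z ^ (classNumber B * c * n1) = 1 := by
    rw [pow_mul, ← haN, ← pow_mul, mul_comm (N - 1) n1, pow_mul, hm, pow_mul, ← pow_mul (qm a) n1 p, mul_comm n1 p,
      pow_mul, hap, hy, ← pow_mul, ← hm, hyN]
  have hdvd := hZprim _ hfin
  have hpc : p ∣ c := by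
    rcases (hp.out.dvd_mul).1 hdvd with h2 | h2
    · rcases (hp.out.dvd_mul).1 h2 with h3 | h3
      · exact absurd h3 hclB
      · exact h3
    · exact absurd h2 hn1
  obtain ⟨c', rfl⟩ := hpc
  have hγ1 : γ = 1 := by
    rw [← hc, pow_mul]
    have : σ2 ^ p = 1 := by rw [← hcard2]; exact pow_card_eq_one'
    rw [this, one_pow]
  -- `σ` fixes `L2`
  have hσL2 : ∀ x ∈ L2, σ x = x := by
    intro x hx
    have h2 := AlgEquiv.restrictNormal_commutes (eB ⟨σ, hσB⟩) L2 (⟨x, hx⟩ : L2)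
    have h3 : AlgEquiv.restrictNormal (eB ⟨σ, hσB⟩) L2 = 1 := hγ1
    rw [h3] at h2
    exact h2.symm
  -- conclusion
  apply hσ2
  let N2 : Subgroup (GF k) :=
    { carrier := {g | χ2 g = 0}
      mul_mem' := fun {a b} ha hb => by
        show χ2 (a * b) = 0
        rw [hχ2.mul (Subgroup.mem_top _) (Subgroup.mem_top _), ha, hb, add_zero]
      one_mem' := hχ2.one
      inv_mem' := fun {a} ha => by
        show χ2 a⁻¹ = 0
        rw [hχ2.inv (Subgroup.mem_top _), ha, neg_zero] }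
  have hN2o : IsOpen (N2 : Set (GF k)) := by
    obtain ⟨V, hV, hV'⟩ := hχ2.2
    exact Subgroup.isOpen_mono (H₁ := V) (fun x hx => hV' x (Subgroup.mem_top x) hx) hV
  have h2 : (IntermediateField.fixedField N2).fixingSubgroup = N2 :=
    InfiniteGalois.fixingSubgroup_fixedField ⟨N2, Subgroup.isClosed_of_isOpen _ hN2o⟩
  have h3 : σ ∈ N2 := by
    rw [← h2, IntermediateField.mem_fixingSubgroup_iff]
    intro x hx
    refine hσL2 x ((hL2 x).2 fun g hg => ?_)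
    exact (IntermediateField.mem_fixedField_iff _ _).1 hx g hg
  exact h3

/-- The key step: a unit of the layer cut out by `χ1` which is not a `p`-th power modulo `P`. -/
theorem unit_of_chars [IsTotallyComplex k] (h1 : OnePrime k p) (hcl : ¬ p ∣ classNumber k) (hφ : Continuous φ)
    (hs : Function.Surjective φ) {ζ : k} (hζ : IsPrimitiveRoot ζ p)
    {χ1 χ2 : GF k → ZMod p} (hχ1 : IsCh ⊤ χ1) (hχ2 : IsCh ⊤ χ2) (hk1 : ∀ g ∈ φ.ker, χ1 g = 0)
    (hk2 : ∀ g ∈ φ.ker, χ2 g = 0) {g1 : GF k} (hne1 : χ1 g1 ≠ 0)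
    {P : Ideal (OO k)} (hP : P.IsMaximal) (hpP : (p : OO k) ∉ P) {σ : GF k} (hσ : FrobAt (nm P) P σ)
    (hσ1 : χ1 σ = 0) (hσ2 : χ2 σ ≠ 0) {D : IntermediateField k (AlgebraicClosure k)}
    (hD : ∀ x, x ∈ D ↔ ∀ g, χ1 g = 0 → g x = x) :
    ∃ u : (𝓞 D)ˣ, ∀ z : 𝓞 D, algebraMap (𝓞 D) (OO k) ((u : 𝓞 D) - z ^ p) ∉ P := by
  classical
  by_contra hcon
  push Not at hcon
  haveI : NumberField (⊥ : IntermediateField k (AlgebraicClosure k)) := NumberField.of_module_finite k _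
  obtain ⟨_, Q0, hQ0, hpQ0, rfl⟩ := exists_wild (E := k) (p := p)
  obtain ⟨L1, hn1, hg1, hcard1, ⟨σ1, hσ1g⟩, hL1, hR1⟩ := exists_layer h1 hcl hφ hs hQ0 hpQ0 hχ1 hk1 hne1
  obtain ⟨L2, hn2, hg2, hcard2, ⟨σ2, hσ2g⟩, hL2, hR2⟩ := exists_layer h1 hcl hφ hs hQ0 hpQ0 hχ2 hk2 hσ2
  haveI : IsTotallyComplex (⊥ : IntermediateField k (AlgebraicClosure k)) := isTotallyComplex_of_algebra k _
  have hclB : ¬ p ∣ classNumber (⊥ : IntermediateField k (AlgebraicClosure k)) := by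
    let e : (⊥ : IntermediateField k (AlgebraicClosure k)) ≃+* k := (IntermediateField.botEquiv k (AlgebraicClosure k)).toRingEquiv
    rw [classNumber_congr e]; exact hcl
  exact unit_of_chars_aux hζ hχ2 hP hpP hσ hσ1 hσ2 hD hcon hQ0 hpQ0 ⊥ hclB
    (by rw [IntermediateField.fixingSubgroup_bot]; trivial) L1 L2 hcard1 hcard2 hσ1g hσ2g hL1 hL2 hR1 hR2

end

end Pool.Agent.Helper832_EG
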