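import Pool.Agent.Helper832_EG.KA2

/-!
# The unit condition at primes with primitive Frobenius
-/

set_option linter.style.haveILetI false
set_option linter.unusedSectionVars false
set_option linter.unusedVariables false

open NumberField Module IntermediateField Pool.Agent.W569.FM Pool.Agent.W571.FM Pool.Agent.R417.FK

namespace Pool.Agent.Helper832_EG

section
variable {k : Type} [Field k] [NumberField k] {p : ℕ} [hp : Fact p.Prime]
variable {r : ℕ} {φ : GF k →* Multiplicative (Fin r → ℤ_[p])}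

/-- Characters of `ℤ_p ^ r` of order `p` give continuous characters. -/
lemma isCh_lin (hφ : Continuous φ) (ψ : (Fin r → ℤ_[p]) →+ ZMod p) :
    IsCh ⊤ (fun g => ψ (Multiplicative.toAdd (φ g))) := by
  have hψp : ∀ v : Fin r → ℤ_[p], ψ (p • v) = 0 := by
    intro v; rw [map_nsmul, nsmul_eq_mul, CharP.cast_eq_zero, zero_mul]
  have hpo : IsOpen {v : Fin r → ℤ_[p] | ∀ i, (p : ℤ_[p]) ^ 1 ∣ v i} := by
    have : {v : Fin r → ℤ_[p] | ∀ i, (p : ℤ_[p]) ^ 1 ∣ v i} = ⋂ i, {v : Fin r → ℤ_[p] | (p : ℤ_[p]) ^ 1 ∣ v i} := by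
      ext v; simp
    rw [this]
    refine isOpen_iInter_of_finite fun i => ?_
    have hci : Continuous (fun v : Fin r → ℤ_[p] => v i) := continuous_apply i
    exact (Pool.Agent.Y142.isOpen_pow (ℓ := p) 1).preimage hci
  refine ⟨fun x _ y _ => ?_, ?_⟩
  · show ψ (Multiplicative.toAdd (φ (x * y))) = _
    rw [map_mul, toAdd_mul, map_add]
  · let U : Subgroup (GF k) :=
      { carrier := {g | ∀ i, (p : ℤ_[p]) ^ 1 ∣ (Multiplicative.toAdd (φ g)) i}
        mul_mem' := fun {a b} ha hb i => by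
          rw [map_mul, toAdd_mul, Pi.add_apply]; exact dvd_add (ha i) (hb i)
        one_mem' := fun i => by rw [map_one, toAdd_one, Pi.zero_apply]; exact dvd_zero _
        inv_mem' := fun {a} ha i => by
          rw [map_inv, toAdd_inv, Pi.neg_apply]; exact (dvd_neg).2 (ha i) }
    refine ⟨U, hpo.preimage (continuous_toAdd.comp hφ), fun x _ hx => ?_⟩
    choose w hw using hx
    show ψ (Multiplicative.toAdd (φ x)) = 0
    have h2 : Multiplicative.toAdd (φ x) = p • w := by
      funext i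
      rw [hw i, pow_one, Pi.smul_apply, nsmul_eq_mul]
    rw [h2, hψp]

/-- Frobenius elements at the same prime have the same image. -/
lemma frob_phi (hφ : Continuous φ) {P : Ideal (OO k)} (hP : P.IsMaximal) (hpP : (p : OO k) ∉ P) {σ σ' : GF k}
    (hσ : FrobAt (nm P) P σ) (hσ' : FrobAt (nm P) P σ') : φ σ = φ σ' := by
  have h1 : InInertia P (σ⁻¹ * σ') := by
    intro x
    have h2 : σ' • x - σ • x ∈ P := by
      have := P.sub_mem (hσ' x) (hσ x)
      rwa [sub_sub_sub_cancel_right] at this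
    have h3 : (σ⁻¹ * σ') • x - x = σ⁻¹ • (σ' • x - σ • x) := by
      rw [smul_sub, inv_smul_smul, mul_smul]
    rw [h3]
    set y := σ' • x - σ • x with hy
    have h4 := hσ (σ⁻¹ • y)
    rw [smul_inv_smul] at h4
    have h5 : (σ⁻¹ • y) ^ (nm P) ∈ P := by
      have := P.sub_mem h2 h4
      rwa [sub_sub_cancel] at this
    exact hP.isPrime.mem_of_pow_mem _ h5
  have h2 := phi_tame hφ hP hpP h1
  rw [map_mul, map_inv, inv_mul_eq_one] at h2
  exact h2

/-- The fixed field of the kernel of a character. -/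
lemma exists_fixed_field {χ : GF k → ZMod p} (hχ : IsCh ⊤ χ) :
    ∃ D : IntermediateField k (AlgebraicClosure k), FiniteDimensional k D ∧ (∀ g, g ∈ D.fixingSubgroup ↔ χ g = 0) ∧
      ∀ x, x ∈ D ↔ ∀ g, χ g = 0 → g x = x := by
  let N : Subgroup (GF k) :=
    { carrier := {g | χ g = 0}
      mul_mem' := fun {a b} ha hb => by
        show χ (a * b) = 0
        rw [hχ.mul (Subgroup.mem_top _) (Subgroup.mem_top _), ha, hb, add_zero]
      one_mem' := hχ.one
      inv_mem' := fun {a} ha => by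
        show χ a⁻¹ = 0
        rw [hχ.inv (Subgroup.mem_top _), ha, neg_zero] }
  have hNo : IsOpen (N : Set (GF k)) := by
    obtain ⟨V, hV, hV'⟩ := hχ.2
    exact Subgroup.isOpen_mono (H₁ := V) (fun x hx => hV' x (Subgroup.mem_top x) hx) hV
  have h2 : (IntermediateField.fixedField N).fixingSubgroup = N :=
    InfiniteGalois.fixingSubgroup_fixedField ⟨N, Subgroup.isClosed_of_isOpen _ hNo⟩
  refine ⟨IntermediateField.fixedField N, ?_, fun g => ?_, fun x => ?_⟩
  · exact (InfiniteGalois.isOpen_iff_finite _).1 (by rw [h2]; exact hNo)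
  · rw [h2]; exact Iff.rfl
  · rw [IntermediateField.mem_fixedField_iff]; exact Iff.rfl

/-- The unit condition holds at primes with primitive Frobenius if `k` contains the `p`-th roots of
unity. -/
theorem unitCond_of_prim [IsTotallyComplex k] (h1 : OnePrime k p) (hcl : ¬ p ∣ classNumber k) {ζ : k}
    (hζ : IsPrimitiveRoot ζ p) (hr : 2 ≤ r) (hφ : Continuous φ) (hs : Function.Surjective φ)
    {P : Ideal (OO k)} (hP : P.IsMaximal) (hpP : (p : OO k) ∉ P) {σ : GF k} (hσ : FrobAt (nm P) P σ)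
    {i : Fin r} (hi : IsUnit (Multiplicative.toAdd (φ σ) i)) :
    UnitCond (fun σ => Multiplicative.toAdd (φ σ)) P := by
  classical
  obtain ⟨j, hj⟩ : ∃ j : Fin r, j ≠ i := by
    haveI : Nontrivial (Fin r) := Fin.nontrivial_iff_two_le.2 hr
    exact exists_ne i
  set c := Multiplicative.toAdd (φ σ) with hc
  let ψ1 : (Fin r → ℤ_[p]) →+ ZMod p :=
    { toFun := fun v => PadicInt.toZMod (c i * v j - c j * v i)
      map_zero' := by simp
      map_add' := fun v w => by
        rw [← map_add]; congr 1; simp only [Pi.add_apply]; ring }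
  let ψ2 : (Fin r → ℤ_[p]) →+ ZMod p :=
    { toFun := fun v => PadicInt.toZMod (v i)
      map_zero' := by simp
      map_add' := fun v w => by rw [Pi.add_apply, map_add] }
  have hci : PadicInt.toZMod (c i) ≠ 0 := (hi.map PadicInt.toZMod).ne_zero
  have hχ1 := isCh_lin hφ ψ1
  have hχ2 := isCh_lin hφ ψ2
  obtain ⟨D, hDfin, hDfix, hDx⟩ := exists_fixed_field hχ1
  obtain ⟨g1, hg1⟩ := hs (Multiplicative.ofAdd (Pi.single j 1))
  have hker : ∀ (ψ : (Fin r → ℤ_[p]) →+ ZMod p), ∀ g ∈ φ.ker, ψ (Multiplicative.toAdd (φ g)) = 0 := by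
    intro ψ g hg
    rw [(MonoidHom.mem_ker).1 hg, toAdd_one, map_zero]
  obtain ⟨u, hu⟩ := unit_of_chars h1 hcl hφ hs hζ hχ1 hχ2 (hker ψ1) (hker ψ2) (g1 := g1) (by
      show PadicInt.toZMod (c i * (Multiplicative.toAdd (φ g1)) j - c j * (Multiplicative.toAdd (φ g1)) i) ≠ 0
      rw [hg1, toAdd_ofAdd, Pi.single_eq_same, Pi.single_eq_of_ne hj.symm, mul_one, mul_zero, sub_zero]
      exact hci) hP hpP hσ (by
      show PadicInt.toZMod (c i * c j - c j * c i) = 0
      rw [mul_comm, sub_self, map_zero]) (by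
      show PadicInt.toZMod (c i) ≠ 0
      exact hci) hDx
  refine ⟨D, hDfin, fun σ' τ hσ' hab => ?_, u, hu⟩
  obtain ⟨a, b, hb, hab⟩ := hab
  rw [hDfix]
  have hab' : a • c = b • Multiplicative.toAdd (φ τ) := by
    rw [hc, frob_phi hφ hP hpP hσ hσ']; exact hab
  show PadicInt.toZMod (c i * (Multiplicative.toAdd (φ τ)) j - c j * (Multiplicative.toAdd (φ τ)) i) = 0
  have e1 := congrFun hab' i
  have e2 := congrFun hab' j
  rw [Pi.smul_apply, Pi.smul_apply, smul_eq_mul, smul_eq_mul] at e1 e2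
  have e3 : b * (c i * (Multiplicative.toAdd (φ τ)) j - c j * (Multiplicative.toAdd (φ τ)) i) = 0 := by
    linear_combination (-(c i)) * e2 + c j * e1
  rw [(mul_eq_zero.1 e3).resolve_left hb, map_zero]

end

end Pool.Agent.Helper832_EG
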