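import Mathlib

set_option linter.style.haveILetI false

namespace Pool.Agent.Helper832_EG

/-- A sequence of nonempty finite sets with transition maps has a compatible family. -/
lemma konig {S : ℕ → Type*} [∀ n, Finite (S n)] (hne : ∀ n, Nonempty (S n))
    (t : ∀ n, S (n+1) → S n) : ∃ s : ∀ n, S n, ∀ n, t n (s (n+1)) = s n := by
  letI : ∀ n, TopologicalSpace (S n) := fun _ => ⊥
  haveI : ∀ n, DiscreteTopology (S n) := fun _ => ⟨rfl⟩
  let C : ℕ → Set (∀ n, S n) := fun m => {s | ∀ n < m, t n (s (n+1)) = s n}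
  have hcl : ∀ m, IsClosed (C m) := by
    intro m
    have : C m = ⋂ n, ⋂ (_ : n < m), {s : ∀ n, S n | t n (s (n+1)) = s n} := by
      ext s; simp [C]
    rw [this]
    refine isClosed_iInter fun n => isClosed_iInter fun _ => ?_
    exact isClosed_eq (continuous_of_discreteTopology.comp (continuous_apply (n+1)))
      (continuous_apply n)
  have hex : ∀ m (x : S m), ∃ s : ∀ n, S n, s m = x ∧ s ∈ C m := by
    intro m
    induction m with
    | zero =>
      intro x
      refine ⟨Function.update (fun n => (hne n).some) 0 x, by simp, ?_⟩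
      intro n hn; omega
    | succ m ih =>
      intro x
      obtain ⟨s, hs, hC⟩ := ih (t m x)
      refine ⟨Function.update s (m+1) x, by simp, ?_⟩
      intro n hn
      rcases Nat.lt_succ_iff_lt_or_eq.1 hn with h | h
      · rw [Function.update_of_ne (by omega), Function.update_of_ne (by omega)]
        exact hC n h
      · subst h
        rw [Function.update_self, Function.update_of_ne (by omega), hs]
  have hnon : (⋂ m, C m).Nonempty := by
    apply IsCompact.nonempty_iInter_of_sequence_nonempty_isCompact_isClosed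
    · intro m s hs n hn; exact hs n (by omega)
    · intro m
      obtain ⟨s, _, hs⟩ := hex m (hne m).some
      exact ⟨s, hs⟩
    · exact (hcl 0).isCompact
    · exact hcl
  obtain ⟨s, hs⟩ := hnon
  refine ⟨s, fun n => ?_⟩
  exact (Set.mem_iInter.1 hs (n+1)) n (by omega)

section
variable {R : ℕ → Type} [∀ n, CommRing (R n)] (t : ∀ n, R (n+1) →+* R n)

/-- The inverse limit of a tower of commutative rings. -/
def Lim : Subring (∀ n, R n) where
  carrier := {f | ∀ n, t n (f (n+1)) = f n}
  mul_mem' := by intro a b ha hb n; simp [ha n, hb n]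
  one_mem' := by intro n; simp
  add_mem' := by intro a b ha hb n; simp [ha n, hb n]
  zero_mem' := by intro n; simp
  neg_mem' := by intro a ha n; simp [ha n]

variable {t}

lemma lim_ext {f g : Lim t} (h : ∀ n, f.1 n = g.1 n) : f = g := Subtype.ext (funext h)

lemma lim_tr (f : Lim t) (n : ℕ) : t n (f.1 (n+1)) = f.1 n := f.2 n

lemma lim_zero_of_succ (f : Lim t) {n : ℕ} (h : f.1 (n+1) = 0) : f.1 n = 0 := by
  rw [← lim_tr f n, h, map_zero]

lemma lim_zero_of_le (f : Lim t) {n m : ℕ} (hnm : n ≤ m) (h : f.1 m = 0) : f.1 n = 0 := by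
  induction hnm with
  | refl => exact h
  | step _ ih => exact ih (lim_zero_of_succ f h)

lemma exists_lim [∀ n, Finite (R n)] (P : ∀ n, R n → Prop) (h : ∀ n, ∃ x, P n x)
    (ht : ∀ n x, P (n+1) x → P n (t n x)) : ∃ g : Lim t, ∀ n, P n (g.1 n) := by
  obtain ⟨s, hs⟩ := konig (S := fun n => {x : R n // P n x})
    (fun n => ⟨⟨_, (h n).choose_spec⟩⟩) (fun n x => ⟨t n x.1, ht n _ x.2⟩)
  refine ⟨⟨fun n => (s n).1, fun n => ?_⟩, fun n => (s n).2⟩
  exact congrArg Subtype.val (hs n)

lemma dvd_of_levels [∀ n, Finite (R n)] (a f : Lim t) (h : ∀ n, a.1 n ∣ f.1 n) : a ∣ f := by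
  obtain ⟨g, hg⟩ := exists_lim (t := t) (fun n x => f.1 n = a.1 n * x) h (by
    intro n x hx
    rw [← lim_tr f n, hx, map_mul, lim_tr a n])
  exact ⟨g, lim_ext fun n => by simpa using hg n⟩

instance : TopologicalSpace (Lim t) :=
  letI : ∀ n, TopologicalSpace (R n) := fun _ => ⊥
  instTopologicalSpaceSubtype

lemma continuous_level (n : ℕ) (s : Set (R n)) : IsOpen {f : Lim t | f.1 n ∈ s} := by
  letI : ∀ n, TopologicalSpace (R n) := fun _ => ⊥
  haveI : ∀ n, DiscreteTopology (R n) := fun _ => ⟨rfl⟩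
  have : Continuous (fun f : Lim t => f.1 n) := (continuous_apply n).comp continuous_subtype_val
  exact (isOpen_discrete s).preimage this

instance : T2Space (Lim t) := by
  letI : ∀ n, TopologicalSpace (R n) := fun _ => ⊥
  haveI : ∀ n, DiscreteTopology (R n) := fun _ => ⟨rfl⟩
  exact inferInstanceAs (T2Space {f : ∀ n, R n // f ∈ Lim t})

instance [∀ n, Finite (R n)] : CompactSpace (Lim t) := by
  letI : ∀ n, TopologicalSpace (R n) := fun _ => ⊥
  haveI : ∀ n, DiscreteTopology (R n) := fun _ => ⟨rfl⟩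
  have hc : IsClosed ((Lim t : Subring (∀ n, R n)) : Set (∀ n, R n)) := by
    have : ((Lim t : Subring (∀ n, R n)) : Set (∀ n, R n)) =
        ⋂ n, {s : ∀ n, R n | t n (s (n+1)) = s n} := by
      ext s; simp only [Set.mem_iInter]; rfl
    rw [this]
    refine isClosed_iInter fun n => ?_
    exact isClosed_eq (continuous_of_discreteTopology.comp (continuous_apply (n+1)))
      (continuous_apply n)
  exact isCompact_iff_compactSpace.1 hc.isCompact

instance : IsTopologicalRing (Lim t) := by
  letI : ∀ n, TopologicalSpace (R n) := fun _ => ⊥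
  haveI : ∀ n, DiscreteTopology (R n) := fun _ => ⟨rfl⟩
  exact inferInstanceAs (IsTopologicalRing (Lim t : Subring (∀ n, R n)))

/-- The kernels of the level maps are a basis of neighbourhoods of zero. -/
lemma exists_level_nhds {U : Set (Lim t)} (hU : U ∈ nhds (0 : Lim t)) :
    ∃ n, ∀ f : Lim t, f.1 n = 0 → f ∈ U := by
  letI : ∀ n, TopologicalSpace (R n) := fun _ => ⊥
  haveI : ∀ n, DiscreteTopology (R n) := fun _ => ⟨rfl⟩
  obtain ⟨V, hV, hVU⟩ := mem_nhds_induced _ _ _ |>.1 hU
  rw [nhds_pi, Filter.mem_pi] at hV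
  obtain ⟨I, hI, s, hs, hsV⟩ := hV
  obtain ⟨n, hn⟩ := hI.bddAbove
  refine ⟨n, fun f hf => hVU (hsV ?_)⟩
  intro i hi
  have : f.1 i = 0 := lim_zero_of_le f (hn hi) hf
  rw [this]
  exact mem_of_mem_nhds (hs i)

lemma tendsto_zero_of_levels {g : ℕ → Lim t} (h : ∀ n, ∃ m, ∀ k ≥ m, (g k).1 n = 0) :
    Filter.Tendsto g Filter.atTop (nhds 0) := by
  intro U hU
  obtain ⟨n, hn⟩ := exists_level_nhds hU
  obtain ⟨m, hm⟩ := h n
  exact Filter.mem_atTop_sets.2 ⟨m, fun k hk => hn _ (hm k hk)⟩

end

end Pool.Agent.Helper832_EG
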