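import Pool.Agent.Helper832_EG.Fld4

set_option linter.style.haveILetI false
set_option linter.unusedSectionVars false
set_option linter.unusedVariables false

namespace Pool.Agent.Helper832_EG

open NumberField Pool.Agent.W569.FM Pool.Agent.W571.FM Pool.Agent.R417.FK IntermediateField

section
variable {E : Type} [Field E] [NumberField E] {p : ℕ} [hp : Fact p.Prime] {r : ℕ}

/-- The module structure `m` on `XK p K` over the Iwasawa algebra is the natural one: the group
element of `φ σ`, for `σ` fixing `F`, acts as conjugation by `σ`, and the scalar multiplication is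
jointly continuous. -/
def IsIw (p : ℕ) [Fact p.Prime] {r : ℕ} (K F : IntermediateField E (AlgebraicClosure E))
    (φ : GF E →* Multiplicative (Fin r → ℤ_[p])) (m : Module (Lam p r) (XK p K)) : Prop :=
  IsIwA (inertias E) K.fixingSubgroup φ F.fixingSubgroup m

/-- Existence of the natural module structure. -/
theorem exists_iw (h1 : OnePrime E p) (h : NoUr E p) {M : IntermediateField E (AlgebraicClosure E)}
    {φ : GF E →* Multiplicative (Fin r → ℤ_[p])} (hφ : CoordM M φ)
    {K F : IntermediateField E (AlgebraicClosure E)} (hK : Ext p M K F) :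
    ∃ m : Module (Lam p r) (XK p K), IsIw p K F φ m := by
  have S := sit_of h1 h hφ hK
  have h2 := exists_iwA S (by
    intro σ hσ hσH
    have hKfix : K.fixingSubgroup = F.fixingSubgroup ⊓ φ.ker := by
      rw [← hK.sup, IntermediateField.fixingSubgroup_sup, hφ.ker]
    rw [hKfix]; exact ⟨hσ, hσH⟩)
  rw [← inertias_eq] at h2
  exact h2

/-- Frobenius data for the finitely many ramified classes. -/
lemma frob_list (h1 : OnePrime E p) (h : NoUr E p) {M : IntermediateField E (AlgebraicClosure E)}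
    {φ : GF E →* Multiplicative (Fin r → ℤ_[p])} (hφ : CoordM M φ)
    {K F : IntermediateField E (AlgebraicClosure E)} (hK : Ext p M K F) :
    ∃ l : Finset (GF E), (∀ I ∈ tameI E p, I ≤ K.fixingSubgroup ∨ ∃ f ∈ l, ∃ Fr : GF E, φ Fr = φ f ∧
        ∀ x ∈ I, Fr * x * Fr⁻¹ ∈ I) ∧
      ∀ f ∈ l, ∃ P : Ideal (OO E), P.IsMaximal ∧ (p : OO E) ∉ P ∧ ¬ inertia P ≤ K.fixingSubgroup ∧
        FrobAt (nm P) P f := by
  classical
  have S := sit_of h1 h hφ hK
  haveI := S.normalL
  obtain ⟨T, hTfin, hTT, hT⟩ := S.tameFin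
  have hex : ∀ J : Subgroup (GF E), ∃ f : GF E, J ∈ T → ¬ J ≤ K.fixingSubgroup →
      ∃ P : Ideal (OO E), P.IsMaximal ∧ (p : OO E) ∉ P ∧ J = inertia P ∧ FrobAt (nm P) P f := by
    intro J
    by_cases hJ : J ∈ T
    · obtain ⟨P, hP, hpP, hPJ⟩ := hTT hJ
      obtain ⟨f, hf⟩ := exists_frob hP
      exact ⟨f, fun _ _ => ⟨P, hP, hpP, hPJ, hf⟩⟩
    · exact ⟨1, fun h => absurd h hJ⟩
  choose f hf using hex
  refine ⟨(hTfin.toFinset.filter (fun J => ¬ J ≤ K.fixingSubgroup)).image f, ?_, ?_⟩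
  · intro I hI
    rcases hT I hI with hle | ⟨J, hJ, g, rfl⟩
    · exact Or.inl hle
    · by_cases hJL : J ≤ K.fixingSubgroup
      · left
        rintro _ ⟨y, hy, rfl⟩
        exact S.normalL.conj_mem y (hJL hy) g
      · right
        obtain ⟨P, hP, hpP, hPJ, hPf⟩ := hf J hJ hJL
        refine ⟨f J, Finset.mem_image.2 ⟨J, Finset.mem_filter.2 ⟨by simpa using hJ, hJL⟩, rfl⟩,
          g * f J * g⁻¹, ?_, ?_⟩
        · rw [map_mul, map_mul, map_inv, mul_comm (φ g), mul_assoc, mul_inv_cancel, mul_one]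
        · rintro _ ⟨y, hy, rfl⟩
          have hyP : y ∈ inertia P := by rw [← hPJ]; exact hy
          have h3 := frob_normalizes hP.isPrime hP hPf (nm_ne hP) y hyP
          rw [← hPJ] at h3
          refine ⟨f J * y * (f J)⁻¹, h3, ?_⟩
          show g * (f J * y * (f J)⁻¹) * g⁻¹ = g * f J * g⁻¹ * (g * y * g⁻¹) * (g * f J * g⁻¹)⁻¹
          group
  · intro x hx
    obtain ⟨J, hJ, rfl⟩ := Finset.mem_image.1 hx
    obtain ⟨hJT, hJL⟩ := Finset.mem_filter.1 hJ
    obtain ⟨P, hP, hpP, rfl, hPf⟩ := hf J (by simpa using hJT) hJL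
    exact ⟨P, hP, hpP, hJL, hPf⟩

/-- The support theorem. -/
theorem support_main (h1 : OnePrime E p) (h : NoUr E p) (hr : 2 ≤ r)
    {M : IntermediateField E (AlgebraicClosure E)} (hM : CycIn p M) {φ : GF E →* Multiplicative (Fin r → ℤ_[p])} (hφ : CoordM M φ) {K F : IntermediateField E (AlgebraicClosure E)} (hK : Ext p M K F)
    (m : Module (Lam p r) (XK p K)) (hm : IsIw p K F φ m) (Q : Ideal (Lam p r)) [hQ : Q.IsPrime] (hh : Q.height = 1)
    (hs : Nontrivial (LocalizedModule Q.primeCompl (XK p K))) :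
    ∃ P : Ideal (OO E), P.IsMaximal ∧ (p : OO E) ∉ P ∧ ¬ inertia P ≤ K.fixingSubgroup ∧
      ∃ σ : GF E, FrobAt (nm P) P σ ∧
        Q ≤ (Ideal.span {(p : Lam p r), gr (Multiplicative.toAdd (φ σ)) - 1}).radical := by
  have S := sit_of h1 h hφ hK
  obtain ⟨l, hl, hl'⟩ := frob_list h1 h hφ hK
  have hij : (⟨0, by omega⟩ : Fin r) ≠ ⟨1, by omega⟩ := by
    intro h; simp at h
  have hl0 : ∀ f ∈ l, φ f ≠ 1 := by
    intro f hf
    obtain ⟨P, hP, hpP, _, hPf⟩ := hl' f hf
    exact phi_frob hM hφ.ker hP hpP hPf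
  have key : ∀ (J : Set (Subgroup (GF E))) (hJ : J = wildI E p ∪ tameI E p)
      (m : Module (Lam p r) (XX p J K.fixingSubgroup)), IsIwA J K.fixingSubgroup φ F.fixingSubgroup m →
      Nontrivial (LocalizedModule Q.primeCompl (XX p J K.fixingSubgroup)) →
      ∃ f ∈ l, Q ≤ (Ideal.span {(p : Lam p r), T (Multiplicative.toAdd (φ f))}).radical := by
    intro J hJ m hm hs
    subst hJ
    letI := m
    exact support_abs S hm l hl hl0 hij hh hs
  obtain ⟨f, hf, hQf⟩ := key (inertias E) (inertias_eq p) m hm hs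
  obtain ⟨P, hP, hpP, hram, hPf⟩ := hl' f hf
  exact ⟨P, hP, hpP, hram, f, hPf, hQf⟩

end

end Pool.Agent.Helper832_EG
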