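import Pool.Agent.Helper832_EG.KA3

/-!
# Pseudo-nullity: the criterion and primes with primitive Frobenius
-/

set_option linter.style.haveILetI false
set_option linter.unusedSectionVars false
set_option linter.unusedVariables false

namespace Pool.Agent.Helper832_EG

open NumberField Pool.Agent.W569.FM Pool.Agent.R417.FK IntermediateField

/-- The module is pseudo-null: its localizations at the prime ideals of height one are zero. -/
def PseudoNull {k : Type} [Field k] {p r : ℕ} [Fact p.Prime] {K : IntermediateField k (AlgebraicClosure k)}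
    (_ : Module (Iwa p r) (Xur p K)) : Prop :=
  ∀ (Q : Ideal (Iwa p r)) (_ : Q.IsPrime), Q.height = 1 → Subsingleton (LocalizedModule Q.primeCompl (Xur p K))

section
variable {k : Type} [Field k] [NumberField k] {p r : ℕ} [hp : Fact p.Prime]

theorem null_nat [IsTotallyComplex k] (h1 : OnePrime k p) (hcl : ¬ p ∣ classNumber k) (hr : 2 ≤ r)
    {M : IntermediateField k (AlgebraicClosure k)} (hM : CycIn p M) {φ : GF k → Fin r → ℤ_[p]}
    (hφ : Coord M φ) {K F : IntermediateField k (AlgebraicClosure k)} (hK : Ext p M K F)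
    (hind : Indep K φ)
    (hunit : ∀ P : Ideal (OO k), P.IsMaximal → (p : OO k) ∉ P → ¬ inertia P ≤ K.fixingSubgroup → UnitCond φ P)
    (m : Module (Iwa p r) (Xur p K)) (hm : IsNat K F φ m) : PseudoNull m := by
  intro Q hQ hh
  have h2 := null_main h1 hcl hr hM hφ.homM hK hind hunit m ((isNat_iff hφ m).1 hm) (hQ := hQ) Q hh
  exact not_nontrivial_iff_subsingleton.1 h2

theorem prim_nat [IsTotallyComplex k] {ζ : k} (hζ : IsPrimitiveRoot ζ p) (h1 : OnePrime k p)
    (hcl : ¬ p ∣ classNumber k) (hr : 2 ≤ r)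
    {M : IntermediateField k (AlgebraicClosure k)} (hM : CycIn p M) {φ : GF k → Fin r → ℤ_[p]}
    (hφ : Coord M φ) {K F : IntermediateField k (AlgebraicClosure k)} (hK : Ext p M K F)
    (hind : Indep K φ)
    (hprim : ∀ P : Ideal (OO k), P.IsMaximal → (p : OO k) ∉ P → ¬ inertia P ≤ K.fixingSubgroup →
      ∀ σ : GF k, FrobAt (nm P) P σ → ∃ i, IsUnit (φ σ i))
    (m : Module (Iwa p r) (Xur p K)) (hm : IsNat K F φ m) : PseudoNull m := by
  refine null_nat h1 hcl hr hM hφ hK hind (fun P hP hpP hPK => ?_) m hm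
  obtain ⟨σ, hσ⟩ := exists_frob hP
  obtain ⟨i, hi⟩ := hprim P hP hpP hPK σ hσ
  exact unitCond_of_prim h1 hcl hζ hr hφ.homM.cont hφ.homM.surj hP hpP hσ (i := i) hi

end

end Pool.Agent.Helper832_EG
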