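import Pool.Agent.Helper832_EG.Supp

set_option linter.style.haveILetI false
set_option linter.unusedSectionVars false
set_option linter.unusedVariables false

namespace Pool.Agent.Helper832_EG

section
variable {p : ℕ} [Fact p.Prime] {r : ℕ}

/-- Ring homomorphisms out of a level of the Iwasawa algebra are determined on group elements. -/
lemma addHom_level_ext {E : Type*} [AddCommGroup E] {n : ℕ} {A A' : RL p r n →+ E}
    (h : ∀ b : Gr p r n, A (AddMonoidAlgebra.single b 1) = A' (AddMonoidAlgebra.single b 1)) : A = A' := by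
  refine AddMonoidHom.ext fun x => ?_
  induction x using AddMonoidAlgebra.induction_linear with
  | zero => simp
  | add x y hx hy => rw [map_add, map_add, hx, hy]
  | single b c =>
    have h1 : (AddMonoidAlgebra.single b c : RL p r n) = c.val • AddMonoidAlgebra.single b 1 := by
      apply AddMonoidAlgebra.coeff_injective
      refine Finsupp.ext fun k => ?_
      rw [nsmul_eq_mul, coeff_natCast_mul, AddMonoidAlgebra.coeff_single, AddMonoidAlgebra.coeff_single,
        ZMod.natCast_val, ZMod.cast_id]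
      by_cases hk : b = k
      · subst hk; simp
      · simp [hk]
    rw [h1, map_nsmul, map_nsmul, h]

/-- A representation of a level group on a group killed by `p ^ (n+1)` extends to the level ring. -/
lemma exists_level_hom {Q : Type*} [AddCommGroup Q] (n : ℕ) (hQ : ∀ x : Q, p ^ (n + 1) • x = 0)
    (ρ : Gr p r n → AddMonoid.End Q) (h0 : ρ 0 = 1) (ha : ∀ b b', ρ (b + b') = ρ b * ρ b') :
    ∃ A : RL p r n →+* AddMonoid.End Q, ∀ b, A (AddMonoidAlgebra.single b 1) = ρ b := by
  letI : Module (ZMod (p ^ (n + 1))) Q := AddCommGroup.zmodModule hQ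
  let ρ' : Multiplicative (Gr p r n) →* AddMonoid.End Q :=
    { toFun := fun b => ρ b.toAdd
      map_one' := by rw [toAdd_one, h0]
      map_mul' := fun a b => by rw [toAdd_mul, ha] }
  refine ⟨AddMonoidAlgebra.liftNCRingHom (Module.toAddMonoidEnd (ZMod (p ^ (n + 1))) Q) ρ' (fun c b => ?_), fun b => ?_⟩
  · refine AddMonoidHom.ext fun x => ?_
    exact (ZMod.map_smul (ρ b.toAdd : Q →+ Q) c x).symm
  · have h1 := AddMonoidAlgebra.liftNC_single ((Module.toAddMonoidEnd (ZMod (p ^ (n + 1))) Q).toAddMonoidHom) ρ' (Multiplicative.toAdd b) (1 : ZMod (p ^ (n + 1)))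
    refine Eq.trans h1 ?_
    have h2 : (Module.toAddMonoidEnd (ZMod (p ^ (n + 1))) Q).toAddMonoidHom 1 = 1 := map_one (Module.toAddMonoidEnd (ZMod (p ^ (n + 1))) Q)
    rw [h2, one_mul]
    rfl

variable {X : Type*} [AddCommGroup X] [TopologicalSpace X] [IsTopologicalAddGroup X] [CompactSpace X] [T2Space X]

/-- Open subgroups through which the action factors at level `n`. -/
def Good (ρ : (Fin r → ℤ_[p]) → X →+ X) (V : AddSubgroup X) (n : ℕ) : Prop :=
  IsOpen (V : Set X) ∧ (∀ v, ∀ x ∈ V, ρ v x ∈ V) ∧ (∀ x : X, p ^ (n + 1) • x ∈ V) ∧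
    ∀ v x, ρ (p ^ (n + 1) • v) x - x ∈ V

lemma Good.inf {ρ : (Fin r → ℤ_[p]) → X →+ X} {V V' : AddSubgroup X} {n n' : ℕ} (h : Good ρ V n) (h' : Good ρ V' n') :
    Good ρ (V ⊓ V') (max n n') := by
  refine ⟨h.1.inter h'.1, fun v x hx => ⟨h.2.1 v x hx.1, h'.2.1 v x hx.2⟩, fun x => ?_, fun v x => ?_⟩
  · have h1 : p ^ (max n n' + 1) = p ^ (max n n' - n) * p ^ (n + 1) := by
      rw [← pow_add]; congr 1; omega
    have h2 : p ^ (max n n' + 1) = p ^ (max n n' - n') * p ^ (n' + 1) := by
      rw [← pow_add]; congr 1; omega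
    refine ⟨?_, ?_⟩
    · rw [h1, mul_nsmul]
      have := h.2.2.1 (p ^ (max n n' - n) • x)
      exact this
    · rw [h2, mul_nsmul]
      have := h'.2.2.1 (p ^ (max n n' - n') • x)
      exact this
  · have h1 : p ^ (max n n' + 1) = p ^ (n + 1) * p ^ (max n n' - n) := by
      rw [← pow_add]; congr 1; omega
    have h2 : p ^ (max n n' + 1) = p ^ (n' + 1) * p ^ (max n n' - n') := by
      rw [← pow_add]; congr 1; omega
    refine ⟨?_, ?_⟩
    · rw [h1, mul_smul]; exact h.2.2.2 _ x
    · rw [h2, mul_smul]; exact h'.2.2.2 _ x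

lemma rd_eq_imp {n : ℕ} {v w : Fin r → ℤ_[p]} (h : rd n v = rd n w) : ∃ u, v = w + p ^ (n + 1) • u := by
  have h1 : ∀ i, ∃ u : ℤ_[p], v i = w i + (p : ℤ_[p]) ^ (n + 1) * u := by
    intro i
    have h2 : PadicInt.toZModPow (n + 1) (v i - w i) = 0 := by
      rw [map_sub, sub_eq_zero]; exact congrFun h i
    rw [← RingHom.mem_ker, PadicInt.ker_toZModPow, Ideal.mem_span_singleton] at h2
    obtain ⟨u, hu⟩ := h2
    exact ⟨u, by rw [← hu]; ring⟩
  choose u hu using h1
  refine ⟨u, ?_⟩
  funext i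
  rw [Pi.add_apply, Pi.smul_apply, nsmul_eq_mul, hu i]
  push_cast
  rfl

/-- The action of a level ring on the quotient by a good subgroup. -/
lemma exists_level_act {ρ : (Fin r → ℤ_[p]) → X →+ X} (hρ0 : ∀ x, ρ 0 x = x)
    (hρa : ∀ v w x, ρ (v + w) x = ρ v (ρ w x)) {V : AddSubgroup X} {n : ℕ} (h : Good ρ V n) :
    ∃ A : RL p r n →+* AddMonoid.End (X ⧸ V), ∀ v x, A (AddMonoidAlgebra.single (rd n v) 1) (QuotientAddGroup.mk x) =
      QuotientAddGroup.mk (ρ v x) := by
  choose lf hlf using rd_surj (p := p) (r := r) n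
  have hwd : ∀ v w, rd n v = rd n w → ∀ x, (QuotientAddGroup.mk (ρ v x) : X ⧸ V) = QuotientAddGroup.mk (ρ w x) := by
    intro v w hvw x
    obtain ⟨u, hu⟩ := rd_eq_imp hvw
    rw [hu, add_comm, hρa, QuotientAddGroup.eq_iff_sub_mem]
    exact h.2.2.2 u _
  let ρ' : Gr p r n → AddMonoid.End (X ⧸ V) := fun b =>
    QuotientAddGroup.map V V (ρ (lf b)) (fun x hx => h.2.1 _ x hx)
  have hρ' : ∀ b x, ρ' b (QuotientAddGroup.mk x) = QuotientAddGroup.mk (ρ (lf b) x) := fun b x => rfl
  obtain ⟨A, hA⟩ := exists_level_hom (p := p) (r := r) (Q := X ⧸ V) n (by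
    intro x
    induction x using QuotientAddGroup.induction_on with | _ x =>
    rw [← QuotientAddGroup.mk_nsmul, QuotientAddGroup.eq_zero_iff]
    exact h.2.2.1 x) ρ' (by
      apply AddMonoidHom.ext
      intro x
      induction x using QuotientAddGroup.induction_on with | _ x =>
      show (QuotientAddGroup.mk (ρ (lf 0) x) : X ⧸ V) = QuotientAddGroup.mk x
      rw [hwd (lf 0) 0 (by rw [hlf, rd_zero]), hρ0]) (by
      intro b b'
      apply AddMonoidHom.ext
      intro x
      induction x using QuotientAddGroup.induction_on with | _ x =>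
      show ρ' (b + b') (QuotientAddGroup.mk x) = ρ' b (ρ' b' (QuotientAddGroup.mk x))
      rw [hρ', hρ', hρ', hwd (lf (b + b')) (lf b + lf b') (by rw [rd_add, hlf, hlf, hlf]), hρa])
  refine ⟨A, fun v x => ?_⟩
  rw [hA, hρ']
  exact hwd _ _ (hlf _) x

/-- Existence of the module structure over the Iwasawa algebra. -/
theorem exists_module {ρ : (Fin r → ℤ_[p]) → X →+ X} (hρ0 : ∀ x, ρ 0 x = x)
    (hρa : ∀ v w x, ρ (v + w) x = ρ v (ρ w x))
    (hgood : ∀ U ∈ nhds (0 : X), ∃ (V : AddSubgroup X) (n : ℕ), Good ρ V n ∧ (V : Set X) ⊆ U) :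
    ∃ m : Module (Lam p r) X, (∀ v x, (gr v : Lam p r) • x = ρ v x) ∧
      Continuous (fun q : Lam p r × X => q.1 • q.2) := by
  classical
  let ι := {q : AddSubgroup X × ℕ // Good ρ q.1 q.2}
  choose A hA using fun q : ι => exists_level_act hρ0 hρa q.2
  -- separation
  have hsep : ∀ x y : X, (∀ q : ι, (QuotientAddGroup.mk x : X ⧸ q.1.1) = QuotientAddGroup.mk y) → x = y := by
    intro x y h
    by_contra hne
    have hopen : IsOpen {z : X | z ≠ x - y} := isOpen_ne
    obtain ⟨V, n, hV, hVU⟩ := hgood _ (hopen.mem_nhds (by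
      show (0 : X) ≠ x - y
      intro h0
      exact hne (sub_eq_zero.1 h0.symm)))
    have h1 := h ⟨(V, n), hV⟩
    rw [QuotientAddGroup.eq_iff_sub_mem] at h1
    exact hVU h1 rfl
  -- compatibility
  have hcompat : ∀ (q q' : ι) (hle : q'.1.1 ≤ q.1.1) (hn : q.1.2 ≤ q'.1.2) (f : Lam p r) (x y : X),
      (QuotientAddGroup.mk y : X ⧸ q'.1.1) = A q' (f.1 q'.1.2) (QuotientAddGroup.mk x) →
      (QuotientAddGroup.mk y : X ⧸ q.1.1) = A q (f.1 q.1.2) (QuotientAddGroup.mk x) := by
    rintro ⟨⟨V, n⟩, hV⟩ ⟨⟨V', n'⟩, hV'⟩ hle hn f x y hy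
    obtain ⟨k, rfl⟩ := Nat.exists_eq_add_of_le hn
    simp only at hle hy ⊢
    -- projection between quotients
    let pr : X ⧸ V' →+ X ⧸ V := QuotientAddGroup.map V' V (AddMonoidHom.id X) hle
    have hpr : ∀ x, pr (QuotientAddGroup.mk x) = QuotientAddGroup.mk x := fun x => rfl
    -- iterated transition
    have htr : ∀ k, ∃ t : RL p r (n + k) →+ RL p r n, (∀ f : Lam p r, t (f.1 (n + k)) = f.1 n) ∧
        ∀ v, t (AddMonoidAlgebra.single (rd (n + k) v) 1) = AddMonoidAlgebra.single (rd n v) 1 := by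
      intro k
      induction k with
      | zero => exact ⟨AddMonoidHom.id _, fun _ => rfl, fun _ => rfl⟩
      | succ k ih =>
        obtain ⟨t, ht, ht'⟩ := ih
        refine ⟨t.comp (tL p r (n + k)).toAddMonoidHom, fun f => ?_, fun v => ?_⟩
        · show t (tL p r (n + k) (f.1 (n + k + 1))) = _
          rw [lim_tr f, ht]
        · show t (tL p r (n + k) (AddMonoidAlgebra.single (rd (n + k + 1) v) 1)) = _
          rw [tL_single, grT_rd, map_one, ht']
    obtain ⟨t, ht, ht'⟩ := htr k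
    let B1 : RL p r (n + k) →+ X ⧸ V :=
      { toFun := fun g => pr (A ⟨(V', n + k), hV'⟩ g (QuotientAddGroup.mk x))
        map_zero' := by
          rw [map_zero]; exact map_zero pr
        map_add' := fun g g' => by
          rw [map_add]; exact map_add pr _ _ }
    let B2 : RL p r (n + k) →+ X ⧸ V :=
      { toFun := fun g => A ⟨(V, n), hV⟩ (t g) (QuotientAddGroup.mk x)
        map_zero' := by rw [map_zero, map_zero]; rfl
        map_add' := fun g g' => by rw [map_add, map_add]; rfl }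
    have hB : B1 = B2 := by
      apply addHom_level_ext
      intro b
      obtain ⟨v, rfl⟩ := rd_surj (n + k) b
      show pr (A ⟨(V', n + k), hV'⟩ (AddMonoidAlgebra.single (rd (n + k) v) 1) (QuotientAddGroup.mk x)) =
        A ⟨(V, n), hV⟩ (t (AddMonoidAlgebra.single (rd (n + k) v) 1)) (QuotientAddGroup.mk x)
      rw [hA ⟨(V', n + k), hV'⟩, ht', hA ⟨(V, n), hV⟩, hpr]
    have h2 : B1 (f.1 (n + k)) = B2 (f.1 (n + k)) := by rw [hB]
    have h3 : B1 (f.1 (n + k)) = pr (QuotientAddGroup.mk y) := by rw [hy]; rfl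
    have h4 : B2 (f.1 (n + k)) = A ⟨(V, n), hV⟩ (f.1 n) (QuotientAddGroup.mk x) := by
      show A ⟨(V, n), hV⟩ (t (f.1 (n + k))) _ = _
      rw [ht]
    rw [← h4, ← h2, h3, hpr]
  -- existence
  have hex : ∀ (f : Lam p r) (x : X), ∃ y : X, ∀ q : ι,
      (QuotientAddGroup.mk y : X ⧸ q.1.1) = A q (f.1 q.1.2) (QuotientAddGroup.mk x) := by
    intro f x
    let Cs : ι → Set X := fun q => {y : X | (QuotientAddGroup.mk y : X ⧸ q.1.1) = A q (f.1 q.1.2) (QuotientAddGroup.mk x)}
    have hCcl : ∀ q, IsClosed (Cs q) := by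
      intro q
      obtain ⟨z, hz⟩ := QuotientAddGroup.mk_surjective (A q (f.1 q.1.2) (QuotientAddGroup.mk x))
      have h1 : Cs q = {y : X | y - z ∈ q.1.1} := by
        ext y
        show (QuotientAddGroup.mk y : X ⧸ q.1.1) = A q (f.1 q.1.2) (QuotientAddGroup.mk x) ↔ y - z ∈ q.1.1
        rw [← hz, QuotientAddGroup.eq_iff_sub_mem]
      rw [h1]
      exact (AddSubgroup.isClosed_of_isOpen _ q.2.1).preimage (continuous_id.sub continuous_const)
    have hdir : Directed (· ⊇ ·) Cs := by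
      intro q q'
      refine ⟨⟨(q.1.1 ⊓ q'.1.1, max q.1.2 q'.1.2), q.2.inf q'.2⟩, ?_, ?_⟩
      · intro y hy
        exact hcompat q _ inf_le_left (le_max_left _ _) f x y hy
      · intro y hy
        exact hcompat q' _ inf_le_right (le_max_right _ _) f x y hy
    haveI : Nonempty ι := by
      obtain ⟨V, n, hV, _⟩ := hgood Set.univ Filter.univ_mem
      exact ⟨⟨(V, n), hV⟩⟩
    obtain ⟨y, hy⟩ := IsCompact.nonempty_iInter_of_directed_nonempty_isCompact_isClosed Cs hdir
      (fun q => QuotientAddGroup.mk_surjective _) (fun q => (hCcl q).isCompact) hCcl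
    exact ⟨y, fun q => Set.mem_iInter.1 hy q⟩
  choose sm hsm using hex
  let m : Module (Lam p r) X :=
    { smul := sm
      one_smul := fun x => hsep _ _ fun q => by
        show (QuotientAddGroup.mk (sm 1 x) : X ⧸ q.1.1) = _
        rw [hsm]
        have h1 : (1 : Lam p r).1 q.1.2 = 1 := rfl
        rw [h1, map_one]; rfl
      mul_smul := fun f g x => hsep _ _ fun q => by
        show (QuotientAddGroup.mk (sm (f * g) x) : X ⧸ q.1.1) = QuotientAddGroup.mk (sm f (sm g x))
        rw [hsm, hsm, hsm]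
        have h1 : (f * g : Lam p r).1 q.1.2 = f.1 q.1.2 * g.1 q.1.2 := rfl
        rw [h1, map_mul]; rfl
      smul_zero := fun f => hsep _ _ fun q => by
        show (QuotientAddGroup.mk (sm f 0) : X ⧸ q.1.1) = _
        rw [hsm, QuotientAddGroup.mk_zero, map_zero]
      smul_add := fun f x y => hsep _ _ fun q => by
        show (QuotientAddGroup.mk (sm f (x + y)) : X ⧸ q.1.1) = QuotientAddGroup.mk (sm f x + sm f y)
        rw [hsm, QuotientAddGroup.mk_add, QuotientAddGroup.mk_add, map_add, hsm, hsm]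
      add_smul := fun f g x => hsep _ _ fun q => by
        show (QuotientAddGroup.mk (sm (f + g) x) : X ⧸ q.1.1) = QuotientAddGroup.mk (sm f x + sm g x)
        rw [hsm, QuotientAddGroup.mk_add, hsm, hsm]
        have h1 : (f + g : Lam p r).1 q.1.2 = f.1 q.1.2 + g.1 q.1.2 := rfl
        rw [h1, map_add]; rfl
      zero_smul := fun x => hsep _ _ fun q => by
        show (QuotientAddGroup.mk (sm 0 x) : X ⧸ q.1.1) = _
        rw [hsm]
        have h1 : (0 : Lam p r).1 q.1.2 = 0 := rfl
        rw [h1, map_zero]; rfl }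
  refine ⟨m, fun v x => hsep _ _ fun q => ?_, ?_⟩
  · show (QuotientAddGroup.mk (sm (gr v) x) : X ⧸ q.1.1) = _
    rw [hsm]
    exact hA q v x
  · rw [continuous_iff_continuousAt]
    rintro ⟨f, x⟩
    show Filter.Tendsto (fun q : Lam p r × X => sm q.1 q.2) (nhds (f, x)) (nhds (sm f x))
    intro U hU
    have h1 : (fun z => sm f x + z) ⁻¹' U ∈ nhds (0 : X) := by
      have hc : Continuous (fun z : X => sm f x + z) := continuous_const.add continuous_id
      exact hc.continuousAt (by simpa using hU)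
    obtain ⟨V, n, hV, hVU⟩ := hgood _ h1
    have hopen1 : IsOpen {g : Lam p r | g.1 n ∈ ({f.1 n} : Set (RL p r n))} := continuous_level n _
    have hopen2 : IsOpen {y : X | y - x ∈ V} := hV.1.preimage (continuous_id.sub continuous_const)
    rw [Filter.mem_map]
    refine Filter.mem_of_superset ((hopen1.prod hopen2).mem_nhds (x := (f, x))
      ⟨Set.mem_singleton _, by show x - x ∈ V; rw [sub_self]; exact V.zero_mem⟩) ?_
    rintro ⟨g, y⟩ ⟨hg, hy⟩
    have h2 : (QuotientAddGroup.mk (sm g y) : X ⧸ V) = QuotientAddGroup.mk (sm f x) := by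
      have h3 := hsm g y ⟨(V, n), hV⟩
      have h4 := hsm f x ⟨(V, n), hV⟩
      simp only at h3 h4
      rw [h3, h4]
      have h5 : g.1 n = f.1 n := hg
      have h6 : (QuotientAddGroup.mk y : X ⧸ V) = QuotientAddGroup.mk x := by
        rw [QuotientAddGroup.eq_iff_sub_mem]; exact hy
      rw [h5, h6]
    rw [QuotientAddGroup.eq_iff_sub_mem] at h2
    have h3 := hVU h2
    show sm g y ∈ U
    have h4 : sm f x + (sm g y - sm f x) = sm g y := by abel
    rw [Set.mem_preimage, h4] at h3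
    exact h3

end

end Pool.Agent.Helper832_EG
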