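import Pool.Agent.Helper832_EG.Iw

set_option linter.style.haveILetI false
set_option linter.unusedSectionVars false
set_option linter.unusedVariables false

namespace Pool.Agent.Helper832_EG

open AddMonoidAlgebra

section
variable {p : ℕ} [Fact p.Prime] {r : ℕ}

noncomputable def TO (a : Fin r → ℤ_[p]) : Om p r := gO a - 1

lemma sum_inv {A M : Type*} [AddCommGroup A] [AddCommMonoid M] (hM : ∀ x : M, p • x = 0)
    [DecidableEq A] (f : A → M) (g : A) (hg : addOrderOf g = p) (hf : ∀ a, f (a + g) = f a)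
    (S : Finset A) (hS : ∀ a ∈ S, a + g ∈ S) : ∑ a ∈ S, f a = 0 := by
  induction S using Finset.strongInduction with
  | H S ih =>
    rcases S.eq_empty_or_nonempty with rfl | ⟨a, ha⟩
    · simp
    have hfk : ∀ k : ℕ, f (a + k • g) = f a := by
      intro k
      induction k with
      | zero => simp
      | succ k ihk => rw [succ_nsmul, ← add_assoc, hf, ihk]
    have hSk : ∀ k : ℕ, a + k • g ∈ S := by
      intro k
      induction k with
      | zero => simpa using ha
      | succ k ihk => rw [succ_nsmul, ← add_assoc]; exact hS _ ihk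
    set O : Finset A := (Finset.range p).image (fun k => a + k • g) with hO
    have hOS : O ⊆ S := by
      intro x hx
      obtain ⟨k, _, rfl⟩ := Finset.mem_image.1 hx
      exact hSk k
    have hinj : Set.InjOn (fun k : ℕ => a + k • g) (Finset.range p : Set ℕ) := by
      intro k hk l hl hkl
      have h1 : k • g = l • g := add_left_cancel hkl
      have := nsmul_injOn_Iio_addOrderOf (x := g)
      rw [hg] at this
      exact this (by simpa using hk) (by simpa using hl) h1
    have hOsum : ∑ x ∈ O, f x = 0 := by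
      rw [hO, Finset.sum_image hinj]
      rw [Finset.sum_congr rfl (fun k _ => hfk k), Finset.sum_const, Finset.card_range, hM]
    have hrest : ∑ x ∈ S \ O, f x = 0 := by
      apply ih
      · refine Finset.sdiff_ssubset hOS ⟨a, ?_⟩
        exact Finset.mem_image.2 ⟨0, Finset.mem_range.2 (Fact.out : p.Prime).pos, by simp⟩
      · intro x hx
        obtain ⟨hxS, hxO⟩ := Finset.mem_sdiff.1 hx
        refine Finset.mem_sdiff.2 ⟨hS x hxS, fun h => hxO ?_⟩
        obtain ⟨k, hk, hk'⟩ := Finset.mem_image.1 h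
        refine Finset.mem_image.2 ⟨(k + (p - 1)) % p, Finset.mem_range.2 (Nat.mod_lt _ (Fact.out : p.Prime).pos), ?_⟩
        show a + ((k + (p - 1)) % p) • g = x
        have h2 : ((k + (p - 1)) % p) • g = (k + (p - 1)) • g := by
          conv_lhs => rw [← hg]
          rw [mod_addOrderOf_nsmul, hg]
        rw [h2, add_nsmul, ← add_assoc]
        have h3 : a + k • g = x + g := hk'
        rw [h3, add_assoc, ← succ_nsmul']
        have h4 : p - 1 + 1 = p := Nat.succ_pred_eq_of_pos (Fact.out : p.Prime).pos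
        rw [h4]
        have h5 : p • g = 0 := by rw [← hg]; exact addOrderOf_nsmul_eq_zero g
        rw [h5, add_zero]
    rw [← Finset.sum_sdiff hOS, hrest, hOsum, add_zero]

lemma coeff_mapDomain_eq {k A B : Type*} [CommSemiring k] [Fintype A] [DecidableEq B]
    (q : A → B) (x : AddMonoidAlgebra k A) (b : B) :
    (AddMonoidAlgebra.mapDomain q x).coeff b = ∑ a ∈ Finset.univ.filter (fun a => q a = b), x.coeff a := by
  classical
  induction x using AddMonoidAlgebra.induction_linear with
  | zero => simp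
  | add x y hx hy =>
    rw [AddMonoidAlgebra.mapDomain_add]
    simp only [coeff_add, Finsupp.coe_add, Pi.add_apply, hx, hy, Finset.sum_add_distrib]
  | single a c =>
    rw [AddMonoidAlgebra.mapDomain_single]
    simp only [coeff_single, Finsupp.single_apply]
    by_cases h : q a = b
    · rw [if_pos h, Finset.sum_ite_eq, if_pos]
      simp [h]
    · rw [if_neg h, Finset.sum_ite_eq, if_neg]
      simp [h]

/-- A vector is primitive if one of its coordinates is a unit. -/
def Prim (a : Fin r → ℤ_[p]) : Prop := ∃ i, IsUnit (a i)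

lemma TO_nzd {c : Fin r → ℤ_[p]} (hc : Prim c) {f : Om p r} (h : TO c * f = 0) : f = 0 := by
  classical
  have h0 : f * gO c = f := by
    have : TO c * f = f * gO c - f := by rw [TO]; ring
    rw [this, sub_eq_zero] at h
    exact h
  refine lim_ext fun n => ?_
  rw [← lim_tr f n]
  have h1 : f.1 (n + 1) * (single (rd (n + 1) c) 1 : RO p r (n + 1)) = f.1 (n + 1) :=
    congrArg (fun f : Om p r => f.1 (n + 1)) h0
  have h2 : ∀ a, (f.1 (n + 1)).coeff (a + rd (n + 1) c) = (f.1 (n + 1)).coeff a := by
    intro a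
    conv_lhs => rw [← h1]
    rw [coeff_mul_single_add, mul_one]
  have h3 : ∀ (k : ℕ) a, (f.1 (n + 1)).coeff (a + k • rd (n + 1) c) = (f.1 (n + 1)).coeff a := by
    intro k
    induction k with
    | zero => simp
    | succ k ih => intro a; rw [succ_nsmul, ← add_assoc, h2, ih]
  set g : Gr p r (n + 1) := p ^ (n + 1) • rd (n + 1) c with hg
  have hpg : p • g = 0 := by
    rw [hg, smul_smul, ← pow_succ']
    funext i
    simp only [Pi.smul_apply, nsmul_eq_mul, Pi.zero_apply]
    rw [Nat.cast_pow, ← Nat.cast_pow, ZMod.natCast_self, zero_mul]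
  have hg0 : g ≠ 0 := by
    obtain ⟨i, hi⟩ := hc
    intro h
    have h4 : (p ^ (n + 1) • rd (n + 1) c) i = 0 := congrFun h i
    rw [Pi.smul_apply, nsmul_eq_mul] at h4
    have hu : IsUnit (rd (n + 1) c i) := hi.map (PadicInt.toZModPow (n + 1 + 1))
    rw [hu.mul_left_eq_zero] at h4
    rw [ZMod.natCast_eq_zero_iff] at h4
    exact absurd (Nat.pow_dvd_pow_iff_le_right (Fact.out : p.Prime).one_lt |>.1 h4) (by omega)
  have hord : addOrderOf g = p := addOrderOf_eq_prime hpg hg0
  have htg : grT p r n g = 0 := by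
    rw [hg, map_nsmul, grT_rd]
    funext i
    simp only [Pi.smul_apply, nsmul_eq_mul, Pi.zero_apply]
    rw [ZMod.natCast_self, zero_mul]
  ext b
  show (AddMonoidAlgebra.mapDomain (grT p r n) (f.1 (n + 1))).coeff b = 0
  rw [coeff_mapDomain_eq]
  refine sum_inv (p := p) (fun x => ?_) (fun a => (f.1 (n + 1)).coeff a) g hord (fun a => h3 _ a) _ ?_
  · rw [nsmul_eq_mul, ZMod.natCast_self, zero_mul]
  · intro a ha
    rw [Finset.mem_filter] at ha ⊢
    exact ⟨Finset.mem_univ _, by rw [map_add, htg, add_zero]; exact ha.2⟩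

/-! ### projections -/

/-- The projection with kernel spanned by the vector with `i`-th coordinate `1` and other
coordinates `w`. -/
def pj {A : Type*} [CommRing A] (i : Fin (r + 1)) (w : Fin r → A) : (Fin (r + 1) → A) →+ (Fin r → A) where
  toFun x := fun j => x (i.succAbove j) - x i * w j
  map_zero' := by funext j; simp
  map_add' x y := by funext j; simp; ring

lemma pj_map {A B : Type*} [CommRing A] [CommRing B] (h : A →+* B) (i : Fin (r + 1)) (w : Fin r → A)
    (x : Fin (r + 1) → A) : pj i (fun j => h (w j)) (fun k => h (x k)) = fun j => h (pj i w x j) := by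
  funext j; simp [pj]

/-- A section of the projection. -/
def sj {A : Type*} [CommRing A] (i : Fin (r + 1)) : (Fin r → A) →+ (Fin (r + 1) → A) where
  toFun y := i.insertNth 0 y
  map_zero' := by
    funext k
    refine Fin.succAboveCases i ?_ (fun j => ?_) k <;> simp
  map_add' x y := by
    funext k
    refine Fin.succAboveCases i ?_ (fun j => ?_) k <;> simp

lemma pj_sj {A : Type*} [CommRing A] (i : Fin (r + 1)) (w : Fin r → A) (y : Fin r → A) :
    pj i w (sj i y) = y := by
  funext j; simp [pj, sj]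

lemma pj_ker {A : Type*} [CommRing A] (i : Fin (r + 1)) (c : Fin (r + 1) → A) (u : A) (hu : c i * u = 1)
    (x : Fin (r + 1) → A) (hx : pj i (fun j => c (i.succAbove j) * u) x = 0) : x = (x i * u) • c := by
  funext k
  refine Fin.succAboveCases i ?_ (fun j => ?_) k
  · simp only [Pi.smul_apply, smul_eq_mul]
    rw [mul_assoc, mul_comm u, hu, mul_one]
  · have := congrFun hx j
    simp only [pj, AddMonoidHom.coe_mk, ZeroHom.coe_mk, Pi.zero_apply, sub_eq_zero] at this
    simp only [Pi.smul_apply, smul_eq_mul]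
    rw [this]; ring

lemma pj_self {A : Type*} [CommRing A] (i : Fin (r + 1)) (c : Fin (r + 1) → A) (u : A) (hu : c i * u = 1) :
    pj i (fun j => c (i.succAbove j) * u) c = 0 := by
  funext j
  simp only [pj, AddMonoidHom.coe_mk, ZeroHom.coe_mk, Pi.zero_apply]
  rw [mul_comm (c (i.succAbove j)), ← mul_assoc, hu, one_mul, sub_self]

lemma pj_smul {A : Type*} [CommRing A] (i : Fin (r + 1)) (w : Fin r → A) (a : A) (x : Fin (r + 1) → A) :
    pj i w (a • x) = a • pj i w x := by
  funext j
  simp only [pj, AddMonoidHom.coe_mk, ZeroHom.coe_mk, Pi.smul_apply, smul_eq_mul]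
  ring

lemma ker_level {k A B : Type*} [CommRing k] [AddCommGroup A] [AddCommGroup B] (π : A →+ B)
    (s : B →+ A) (c : A) (hc : ∀ a, ∃ m : ℕ, a - s (π a) = m • c)
    (f : AddMonoidAlgebra k A) (hf : AddMonoidAlgebra.mapDomain π f = 0) :
    (single c 1 - 1 : AddMonoidAlgebra k A) ∣ f := by
  have key : ∀ f : AddMonoidAlgebra k A, (single c 1 - 1 : AddMonoidAlgebra k A) ∣
      f - AddMonoidAlgebra.mapDomain s (AddMonoidAlgebra.mapDomain π f) := by
    intro f
    induction f using AddMonoidAlgebra.induction_linear with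
    | zero => simp
    | add x y hx hy =>
      simp only [AddMonoidAlgebra.mapDomain_add]
      have : x + y - (mapDomain s (mapDomain π x) + mapDomain s (mapDomain π y)) =
        (x - mapDomain s (mapDomain π x)) + (y - mapDomain s (mapDomain π y)) := by ring
      rw [this]
      exact dvd_add hx hy
    | single a x =>
      simp only [AddMonoidAlgebra.mapDomain_single]
      obtain ⟨m, hm⟩ := hc a
      have ha : a = s (π a) + m • c := by rw [← hm]; abel
      have h1 : (single a x : AddMonoidAlgebra k A) = single (s (π a)) x * (single c 1) ^ m := by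
        rw [single_pow, one_pow, single_mul_single, mul_one, ← ha]
      have h2 : (single a x : AddMonoidAlgebra k A) - single (s (π a)) x =
          single (s (π a)) x * ((single c 1) ^ m - 1) := by rw [mul_sub, mul_one, ← h1]
      rw [h2]
      exact Dvd.dvd.mul_left (by simpa using sub_dvd_pow_sub_pow (single c 1 : AddMonoidAlgebra k A) 1 m) _
  have := key f
  rwa [hf, AddMonoidAlgebra.mapDomain_zero, sub_zero] at this

/-- Functoriality of inverse limits. -/
def limMap {R R' : ℕ → Type} [∀ n, CommRing (R n)] [∀ n, CommRing (R' n)]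
    {t : ∀ n, R (n + 1) →+* R n} {t' : ∀ n, R' (n + 1) →+* R' n} (h : ∀ n, R n →+* R' n)
    (hc : ∀ n x, t' n (h (n + 1) x) = h n (t n x)) : Lim t →+* Lim t' where
  toFun f := ⟨fun n => h n (f.1 n), fun n => by rw [hc, lim_tr f n]⟩
  map_one' := lim_ext fun n => map_one (h n)
  map_mul' f g := lim_ext fun n => map_mul (h n) _ _
  map_zero' := lim_ext fun n => map_zero (h n)
  map_add' f g := lim_ext fun n => map_add (h n) _ _

noncomputable def PO (i : Fin (r + 1)) (w : Fin r → ℤ_[p]) : Om p (r + 1) →+* Om p r :=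
  limMap (fun n => AddMonoidAlgebra.mapDomainRingHom (ZMod p) (pj i (rd n w))) (by
    intro n x
    induction x using AddMonoidAlgebra.induction_linear with
    | zero => simp
    | add x y hx hy => simp only [map_add, hx, hy]
    | single a c =>
      simp only [AddMonoidAlgebra.mapDomainRingHom_apply, AddMonoidAlgebra.mapDomain_single, tO_single]
      congr 1
      rw [← grT_rd n w]
      exact (pj_map (cz p n) i (rd (n + 1) w) a).symm)

lemma PO_gO (i : Fin (r + 1)) (w : Fin r → ℤ_[p]) (a : Fin (r + 1) → ℤ_[p]) :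
    PO i w (gO a) = gO (pj i w a) := by
  refine lim_ext fun n => ?_
  show AddMonoidAlgebra.mapDomainRingHom (ZMod p) (pj i (rd n w)) (single (rd n a) 1) =
    (single (rd n (pj i w a)) 1 : RO p r n)
  simp only [AddMonoidAlgebra.mapDomainRingHom_apply, AddMonoidAlgebra.mapDomain_single]
  congr 1
  exact pj_map (PadicInt.toZModPow (n + 1)) i w a

lemma PO_ker (i : Fin (r + 1)) (c : Fin (r + 1) → ℤ_[p]) (u : ℤ_[p]) (hu : c i * u = 1)
    {f : Om p (r + 1)} (hf : PO i (fun j => c (i.succAbove j) * u) f = 0) : TO c ∣ f := by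
  refine dvd_of_levels _ _ fun n => ?_
  have h1 : AddMonoidAlgebra.mapDomain (pj i (rd n (fun j => c (i.succAbove j) * u))) (f.1 n) = 0 :=
    congrArg (fun f : Om p r => f.1 n) hf
  refine ker_level (pj i (rd n (fun j => c (i.succAbove j) * u))) (sj i) (rd n c) (fun a => ?_) (f.1 n) h1
  have hu' : rd n c i * (PadicInt.toZModPow (n + 1) u) = 1 := by
    rw [rd, ← map_mul, hu, map_one]
  have hw : (rd n (fun j => c (i.succAbove j) * u)) =
      fun j => rd n c (i.succAbove j) * PadicInt.toZModPow (n + 1) u := by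
    funext j; simp [rd]
  have h2 := pj_ker i (rd n c) _ hu' (a - sj i (pj i (rd n (fun j => c (i.succAbove j) * u)) a)) (by
    rw [← hw, map_sub, pj_sj, sub_self])
  refine ⟨((a - sj i (pj i (rd n (fun j => c (i.succAbove j) * u)) a)) i *
    PadicInt.toZModPow (n + 1) u).val, ?_⟩
  conv_lhs => rw [h2]
  funext k
  rw [Pi.smul_apply, Pi.smul_apply, smul_eq_mul, nsmul_eq_mul, ZMod.natCast_val, ZMod.cast_id]

lemma gO_eq_one {a : Fin r → ℤ_[p]} (h : gO a = 1) : a = 0 := by
  funext i
  refine PadicInt.ext_of_toZModPow.1 fun n => ?_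
  have h1 : (single (rd n a) 1 : RO p r n) = single 0 1 := congrArg (fun f : Om p r => f.1 n) h
  have h2 : rd n a = 0 := AddMonoidAlgebra.single_left_injective (one_ne_zero) h1
  have h3 : PadicInt.toZModPow (n + 1) (a i) = 0 := congrFun h2 i
  have h4 := PadicInt.zmod_cast_comp_toZModPow (p := p) n (n + 1) (Nat.le_succ _)
  rw [← h4, RingHom.comp_apply, h3]
  simp

/-- The augmentation at one level. -/
noncomputable def augL (n : ℕ) : RO p r n →+* ZMod p :=
  (AddMonoidAlgebra.lift (ZMod p) (ZMod p) (Gr p r n) 1).toRingHom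

lemma augL_single (n : ℕ) (a : Gr p r n) (x : ZMod p) : augL n (single a x) = x := by
  simp [augL]

lemma augL_tO (n : ℕ) (x : RO p r (n + 1)) : augL n (tO p r n x) = augL (n + 1) x := by
  induction x using AddMonoidAlgebra.induction_linear with
  | zero => simp
  | add x y hx hy => simp only [map_add, hx, hy]
  | single a c => rw [tO_single, augL_single, augL_single]

/-- The augmentation. -/
noncomputable def aug : Om p r →+* ZMod p where
  toFun f := augL 0 (f.1 0)
  map_one' := map_one (augL 0)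
  map_mul' f g := map_mul (augL 0) _ _
  map_zero' := map_zero (augL 0)
  map_add' f g := map_add (augL 0) _ _

lemma aug_level (f : Om p r) (n : ℕ) : augL n (f.1 n) = aug f := by
  induction n with
  | zero => rfl
  | succ n ih => rw [← augL_tO, lim_tr f n, ih]

instance : Nontrivial (Om p r) := aug.domain_nontrivial

instance : IsDomain (Om p 0) := by
  have hinj : Function.Injective (aug (p := p) (r := 0)) := by
    rw [injective_iff_map_eq_zero]
    intro f hf
    refine lim_ext fun n => ?_
    have h1 := aug_level f n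
    rw [hf] at h1
    obtain ⟨c, hc⟩ : ∃ c, f.1 n = single 0 c := by
      refine ⟨(f.1 n).coeff 0, ?_⟩
      apply AddMonoidAlgebra.coeff_injective
      refine Finsupp.ext fun a => ?_
      have : a = 0 := Subsingleton.elim _ _
      subst this
      simp
    rw [hc, augL_single] at h1
    rw [hc, h1, single_zero]
    rfl
  exact hinj.isDomain aug

instance (n : ℕ) : Nontrivial (RO p r n) := (augL n).domain_nontrivial

instance (n : ℕ) : CharP (RO p r n) p := by
  rw [CharP.charP_iff_prime_eq_zero (Fact.out : p.Prime)]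
  rw [← map_natCast (algebraMap (ZMod p) (RO p r n))]
  simp

instance : CharP (Om p r) p := by
  rw [CharP.charP_iff_prime_eq_zero (Fact.out : p.Prime)]
  refine lim_ext fun n => ?_
  show ((p : ∀ n, RO p r n) n) = 0
  rw [Pi.natCast_apply, CharP.cast_eq_zero]

lemma gO_nsmul (k : ℕ) (a : Fin r → ℤ_[p]) : gO (k • a) = gO a ^ k := by
  induction k with
  | zero => simp [gO_zero]
  | succ k ih => rw [succ_nsmul, gO_add, ih, pow_succ]

lemma TO_pow (k : ℕ) (a : Fin r → ℤ_[p]) : TO (p ^ k • a) = TO a ^ (p ^ k) := by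
  rw [TO, TO, sub_pow_char_pow, one_pow, gO_nsmul]

lemma TO_level (n : ℕ) (a : Fin r → ℤ_[p]) : (TO a ^ (p ^ (n + 1))).1 n = 0 := by
  rw [← TO_pow]
  show (single (rd n (p ^ (n + 1) • a)) 1 : RO p r n) - 1 = 0
  have : rd n (p ^ (n + 1) • a) = 0 := by
    funext i
    show PadicInt.toZModPow (n + 1) ((p ^ (n + 1) • a) i) = 0
    rw [Pi.smul_apply, nsmul_eq_mul, map_mul, map_natCast, ZMod.natCast_self, zero_mul]
  rw [this]
  exact sub_self _

lemma TO_sep (a : Fin r → ℤ_[p]) {f : Om p r} (h : ∀ k, TO a ^ k ∣ f) : f = 0 := by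
  refine lim_ext fun n => ?_
  obtain ⟨g, hg⟩ := h (p ^ (n + 1))
  have h1 : f.1 n = (TO a ^ (p ^ (n + 1))).1 n * g.1 n := congrArg (fun f : Om p r => f.1 n) hg
  rw [h1, TO_level, zero_mul]
  rfl

lemma domain_step {A B : Type*} [CommRing A] [CommRing B] [IsDomain B] [Nontrivial A] (π : A →+* B) (t : A)
    (hker : ∀ f, π f = 0 → t ∣ f) (hnzd : ∀ f, t * f = 0 → f = 0)
    (hsep : ∀ f, (∀ k, t ^ k ∣ f) → f = 0) : IsDomain A := by
  classical
  have hpow : ∀ k f, t ^ k * f = 0 → f = 0 := by
    intro k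
    induction k with
    | zero => intro f hf; simpa using hf
    | succ k ih => intro f hf; exact ih f (hnzd _ (by rw [← mul_assoc, ← pow_succ', hf]))
  have hdec : ∀ f : A, f ≠ 0 → ∃ k g, f = t ^ k * g ∧ ¬ t ∣ g := by
    intro f hf
    have h1 : ∃ k, ¬ t ^ k ∣ f := by
      by_contra h
      push Not at h
      exact hf (hsep f h)
    obtain ⟨k, hk⟩ : ∃ k, Nat.find h1 = k + 1 := by
      refine Nat.exists_eq_succ_of_ne_zero fun h => ?_
      have := Nat.find_spec h1
      rw [h, pow_zero] at this
      exact this (one_dvd _)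
    have h2 : t ^ k ∣ f := by
      have := Nat.find_min h1 (m := k) (by omega)
      exact not_not.1 this
    obtain ⟨g, hg⟩ := h2
    refine ⟨k, g, hg, fun ⟨g', hg'⟩ => ?_⟩
    have := Nat.find_spec h1
    rw [hk] at this
    exact this ⟨g', by rw [hg, hg', pow_succ, mul_assoc]⟩
  have : NoZeroDivisors A := by
    refine ⟨fun {a b} hab => ?_⟩
    by_contra h
    push Not at h
    obtain ⟨k, a', ha, ha'⟩ := hdec a h.1
    obtain ⟨l, b', hb, hb'⟩ := hdec b h.2
    have h3 : t ^ (k + l) * (a' * b') = 0 := by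
      rw [← hab, ha, hb, pow_add]; ring
    have h4 := hpow _ _ h3
    have h5 : π a' * π b' = 0 := by rw [← map_mul, h4, map_zero]
    rcases mul_eq_zero.1 h5 with h6 | h6
    · exact ha' (hker _ h6)
    · exact hb' (hker _ h6)
  exact NoZeroDivisors.to_isDomain A

instance instDomainOm : IsDomain (Om p r) := by
  induction r with
  | zero => infer_instance
  | succ r ih =>
    have hc : Prim (Pi.single (0 : Fin (r + 1)) (1 : ℤ_[p])) := ⟨0, by simp⟩
    exact domain_step (PO 0 (fun j => (Pi.single (0 : Fin (r + 1)) (1 : ℤ_[p]) : Fin (r + 1) → ℤ_[p])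
      ((0 : Fin (r + 1)).succAbove j) * 1)) (TO (Pi.single 0 1))
      (fun f hf => PO_ker 0 _ 1 (by simp) hf) (fun f => TO_nzd hc) (fun f => TO_sep _)

lemma TO_prime {c : Fin r → ℤ_[p]} (hc : Prim c) : Prime (TO c) := by
  obtain ⟨i, hi⟩ := hc
  obtain ⟨r, rfl⟩ : ∃ s, r = s + 1 := Nat.exists_eq_succ_of_ne_zero (fun h => by subst h; exact i.elim0)
  obtain ⟨u, hu⟩ := hi.exists_right_inv
  have hc : Prim c := ⟨i, hi⟩
  have h0 : PO i (fun j => c (i.succAbove j) * u) (TO c) = 0 := by
    rw [TO, map_sub, PO_gO, map_one, pj_self i c u hu, gO_zero, sub_self]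
  refine ⟨fun h => ?_, fun h => ?_, fun a b hab => ?_⟩
  · have := TO_nzd hc (f := 1) (by rw [h, zero_mul])
    exact one_ne_zero this
  · have := h.map (PO i (fun j => c (i.succAbove j) * u))
    rw [h0] at this
    exact not_isUnit_zero this
  · obtain ⟨g, hg⟩ := hab
    have h1 : PO i (fun j => c (i.succAbove j) * u) a * PO i (fun j => c (i.succAbove j) * u) b = 0 := by
      rw [← map_mul, hg, map_mul, h0, zero_mul]
    rcases mul_eq_zero.1 h1 with h | h
    · exact Or.inl (PO_ker i c u hu h)
    · exact Or.inr (PO_ker i c u hu h)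

lemma TO_dvd_TO {c : Fin r → ℤ_[p]} (hc : Prim c) {a : Fin r → ℤ_[p]} (h : TO c ∣ TO a) :
    ∃ x : ℤ_[p], a = x • c := by
  obtain ⟨i, hi⟩ := hc
  obtain ⟨r, rfl⟩ : ∃ s, r = s + 1 := Nat.exists_eq_succ_of_ne_zero (fun h => by subst h; exact i.elim0)
  obtain ⟨u, hu⟩ := hi.exists_right_inv
  obtain ⟨g, hg⟩ := h
  have h0 : PO i (fun j => c (i.succAbove j) * u) (TO c) = 0 := by
    rw [TO, map_sub, PO_gO, map_one, pj_self i c u hu, gO_zero, sub_self]
  have h1 : PO i (fun j => c (i.succAbove j) * u) (TO a) = 0 := by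
    rw [hg, map_mul, h0, zero_mul]
  rw [TO, map_sub, PO_gO, map_one, sub_eq_zero] at h1
  exact ⟨_, pj_ker i c u hu a (gO_eq_one h1)⟩

lemma exists_prim {a : Fin r → ℤ_[p]} (ha : a ≠ 0) : ∃ (k : ℕ) (c : Fin r → ℤ_[p]), Prim c ∧ a = p ^ k • c := by
  classical
  obtain ⟨i0, hi0⟩ := Function.ne_iff.1 ha
  obtain ⟨i, hi, hmin⟩ := Finset.exists_min_image (Finset.univ.filter fun i => a i ≠ 0)
    (fun i => (a i).valuation) ⟨i0, by simpa using hi0⟩
  rw [Finset.mem_filter] at hi
  have hdvd : ∀ j, (p : ℤ_[p]) ^ (a i).valuation ∣ a j := by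
    intro j
    by_cases hj : a j = 0
    · rw [hj]; exact dvd_zero _
    · have h1 := hmin j (by simp [hj])
      rw [PadicInt.unitCoeff_spec hj]
      exact Dvd.dvd.mul_left (pow_dvd_pow _ h1) _
  choose c hc using hdvd
  refine ⟨(a i).valuation, c, ⟨i, ?_⟩, ?_⟩
  · have h1 := hc i
    have h2 := PadicInt.unitCoeff_spec hi.2
    have h3 : (p : ℤ_[p]) ^ (a i).valuation * c i = (p : ℤ_[p]) ^ (a i).valuation * (PadicInt.unitCoeff hi.2) := by
      rw [← h1, mul_comm, ← h2]
    have h4 : (p : ℤ_[p]) ^ (a i).valuation ≠ 0 := pow_ne_zero _ (by exact_mod_cast (Fact.out : p.Prime).ne_zero)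
    rw [mul_left_cancel₀ h4 h3]
    exact (PadicInt.unitCoeff hi.2).isUnit
  · funext j
    rw [Pi.smul_apply, nsmul_eq_mul, hc j]
    push_cast
    rfl

lemma TO_ne_zero {a : Fin r → ℤ_[p]} (ha : a ≠ 0) : TO a ≠ 0 := by
  intro h
  rw [TO, sub_eq_zero] at h
  exact ha (gO_eq_one h)

end

end Pool.Agent.Helper832_EG
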