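import Mathlib
import Pool.Agent.TeamU.B2

/-!
# Herbrand quotients of finitely generated abelian groups with an automorphism of prime order

The index formula `[A : A^n] = n ^ rank A * |A[n]|` is adapted from `Pool/Agent/TeamU/B1.lean`.
-/

set_option linter.style.haveILetI false
set_option linter.unusedSectionVars false
set_option linter.unusedVariables false

open Module Pool.Agent.TeamU

namespace Pool.Agent.Helper832_EG

theorem card_quot_n_finite (T : Type*) [AddCommGroup T] [Finite T] (n : ℤ) :
    Nat.card (T ⧸ (zsmulAddGroupHom (α := T) n).range) =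
      Nat.card ((zsmulAddGroupHom (α := T) n).ker) := by
  have h1 := AddSubgroup.card_eq_card_quotient_mul_card_addSubgroup
    ((zsmulAddGroupHom (α := T) n).range)
  have h2 := AddSubgroup.card_eq_card_quotient_mul_card_addSubgroup
    ((zsmulAddGroupHom (α := T) n).ker)
  have h3 : Nat.card (T ⧸ (zsmulAddGroupHom (α := T) n).ker) =
      Nat.card ((zsmulAddGroupHom (α := T) n).range) :=
    Nat.card_congr (QuotientAddGroup.quotientKerEquivRange _).toEquiv
  have h4 : 0 < Nat.card ((zsmulAddGroupHom (α := T) n).range) := Nat.card_pos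
  rw [h3] at h2
  have h5 : Nat.card (T ⧸ (zsmulAddGroupHom (α := T) n).range) *
      Nat.card ((zsmulAddGroupHom (α := T) n).range) =
      Nat.card ((zsmulAddGroupHom (α := T) n).ker) *
      Nat.card ((zsmulAddGroupHom (α := T) n).range) := by
    rw [← h1, h2, mul_comm]
  exact Nat.eq_of_mul_eq_mul_right h4 h5

/-- `[A : nA] = n ^ rank A * |A[n]|`. -/
theorem card_quot_n (A : Type*) [AddCommGroup A] [Module.Finite ℤ A] (n : ℕ) [NeZero n] :
    Nat.card (A ⧸ (zsmulAddGroupHom (α := A) n).range) =
      n ^ (finrank ℤ A) * Nat.card ((zsmulAddGroupHom (α := A) n).ker) := by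
  classical
  have : AddGroup.FG A := Module.Finite.iff_addGroup_fg.mp inferInstance
  obtain ⟨m, ι, hι, p, hp, e, ⟨φ⟩⟩ := AddCommGroup.equiv_free_prod_directSum_zmod A
  let T := DirectSum ι fun i => ZMod (p i ^ e i)
  have hT : Finite T := by
    have : ∀ i, NeZero (p i ^ e i) := fun i => ⟨pow_ne_zero _ (hp i).ne_zero⟩
    exact Finite.of_equiv _ (DirectSum.addEquivProd (fun i => ZMod (p i ^ e i))).symm.toEquiv
  have hrank : finrank ℤ A = m := by
    rw [LinearEquiv.finrank_eq φ.toIntLinearEquiv]
    have h1 : finrank ℤ ((Fin m →₀ ℤ) × T) = finrank ℤ (Fin m →₀ ℤ) := finrank_prod_finite _ _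
    rw [h1]; simp
  -- the kernel
  have hker : Nat.card ((zsmulAddGroupHom (α := A) n).ker) =
      Nat.card ((zsmulAddGroupHom (α := T) n).ker) := by
    refine Nat.card_congr ⟨fun x => ⟨(φ x.1).2, ?_⟩, fun t => ⟨φ.symm (0, t.1), ?_⟩, ?_, ?_⟩
    · have hx : (n : ℤ) • x.1 = 0 := x.2
      have : (n : ℤ) • (φ x.1) = 0 := by rw [← map_zsmul, hx, map_zero]
      exact congrArg Prod.snd this
    · have ht : (n : ℤ) • t.1 = 0 := t.2
      change (n : ℤ) • φ.symm (0, t.1) = 0
      rw [← map_zsmul, Prod.smul_mk, ht, smul_zero]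
      exact map_zero _
    · intro x
      have hx : (n : ℤ) • x.1 = 0 := x.2
      have h2 : (n : ℤ) • (φ x.1) = 0 := by rw [← map_zsmul, hx, map_zero]
      have h3 : (φ x.1).1 = 0 := by
        have := congrArg Prod.fst h2
        have h4 : (n : ℤ) ≠ 0 := by exact_mod_cast NeZero.ne n
        exact (smul_eq_zero.1 this).resolve_left h4
      apply Subtype.ext
      change φ.symm (0, (φ x.1).2) = x.1
      rw [← h3]
      exact φ.symm_apply_apply x.1
    · intro t
      apply Subtype.ext
      change (φ (φ.symm (0, t.1))).2 = t.1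
      rw [φ.apply_symm_apply]
  -- the quotient
  have hquot : Nat.card (A ⧸ (zsmulAddGroupHom (α := A) n).range) =
      n ^ m * Nat.card (T ⧸ (zsmulAddGroupHom (α := T) n).range) := by
    let ψ : A →+ (Fin m → ZMod n) × (T ⧸ (zsmulAddGroupHom (α := T) n).range) :=
      (AddMonoidHom.prodMap
        ({ toFun := fun f i => ((f i : ℤ) : ZMod n)
           map_zero' := by ext; simp
           map_add' := fun f g => by ext; simp } : (Fin m →₀ ℤ) →+ (Fin m → ZMod n))
        (QuotientAddGroup.mk' (zsmulAddGroupHom (α := T) n).range)).comp φ.toAddMonoidHom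
    have hψs : Function.Surjective ψ := by
      rintro ⟨f, t⟩
      obtain ⟨t, rfl⟩ := QuotientAddGroup.mk'_surjective _ t
      refine ⟨φ.symm (Finsupp.equivFunOnFinite.symm fun i => ((f i).val : ℤ), t), ?_⟩
      simp only [ψ, AddMonoidHom.comp_apply]
      change AddMonoidHom.prodMap _ _ (φ (φ.symm _)) = _
      rw [φ.apply_symm_apply]
      simp only [AddMonoidHom.prodMap, AddMonoidHom.prod_apply, AddMonoidHom.comp_apply]
      refine Prod.ext ?_ rfl
      ext i
      simp
    have hψk : ψ.ker = (zsmulAddGroupHom (α := A) n).range := by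
      ext x
      rw [AddMonoidHom.mem_ker]
      constructor
      · intro h
        have h1 : ∀ i, (((φ x).1 i : ℤ) : ZMod n) = 0 := fun i => congrFun (congrArg Prod.fst h) i
        have h2 : QuotientAddGroup.mk' (zsmulAddGroupHom (α := T) n).range (φ x).2 = 0 :=
          congrArg Prod.snd h
        rw [QuotientAddGroup.mk'_apply, QuotientAddGroup.eq_zero_iff] at h2
        obtain ⟨t, ht⟩ := h2
        have h1' : ∀ i, ∃ k : ℤ, (φ x).1 i = n * k := fun i =>
          (ZMod.intCast_zmod_eq_zero_iff_dvd _ n).mp (h1 i)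
        choose g hg using h1'
        refine ⟨φ.symm (Finsupp.equivFunOnFinite.symm g, t), ?_⟩
        change (n : ℤ) • φ.symm _ = x
        rw [← map_zsmul, AddEquiv.symm_apply_eq]
        refine Prod.ext ?_ ?_
        · ext i
          simp [hg i]
        · exact ht
      · rintro ⟨y, rfl⟩
        change ψ ((n : ℤ) • y) = 0
        rw [map_zsmul]
        refine Prod.ext ?_ ?_
        · ext i
          change (n : ℤ) • (ψ y).1 i = 0
          rw [zsmul_eq_mul]
          have : ((n : ℤ) : ZMod n) = 0 := by simp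
          rw [this, zero_mul]
        · obtain ⟨t, ht⟩ := QuotientAddGroup.mk'_surjective _ (ψ y).2
          change (n : ℤ) • (ψ y).2 = 0
          rw [← ht, ← map_zsmul, QuotientAddGroup.mk'_apply, QuotientAddGroup.eq_zero_iff]
          exact ⟨t, rfl⟩
    rw [← hψk, Nat.card_congr (QuotientAddGroup.quotientKerEquivOfSurjective ψ hψs).toEquiv,
      Nat.card_prod, Nat.card_eq_fintype_card, Fintype.card_fun, ZMod.card, Fintype.card_fin]
  rw [hquot, hker, hrank, card_quot_n_finite]

theorem index_pw (A : Type*) [CommGroup A] [Module.Finite ℤ (Additive A)] (n : ℕ) [NeZero n] :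
    (powMonoidHom n : A →* A).range.index =
      n ^ (Module.finrank ℤ (Additive A)) * Nat.card (powMonoidHom n : A →* A).ker := by
  have h := card_quot_n (Additive A) n
  rw [Subgroup.index_eq_card]
  have h1 : Nat.card (A ⧸ (powMonoidHom n : A →* A).range) =
      Nat.card (Additive A ⧸ (zsmulAddGroupHom (α := Additive A) n).range) := by
    refine Nat.card_congr (Quotient.congr Additive.ofMul ?_)
    intro a b
    change (QuotientGroup.leftRel (powMonoidHom n : A →* A).range) a b ↔
      (QuotientAddGroup.leftRel (zsmulAddGroupHom (α := Additive A) n).range)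
        (Additive.ofMul a) (Additive.ofMul b)
    rw [QuotientGroup.leftRel_apply, QuotientAddGroup.leftRel_apply]
    constructor
    · rintro ⟨c, hc⟩
      refine ⟨Additive.ofMul c, ?_⟩
      change (n : ℤ) • Additive.ofMul c = _
      rw [natCast_zsmul, ← ofMul_pow]
      exact congrArg Additive.ofMul hc
    · rintro ⟨c, hc⟩
      refine ⟨c.toMul, ?_⟩
      change (n : ℤ) • c = _ at hc
      rw [natCast_zsmul] at hc
      exact congrArg Additive.toMul hc
  have h2 : Nat.card (powMonoidHom n : A →* A).ker =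
      Nat.card ((zsmulAddGroupHom (α := Additive A) n).ker) := by
    refine Nat.card_congr (Equiv.subtypeEquiv Additive.ofMul ?_)
    intro a
    rw [MonoidHom.mem_ker, AddMonoidHom.mem_ker]
    change a ^ n = 1 ↔ (n : ℤ) • Additive.ofMul a = 0
    rw [natCast_zsmul, ← ofMul_pow, ofMul_eq_zero]
  rw [h1, h2, h]

/-- `[V : V^n] = n ^ rank V * |V[n]|` for a subgroup `V`. -/
theorem relIndex_pw {G : Type*} [CommGroup G] [Module.Finite ℤ (Additive G)] (V : Subgroup G) (n : ℕ) [NeZero n] :
    (V.map (powMonoidHom n)).relIndex V =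
      n ^ finrank ℤ (Additive V) * Nat.card {x : G // x ∈ V ∧ x ^ n = 1} := by
  have := finite_additive_subgroup V
  have h := index_pw V n
  have h1 : (V.map (powMonoidHom n)).subgroupOf V = (powMonoidHom n : V →* V).range := by
    ext x
    rw [Subgroup.mem_subgroupOf, Subgroup.mem_map]
    constructor
    · rintro ⟨y, hy, hxy⟩
      exact ⟨⟨y, hy⟩, Subtype.ext hxy⟩
    · rintro ⟨y, hy⟩
      exact ⟨y, y.2, congrArg Subtype.val hy⟩
  rw [Subgroup.relIndex, h1, h]
  congr 1
  refine Nat.card_congr ⟨fun x => ⟨x.1.1, x.1.2, congrArg Subtype.val x.2⟩,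
    fun x => ⟨⟨x.1, x.2.1⟩, Subtype.ext x.2.2⟩, fun x => rfl, fun x => rfl⟩

end Pool.Agent.Helper832_EG
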