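import Pool.Agent.Helper832_EG.PD9
import Pool.Agent.W569.UF.Disc

/-!
# Units of the base field are `p`-th powers modulo the ramified prime
-/

set_option linter.style.haveILetI false
set_option linter.unusedSectionVars false
set_option linter.unusedVariables false

open NumberField Ideal Module
open scoped Pointwise nonZeroDivisors

namespace Pool.Agent.Helper832_EG

section
variable {K L : Type} [Field K] [NumberField K] [Field L] [NumberField L] [Algebra K L] [IsGalois K L]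
  {p : ℕ} [hp : Fact p.Prime]

lemma iter_cong {P : Ideal (𝓞 L)} {σ : Gal(L/K)} (hσP : ∀ x : 𝓞 L, σ • x - x ∈ P) (n : ℕ) (x : 𝓞 L) :
    (σ ^ n) • x - x ∈ P := by
  induction n with
  | zero => simp
  | succ n ih =>
    rw [pow_succ', mul_smul]
    have h1 := hσP ((σ ^ n) • x)
    have h2 := P.add_mem h1 ih
    rwa [sub_add_sub_cancel] at h2

/-- A norm from a cyclic extension of degree `p` is a `p`-th power modulo a prime not above `p`
whose inertia group is everything. -/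
theorem norm_pow {P : Ideal (𝓞 L)} (hP : P.IsMaximal) (hpP : (p : 𝓞 L) ∉ P) {σ : Gal(L/K)}
    (hcard : Nat.card Gal(L/K) = p) (hσ : ∀ g : Gal(L/K), g ∈ Subgroup.zpowers σ)
    (hσP : ∀ x : 𝓞 L, σ • x - x ∈ P) (y : (𝓞 L)ˣ) (v : (𝓞 K)ˣ)
    (hy : nU p σ y = Units.map (algebraMap (𝓞 K) (𝓞 L) : 𝓞 K →* 𝓞 L) v) :
    ∃ z : 𝓞 K, algebraMap (𝓞 K) (𝓞 L) ((v : 𝓞 K) - z ^ p) ∈ P := by
  classical
  haveI : IsGaloisGroup Gal(L/K) (𝓞 K) (𝓞 L) := isGalGrp
  haveI : Algebra.IsIntegral (𝓞 K) (𝓞 L) := Algebra.IsIntegral.tower_top (R := ℤ)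
  have hord : orderOf σ = p := by rw [orderOf_eq_card_of_forall_mem_zpowers hσ, hcard]
  -- the trace
  set s : 𝓞 L := ∑ i ∈ Finset.range p, (σ ^ i) • (y : 𝓞 L) with hs
  have hsσ : σ • s = s := by
    rw [hs, Finset.smul_sum]
    have h1 : ∀ i, σ • ((σ ^ i) • (y : 𝓞 L)) = (σ ^ (i + 1)) • (y : 𝓞 L) := by
      intro i; rw [smul_smul, ← pow_succ']
    simp only [h1]
    rw [← add_right_cancel_iff (a := (σ ^ 0) • (y : 𝓞 L)), ← Finset.sum_range_succ' (fun i => (σ ^ i) • (y : 𝓞 L)),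
      Finset.sum_range_succ]
    congr 1
    rw [← hord, pow_orderOf_eq_one, pow_zero]
  have hsinv : ∀ g : Gal(L/K), g • s = s := by
    intro g
    obtain ⟨n, rfl⟩ := Subgroup.mem_zpowers_iff.1 (hσ g)
    have h4 : σ ∈ MulAction.stabilizer Gal(L/K) s := hsσ
    exact Subgroup.zpow_mem _ h4 n
  obtain ⟨t, ht⟩ := Algebra.IsInvariant.isInvariant (A := 𝓞 K) (G := Gal(L/K)) s hsinv
  have hsy : s - (p : 𝓞 L) * (y : 𝓞 L) ∈ P := by
    have h1 : s - (p : 𝓞 L) * (y : 𝓞 L) = ∑ i ∈ Finset.range p, ((σ ^ i) • (y : 𝓞 L) - (y : 𝓞 L)) := by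
      rw [Finset.sum_sub_distrib, ← hs]; simp
    rw [h1]
    exact P.sum_mem fun i _ => iter_cong hσP i _
  -- an inverse of `p`
  haveI hPu : (P.under (𝓞 K)).IsMaximal := Ideal.IsMaximal.under (𝓞 K) P
  obtain ⟨a, b, hb, hab⟩ := hPu.exists_inv (x := (p : 𝓞 K)) (by
    rw [Ideal.mem_comap, map_natCast]; exact hpP)
  refine ⟨a * t, ?_⟩
  -- `a t` is congruent to `y`
  have hz : algebraMap (𝓞 K) (𝓞 L) (a * t) - (y : 𝓞 L) ∈ P := by
    have hb' : algebraMap (𝓞 K) (𝓞 L) b ∈ P := hb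
    have h1 : algebraMap (𝓞 K) (𝓞 L) (a * t) - (y : 𝓞 L) =
        algebraMap (𝓞 K) (𝓞 L) a * (s - (p : 𝓞 L) * (y : 𝓞 L)) - algebraMap (𝓞 K) (𝓞 L) b * (y : 𝓞 L) := by
      have h2 : algebraMap (𝓞 K) (𝓞 L) a * (p : 𝓞 L) + algebraMap (𝓞 K) (𝓞 L) b = 1 := by
        rw [← map_one (algebraMap (𝓞 K) (𝓞 L)), ← hab, map_add, map_mul, map_natCast]
      rw [map_mul, ht]
      linear_combination (y : 𝓞 L) * h2
    rw [h1]
    exact P.sub_mem (P.mul_mem_left _ hsy) (P.mul_mem_right _ hb')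
  -- the norm is congruent to `y ^ p`
  have hv : algebraMap (𝓞 K) (𝓞 L) (v : 𝓞 K) = ∏ i ∈ Finset.range p, (σ ^ i) • (y : 𝓞 L) := by
    have h1 := congrArg (fun z : (𝓞 L)ˣ => (z : 𝓞 L)) hy
    have h2 : ((nU p σ y : (𝓞 L)ˣ) : 𝓞 L) = ∏ i ∈ Finset.range p, (σ ^ i) • (y : 𝓞 L) := by
      show ((∏ i ∈ Finset.range p, (sU σ)^[i] y : (𝓞 L)ˣ) : 𝓞 L) = _
      rw [Units.coe_prod]
      exact Finset.prod_congr rfl fun i _ => sU_iter σ i y
    rw [← h2]
    exact h1.symm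
  rw [← Ideal.Quotient.eq_zero_iff_mem, map_sub, map_pow, map_sub, map_pow, hv, map_prod]
  have h3 : ∀ i ∈ Finset.range p, Ideal.Quotient.mk P ((σ ^ i) • (y : 𝓞 L)) = Ideal.Quotient.mk P (y : 𝓞 L) :=
    fun i _ => Ideal.Quotient.eq.2 (iter_cong hσP i _)
  rw [Finset.prod_congr rfl h3, Finset.prod_const, Finset.card_range, Ideal.Quotient.eq.2 hz, sub_self]

end

section
open Pool.Agent.W569.UF.Disc
variable {F Ω : Type} [Field F] [NumberField F] [Field Ω] [Algebra F Ω] [IsGalois F Ω]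

/-- Elements of inertia groups of finite Galois extensions lift to inertia elements. -/
theorem lift_inertia (M : IntermediateField F Ω) [NumberField M] [IsGalois F M]
    (P : Ideal (𝓞 M)) (hP : P.IsMaximal) (Q : Ideal (𝓞 Ω)) (hQm : Q.IsMaximal) (hQP : Q.LiesOver P)
    (γ : M ≃ₐ[F] M) (hγ : γ ∈ P.inertia (M ≃ₐ[F] M)) :
    ∃ τ : Gal(Ω/F), (∀ x : 𝓞 Ω, τ • x - x ∈ Q) ∧ AlgEquiv.restrictNormalHom M τ = γ := by
  classical
  have hclosed : IsClosed (M.fixingSubgroup : Set Gal(Ω/F)) :=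
    InfiniteGalois.fixingSubgroup_isClosed M
  have hcomm : SMulCommClass M.fixingSubgroup (𝓞 M) (𝓞 Ω) := smulComm M
  have hinv : Algebra.IsInvariant (𝓞 M) (𝓞 Ω) M.fixingSubgroup := isInv M
  have hcpt : CompactSpace M.fixingSubgroup := isCompact_iff_compactSpace.1 hclosed.isCompact
  let _ : TopologicalSpace (𝓞 Ω) := ⊥
  have : DiscreteTopology (𝓞 Ω) := ⟨rfl⟩
  have hcont : ContinuousSMul Gal(Ω/F) (𝓞 Ω) := by
    rw [continuousSMul_iff_stabilizer_isOpen]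
    intro x
    have h1 := stabilizer_isOpen_of_isIntegral (K := F) (x : Ω)
    convert h1 using 2
    ext g
    rw [MulAction.mem_stabilizer_iff, MulAction.mem_stabilizer_iff]
    constructor
    · intro h
      exact congrArg (fun z : 𝓞 Ω => (z : Ω)) h
    · intro h
      exact RingOfIntegers.ext h
  have hcontU : ContinuousSMul M.fixingSubgroup (𝓞 Ω) := inferInstance
  obtain ⟨g0, hg0⟩ := AlgEquiv.restrictNormalHom_surjective (F := F) (K₁ := M) Ω γ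
  have hres : ∀ a : 𝓞 M, g0 • (algebraMap (𝓞 M) (𝓞 Ω) a) =
      algebraMap (𝓞 M) (𝓞 Ω) (γ • a) := by
    intro a
    apply RingOfIntegers.ext
    rw [coe_smul]
    have := AlgEquiv.restrictNormal_commutes g0 M (a : M)
    rw [← hg0]
    exact this.symm
  have hres' : ∀ a : 𝓞 M, g0⁻¹ • (algebraMap (𝓞 M) (𝓞 Ω) a) =
      algebraMap (𝓞 M) (𝓞 Ω) (γ⁻¹ • a) := by
    intro a
    rw [inv_smul_eq_iff, hres, smul_inv_smul]
  have hmemP : ∀ a : 𝓞 M, algebraMap (𝓞 M) (𝓞 Ω) a ∈ Q ↔ a ∈ P := by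
    intro a
    rw [hQP.over]
    rfl
  have hQ' : (g0 • Q).IsPrime := inferInstance
  have hunder : (g0 • Q).under (𝓞 M) = Q.under (𝓞 M) := by
    ext a
    rw [Ideal.under_def, Ideal.mem_comap, Ideal.under_def, Ideal.mem_comap,
      Ideal.mem_pointwise_smul_iff_inv_smul_mem, hres', hmemP, hmemP]
    have h1 : γ⁻¹ • a - a ∈ P := (inv_mem hγ) a
    constructor
    · intro h2
      have := P.sub_mem h2 h1
      rwa [sub_sub_cancel] at this
    · intro h2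
      have := P.add_mem h1 h2
      rwa [sub_add_cancel] at this
  obtain ⟨h, hh⟩ := Algebra.IsInvariant.exists_smul_of_under_eq_of_profinite
    (A := 𝓞 M) (G := M.fixingSubgroup) (g0 • Q) Q hunder
  set g1 : Gal(Ω/F) := h.1 * g0 with hg1
  have hg1Q : g1 • Q = Q := by
    rw [hg1, mul_smul]
    exact hh.symm
  have hres1 : ∀ a : 𝓞 M, g1 • (algebraMap (𝓞 M) (𝓞 Ω) a) =
      algebraMap (𝓞 M) (𝓞 Ω) (γ • a) := by
    intro a
    rw [hg1, mul_smul, hres]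
    exact smul_algebraMap h (γ • a)
  have hmap : Q = Q.map (MulSemiringAction.toRingEquiv Gal(Ω/F) (𝓞 Ω) g1 : 𝓞 Ω →+* 𝓞 Ω) := by
    conv_lhs => rw [← hg1Q]
    rw [Ideal.pointwise_smul_def]
    rfl
  let σ : (𝓞 Ω ⧸ Q) ≃ₐ[𝓞 M ⧸ P] (𝓞 Ω ⧸ Q) :=
    AlgEquiv.ofRingEquiv (f := Ideal.quotientEquiv Q Q
      (MulSemiringAction.toRingEquiv Gal(Ω/F) (𝓞 Ω) g1) hmap) (by
      intro a
      obtain ⟨a, rfl⟩ := Ideal.Quotient.mk_surjective a
      show Ideal.Quotient.mk Q (g1 • algebraMap (𝓞 M) (𝓞 Ω) a) =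
        Ideal.Quotient.mk Q (algebraMap (𝓞 M) (𝓞 Ω) a)
      rw [Ideal.Quotient.mk_eq_mk_iff_sub_mem, hres1, ← map_sub, hmemP]
      exact hγ a)
  obtain ⟨k, hk⟩ := Ideal.Quotient.stabilizerHom_surjective_of_profinite
    (G := M.fixingSubgroup) P Q σ
  have hk' : ∀ x : 𝓞 Ω, g1 • x - k.1.1 • x ∈ Q := by
    intro x
    have h1 := DFunLike.congr_fun hk (Ideal.Quotient.mk Q x)
    rw [Ideal.Quotient.stabilizerHom_apply] at h1
    rw [← Ideal.Quotient.mk_eq_mk_iff_sub_mem]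
    exact h1.symm
  have hk1 : AlgEquiv.restrictNormalHom M k.1.1 = 1 := by
    rw [← MonoidHom.mem_ker, M.restrictNormalHom_ker]
    exact k.1.2
  have hh1 : AlgEquiv.restrictNormalHom M h.1 = 1 := by
    rw [← MonoidHom.mem_ker, M.restrictNormalHom_ker]
    exact h.2
  obtain ⟨k1, hkU, hkQ, hk'⟩ : ∃ k1 : Gal(Ω/F), AlgEquiv.restrictNormalHom M k1 = 1 ∧ k1 • Q = Q ∧
      ∀ x : 𝓞 Ω, g1 • x - k1 • x ∈ Q := ⟨k.1.1, hk1, k.2, hk'⟩
  refine ⟨k1⁻¹ * g1, fun x => ?_, ?_⟩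
  · have h1 := hk' x
    rw [← hkQ, Ideal.mem_pointwise_smul_iff_inv_smul_mem, smul_sub, inv_smul_smul,
      ← mul_smul] at h1
    exact h1
  · rw [hg1, map_mul, map_inv, map_mul, hkU, hh1, hg0, inv_one, one_mul, one_mul]

end

end Pool.Agent.Helper832_EG
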