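import Pool.Agent.Helper832_EG.PD10
import Pool.Agent.Helper832_EG.Fld2

/-!
# Cyclic extensions of degree `p` from characters
-/

set_option linter.style.haveILetI false
set_option linter.unusedSectionVars false
set_option linter.unusedVariables false

open NumberField Ideal Module IntermediateField Pool.Agent.W569.FM
open scoped Pointwise nonZeroDivisors

namespace Pool.Agent.Helper832_EG

section
variable {k : Type} [Field k] [NumberField k] {p : ℕ} [hp : Fact p.Prime]

/-- The inertia group of the extension and the ramification index. -/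
lemma card_inertia {F L : Type} [Field F] [NumberField F] [Field L] [NumberField L] [Algebra F L] [IsGalois F L]
    {P : Ideal (𝓞 L)} (hP : P.IsMaximal) : Nat.card (P.inertia Gal(L/F)) = P.ramificationIdx (𝓞 F) := by
  have hG1 : IsGaloisGroup Gal(L/F) (𝓞 F) (𝓞 L) := isGalGrp
  have hP0 : P ≠ ⊥ := Ideal.IsMaximal.ne_bot_of_isIntegral_int P
  rw [Ideal.card_inertia_eq_ramificationIdxIn (P.under (𝓞 F)),
    Ideal.ramificationIdxIn_eq_ramificationIdx (P.under (𝓞 F)) P Gal(L/F)]

/-- The cyclic extension of degree `p` of a finite extension `D` attached to a character. -/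
theorem exists_ext (D : IntermediateField k (AlgebraicClosure k)) [FiniteDimensional k D] [NumberField D]
    {χ : GF k → ZMod p} (hχ : IsCh D.fixingSubgroup χ) {g0 : GF k} (hg0 : g0 ∈ D.fixingSubgroup) (hne : χ g0 ≠ 0) :
    ∃ (M : IntermediateField D (AlgebraicClosure k)) (_ : NumberField M) (_ : IsGalois D M),
      Nat.card Gal(M/D) = p ∧ (∃ σ : Gal(M/D), ∀ g : Gal(M/D), g ∈ Subgroup.zpowers σ) ∧
      (∀ x : AlgebraicClosure k, x ∈ M ↔ ∀ g ∈ D.fixingSubgroup, χ g = 0 → g x = x) ∧
      ∀ Q : Ideal (OO k), Q.IsMaximal →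
        ((∀ τ ∈ inertia Q, τ ∈ D.fixingSubgroup → χ τ = 0) → (Q.under (𝓞 M)).ramificationIdx (𝓞 D) = 1) ∧
        ((∃ τ ∈ inertia Q, τ ∈ D.fixingSubgroup ∧ χ τ ≠ 0) → (Q.under (𝓞 M)).ramificationIdx (𝓞 D) = p ∧
          ∀ (γ : Gal(M/D)) (x : 𝓞 M), γ • x - x ∈ Q.under (𝓞 M)) := by
  classical
  set G := D.fixingSubgroup with hG
  set e : D.fixingSubgroup ≃* Gal(AlgebraicClosure k/D) := IntermediateField.fixingSubgroupEquiv D with he
  have heval : ∀ (τ : Gal(AlgebraicClosure k/D)) (x : AlgebraicClosure k), ((e.symm τ : D.fixingSubgroup) : GF k) x = τ x :=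
    fun τ x => rfl
  have heval' : ∀ (τ : D.fixingSubgroup) (x : AlgebraicClosure k), (e τ) x = (τ : GF k) x := fun τ x => rfl
  let f : D.fixingSubgroup →* Multiplicative (ZMod p) :=
    { toFun := fun g => Multiplicative.ofAdd (χ g)
      map_one' := by rw [Subgroup.coe_one, hχ.one]; rfl
      map_mul' := fun x y => by rw [Subgroup.coe_mul, hχ.mul x.2 y.2]; rfl }
  have hfval : ∀ g : D.fixingSubgroup, f g = 1 ↔ χ g = 0 := by
    intro g
    constructor
    · intro h; exact Multiplicative.ofAdd.injective h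
    · intro h; show Multiplicative.ofAdd (χ g) = 1; rw [h]; rfl
  have hf : IsOpen (f.ker : Set D.fixingSubgroup) := by
    obtain ⟨U, hU, hU'⟩ := hχ.2
    refine Subgroup.isOpen_mono (H₁ := U.subgroupOf D.fixingSubgroup) (fun x hx => ?_) (hU.preimage continuous_subtype_val)
    exact (MonoidHom.mem_ker).2 ((hfval x).2 (hU' x x.2 (Subgroup.mem_subgroupOf.1 hx)))
  set f' : Gal(AlgebraicClosure k/D) →* Multiplicative (ZMod p) := f.comp e.symm.toMonoidHom with hf'
  set N : Subgroup (GF k) := f.ker.map (D.fixingSubgroup).subtype with hN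
  have hHopen : IsOpen (D.fixingSubgroup : Set (GF k)) := IntermediateField.fixingSubgroup_isOpen D
  have hNopen : IsOpen (N : Set (GF k)) := by
    rw [hN, Subgroup.coe_map]
    exact hHopen.isOpenMap_subtype_val _ hf
  have hNclosed : IsClosed (N : Set (GF k)) := Subgroup.isClosed_of_isOpen _ hNopen
  set L : IntermediateField k (AlgebraicClosure k) := IntermediateField.fixedField N with hL
  have hfixL : L.fixingSubgroup = N := InfiniteGalois.fixingSubgroup_fixedField ⟨N, hNclosed⟩
  haveI hLfin : FiniteDimensional k L :=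
    (InfiniteGalois.isOpen_iff_finite L).1 (by rw [hfixL]; exact hNopen)
  haveI hLnf : NumberField L := NumberField.of_module_finite k L
  have hKL : D ≤ L := by
    rw [hL, IntermediateField.le_iff_le, hN]
    intro x hx
    obtain ⟨y, _, rfl⟩ := Subgroup.mem_map.1 hx
    exact y.2
  set M : IntermediateField D (AlgebraicClosure k) := IntermediateField.extendScalars hKL with hM
  have hMmem : ∀ x, x ∈ M ↔ x ∈ L := fun x => IntermediateField.mem_extendScalars hKL
  have hfixM : M.fixingSubgroup = f'.ker := by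
    ext σ
    have e1 : σ ∈ M.fixingSubgroup ↔ ((e.symm σ : D.fixingSubgroup) : GF k) ∈ L.fixingSubgroup := by
      rw [IntermediateField.mem_fixingSubgroup_iff, IntermediateField.mem_fixingSubgroup_iff]
      constructor
      · intro h x hx
        exact h x ((hMmem x).2 hx)
      · intro h x hx
        exact h x ((hMmem x).1 hx)
    rw [e1, hfixL, hN, Subgroup.mem_map]
    constructor
    · rintro ⟨y, hy, hyσ⟩
      have : y = e.symm σ := Subtype.ext hyσ
      rw [this] at hy
      exact hy
    · intro h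
      exact ⟨e.symm σ, h, rfl⟩
  haveI hMfin : NumberField M := by
    let eLM : L ≃+* M :=
      { toFun := fun x => ⟨x.1, (hMmem _).2 x.2⟩
        invFun := fun x => ⟨x.1, (hMmem _).1 x.2⟩
        left_inv := fun x => rfl
        right_inv := fun x => rfl
        map_mul' := fun x y => rfl
        map_add' := fun x y => rfl }
    have hMfinQ : FiniteDimensional ℚ M := by
      let el : L ≃ₐ[ℚ] M := AlgEquiv.ofRingEquiv (f := eLM) (fun r => by simp)
      exact el.toLinearEquiv.finiteDimensional
    exact ⟨⟩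
  haveI hGalD : IsGalois D (AlgebraicClosure k) := inferInstance
  have hMgal : IsGalois D M := by
    apply (InfiniteGalois.normal_iff_isGalois M).1
    rw [hfixM]
    infer_instance
  have hsurj : Function.Surjective f' := by
    have h1 : f'.range = ⊤ := by
      have hcard : Nat.card (Multiplicative (ZMod p)) = p := by simp
      have : Fact (Nat.card (Multiplicative (ZMod p))).Prime := ⟨by rw [hcard]; exact hp.out⟩
      rcases Subgroup.eq_bot_or_eq_top_of_prime_card f'.range with h | h
      · exfalso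
        apply hne
        have h2 : f' (e ⟨g0, hg0⟩) ∈ f'.range := ⟨_, rfl⟩
        rw [h, Subgroup.mem_bot] at h2
        have h3 : f' (e ⟨g0, hg0⟩) = f ⟨g0, hg0⟩ := by
          rw [hf']; simp
        rw [h3, hfval] at h2
        exact h2
      · exact h
    exact MonoidHom.range_eq_top.1 h1
  have hcard : Nat.card Gal(M/D) = p := by
    have e1 : Gal(M/D) ≃* Multiplicative (ZMod p) := by
      have a1 : Gal(AlgebraicClosure k/D) ⧸ M.fixingSubgroup ≃* Gal(M/D) :=
        (QuotientGroup.quotientMulEquivOfEq M.restrictNormalHom_ker.symm).trans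
          (QuotientGroup.quotientKerEquivOfSurjective _
            (AlgEquiv.restrictNormalHom_surjective (AlgebraicClosure k)))
      have a2 : Gal(AlgebraicClosure k/D) ⧸ M.fixingSubgroup ≃* Multiplicative (ZMod p) :=
        (QuotientGroup.quotientMulEquivOfEq hfixM).trans
          (QuotientGroup.quotientKerEquivOfSurjective f' hsurj)
      exact a1.symm.trans a2
    rw [Nat.card_congr e1.toEquiv]
    simp
  haveI hfact : Fact (Nat.card Gal(M/D)).Prime := ⟨by rw [hcard]; exact hp.out⟩
  haveI hcyc : IsCyclic Gal(M/D) := isCyclic_of_prime_card hcard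
  refine ⟨M, hMfin, hMgal, hcard, IsCyclic.exists_generator, fun x => ?_, fun Q hQ => ?_⟩
  · rw [hMmem, hL, IntermediateField.mem_fixedField_iff]
    constructor
    · intro h g hg hg0
      exact h g ⟨⟨g, hg⟩, (MonoidHom.mem_ker).2 ((hfval _).2 hg0), rfl⟩
    · rintro h _ ⟨y, hy, rfl⟩
      exact h y y.2 ((hfval y).1 ((MonoidHom.mem_ker).1 hy))
  · haveI hQm := hQ
    haveI : Algebra.IsIntegral (𝓞 M) (𝓞 (AlgebraicClosure k)) := Algebra.IsIntegral.tower_top (R := ℤ)
    have hPm : (Q.under (𝓞 M)).IsMaximal := Ideal.IsMaximal.under (𝓞 M) Q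
    have hover : Q.LiesOver (Q.under (𝓞 M)) := ⟨rfl⟩
    rw [← card_inertia (F := D) hPm]
    refine ⟨fun h => ?_, ?_⟩
    · have hbot : (Q.under (𝓞 M)).inertia Gal(M/D) = ⊥ := by
        rw [eq_bot_iff]
        intro γ hγ
        rw [Subgroup.mem_bot]
        obtain ⟨τ, hτ, hτγ⟩ := lift_inertia M (Q.under (𝓞 M)) hPm Q hQm hover γ hγ
        have h1 : χ ((e.symm τ : D.fixingSubgroup) : GF k) = 0 := h _ (fun x => hτ x) (e.symm τ).2
        have h2 : τ ∈ M.fixingSubgroup := by
          rw [hfixM]
          exact (MonoidHom.mem_ker).2 ((hfval _).2 h1)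
        rw [← M.restrictNormalHom_ker, MonoidHom.mem_ker] at h2
        rw [← hτγ, h2]
      rw [hbot]; simp
    · rintro ⟨τ, hτ, hτD, hτχ⟩
      set γ : Gal(M/D) := AlgEquiv.restrictNormalHom M (e ⟨τ, hτD⟩) with hγ
      have hγI : γ ∈ (Q.under (𝓞 M)).inertia Gal(M/D) := by
        intro x
        show algebraMap (𝓞 M) (𝓞 (AlgebraicClosure k)) (γ • x - x) ∈ Q
        rw [map_sub]
        have h1 : algebraMap (𝓞 M) (𝓞 (AlgebraicClosure k)) (γ • x) = τ • algebraMap (𝓞 M) (𝓞 (AlgebraicClosure k)) x := by
          apply RingOfIntegers.ext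
          exact AlgEquiv.restrictNormal_commutes (e ⟨τ, hτD⟩) M (x : M)
        rw [h1]
        exact hτ _
      have hγ1 : γ ≠ 1 := by
        intro h
        have h2 : e ⟨τ, hτD⟩ ∈ M.fixingSubgroup := by
          rw [← M.restrictNormalHom_ker, MonoidHom.mem_ker]; exact h
        rw [hfixM] at h2
        have h3 := (MonoidHom.mem_ker).1 h2
        have h4 : f' (e ⟨τ, hτD⟩) = f ⟨τ, hτD⟩ := by rw [hf']; simp
        rw [h4, hfval] at h3
        exact hτχ h3
      have htop : (Q.under (𝓞 M)).inertia Gal(M/D) = ⊤ := by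
        rcases Subgroup.eq_bot_or_eq_top_of_prime_card ((Q.under (𝓞 M)).inertia Gal(M/D)) with h | h
        · exfalso
          rw [h, Subgroup.mem_bot] at hγI
          exact hγ1 hγI
        · exact h
      refine ⟨by rw [htop, Subgroup.card_top, hcard], fun γ' x => ?_⟩
      have h5 : γ' ∈ (Q.under (𝓞 M)).inertia Gal(M/D) := by rw [htop]; trivial
      exact h5 x

end

end Pool.Agent.Helper832_EG
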