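import Pool.Agent.Helper832_EG.PD11

/-!
# Class numbers of the finite layers
-/

set_option linter.style.haveILetI false
set_option linter.unusedSectionVars false
set_option linter.unusedVariables false

open NumberField Ideal Module IntermediateField Pool.Agent.W569.FM Pool.Agent.W571.FM Pool.Agent.R417.FK
open scoped Pointwise nonZeroDivisors

namespace Pool.Agent.Helper832_EG

lemma classNumber_congr {K L : Type} [Field K] [NumberField K] [Field L] [NumberField L] (e : K ≃+* L) :
    classNumber K = classNumber L := by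
  rw [classNumber, classNumber]
  exact Fintype.card_congr (ClassGroup.mulEquiv (RingOfIntegers.mapRingEquiv e)).toEquiv

section
variable {k : Type} [Field k] [NumberField k] {p : ℕ} [hp : Fact p.Prime]

/-- Ramification at one prime. -/
lemma oneRam_of {D : IntermediateField k (AlgebraicClosure k)} [FiniteDimensional k D] [NumberField D]
    {M : IntermediateField D (AlgebraicClosure k)} [NumberField M] {χ : GF k → ZMod p}
    (hM : ∀ Q : Ideal (OO k), Q.IsMaximal →
        ((∀ τ ∈ inertia Q, τ ∈ D.fixingSubgroup → χ τ = 0) → (Q.under (𝓞 M)).ramificationIdx (𝓞 D) = 1) ∧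
        ((∃ τ ∈ inertia Q, τ ∈ D.fixingSubgroup ∧ χ τ ≠ 0) → (Q.under (𝓞 M)).ramificationIdx (𝓞 D) = p ∧
          ∀ (γ : Gal(M/D)) (x : 𝓞 M), γ • x - x ∈ Q.under (𝓞 M)))
    {Q0 : Ideal (OO k)} (hQ0 : Q0.IsMaximal) (h0 : ∃ τ ∈ inertia Q0, τ ∈ D.fixingSubgroup ∧ χ τ ≠ 0)
    (hQ : ∀ Q : Ideal (OO k), Q.IsMaximal → (∃ τ ∈ inertia Q, τ ∈ D.fixingSubgroup ∧ χ τ ≠ 0) →
      Q.under (𝓞 M) = Q0.under (𝓞 M)) : OneRam D M p (Q0.under (𝓞 M)) := by
  haveI : Algebra.IsIntegral (𝓞 M) (𝓞 (AlgebraicClosure k)) := Algebra.IsIntegral.tower_top (R := ℤ)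
  refine ⟨Ideal.IsMaximal.under (𝓞 M) Q0, ((hM Q0 hQ0).2 h0).1, fun P hP hne => ?_⟩
  obtain ⟨Q, hQm, hQP⟩ := Ideal.exists_maximal_ideal_liesOver_of_isIntegral (S := 𝓞 (AlgebraicClosure k)) P
  have hover : P = Q.under (𝓞 M) := hQP.over
  rw [hover]
  refine (hM Q hQm).1 fun τ hτ hτD => ?_
  by_contra hcon
  exact hne (hover.trans (hQ Q hQm ⟨τ, hτ, hτD, hcon⟩))

/-- No unramified extensions if the class number is prime to `p`. -/
theorem noUr_of_class [IsTotallyComplex k] (hcl : ¬ p ∣ classNumber k) : NoUr k p := by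
  intro f hf hI
  by_contra hcon
  push Not at hcon
  obtain ⟨g0, hg0⟩ := hcon
  let χ : GF k → ZMod p := fun g => Multiplicative.toAdd (f g)
  have hχ1 : ∀ g, χ g = 0 ↔ f g = 1 := by
    intro g
    constructor
    · intro h; exact Multiplicative.toAdd.injective h
    · intro h; show Multiplicative.toAdd (f g) = 0; rw [h]; rfl
  let D : IntermediateField k (AlgebraicClosure k) := ⊥
  haveI : FiniteDimensional k D := inferInstanceAs (FiniteDimensional k (⊥ : IntermediateField k (AlgebraicClosure k)))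
  haveI : NumberField D := NumberField.of_module_finite k D
  have hDfix : D.fixingSubgroup = ⊤ := IntermediateField.fixingSubgroup_bot
  have hχ : IsCh D.fixingSubgroup χ := by
    refine ⟨fun x _ y _ => ?_, f.ker, hf, fun x _ hx => (hχ1 x).2 ((MonoidHom.mem_ker).1 hx)⟩
    show Multiplicative.toAdd (f (x * y)) = _
    rw [map_mul]; rfl
  obtain ⟨M, hMn, hMg, hcard, ⟨σ, hσ⟩, hMx, hMr⟩ := exists_ext D hχ (g0 := g0) (by rw [hDfix]; trivial)
    (fun h => hg0 ((hχ1 _).1 h))
  let e : D ≃+* k := (IntermediateField.botEquiv k (AlgebraicClosure k)).toRingEquiv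
  have hclD : ¬ p ∣ classNumber D := by rw [classNumber_congr e]; exact hcl
  letI : Algebra k D := inferInstance
  haveI : IsTotallyComplex D := isTotallyComplex_of_algebra k D
  refine no_unramified (K := D) (L := M) hcard hclD (fun P hP => ?_)
  haveI : Algebra.IsIntegral (𝓞 M) (𝓞 (AlgebraicClosure k)) := Algebra.IsIntegral.tower_top (R := ℤ)
  obtain ⟨Q, hQm, hQP⟩ := Ideal.exists_maximal_ideal_liesOver_of_isIntegral (S := 𝓞 (AlgebraicClosure k)) P
  have hover : P = Q.under (𝓞 M) := hQP.over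
  rw [hover]
  exact (hMr Q hQm).1 fun τ hτ hτD => (hχ1 _).2 (hI Q hQm τ hτ)

variable {r : ℕ} {φ : GF k →* Multiplicative (Fin r → ℤ_[p])}

/-- Subgroups of index `p` in larger subgroups. -/
lemma exists_super {U : Subgroup (GF k)} (hU : IsOpen (U : Set (GF k))) (hφ : φ.ker ≤ U) (hs : Function.Surjective φ)
    (hne : U ≠ ⊤) : ∃ (U' : Subgroup (GF k)) (χ : GF k → ZMod p) (x : GF k), U ≤ U' ∧ IsCh U' χ ∧ x ∈ U' ∧ χ x ≠ 0 ∧
      ∀ g ∈ U', (χ g = 0 ↔ g ∈ U) := by
  classical
  have hcomm : ∀ g h : GF k, g * h * g⁻¹ * h⁻¹ ∈ U := by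
    intro g h
    apply hφ
    rw [MonoidHom.mem_ker, map_mul, map_mul, map_mul, map_inv, map_inv, mul_comm (φ g), mul_assoc,
      mul_assoc, ← mul_assoc (φ g), mul_inv_cancel, one_mul, mul_inv_cancel]
  haveI hn : U.Normal := by
    refine ⟨fun x hx g => ?_⟩
    have := U.mul_mem (hcomm g x) hx
    rwa [inv_mul_cancel_right] at this
  letI : CommGroup (GF k ⧸ U) :=
    { QuotientGroup.Quotient.group U with
      mul_comm := by
        intro a b
        induction a using QuotientGroup.induction_on with | _ x =>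
        induction b using QuotientGroup.induction_on with | _ y =>
        rw [← QuotientGroup.mk_mul, ← QuotientGroup.mk_mul, QuotientGroup.eq]
        have := hcomm y⁻¹ x⁻¹
        have h2 : (x * y)⁻¹ * (y * x) = y⁻¹ * x⁻¹ * y⁻¹⁻¹ * x⁻¹⁻¹ := by group
        rw [h2]; exact this }
  obtain ⟨g0, hg0⟩ : ∃ g0, g0 ∉ U := by
    by_contra h
    push Not at h
    exact hne ((Subgroup.eq_top_iff' U).2 h)
  haveI : Finite (GF k ⧸ U) := Subgroup.quotient_finite_of_isOpen _ hU
  haveI : U.FiniteIndex := Subgroup.finiteIndex_of_finite_quotient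
  -- some `p`-power of `g0` lies in `U`
  have hex : ∃ a : ℕ, g0 ^ (p ^ a) ∈ U := by
    set n := U.index with hn
    have hn0 : n ≠ 0 := Subgroup.FiniteIndex.index_ne_zero
    obtain ⟨a, u, hu, hnu⟩ := Nat.exists_eq_pow_mul_and_not_dvd hn0 p hp.out.ne_one
    have huu : IsUnit ((u : ℤ_[p])) := by
      rw [PadicInt.isUnit_iff, PadicInt.norm_natCast_eq_one_iff]
      exact (Nat.Prime.coprime_iff_not_dvd hp.out).2 hu
    obtain ⟨w, hw⟩ := huu.exists_right_inv
    obtain ⟨g', hg'⟩ := hs (Multiplicative.ofAdd (w • Multiplicative.toAdd (φ g0)))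
    have h2 : g' ^ n ∈ U := Subgroup.pow_index_mem _ _
    refine ⟨a, ?_⟩
    have h3 : (g0 ^ (p ^ a))⁻¹ * g' ^ n ∈ U := by
      apply hφ
      rw [MonoidHom.mem_ker, map_mul, map_inv, map_pow, map_pow, hg', inv_mul_eq_one]
      apply Multiplicative.toAdd.injective
      rw [toAdd_pow, toAdd_pow, toAdd_ofAdd, hnu]
      funext i
      simp only [Pi.smul_apply, nsmul_eq_mul, smul_eq_mul, Nat.cast_mul]
      rw [mul_assoc, ← mul_assoc (u : ℤ_[p]), hw, one_mul]
    have h4 := U.mul_mem h2 (U.inv_mem h3)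
    have h5 : g' ^ n * ((g0 ^ (p ^ a))⁻¹ * g' ^ n)⁻¹ = g0 ^ (p ^ a) := by group
    rwa [h5] at h4
  obtain ⟨a, ha, hmin⟩ : ∃ a : ℕ, g0 ^ (p ^ a) ∈ U ∧ ∀ b < a, g0 ^ (p ^ b) ∉ U :=
    ⟨Nat.find hex, Nat.find_spec hex, fun b hb => Nat.find_min hex hb⟩
  have ha0 : a ≠ 0 := by
    rintro rfl
    rw [pow_zero, pow_one] at ha
    exact hg0 ha
  obtain ⟨b, rfl⟩ := Nat.exists_eq_succ_of_ne_zero ha0
  set x : GF k := g0 ^ (p ^ b) with hx
  have hxU : x ∉ U := hmin b (Nat.lt_succ_self b)
  have hxp : x ^ p ∈ U := by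
    rw [hx, ← pow_mul, ← pow_succ]; exact ha
  set xb : GF k ⧸ U := QuotientGroup.mk x with hxb
  have hxb1 : xb ≠ 1 := fun h => hxU ((QuotientGroup.eq_one_iff x).1 h)
  have hxbp : xb ^ p = 1 := by
    rw [hxb, ← QuotientGroup.mk_pow]
    exact (QuotientGroup.eq_one_iff _).2 hxp
  set Y : Subgroup (GF k ⧸ U) := Subgroup.zpowers xb with hY
  have hYp : ∀ y ∈ Y, y ^ p = 1 := by
    intro y hy
    obtain ⟨n, rfl⟩ := Subgroup.mem_zpowers_iff.1 hy
    rw [← zpow_natCast, zpow_comm, zpow_natCast, hxbp, one_zpow]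
  obtain ⟨ψ, _, hψx⟩ := exists_char (p := p) (X := Additive Y) ⊥ (fun y => by
    rw [AddSubgroup.mem_bot]
    have : (Additive.toMul y) ^ p = 1 := Subtype.ext (hYp _ (Additive.toMul y).2)
    exact congrArg Additive.ofMul this) (x := Additive.ofMul ⟨xb, Subgroup.mem_zpowers xb⟩) (by
      rw [AddSubgroup.mem_bot]
      intro h
      exact hxb1 (congrArg (fun z : Additive Y => ((Additive.toMul z : Y) : GF k ⧸ U)) h))
  let U' : Subgroup (GF k) := Y.comap (QuotientGroup.mk' U)
  let χ : GF k → ZMod p := fun g => if h : (QuotientGroup.mk g : GF k ⧸ U) ∈ Y then ψ (Additive.ofMul ⟨_, h⟩) else 0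
  have hχval : ∀ g (h : (QuotientGroup.mk g : GF k ⧸ U) ∈ Y), χ g = ψ (Additive.ofMul ⟨_, h⟩) := fun g h => dif_pos h
  have hUU' : U ≤ U' := by
    intro g hg
    show (QuotientGroup.mk g : GF k ⧸ U) ∈ Y
    rw [(QuotientGroup.eq_one_iff g).2 hg]
    exact Y.one_mem
  have hχU : ∀ g ∈ U, χ g = 0 := by
    intro g hg
    have h1 : (QuotientGroup.mk g : GF k ⧸ U) = 1 := (QuotientGroup.eq_one_iff g).2 hg
    rw [hχval g (hUU' hg)]
    have h2 : (Additive.ofMul (⟨QuotientGroup.mk g, hUU' hg⟩ : Y)) = 0 :=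
      congrArg Additive.ofMul (Subtype.ext h1 : (⟨QuotientGroup.mk g, hUU' hg⟩ : Y) = 1)
    rw [h2, map_zero]
  refine ⟨U', χ, x, hUU', ⟨fun y hy z hz => ?_, U, hU, fun g _ hg => hχU g hg⟩, Subgroup.mem_zpowers xb, ?_, ?_⟩
  · rw [hχval y hy, hχval z hz, hχval _ (U'.mul_mem hy hz), ← map_add]; rfl
  · rw [hχval x (Subgroup.mem_zpowers xb)]; exact hψx
  · intro g hg
    refine ⟨fun h => ?_, hχU g⟩
    obtain ⟨n, hn⟩ := Subgroup.mem_zpowers_iff.1 hg
    rw [hχval g hg] at h
    have h1 : (Additive.ofMul (⟨QuotientGroup.mk g, hg⟩ : Y)) = n • Additive.ofMul (⟨xb, Subgroup.mem_zpowers xb⟩ : Y) := by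
      rw [← ofMul_zpow]
      exact congrArg Additive.ofMul (Subtype.ext hn.symm)
    rw [h1, map_zsmul, zsmul_eq_mul] at h
    have h2 := (mul_eq_zero.1 h).resolve_right hψx
    obtain ⟨m, rfl⟩ := (ZMod.intCast_zmod_eq_zero_iff_dvd _ p).1 h2
    rw [zpow_mul, zpow_natCast, hxbp, one_zpow] at hn
    exact (QuotientGroup.eq_one_iff g).1 hn.symm

/-- Elements of the inertia group fix the prime. -/
lemma inertia_mem {P : Ideal (OO k)} {τ : GF k} (hτ : τ ∈ inertia P) (x : OO k) : τ • x ∈ P ↔ x ∈ P := by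
  have h1 := hτ x
  constructor
  · intro h
    have := P.sub_mem h h1
    rwa [sub_sub_cancel] at this
  · intro h
    have := P.add_mem h1 h
    rwa [sub_add_cancel] at this

/-- Primes above `p` agree on all finite layers. -/
lemma under_eq_of_wild (h1 : OnePrime k p) (h : NoUr k p) (hφ : Continuous φ) (hs : Function.Surjective φ)
    {P Q : Ideal (OO k)} (hP : P.IsMaximal) (hQ : Q.IsMaximal) (hpP : (p : OO k) ∈ P) (hpQ : (p : OO k) ∈ Q)
    {x : OO k} (hx : ∀ g ∈ φ.ker, g • x = x) : x ∈ P ↔ x ∈ Q := by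
  have h2 : cm P = cm Q := h1 _ _ (cm_max hP).isPrime (cm_max hQ).isPrime (natCast_mem_cm.2 hpP) (natCast_mem_cm.2 hpQ)
  obtain ⟨g, hg⟩ := exists_smul P Q hP.isPrime hQ.isPrime h2
  obtain ⟨s, hs', hsg⟩ := phi_wild h1 h hφ hs (inertia P) ⟨P, hP, hpP, rfl⟩ (φ g)
  have h3 : g * s⁻¹ ∈ φ.ker := by rw [MonoidHom.mem_ker, map_mul, map_inv, hsg, mul_inv_cancel]
  have h4 : g⁻¹ • x = s⁻¹ • x := by
    have h5 := hx _ h3
    rw [mul_smul] at h5
    rw [inv_smul_eq_iff]; exact h5.symm
  rw [hg, h4, inertia_mem ((inertia P).inv_mem hs')]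

/-- The class numbers of the finite layers are prime to `p`. -/
theorem class_climb [IsTotallyComplex k] (h1 : OnePrime k p) (hcl : ¬ p ∣ classNumber k) (hφ : Continuous φ)
    (hs : Function.Surjective φ) (n : ℕ) : ∀ (D : IntermediateField k (AlgebraicClosure k)) [NumberField D],
    FiniteDimensional k D → φ.ker ≤ D.fixingSubgroup → D.fixingSubgroup.index ≤ n → ¬ p ∣ classNumber D := by
  classical
  have h := noUr_of_class hcl
  induction n with
  | zero =>
    intro D _ hD _ hn
    exfalso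
    haveI : Finite (GF k ⧸ D.fixingSubgroup) := Subgroup.quotient_finite_of_isOpen _ D.fixingSubgroup_isOpen
    haveI : D.fixingSubgroup.FiniteIndex := Subgroup.finiteIndex_of_finite_quotient
    have : D.fixingSubgroup.index ≠ 0 := Subgroup.FiniteIndex.index_ne_zero
    omega
  | succ n ih =>
    intro D hDn hD hker hn
    by_cases htop : D.fixingSubgroup = ⊤
    · have hDbot : D = ⊥ := by
        have h3 := InfiniteGalois.fixedField_fixingSubgroup D
        have h4 := InfiniteGalois.fixedField_fixingSubgroup (⊥ : IntermediateField k (AlgebraicClosure k))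
        rw [IntermediateField.fixingSubgroup_bot, ← htop] at h4
        rw [← h3, h4]
      subst hDbot
      let e : (⊥ : IntermediateField k (AlgebraicClosure k)) ≃+* k := (IntermediateField.botEquiv k (AlgebraicClosure k)).toRingEquiv
      rw [classNumber_congr e]; exact hcl
    · obtain ⟨U', χ, x, hUU', hχ, hxU', hχx, hχU⟩ := exists_super D.fixingSubgroup_isOpen hker hs htop
      have hU'o : IsOpen (U' : Set (GF k)) := Subgroup.isOpen_mono hUU' D.fixingSubgroup_isOpen
      have hU'c : IsClosed (U' : Set (GF k)) := Subgroup.isClosed_of_isOpen _ hU'o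
      set D' : IntermediateField k (AlgebraicClosure k) := IntermediateField.fixedField U' with hD'
      have hD'fix : D'.fixingSubgroup = U' := InfiniteGalois.fixingSubgroup_fixedField ⟨U', hU'c⟩
      haveI hD'fin : FiniteDimensional k D' :=
        (InfiniteGalois.isOpen_iff_finite D').1 (by rw [hD'fix]; exact hU'o)
      haveI : NumberField D' := NumberField.of_module_finite k D'
      haveI : Finite (GF k ⧸ D.fixingSubgroup) := Subgroup.quotient_finite_of_isOpen _ D.fixingSubgroup_isOpen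
      haveI : D.fixingSubgroup.FiniteIndex := Subgroup.finiteIndex_of_finite_quotient
      have hlt : D'.fixingSubgroup.index ≤ n := by
        have h3 : D.fixingSubgroup < U' := lt_of_le_of_ne hUU' (fun he => by
          apply hχx
          rw [hχU x hxU', he]; exact hxU')
        have h4 : U'.index < D.fixingSubgroup.index := Subgroup.index_strictAnti h3
        rw [hD'fix]; omega
      have hclD' : ¬ p ∣ classNumber D' := ih D' hD'fin (by rw [hD'fix]; exact hker.trans hUU') hlt
      rw [← hD'fix] at hχ hxU'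
      obtain ⟨M, hMn, hMg, hcard, ⟨σ, hσ⟩, hMx, hMr⟩ := exists_ext D' hχ hxU' hχx
      haveI : IsTotallyComplex D' := isTotallyComplex_of_algebra k D'
      have hMD : ∀ y : AlgebraicClosure k, y ∈ M ↔ y ∈ D := by
        intro y
        rw [hMx, ← InfiniteGalois.fixedField_fixingSubgroup D, IntermediateField.mem_fixedField_iff, hD'fix]
        constructor
        · intro h5 g hg
          exact h5 g (hUU' hg) ((hχU g (hUU' hg)).2 hg)
        · intro h5 g hg hg0
          exact h5 g ((hχU g hg).1 hg0)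
      have hker0 : ∀ g ∈ φ.ker, χ g = 0 := fun g hg => (hχU g (hUU' (hker hg))).2 (hker hg)
      obtain ⟨_, Q0, hQ0, hpQ0, rfl⟩ := exists_wild (E := k) (p := p)
      have hR : OneRam D' M p (Q0.under (𝓞 M)) := by
        refine oneRam_of hMr hQ0 ?_ ?_
        · obtain ⟨s, hs1, hs2⟩ := phi_wild h1 h hφ hs (inertia Q0) ⟨Q0, hQ0, hpQ0, rfl⟩ (φ x)
          have h5 : x * s⁻¹ ∈ φ.ker := by rw [MonoidHom.mem_ker, map_mul, map_inv, hs2, mul_inv_cancel]
          have h6 : x * s⁻¹ ∈ D'.fixingSubgroup := by rw [hD'fix]; exact hUU' (hker h5)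
          have h7 : s ∈ D'.fixingSubgroup := by
            have := D'.fixingSubgroup.mul_mem (D'.fixingSubgroup.inv_mem h6) hxU'
            rwa [mul_inv_rev, inv_inv, mul_assoc, inv_mul_cancel, mul_one] at this
          refine ⟨s, hs1, h7, fun h0 => hχx ?_⟩
          have h8 : χ x = χ (x * s⁻¹) + χ s := by
            rw [← hχ.mul h6 h7, inv_mul_cancel_right]
          rw [h8, hker0 _ h5, h0, add_zero]
        · rintro Q hQ ⟨τ, hτ, hτD, hτχ⟩
          have hpQ : (p : OO k) ∈ Q := by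
            by_contra hpQ
            exact hτχ (hker0 τ ((MonoidHom.mem_ker).2 (phi_tame hφ hQ hpQ hτ)))
          ext y
          refine under_eq_of_wild h1 h hφ hs hQ hQ0 hpQ hpQ0 (fun g hg => ?_)
          apply RingOfIntegers.ext
          exact (hMx _).1 (y : M).2 g (by rw [hD'fix]; exact hUU' (hker hg)) (hker0 g hg)
      have hres := class_step (K := D') (L := M) hcard hclD' hσ hR
      let e : M ≃+* D :=
        { toFun := fun x => ⟨x.1, (hMD _).1 x.2⟩
          invFun := fun x => ⟨x.1, (hMD _).2 x.2⟩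
          left_inv := fun x => rfl
          right_inv := fun x => rfl
          map_mul' := fun x y => rfl
          map_add' := fun x y => rfl }
      rw [← classNumber_congr e]; exact hres

end

end Pool.Agent.Helper832_EG
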