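import Pool.Agent.Helper832_EG.PD12

/-!
# Characters ramified at one tame prime and units
-/

set_option linter.style.haveILetI false
set_option linter.unusedSectionVars false
set_option linter.unusedVariables false

open NumberField Ideal Module IntermediateField Pool.Agent.W569.FM Pool.Agent.W571.FM Pool.Agent.R417.FK
open scoped Pointwise nonZeroDivisors

namespace Pool.Agent.Helper832_EG

section
variable {k : Type} [Field k] [NumberField k] {p : ℕ} [hp : Fact p.Prime]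
variable {r : ℕ} {φ : GF k →* Multiplicative (Fin r → ℤ_[p])}

/-- If some unit of the layer `D` is not a `p`-th power modulo the tame prime `P`, then no character
of `D` is ramified exactly at the prime below `P`. -/
theorem no_char [IsTotallyComplex k] (h1 : OnePrime k p) (hcl : ¬ p ∣ classNumber k) (hφ : Continuous φ)
    (hs : Function.Surjective φ) (D : IntermediateField k (AlgebraicClosure k)) [NumberField D]
    [hD : FiniteDimensional k D] (hker : φ.ker ≤ D.fixingSubgroup) {P : Ideal (OO k)} (hP : P.IsMaximal)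
    (hpP : (p : OO k) ∉ P) (u : (𝓞 D)ˣ)
    (hu : ∀ z : 𝓞 D, algebraMap (𝓞 D) (OO k) ((u : 𝓞 D) - z ^ p) ∉ P) {Ψ : GF k → ZMod p}
    (hΨ : IsCh D.fixingSubgroup Ψ)
    (hout : ∀ Q : Ideal (OO k), Q.IsMaximal → (∃ τ ∈ inertia Q, τ ∈ D.fixingSubgroup ∧ Ψ τ ≠ 0) →
      ∃ g ∈ D.fixingSubgroup, ∀ x : OO k, x ∈ Q ↔ g⁻¹ • x ∈ P) :
    ∀ τ ∈ inertia P, τ ∈ D.fixingSubgroup → Ψ τ = 0 := by
  intro τ0 hτ0 hτ0D
  by_contra hne
  obtain ⟨M, hMn, hMg, hcard, ⟨σ, hσ⟩, hMx, hMr⟩ := exists_ext D hΨ hτ0D hne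
  haveI : IsTotallyComplex D := isTotallyComplex_of_algebra k D
  have hclD : ¬ p ∣ classNumber D := class_climb h1 hcl hφ hs _ D hD hker le_rfl
  have h0 : ∃ τ ∈ inertia P, τ ∈ D.fixingSubgroup ∧ Ψ τ ≠ 0 := ⟨τ0, hτ0, hτ0D, hne⟩
  have hin := ((hMr P hP).2 h0).2
  have hR : OneRam D M p (P.under (𝓞 M)) := by
    refine oneRam_of hMr hP h0 fun Q hQ hQτ => ?_
    obtain ⟨g, hg, hgQ⟩ := hout Q hQ hQτ
    set e := IntermediateField.fixingSubgroupEquiv D with he
    ext x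
    show algebraMap (𝓞 M) (OO k) x ∈ Q ↔ algebraMap (𝓞 M) (OO k) x ∈ P
    rw [hgQ]
    set γ : Gal(M/D) := AlgEquiv.restrictNormalHom M (e ⟨g⁻¹, D.fixingSubgroup.inv_mem hg⟩) with hγ
    have h2 : algebraMap (𝓞 M) (OO k) (γ • x) = g⁻¹ • algebraMap (𝓞 M) (OO k) x := by
      apply RingOfIntegers.ext
      exact AlgEquiv.restrictNormal_commutes (e ⟨g⁻¹, D.fixingSubgroup.inv_mem hg⟩) M (x : M)
    have h3 : algebraMap (𝓞 M) (OO k) (γ • x) - algebraMap (𝓞 M) (OO k) x ∈ P := by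
      rw [← map_sub]; exact hin γ x
    rw [h2] at h3
    constructor
    · intro h
      have := P.sub_mem h h3
      rwa [sub_sub_cancel] at this
    · intro h
      have := P.add_mem h3 h
      rwa [sub_add_cancel] at this
  obtain ⟨y, hy⟩ := unit_norm hcard hclD hσ hR u
  haveI : Algebra.IsIntegral (𝓞 M) (𝓞 (AlgebraicClosure k)) := Algebra.IsIntegral.tower_top (R := ℤ)
  have hPm : (P.under (𝓞 M)).IsMaximal := Ideal.IsMaximal.under (𝓞 M) P
  obtain ⟨z, hz⟩ := norm_pow hPm (by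
    rw [Ideal.mem_comap, map_natCast]; exact hpP) hcard hσ (hin σ) y u hy
  apply hu z
  have h4 : algebraMap (𝓞 M) (OO k) (algebraMap (𝓞 D) (𝓞 M) ((u : 𝓞 D) - z ^ p)) ∈ P := hz
  exact h4

end

end Pool.Agent.Helper832_EG
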