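import Pool.Agent.Helper832_EG.PD1

set_option linter.style.haveILetI false
set_option linter.unusedSectionVars false
set_option linter.unusedVariables false

open Module Pool.Agent.TeamU

namespace Pool.Agent.Helper832_EG

/-- The index of the image of an endomorphism in terms of a stable subgroup of finite index which
meets the kernel trivially. -/
lemma index_range_eq {A : Type*} [CommGroup A] (f : A →* A) (B : Subgroup A) (hB : B.index ≠ 0)
    (hfB : B.map f ≤ B) (hk : B ⊓ f.ker = ⊥) :
    f.range.index = (B.map f).relIndex B * Nat.card f.ker := by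
  have i1 : (B.map f).relIndex f.range * f.range.index = (B.map f).index :=
    Subgroup.relIndex_mul_index (Subgroup.map_le_range f B)
  have i2 : (B.map f).relIndex B * B.index = (B.map f).index := Subgroup.relIndex_mul_index hfB
  have i3 : (B.map f).relIndex f.range = (B ⊔ f.ker).index := by
    rw [MonoidHom.range_eq_map, Subgroup.relIndex_map_map, top_sup_eq, Subgroup.relIndex_top_right]
  have i4 : B.relIndex (B ⊔ f.ker) * (B ⊔ f.ker).index = B.index := Subgroup.relIndex_mul_index le_sup_left
  have i5 : B.relIndex (B ⊔ f.ker) = Nat.card f.ker := by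
    rw [sup_comm, Subgroup.relIndex_sup_right, ← Subgroup.inf_relIndex_right, hk, Subgroup.relIndex_bot_left]
  have hne : (B ⊔ f.ker).index ≠ 0 := by
    intro h
    rw [h, mul_zero] at i4
    exact hB i4.symm
  apply Nat.eq_of_mul_eq_mul_left (Nat.pos_of_ne_zero hne)
  rw [← i3, i1, ← i2, ← i4, i5, i3]
  ring

/-- Iterates of an endomorphism. -/
def itr {B : Type*} [CommGroup B] (f : B →* B) : ℕ → B →* B
  | 0 => MonoidHom.id B
  | n + 1 => f.comp (itr f n)

lemma itr_apply {B : Type*} [CommGroup B] (f : B →* B) (n : ℕ) (x : B) : itr f n x = f^[n] x := by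
  induction n with
  | zero => rfl
  | succ n ih => rw [Function.iterate_succ_apply', ← ih]; rfl

/-- Powers of injective endomorphisms. -/
lemma index_range_pow {B : Type*} [CommGroup B] (f : B →* B) (hf : Function.Injective f) (n : ℕ) :
    (itr f n).range.index = f.range.index ^ n := by
  induction n with
  | zero =>
    rw [pow_zero]
    have : (itr f 0).range = ⊤ := MonoidHom.range_eq_top.2 (fun x => ⟨x, rfl⟩)
    rw [this, Subgroup.index_top]
  | succ n ih =>
    have h1 : (itr f (n + 1)).range = (itr f n).range.map f := by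
      rw [MonoidHom.range_eq_map, MonoidHom.range_eq_map, Subgroup.map_map]; rfl
    rw [h1, Subgroup.index_map_of_injective _ hf, ih, pow_succ]

lemma exists_exp (A : Type*) [CommGroup A] [Module.Finite ℤ (Additive A)] :
    ∃ m : ℕ, 0 < m ∧ ∀ x : A, IsOfFinOrder x → x ^ m = 1 := by
  haveI : Module.Finite ℤ (Additive (CommGroup.torsion A)) := finite_additive_subgroup _
  haveI : AddGroup.FG (Additive (CommGroup.torsion A)) := Module.Finite.iff_addGroup_fg.mp inferInstance
  haveI : Group.FG (CommGroup.torsion A) := GroupFG.iff_add_fg.2 inferInstance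
  haveI : Finite (CommGroup.torsion A) :=
    CommGroup.finite_of_fg_isMulTorsion _ (CommMonoid.torsion.isMulTorsion (G := A))
  refine ⟨Nat.card (CommGroup.torsion A), Nat.card_pos, fun x hx => ?_⟩
  have h1 : (⟨x, hx⟩ : CommGroup.torsion A) ^ Nat.card (CommGroup.torsion A) = 1 := pow_card_eq_one'
  exact congrArg Subtype.val h1

lemma finrank_pow_range {G : Type*} [CommGroup G] [Module.Finite ℤ (Additive G)] (n : ℕ) [NeZero n]
    : finrank ℤ (Additive (powMonoidHom n : G →* G).range) = finrank ℤ (Additive G) := by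
  have h1 := finrank_additive_ker_add_range (powMonoidHom n : G →* G)
  haveI := finite_additive_subgroup (powMonoidHom n : G →* G).ker
  have h2 : finrank ℤ (Additive (powMonoidHom n : G →* G).ker) = 0 := by
    rw [Module.finrank_eq_zero_iff_isTorsion]
    intro x
    refine ⟨⟨(n : ℤ), mem_nonZeroDivisors_of_ne_zero (by exact_mod_cast NeZero.ne n)⟩, ?_⟩
    change (n : ℤ) • x = 0
    rw [natCast_zsmul]
    apply Additive.toMul.injective
    apply Subtype.ext
    exact x.toMul.2
  omega

/-- An injective endomorphism of a finitely generated abelian group has an image of finite index. -/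
lemma index_ne_zero_of_inj {B : Type*} [CommGroup B] [Module.Finite ℤ (Additive B)] (h : B →* B)
    (hh : Function.Injective h) : h.range.index ≠ 0 := by
  let H : Additive B →ₗ[ℤ] Additive B := (MonoidHom.toAdditive h).toIntLinearMap
  have hH : Function.Injective H := hh
  have h1 := (LinearMap.range H).finrank_quotient_add_finrank
  have h2 : finrank ℤ (LinearMap.range H) = finrank ℤ (Additive B) := LinearMap.finrank_range_of_inj hH
  have h3 : finrank ℤ (Additive B ⧸ LinearMap.range H) = 0 := by omega
  have h4 : Module.IsTorsion ℤ (Additive B ⧸ LinearMap.range H) := Module.finrank_eq_zero_iff_isTorsion.1 h3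
  haveI h5 : Finite (Additive B ⧸ LinearMap.range H) := Module.finite_of_fg_torsion _ h4
  have h6 : Finite (B ⧸ h.range) := by
    refine Finite.of_injective (β := Additive B ⧸ LinearMap.range H)
      (fun q => Submodule.Quotient.mk (Additive.ofMul q.out)) ?_
    intro a b hab
    have h7 := (Submodule.Quotient.eq (LinearMap.range H)).1 hab
    obtain ⟨c, hc⟩ := h7
    have h8 : (b.out)⁻¹ * a.out ∈ h.range := by
      refine ⟨c.toMul, ?_⟩
      have h9 : h c.toMul = a.out / b.out := congrArg Additive.toMul hc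
      rw [h9, div_eq_mul_inv, mul_comm]
    have h10 : (QuotientGroup.mk b.out : B ⧸ h.range) = QuotientGroup.mk a.out := QuotientGroup.eq.2 h8
    have h11 : ∀ q : B ⧸ h.range, (QuotientGroup.mk q.out : B ⧸ h.range) = q := fun q => Quotient.out_eq q
    rw [h11, h11] at h10
    exact h10.symm
  rw [Subgroup.index_eq_card]
  exact Nat.card_pos.ne'

/-- An endomorphism `f` with `f ^ (p-1)` divisible by `p` has a large Herbrand quotient. -/
lemma herb_bound {A : Type*} [CommGroup A] [Module.Finite ℤ (Additive A)] (p : ℕ) [hp : Fact p.Prime]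
    (f g : A →* A) (hfg : ∀ x, f^[p - 1] x = g x ^ p) (hk : ∀ x, f x = 1 → x ^ p = 1) :
    p ^ finrank ℤ (Additive A) * (Nat.card f.ker) ^ (p - 1) ≤ f.range.index ^ (p - 1) := by
  classical
  obtain ⟨m, hm, hmt⟩ := exists_exp A
  haveI : NeZero m := ⟨hm.ne'⟩
  haveI : NeZero p := ⟨hp.out.ne_zero⟩
  set B : Subgroup A := (powMonoidHom m : A →* A).range with hB
  have hBtf : ∀ x ∈ B, IsOfFinOrder x → x = 1 := by
    rintro _ ⟨y, rfl⟩ hy
    have hy' : IsOfFinOrder y := (isOfFinOrder_pow.1 hy).resolve_right hm.ne'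
    exact hmt y hy'
  have hfin : Finite (powMonoidHom m : A →* A).ker := by
    obtain ⟨s, hs⟩ : ∃ s : Set A, s.Finite ∧ ∀ x : A, IsOfFinOrder x → x ∈ s := by
      haveI : Module.Finite ℤ (Additive (CommGroup.torsion A)) := finite_additive_subgroup _
      haveI : AddGroup.FG (Additive (CommGroup.torsion A)) := Module.Finite.iff_addGroup_fg.mp inferInstance
      haveI : Group.FG (CommGroup.torsion A) := GroupFG.iff_add_fg.2 inferInstance
      haveI : Finite (CommGroup.torsion A) :=
        CommGroup.finite_of_fg_isMulTorsion _ (CommMonoid.torsion.isMulTorsion (G := A))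
      exact ⟨CommGroup.torsion A, Set.toFinite _, fun x hx => hx⟩
    exact (hs.1.subset (fun x hx => hs.2 x (isOfFinOrder_iff_pow_eq_one.2 ⟨m, hm, hx⟩)) :
      ((powMonoidHom m : A →* A).ker : Set A).Finite)
  have hBi : B.index ≠ 0 := by
    rw [hB, index_pw A m]
    exact mul_ne_zero (pow_ne_zero _ hm.ne') Nat.card_pos.ne'
  have hfB : B.map f ≤ B := by
    rintro _ ⟨_, ⟨y, rfl⟩, rfl⟩
    exact ⟨f y, (map_pow f y m).symm⟩
  have hgB : B.map g ≤ B := by
    rintro _ ⟨_, ⟨y, rfl⟩, rfl⟩
    exact ⟨g y, (map_pow g y m).symm⟩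
  have hkB : B ⊓ f.ker = ⊥ := by
    rw [eq_bot_iff]
    rintro x ⟨hx1, hx2⟩
    exact hBtf x hx1 (isOfFinOrder_iff_pow_eq_one.2 ⟨p, hp.out.pos, hk x hx2⟩)
  have h1 := index_range_eq f B hBi hfB hkB
  -- the restriction to `B`
  let fB : B →* B := (f.comp B.subtype).codRestrict B (fun x => hfB ⟨x, x.2, rfl⟩)
  let gB : B →* B := (g.comp B.subtype).codRestrict B (fun x => hgB ⟨x, x.2, rfl⟩)
  have hfB' : ∀ x : B, ((fB x : B) : A) = f x := fun x => rfl
  have hgB' : ∀ x : B, ((gB x : B) : A) = g x := fun x => rfl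
  have hinj : Function.Injective fB := by
    rw [injective_iff_map_eq_one]
    intro x hx
    have h2 : (x : A) ∈ B ⊓ f.ker := ⟨x.2, (MonoidHom.mem_ker).2 (congrArg Subtype.val hx)⟩
    rw [hkB] at h2
    exact Subtype.ext h2
  have h2 : fB.range.index = (B.map f).relIndex B := by
    rw [Subgroup.relIndex]
    congr 1
    ext x
    rw [Subgroup.mem_subgroupOf]
    constructor
    · rintro ⟨y, rfl⟩
      exact ⟨y, y.2, rfl⟩
    · rintro ⟨y, hy, hyx⟩
      exact ⟨⟨y, hy⟩, Subtype.ext hyx⟩
  have h3 := index_range_pow fB hinj (p - 1)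
  haveI := finite_additive_subgroup B
  have h4 : (itr fB (p - 1)).range ≤ (powMonoidHom p : B →* B).range := by
    rintro _ ⟨x, rfl⟩
    refine ⟨gB x, ?_⟩
    apply Subtype.ext
    show (g x : A) ^ p = _
    rw [← hfg, itr_apply]
    clear h3 h2 h1
    generalize p - 1 = n
    induction n with
    | zero => rfl
    | succ n ih => rw [Function.iterate_succ_apply', Function.iterate_succ_apply', ih, hfB']
  have h5 : (powMonoidHom p : B →* B).range.index = p ^ finrank ℤ (Additive A) := by
    rw [index_pw B p, finrank_pow_range]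
    have : Nat.card (powMonoidHom p : B →* B).ker = 1 := by
      rw [Nat.card_eq_one_iff_unique]
      refine ⟨⟨fun x y => ?_⟩, ⟨1⟩⟩
      have key : ∀ z : (powMonoidHom p : B →* B).ker, z = 1 := by
        intro z
        apply Subtype.ext
        apply Subtype.ext
        refine hBtf _ z.1.2 (isOfFinOrder_iff_pow_eq_one.2 ⟨p, hp.out.pos, ?_⟩)
        exact congrArg Subtype.val z.2
      rw [key x, key y]
    rw [this, mul_one]
  have hfi : (itr fB (p - 1)).range.index ≠ 0 := by
    refine index_ne_zero_of_inj _ ?_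
    intro x y hxy
    rw [itr_apply, itr_apply] at hxy
    exact hinj.iterate _ hxy
  have h6 : p ^ finrank ℤ (Additive A) ≤ (itr fB (p - 1)).range.index := by
    rw [← h5]
    exact Nat.le_of_dvd (Nat.pos_of_ne_zero hfi) (Subgroup.index_dvd_of_le h4)
  rw [h1, ← h2, mul_pow, ← h3]
  exact Nat.mul_le_mul_right _ h6

end Pool.Agent.Helper832_EG
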