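import Pool.Agent.Helper832_EG.PD2

set_option linter.style.haveILetI false
set_option linter.unusedSectionVars false
set_option linter.unusedVariables false

open Module Pool.Agent.TeamU Polynomial

namespace Pool.Agent.Helper832_EG

/-- `(X - 1) ^ (p - 1) = 1 + X + ... + X ^ (p-1) + p G`. -/
lemma exists_cyc_poly (p : ℕ) [hp : Fact p.Prime] :
    ∃ G : ℤ[X], (X - 1) ^ (p - 1) = (∑ i ∈ Finset.range p, X ^ i) + (p : ℤ[X]) * G := by
  have h1 : ((X - 1) ^ (p - 1) - ∑ i ∈ Finset.range p, X ^ i : ℤ[X]).map (Int.castRingHom (ZMod p)) = 0 := by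
    rw [Polynomial.map_sub, Polynomial.map_pow, Polynomial.map_sub, Polynomial.map_X, Polynomial.map_one,
      Polynomial.map_sum, sub_eq_zero]
    simp only [Polynomial.map_pow, Polynomial.map_X]
    have h2 : (X - 1 : (ZMod p)[X]) ≠ 0 := by
      have := Polynomial.X_sub_C_ne_zero (1 : ZMod p)
      simpa using this
    apply mul_right_cancel₀ h2
    rw [geom_sum_mul, ← pow_succ, Nat.sub_add_cancel hp.out.pos, sub_pow_char, one_pow]
  have h3 : (C (p : ℤ)) ∣ ((X - 1) ^ (p - 1) - ∑ i ∈ Finset.range p, X ^ i : ℤ[X]) := by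
    rw [Polynomial.C_dvd_iff_dvd_coeff]
    intro i
    have h4 := congrArg (fun q => q.coeff i) h1
    simp only [Polynomial.coeff_map, Polynomial.coeff_zero] at h4
    exact (ZMod.intCast_zmod_eq_zero_iff_dvd _ p).1 h4
  obtain ⟨G, hG⟩ := h3
  refine ⟨G, ?_⟩
  rw [sub_eq_iff_eq_add'] at hG
  rw [hG]
  simp

lemma finrank_mono_sub {G : Type*} [CommGroup G] [Module.Finite ℤ (Additive G)] {H K : Subgroup G} (h : H ≤ K) :
    finrank ℤ (Additive H) ≤ finrank ℤ (Additive K) := by
  haveI := finite_additive_subgroup K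
  exact LinearMap.finrank_le_finrank_of_injective
    (f := (MonoidHom.toAdditive (Subgroup.inclusion h)).toIntLinearMap) (Subgroup.inclusion_injective h)

section
variable {U : Type*} [CommGroup U] [Module.Finite ℤ (Additive U)] {p : ℕ} [hp : Fact p.Prime]

/-- The inequality between the cohomology groups of the units in the cyclic case of prime order. -/
theorem abs_herb (s δ ν : U →* U) (hs : ∀ u, s^[p] u = u) (hδ : ∀ u, δ u = s u / u)
    (hν : ∀ u, ν u = ∏ i ∈ Finset.range p, s^[i] u)
    (hrank : finrank ℤ (Additive U) + 1 = p * (finrank ℤ (Additive δ.ker) + 1)) :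
    p * ν.range.relIndex δ.ker ≤ δ.range.relIndex ν.ker ∧ ν.range.relIndex δ.ker ≠ 0 := by
  classical
  haveI : NeZero p := ⟨hp.out.ne_zero⟩
  set V := δ.ker with hV
  set R := ν.ker with hR
  have hVs : ∀ u, u ∈ V ↔ s u = u := by
    intro u
    rw [hV, MonoidHom.mem_ker, hδ, div_eq_one]
  have hsν : ∀ u, s (ν u) = ν u := by
    intro u
    rw [hν, map_prod]
    have h1 : ∀ i, s (s^[i] u) = s^[i + 1] u := fun i => (Function.iterate_succ_apply' _ _ _).symm
    simp only [h1]
    have h2 : ∏ i ∈ Finset.range (p + 1), s^[i] u = (∏ i ∈ Finset.range p, s^[i + 1] u) * s^[0] u :=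
      Finset.prod_range_succ' _ _
    rw [Finset.prod_range_succ, hs] at h2
    exact (mul_right_cancel h2).symm
  have hνs : ∀ u, ν (s u) = ν u := by
    intro u
    rw [← hsν u, hν, hν, map_prod]
    refine Finset.prod_congr rfl fun i _ => ?_
    rw [← Function.iterate_succ_apply, Function.iterate_succ_apply']
  have hνV : ∀ u ∈ V, ν u = u ^ p := by
    intro u hu
    rw [hν]
    have h1 : ∀ i, s^[i] u = u := by
      intro i
      induction i with
      | zero => rfl
      | succ i ih => rw [Function.iterate_succ_apply', ih, (hVs u).1 hu]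
    simp [h1]
  have hrV : ν.range ≤ V := by
    rintro _ ⟨u, rfl⟩
    rw [hVs]; exact hsν u
  have hδR : δ.range ≤ R := by
    rintro _ ⟨u, rfl⟩
    rw [hR, MonoidHom.mem_ker, hδ, _root_.map_div, hνs, div_self']
  have hmapν : V.map ν = V.map (powMonoidHom p) := by
    ext u
    constructor
    · rintro ⟨v, hv, rfl⟩
      exact ⟨v, hv, (hνV v hv).symm⟩
    · rintro ⟨v, hv, rfl⟩
      exact ⟨v, hv, hνV v hv⟩
  -- the chain of index identities
  have e1 : (V.map ν).relIndex ν.range = (V ⊔ R).index := by
    rw [MonoidHom.range_eq_map, Subgroup.relIndex_map_map, top_sup_eq, Subgroup.relIndex_top_right]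
  have e2 : (R.map δ).relIndex δ.range = (V ⊔ R).index := by
    rw [MonoidHom.range_eq_map, Subgroup.relIndex_map_map, top_sup_eq, Subgroup.relIndex_top_right, sup_comm]
  have e3 : (V.map ν).relIndex ν.range * ν.range.relIndex V = (V.map ν).relIndex V :=
    Subgroup.relIndex_mul_relIndex _ _ _ (Subgroup.map_le_range ν V) hrV
  have e4 : (R.map δ).relIndex δ.range * δ.range.relIndex R = (R.map δ).relIndex R :=
    Subgroup.relIndex_mul_relIndex _ _ _ (Subgroup.map_le_range δ R) hδR
  have e5 := relIndex_pw V p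
  rw [← hmapν] at e5
  set t := Nat.card {x : U // x ∈ V ∧ x ^ p = 1} with ht
  set a := finrank ℤ (Additive V) with ha
  -- ranks
  have hrk1 : finrank ℤ (Additive ν.range) = a := by
    apply le_antisymm (finrank_mono_sub hrV)
    have h1 : V.map (powMonoidHom p) ≤ ν.range := by rw [← hmapν]; exact Subgroup.map_le_range ν V
    haveI := finite_additive_subgroup V
    have h2 : finrank ℤ (Additive (powMonoidHom p : V →* V).range) = a := finrank_pow_range p
    have h3 : finrank ℤ (Additive ((powMonoidHom p : V →* V).range.map V.subtype)) =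
        finrank ℤ (Additive (powMonoidHom p : V →* V).range) :=
      (finrank_additive_congr (Subgroup.equivMapOfInjective _ V.subtype V.subtype_injective)).symm
    refine le_trans (le_of_eq (h2.symm.trans h3.symm)) (finrank_mono_sub (le_trans ?_ h1))
    rintro _ ⟨_, ⟨x, rfl⟩, rfl⟩
    exact ⟨x, x.2, rfl⟩
  have hrk2 : finrank ℤ (Additive R) + a = finrank ℤ (Additive U) := by
    rw [← hrk1]; exact finrank_additive_ker_add_range ν
  have hrk3 : finrank ℤ (Additive R) = (p - 1) * (a + 1) := by
    obtain ⟨q, hq⟩ : ∃ q, p = q + 1 := ⟨p - 1, (Nat.sub_add_cancel hp.out.pos).symm⟩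
    rw [hq, Nat.add_sub_cancel]
    rw [hq] at hrank
    have : finrank ℤ (Additive R) + (a + 1) = q * (a + 1) + (a + 1) := by
      rw [← add_assoc, hrk2, hrank]; ring
    omega
  -- the restriction of `δ` to `R`
  have hδRR : ∀ x : R, δ x ∈ R := fun x => hδR ⟨x, rfl⟩
  let f : R →* R := (δ.comp R.subtype).codRestrict R hδRR
  have hf : ∀ x : R, ((f x : R) : U) = δ x := fun x => rfl
  obtain ⟨G, hG⟩ := exists_cyc_poly p
  let S : Module.End ℤ (Additive U) := (MonoidHom.toAdditive s).toIntLinearMap
  have hS : ∀ u : U, S (Additive.ofMul u) = Additive.ofMul (s u) := fun u => rfl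
  have hSn : ∀ (n : ℕ) (u : U), (S ^ n) (Additive.ofMul u) = Additive.ofMul (s^[n] u) := by
    intro n u
    induction n with
    | zero => rfl
    | succ n ih => rw [pow_succ', Module.End.mul_apply, ih, hS, Function.iterate_succ_apply']
  have hS1 : ∀ (n : ℕ) (u : U), ((S - 1) ^ n) (Additive.ofMul u) = Additive.ofMul (δ^[n] u) := by
    intro n u
    induction n with
    | zero => rfl
    | succ n ih =>
      rw [pow_succ', Module.End.mul_apply, ih, Function.iterate_succ_apply', hδ, LinearMap.sub_apply, hS]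
      rfl
  let gA : Module.End ℤ (Additive U) := Polynomial.aeval S G
  have hpoly : (S - 1) ^ (p - 1) = (∑ i ∈ Finset.range p, S ^ i) + (p : Module.End ℤ (Additive U)) * gA := by
    have h1 := congrArg (Polynomial.aeval S) hG
    simpa using h1
  let g0 : U →* U := AddMonoidHom.toMultiplicative (gA : Additive U →ₗ[ℤ] Additive U).toAddMonoidHom
  have hg0 : ∀ u : U, gA (Additive.ofMul u) = Additive.ofMul (g0 u) := fun u => rfl
  have hsum : ∀ u : U, (∑ i ∈ Finset.range p, S ^ i) (Additive.ofMul u) = Additive.ofMul (ν u) := by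
    intro u
    rw [LinearMap.sum_apply, hν, ofMul_prod]
    exact Finset.sum_congr rfl fun i _ => hSn i u
  have hcomm : gA * (∑ i ∈ Finset.range p, S ^ i) = (∑ i ∈ Finset.range p, S ^ i) * gA := by
    have h1 : (∑ i ∈ Finset.range p, S ^ i) = Polynomial.aeval S (∑ i ∈ Finset.range p, X ^ i : ℤ[X]) := by simp
    rw [h1, ← map_mul, ← map_mul, mul_comm]
  have hg0R : ∀ x : R, g0 x ∈ R := by
    intro x
    refine (MonoidHom.mem_ker).2 ?_
    have h1 := DFunLike.congr_fun hcomm (Additive.ofMul (x : U))
    rw [Module.End.mul_apply, Module.End.mul_apply, hsum, hg0, hg0, hsum] at h1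
    have h2 : ν (x : U) = 1 := x.2
    rw [h2, map_one] at h1
    exact (Additive.ofMul.injective h1).symm
  let g : R →* R := (g0.comp R.subtype).codRestrict R hg0R
  haveI := finite_additive_subgroup R
  have hkf : ∀ x : R, f x = 1 → x ^ p = 1 := by
    intro x hx
    have h1 : δ (x : U) = 1 := congrArg Subtype.val hx
    have h2 : (x : U) ∈ V := h1
    apply Subtype.ext
    show (x : U) ^ p = 1
    rw [← hνV _ h2]; exact x.2
  have hfg : ∀ x : R, f^[p - 1] x = g x ^ p := by
    intro x
    apply Subtype.ext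
    have h1 : ∀ n : ℕ, ((f^[n] x : R) : U) = δ^[n] x := by
      intro n
      induction n with
      | zero => rfl
      | succ n ih => rw [Function.iterate_succ_apply', Function.iterate_succ_apply', hf, ih]
    rw [h1]
    have h2 := DFunLike.congr_fun hpoly (Additive.ofMul (x : U))
    have h3 : ν (x : U) = 1 := x.2
    rw [hS1, LinearMap.add_apply, hsum, h3, ofMul_one, zero_add, Module.End.mul_apply, hg0] at h2
    have h4 : (p : Module.End ℤ (Additive U)) (Additive.ofMul (g0 x)) = p • Additive.ofMul (g0 x) := by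
      rw [Module.End.natCast_apply]
    rw [h4, ← ofMul_pow] at h2
    exact Additive.ofMul.injective h2
  have hb := herb_bound p f g hfg hkf
  have hcard : Nat.card f.ker = t := by
    rw [ht]
    refine Nat.card_congr ⟨fun x => ⟨x.1.1, ?_, ?_⟩, fun x => ⟨⟨x.1, ?_⟩, ?_⟩, fun x => rfl, fun x => rfl⟩
    · exact congrArg Subtype.val x.2
    · exact congrArg Subtype.val (hkf x.1 x.2)
    · exact (MonoidHom.mem_ker).2 (by rw [hνV _ x.2.1, x.2.2])
    · exact Subtype.ext x.2.1
  have hidx : f.range.index = (R.map δ).relIndex R := by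
    rw [Subgroup.relIndex]
    congr 1
    ext x
    rw [Subgroup.mem_subgroupOf]
    constructor
    · rintro ⟨y, rfl⟩
      exact ⟨y, y.2, rfl⟩
    · rintro ⟨y, hy, hyx⟩
      exact ⟨⟨y, hy⟩, Subtype.ext hyx⟩
  rw [hcard, hidx, hrk3, mul_comm (p - 1), pow_mul, ← mul_pow] at hb
  have hp1 : p - 1 ≠ 0 := by have := hp.out.two_le; omega
  have hb' := (Nat.pow_le_pow_iff_left hp1).1 hb
  have htpos : t ≠ 0 := by
    obtain ⟨m, hm, hmt⟩ := exists_exp U
    haveI : Finite {x : U // x ∈ V ∧ x ^ p = 1} := by
      have h1 : Finite f.ker := by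
        haveI : Finite (CommGroup.torsion R) := by
          haveI : Module.Finite ℤ (Additive (CommGroup.torsion R)) := finite_additive_subgroup _
          haveI : AddGroup.FG (Additive (CommGroup.torsion R)) := Module.Finite.iff_addGroup_fg.mp inferInstance
          haveI : Group.FG (CommGroup.torsion R) := GroupFG.iff_add_fg.2 inferInstance
          exact CommGroup.finite_of_fg_isMulTorsion _ (CommMonoid.torsion.isMulTorsion (G := R))
        exact ((Set.toFinite (CommGroup.torsion R : Set R)).subset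
          (fun x hx => isOfFinOrder_iff_pow_eq_one.2 ⟨p, hp.out.pos, hkf x hx⟩) :
          (f.ker : Set R).Finite)
      refine Finite.of_injective (β := f.ker) (fun x => ⟨⟨x.1, ?_⟩, ?_⟩) ?_
      · exact (MonoidHom.mem_ker).2 (by rw [hνV _ x.2.1, x.2.2])
      · exact Subtype.ext x.2.1
      · intro x y hxy
        exact Subtype.ext (congrArg (fun z : f.ker => ((z : R) : U)) hxy)
    haveI : Nonempty {x : U // x ∈ V ∧ x ^ p = 1} := ⟨⟨1, V.one_mem, one_pow _⟩⟩
    exact Nat.card_pos.ne'
  have hVt : (V.map ν).relIndex V ≠ 0 := by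
    rw [e5]
    exact mul_ne_zero (pow_ne_zero _ hp.out.ne_zero) htpos
  have hi0 : (V ⊔ R).index ≠ 0 := by
    intro h
    rw [e1, h, zero_mul] at e3
    exact hVt e3.symm
  refine ⟨?_, ?_⟩
  · apply Nat.le_of_mul_le_mul_left _ (Nat.pos_of_ne_zero hi0)
    have h1 : (V ⊔ R).index * (p * ν.range.relIndex V) = p ^ (a + 1) * t := by
      calc (V ⊔ R).index * (p * ν.range.relIndex V) = p * ((V ⊔ R).index * ν.range.relIndex V) := by ring
        _ = p * (p ^ a * t) := by rw [← e1, e3, e5]
        _ = p ^ (a + 1) * t := by ring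
    have h2 : (V ⊔ R).index * δ.range.relIndex R = (R.map δ).relIndex R := by rw [← e2, e4]
    rw [h1, h2]
    exact hb'
  · intro h
    rw [h, mul_zero] at e3
    exact hVt e3.symm

end

end Pool.Agent.Helper832_EG
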