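import Mathlib

/-!
# Invariant ideals in Galois extensions of number fields
-/

set_option linter.style.haveILetI false
set_option linter.unusedSectionVars false
set_option linter.unusedVariables false

open NumberField Ideal
open scoped Pointwise

namespace Pool.Agent.Helper832_EG

section
variable {K L : Type} [Field K] [NumberField K] [Field L] [NumberField L] [Algebra K L] [IsGalois K L]

lemma isGalGrp : IsGaloisGroup Gal(L/K) (𝓞 K) (𝓞 L) :=
  IsGaloisGroup.of_isFractionRing Gal(L/K) (𝓞 K) (𝓞 L) K L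

/-- The extension of an ideal is invariant. -/
lemma smul_map (g : Gal(L/K)) (a : Ideal (𝓞 K)) :
    g • (a.map (algebraMap (𝓞 K) (𝓞 L))) = a.map (algebraMap (𝓞 K) (𝓞 L)) := by
  rw [Ideal.pointwise_smul_def, Ideal.map_map]
  congr 1
  ext x
  have h1 : g • (algebraMap (𝓞 K) (𝓞 L) x) = algebraMap (𝓞 K) (𝓞 L) x := smul_algebraMap g x
  exact congrArg (fun z : 𝓞 L => (z : L)) h1

lemma smul_mul_ideal (g : Gal(L/K)) (I J : Ideal (𝓞 L)) : g • (I * J) = (g • I) * (g • J) := by
  rw [Ideal.pointwise_smul_def, Ideal.pointwise_smul_def, Ideal.pointwise_smul_def, Ideal.map_mul]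

/-- Invariant ideals whose exponents are divisible by the ramification indices come from below. -/
theorem descent (n : ℕ) : ∀ I : Ideal (𝓞 L), I ≠ ⊥ → Ideal.absNorm I ≤ n → (∀ g : Gal(L/K), g • I = I) →
    (∀ Q : Ideal (𝓞 L), Q.IsMaximal → Q.ramificationIdx (𝓞 K) ∣ multiplicity Q I) →
    ∃ a : Ideal (𝓞 K), I = a.map (algebraMap (𝓞 K) (𝓞 L)) := by
  classical
  haveI : IsGaloisGroup Gal(L/K) (𝓞 K) (𝓞 L) := isGalGrp
  induction n using Nat.strong_induction_on with
  | _ n ih =>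
    intro I hI hn hinv hdiv
    by_cases htop : I = ⊤
    · exact ⟨⊤, by rw [htop, Ideal.map_top]⟩
    obtain ⟨Q, hQ, hIQ⟩ := Ideal.exists_le_maximal I htop
    have hQ0 : Q ≠ ⊥ := ne_bot_of_le_ne_bot hI hIQ
    set q : Ideal (𝓞 K) := Q.under (𝓞 K) with hq
    haveI hqm : q.IsMaximal := Ideal.isMaximal_comap_of_isIntegral_of_isMaximal Q
    have hq0 : q ≠ ⊥ := by
      rw [hq]
      exact Ideal.under_ne_bot _ hQ0
    have hmq0 : q.map (algebraMap (𝓞 K) (𝓞 L)) ≠ ⊥ := Ideal.map_ne_bot_of_ne_bot hq0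
    haveI : Q.LiesOver q := ⟨rfl⟩
    -- all primes above `q` divide `I`
    have hle : ∀ Q' : Ideal (𝓞 L), Q'.IsPrime → Q'.LiesOver q → I ≤ Q' := by
      intro Q' hQ' hQ'q
      obtain ⟨g, hg⟩ := Ideal.exists_smul_eq_of_isGaloisGroup q Q Q' Gal(L/K)
      rw [← hg, ← hinv g]
      exact Ideal.pointwise_smul_le_pointwise_smul_iff.2 hIQ
    have hmaxover : ∀ Q' : Ideal (𝓞 L), Q'.IsPrime → Q'.LiesOver q → Q'.IsMaximal := by
      intro Q' hQ' hQ'q
      exact hQ'.isMaximal (Ideal.ne_bot_of_liesOver_of_ne_bot hq0 Q')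
    have hI0 : ∀ Q' : Ideal (𝓞 L), Q'.IsMaximal → FiniteMultiplicity Q' I := by
      intro Q' hQ'
      have hQ'0 : Q' ≠ ⊥ := Ideal.IsMaximal.ne_bot_of_isIntegral_int Q'
      exact FiniteMultiplicity.of_prime_left (Ideal.prime_of_isPrime hQ'0 hQ'.isPrime) hI
    have hdvd : q.map (algebraMap (𝓞 K) (𝓞 L)) ∣ I := by
      rw [Ideal.map_algebraMap_eq_finsetProd_pow hq0]
      refine Finset.prod_dvd_of_coprime ?_ ?_
      · intro P hP P' hP' hne
        have hPa : P ∈ q.primesOver (𝓞 L) := Set.mem_toFinset.1 (Finset.mem_coe.1 hP)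
        have hPb : P' ∈ q.primesOver (𝓞 L) := Set.mem_toFinset.1 (Finset.mem_coe.1 hP')
        obtain ⟨hP1, hP1'⟩ := hPa
        obtain ⟨hP2, hP2'⟩ := hPb
        haveI := hmaxover P hP1 hP1'
        haveI := hmaxover P' hP2 hP2'
        show IsCoprime (P ^ _) (P' ^ _)
        refine IsCoprime.pow ?_
        exact Ideal.isCoprime_iff_sup_eq.2 (Ideal.IsMaximal.coprime_of_ne ‹_› ‹_› hne)
      · intro P hP
        have hPa : P ∈ q.primesOver (𝓞 L) := Set.mem_toFinset.1 hP
        obtain ⟨hP1, hP1'⟩ := hPa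
        have hPm := hmaxover P hP1 hP1'
        have h1 : P ∣ I := Ideal.dvd_iff_le.2 (hle P hP1 hP1')
        have h2 : multiplicity P I ≠ 0 := by
          rw [Ne, multiplicity_eq_zero]
          exact fun h => h h1
        have h3 : P.ramificationIdx (𝓞 K) ≤ multiplicity P I :=
          Nat.le_of_dvd (Nat.pos_of_ne_zero h2) (hdiv P hPm)
        exact pow_dvd_of_le_multiplicity h3
    obtain ⟨J, hJ⟩ := hdvd
    have hJ0 : J ≠ ⊥ := by
      rintro rfl
      rw [Ideal.mul_bot] at hJ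
      exact hI hJ
    have hmqQ : q.map (algebraMap (𝓞 K) (𝓞 L)) ≠ ⊤ := by
      intro h
      have h1 : q.map (algebraMap (𝓞 K) (𝓞 L)) ≤ Q := Ideal.map_le_iff_le_comap.2 le_rfl
      rw [h] at h1
      exact hQ.ne_top (top_le_iff.1 h1)
    have hlt : Ideal.absNorm J < Ideal.absNorm I := by
      have h1 : Ideal.absNorm (q.map (algebraMap (𝓞 K) (𝓞 L))) ≠ 1 := fun h => hmqQ (Ideal.absNorm_eq_one_iff.1 h)
      have h2 : Ideal.absNorm (q.map (algebraMap (𝓞 K) (𝓞 L))) ≠ 0 := fun h => hmq0 (Ideal.absNorm_eq_zero_iff.1 h)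
      have h3 : Ideal.absNorm J ≠ 0 := fun h => hJ0 (Ideal.absNorm_eq_zero_iff.1 h)
      rw [hJ, map_mul]
      calc Ideal.absNorm J = 1 * Ideal.absNorm J := (one_mul _).symm
        _ < _ := Nat.mul_lt_mul_of_pos_right (by omega) (Nat.pos_of_ne_zero h3)
    obtain ⟨a, ha⟩ := ih (Ideal.absNorm J) (lt_of_lt_of_le hlt hn) J hJ0 le_rfl
      (by
        intro g
        have h1 := hinv g
        rw [hJ, smul_mul_ideal, smul_map] at h1
        exact mul_left_cancel₀ hmq0 h1)
      (by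
        intro Q' hQ'
        have hQ'0 : Q' ≠ ⊥ := Ideal.IsMaximal.ne_bot_of_isIntegral_int Q'
        have hpr : Prime Q' := Ideal.prime_of_isPrime hQ'0 hQ'.isPrime
        have h1 := hdiv Q' hQ'
        have h2 := hI0 Q' hQ'
        rw [hJ] at h1 h2
        rw [multiplicity_mul hpr h2] at h1
        refine (Nat.dvd_add_right ?_).1 h1
        by_cases hover : Q'.LiesOver q
        · haveI := hQ'.isPrime
          rw [Ideal.IsDedekindDomain.ramificationIdx_eq_multiplicity q Q' hmq0]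
        · have h4 : ¬ Q' ∣ q.map (algebraMap (𝓞 K) (𝓞 L)) := by
            intro h
            apply hover
            haveI := hQ'.isPrime
            have h5 : q ≤ Q'.under (𝓞 K) := Ideal.map_le_iff_le_comap.1 (Ideal.dvd_iff_le.1 h)
            exact ⟨hqm.eq_of_le (Ideal.IsPrime.ne_top inferInstance) h5⟩
          rw [multiplicity_eq_zero.2 h4]
          exact dvd_zero _)
    exact ⟨q * a, by rw [Ideal.map_mul, ← ha, ← hJ]⟩

end

end Pool.Agent.Helper832_EG
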