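import Pool.Agent.Helper832_EG.PD3
import Pool.Agent.Helper832_EG.PD4

/-!
# Units and classes in cyclic extensions of prime degree
-/

set_option linter.style.haveILetI false
set_option linter.unusedSectionVars false
set_option linter.unusedVariables false

open NumberField Ideal Module
open scoped Pointwise nonZeroDivisors

namespace Pool.Agent.Helper832_EG

section
variable {K L : Type} [Field K] [NumberField K] [Field L] [NumberField L] [Algebra K L] [IsGalois K L]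

/-- The action of an automorphism on the units. -/
noncomputable def sU (σ : Gal(L/K)) : (𝓞 L)ˣ →* (𝓞 L)ˣ :=
  Units.map ((MulSemiringAction.toRingHom Gal(L/K) (𝓞 L) σ : 𝓞 L →+* 𝓞 L) : 𝓞 L →* 𝓞 L)

lemma sU_coe (σ : Gal(L/K)) (u : (𝓞 L)ˣ) : ((sU σ u : (𝓞 L)ˣ) : 𝓞 L) = σ • (u : 𝓞 L) := rfl

lemma sU_iter (σ : Gal(L/K)) (n : ℕ) (u : (𝓞 L)ˣ) : (((sU σ)^[n] u : (𝓞 L)ˣ) : 𝓞 L) = (σ ^ n) • (u : 𝓞 L) := by
  induction n with
  | zero => simp
  | succ n ih => rw [Function.iterate_succ_apply', sU_coe, ih, smul_smul, ← pow_succ']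

/-- The difference map on units. -/
noncomputable def dU (σ : Gal(L/K)) : (𝓞 L)ˣ →* (𝓞 L)ˣ where
  toFun u := sU σ u / u
  map_one' := by simp
  map_mul' a b := by rw [map_mul]; exact mul_div_mul_comm _ _ _ _

/-- The norm map on units. -/
noncomputable def nU (p : ℕ) (σ : Gal(L/K)) : (𝓞 L)ˣ →* (𝓞 L)ˣ where
  toFun u := ∏ i ∈ Finset.range p, (sU σ)^[i] u
  map_one' := by
    refine Finset.prod_eq_one fun i _ => ?_
    have : ∀ i, (sU σ)^[i] (1 : (𝓞 L)ˣ) = 1 := fun i => by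
      induction i with
      | zero => rfl
      | succ i ih => rw [Function.iterate_succ_apply', ih, map_one]
    exact this i
  map_mul' a b := by
    rw [← Finset.prod_mul_distrib]
    refine Finset.prod_congr rfl fun i _ => ?_
    have : ∀ i, (sU σ)^[i] (a * b) = (sU σ)^[i] a * (sU σ)^[i] b := fun i => by
      induction i with
      | zero => rfl
      | succ i ih => rw [Function.iterate_succ_apply', ih, map_mul, Function.iterate_succ_apply',
          Function.iterate_succ_apply']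
    exact this i

/-- The units of the base field are the invariant units. -/
lemma mem_ker_dU {σ : Gal(L/K)} (hσ : ∀ g : Gal(L/K), g ∈ Subgroup.zpowers σ) (u : (𝓞 L)ˣ) :
    u ∈ (dU σ).ker ↔ ∃ v : (𝓞 K)ˣ, Units.map (algebraMap (𝓞 K) (𝓞 L) : 𝓞 K →* 𝓞 L) v = u := by
  haveI : IsGaloisGroup Gal(L/K) (𝓞 K) (𝓞 L) := isGalGrp
  constructor
  · intro h
    have h1 : sU σ u = u := div_eq_one.1 h
    have h2 : ∀ x : (𝓞 L)ˣ, sU σ x = x → ∀ g : Gal(L/K), g • (x : 𝓞 L) = x := by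
      intro x hx g
      obtain ⟨n, rfl⟩ := Subgroup.mem_zpowers_iff.1 (hσ g)
      have h3 : σ • (x : 𝓞 L) = x := by rw [← sU_coe, hx]
      have h4 : σ ∈ MulAction.stabilizer Gal(L/K) (x : 𝓞 L) := h3
      exact Subgroup.zpow_mem _ h4 n
    obtain ⟨a, ha⟩ := Algebra.IsInvariant.isInvariant (A := 𝓞 K) (G := Gal(L/K)) (u : 𝓞 L) (h2 u h1)
    have h5 : sU σ u⁻¹ = u⁻¹ := by rw [map_inv, h1]
    obtain ⟨b, hb⟩ := Algebra.IsInvariant.isInvariant (A := 𝓞 K) (G := Gal(L/K)) ((u⁻¹ : (𝓞 L)ˣ) : 𝓞 L) (h2 _ h5)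
    have hab : a * b = 1 := by
      apply FaithfulSMul.algebraMap_injective (𝓞 K) (𝓞 L)
      rw [map_mul, ha, hb, map_one]
      exact u.mul_inv
    exact ⟨⟨a, b, hab, by rw [mul_comm]; exact hab⟩, Units.ext ha⟩
  · rintro ⟨v, rfl⟩
    refine (MonoidHom.mem_ker).2 ?_
    show sU σ _ / _ = 1
    rw [div_eq_one]
    apply Units.ext
    exact smul_algebraMap σ (v : 𝓞 K)

/-- Hilbert 90. -/
lemma h90 {p : ℕ} [hp : Fact p.Prime] (hcard : Nat.card Gal(L/K) = p) {σ : Gal(L/K)}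
    (hσ : ∀ g : Gal(L/K), g ∈ Subgroup.zpowers σ) {y : (𝓞 L)ˣ} (hy : nU p σ y = 1) :
    ∃ b : 𝓞 L, b ≠ 0 ∧ σ • b = y * b := by
  classical
  haveI : IsCyclic Gal(L/K) := ⟨σ, hσ⟩
  have hord : orderOf σ = p := by rw [orderOf_eq_card_of_forall_mem_zpowers hσ, hcard]
  have hnorm : Algebra.norm K ((y : 𝓞 L) : L) = 1 := by
    apply (algebraMap K L).injective
    rw [Algebra.norm_eq_prod_automorphisms, map_one]
    have h1 : (Finset.univ : Finset Gal(L/K)) = Finset.image (fun i => σ ^ i) (Finset.range p) := by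
      rw [← hord, IsCyclic.image_range_orderOf hσ]
    rw [h1, Finset.prod_image]
    · have h2 := congrArg (fun z : (𝓞 L)ˣ => ((z : 𝓞 L) : L)) hy
      have h3 : (((nU p σ y : (𝓞 L)ˣ) : 𝓞 L) : L) = ∏ i ∈ Finset.range p, (σ ^ i) ((y : 𝓞 L) : L) := by
        show (((∏ i ∈ Finset.range p, (sU σ)^[i] y : (𝓞 L)ˣ) : 𝓞 L) : L) = _
        rw [Units.coe_prod]
        refine (map_prod (algebraMap (𝓞 L) L) _ _).trans ?_
        refine Finset.prod_congr rfl fun i _ => ?_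
        rw [sU_iter]; rfl
      rw [← h3]
      simpa using h2
    · intro i hi j hj hij
      rw [← hord] at hi hj
      exact pow_injOn_Iio_orderOf (Finset.mem_range.1 (Finset.mem_coe.1 hi)) (Finset.mem_range.1 (Finset.mem_coe.1 hj)) hij
  have hnorm' : Algebra.norm K (algebraMap (𝓞 L) L ((y⁻¹ : (𝓞 L)ˣ) : 𝓞 L)) = 1 := by
    have h1 : algebraMap (𝓞 L) L ((y⁻¹ : (𝓞 L)ˣ) : 𝓞 L) = (((y : 𝓞 L) : L))⁻¹ := by
      refine eq_inv_of_mul_eq_one_left ?_
      rw [← map_mul, y.inv_mul, map_one]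
    rw [h1, Algebra.norm_inv, hnorm, inv_one]
  obtain ⟨b, hb, hb'⟩ := groupCohomology.exists_mul_galRestrict_of_norm_eq_one (A := 𝓞 K) (K := K) (L := L) (B := 𝓞 L) hσ hnorm'
  refine ⟨b, hb, ?_⟩
  have h1 : galRestrict (𝓞 K) K L (𝓞 L) σ b = σ • b := by
    apply FaithfulSMul.algebraMap_injective (𝓞 L) L
    rw [algebraMap_galRestrict_apply]; rfl
  rw [h1] at hb'
  calc σ • b = (y : 𝓞 L) * (((y⁻¹ : (𝓞 L)ˣ) : 𝓞 L) * σ • b) := by rw [← mul_assoc, y.mul_inv, one_mul]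
    _ = y * b := by rw [hb']

end

end Pool.Agent.Helper832_EG
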