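import Pool.Agent.Helper832_EG.PD5

set_option linter.style.haveILetI false
set_option linter.unusedSectionVars false
set_option linter.unusedVariables false

open NumberField Ideal Module Pool.Agent.TeamU
open scoped Pointwise nonZeroDivisors

namespace Pool.Agent.Helper832_EG

section
variable {K L : Type} [Field K] [NumberField K] [Field L] [NumberField L] [Algebra K L] [IsGalois K L]

lemma finrank_units (F : Type) [Field F] [NumberField F] [IsTotallyComplex F] :
    2 * (finrank ℤ (Additive (𝓞 F)ˣ) + 1) = finrank ℚ F := by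
  classical
  have h1 : finrank ℤ (Additive (𝓞 F)ˣ) = Units.rank F := Units.finrank_eq F
  have h2 : Units.rank F = Fintype.card (InfinitePlace F) - 1 := rfl
  have h3 : Fintype.card (InfinitePlace F) = InfinitePlace.nrRealPlaces F + InfinitePlace.nrComplexPlaces F :=
    InfinitePlace.card_eq_nrRealPlaces_add_nrComplexPlaces F
  have h4 : InfinitePlace.nrRealPlaces F = 0 := IsTotallyComplex.nrRealPlaces_eq_zero F
  have h5 := IsTotallyComplex.finrank F
  have h6 : 0 < finrank ℚ F := finrank_pos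
  omega

lemma finrank_ker_dU {σ : Gal(L/K)} (hσ : ∀ g : Gal(L/K), g ∈ Subgroup.zpowers σ) :
    finrank ℤ (Additive (dU σ).ker) = finrank ℤ (Additive (𝓞 K)ˣ) := by
  let f : (𝓞 K)ˣ →* (dU σ).ker :=
    (Units.map (algebraMap (𝓞 K) (𝓞 L) : 𝓞 K →* 𝓞 L)).codRestrict (dU σ).ker (fun v => (mem_ker_dU hσ _).2 ⟨v, rfl⟩)
  have hf : Function.Bijective f := by
    constructor
    · intro a b hab
      exact Units.map_injective (FaithfulSMul.algebraMap_injective (𝓞 K) (𝓞 L)) (congrArg Subtype.val hab)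
    · rintro ⟨u, hu⟩
      obtain ⟨v, hv⟩ := (mem_ker_dU hσ u).1 hu
      exact ⟨v, Subtype.ext hv⟩
  exact (finrank_additive_congr (MulEquiv.ofBijective f hf)).symm

lemma herbU [IsTotallyComplex K] {p : ℕ} [hp : Fact p.Prime] (hcard : Nat.card Gal(L/K) = p) {σ : Gal(L/K)}
    (hσ : ∀ g : Gal(L/K), g ∈ Subgroup.zpowers σ) :
    p * (nU p σ).range.relIndex (dU σ).ker ≤ (dU σ).range.relIndex (nU p σ).ker ∧
      (nU p σ).range.relIndex (dU σ).ker ≠ 0 := by
  haveI : IsTotallyComplex L := isTotallyComplex_of_algebra K L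
  refine abs_herb (sU σ) (dU σ) (nU p σ) ?_ (fun _ => rfl) (fun _ => rfl) ?_
  · intro u
    apply Units.ext
    rw [sU_iter]
    have : σ ^ p = 1 := by rw [← hcard]; exact pow_card_eq_one'
    rw [this, one_smul]
  · rw [finrank_ker_dU hσ]
    have h1 := finrank_units K
    have h2 := finrank_units L
    have h3 : finrank ℚ L = finrank ℚ K * p := by
      rw [← Module.finrank_mul_finrank ℚ K L, ← IsGalois.card_aut_eq_finrank K L, hcard]
    rw [h3, ← h1] at h2
    have h4 : 2 * (finrank ℤ (Additive (𝓞 L)ˣ) + 1) = 2 * (p * (finrank ℤ (Additive (𝓞 K)ˣ) + 1)) := by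
      rw [h2]; ring
    omega

/-- Ideals generated by eigenvectors are invariant. -/
lemma inv_span {σ : Gal(L/K)} (hσ : ∀ g : Gal(L/K), g ∈ Subgroup.zpowers σ) {b : 𝓞 L} {u : (𝓞 L)ˣ}
    (h : σ • b = u * b) (g : Gal(L/K)) : g • Ideal.span {b} = Ideal.span {b} := by
  have h1 : σ • Ideal.span {b} = Ideal.span {b} := by
    rw [Ideal.pointwise_smul_def, Ideal.map_span, Set.image_singleton]
    have h2 : (MulSemiringAction.toRingHom Gal(L/K) (𝓞 L) σ) b = u * b := h
    rw [h2]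
    exact Ideal.span_singleton_mul_left_unit u.isUnit b
  have h3 : σ ∈ MulAction.stabilizer Gal(L/K) (Ideal.span {b}) := h1
  obtain ⟨n, rfl⟩ := Subgroup.mem_zpowers_iff.1 (hσ g)
  exact Subgroup.zpow_mem _ h3 n

/-- A principal invariant ideal with good exponents is generated by an element of the base field. -/
lemma prin_descent {p : ℕ} [hp : Fact p.Prime] (hcard : Nat.card Gal(L/K) = p) (hcl : ¬ p ∣ classNumber K)
    {b : 𝓞 L} (hb : b ≠ 0) (hinv : ∀ g : Gal(L/K), g • Ideal.span {b} = Ideal.span {b})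
    (hdiv : ∀ Q : Ideal (𝓞 L), Q.IsMaximal → Q.ramificationIdx (𝓞 K) ∣ multiplicity Q (Ideal.span {b})) :
    ∃ (a : 𝓞 K) (e : (𝓞 L)ˣ), b = algebraMap (𝓞 K) (𝓞 L) a * e := by
  classical
  obtain ⟨I, hI⟩ := descent (K := K) _ (Ideal.span {b}) (by simpa using hb) le_rfl hinv hdiv
  have h1 : (I ^ p).IsPrincipal := by
    have h2 := Ideal.relNorm_algebraMap (R := 𝓞 K) (𝓞 L) I
    rw [← hI, Ideal.relNorm_singleton] at h2
    have h3 : finrank (𝓞 K) (𝓞 L) = p := by
      rw [← hcard, IsGalois.card_aut_eq_finrank]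
      exact (IsFractionRing.finrank_eq (𝓞 K) K (𝓞 L) L).symm
    rw [h3] at h2
    exact ⟨⟨_, h2.symm⟩⟩
  have h2 : I.IsPrincipal := by
    refine Ideal.IsPrincipal.of_isPrincipal_pow_of_coprime ?_ h1
    exact (Nat.Prime.coprime_iff_not_dvd hp.out).2 hcl
  obtain ⟨⟨a, ha⟩⟩ := h2
  have ha' : I = Ideal.span {a} := ha
  rw [ha', Ideal.map_span, Set.image_singleton, Ideal.span_singleton_eq_span_singleton] at hI
  obtain ⟨e, he⟩ := hI.symm
  exact ⟨a, e, he.symm⟩

lemma mem_range_dU {p : ℕ} [hp : Fact p.Prime] (hcard : Nat.card Gal(L/K) = p) (hcl : ¬ p ∣ classNumber K)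
    {σ : Gal(L/K)} (hσ : ∀ g : Gal(L/K), g ∈ Subgroup.zpowers σ)
    {b : 𝓞 L} (hb : b ≠ 0) {u : (𝓞 L)ˣ} (h : σ • b = u * b)
    (hdiv : ∀ Q : Ideal (𝓞 L), Q.IsMaximal → Q.ramificationIdx (𝓞 K) ∣ multiplicity Q (Ideal.span {b})) :
    u ∈ (dU σ).range := by
  obtain ⟨a, e, hae⟩ := prin_descent hcard hcl hb (inv_span hσ h) hdiv
  refine ⟨e, ?_⟩
  show sU σ e / e = u
  rw [div_eq_iff_eq_mul]
  apply Units.ext
  rw [sU_coe, Units.val_mul]
  have ha0 : algebraMap (𝓞 K) (𝓞 L) a ≠ 0 := by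
    rintro h0
    rw [h0, zero_mul] at hae
    exact hb hae
  apply mul_left_cancel₀ ha0
  rw [hae, smul_mul', smul_algebraMap] at h
  rw [h]; ring

/-- **Hilbert 94.** -/
theorem no_unramified [IsTotallyComplex K] {p : ℕ} [hp : Fact p.Prime] (hcard : Nat.card Gal(L/K) = p)
    (hcl : ¬ p ∣ classNumber K)
    (hur : ∀ Q : Ideal (𝓞 L), Q.IsMaximal → Q.ramificationIdx (𝓞 K) = 1) : False := by
  haveI : Fact (Nat.card Gal(L/K)).Prime := ⟨by rw [hcard]; exact hp.out⟩
  haveI : IsCyclic Gal(L/K) := isCyclic_of_prime_card rfl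
  obtain ⟨σ, hσ⟩ := IsCyclic.exists_generator (α := Gal(L/K))
  obtain ⟨h1, h2⟩ := herbU hcard hσ
  have h3 : (nU p σ).ker ≤ (dU σ).range := by
    intro y hy
    obtain ⟨b, hb, hyb⟩ := h90 hcard hσ ((MonoidHom.mem_ker).1 hy)
    exact mem_range_dU hcard hcl hσ hb hyb (fun Q hQ => by rw [hur Q hQ]; exact one_dvd _)
  rw [Subgroup.relIndex_eq_one.2 h3] at h1
  have h4 := hp.out.two_le
  have h5 : 1 ≤ (nU p σ).range.relIndex (dU σ).ker := Nat.one_le_iff_ne_zero.2 h2
  nlinarith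

end

end Pool.Agent.Helper832_EG
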