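import Pool.Agent.Helper832_EG.PD6

set_option linter.style.haveILetI false
set_option linter.unusedSectionVars false
set_option linter.unusedVariables false

open NumberField Ideal Module Pool.Agent.TeamU
open scoped Pointwise nonZeroDivisors

namespace Pool.Agent.Helper832_EG

section
variable {K L : Type} [Field K] [NumberField K] [Field L] [NumberField L] [Algebra K L] [IsGalois K L]

lemma mult_mul {P : Ideal (𝓞 L)} (hP : P.IsMaximal) {I J : Ideal (𝓞 L)} (hI : I ≠ ⊥) (hJ : J ≠ ⊥) :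
    multiplicity P (I * J) = multiplicity P I + multiplicity P J := by
  have hP0 : P ≠ ⊥ := Ideal.IsMaximal.ne_bot_of_isIntegral_int P
  have hpr : Prime P := Ideal.prime_of_isPrime hP0 hP.isPrime
  exact multiplicity_mul hpr (FiniteMultiplicity.of_prime_left hpr (mul_ne_zero hI hJ))

lemma mult_pow {P : Ideal (𝓞 L)} (hP : P.IsMaximal) {I : Ideal (𝓞 L)} (hI : I ≠ ⊥) (n : ℕ) :
    multiplicity P (I ^ n) = n * multiplicity P I := by
  have hP0 : P ≠ ⊥ := Ideal.IsMaximal.ne_bot_of_isIntegral_int P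
  have hpr : Prime P := Ideal.prime_of_isPrime hP0 hP.isPrime
  exact FiniteMultiplicity.multiplicity_pow hpr (FiniteMultiplicity.of_prime_left hpr hI)

/-- The extension is ramified exactly at the prime `P`, which is totally ramified. -/
structure OneRam (K L : Type) [Field K] [NumberField K] [Field L] [NumberField L] [Algebra K L]
    (p : ℕ) (P : Ideal (𝓞 L)) : Prop where
  max : P.IsMaximal
  ram : P.ramificationIdx (𝓞 K) = p
  other : ∀ Q : Ideal (𝓞 L), Q.IsMaximal → Q ≠ P → Q.ramificationIdx (𝓞 K) = 1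

lemma OneRam.dvd {p : ℕ} {P : Ideal (𝓞 L)} (h : OneRam K L p P) {I : Ideal (𝓞 L)} (hI : p ∣ multiplicity P I) :
    ∀ Q : Ideal (𝓞 L), Q.IsMaximal → Q.ramificationIdx (𝓞 K) ∣ multiplicity Q I := by
  intro Q hQ
  by_cases hQP : Q = P
  · rw [hQP, h.ram]; exact hI
  · rw [h.other Q hQ hQP]; exact one_dvd _

variable [IsTotallyComplex K] {p : ℕ} [hp : Fact p.Prime] (hcard : Nat.card Gal(L/K) = p)
  (hcl : ¬ p ∣ classNumber K) {σ : Gal(L/K)} (hσ : ∀ g : Gal(L/K), g ∈ Subgroup.zpowers σ)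
  {P : Ideal (𝓞 L)} (hR : OneRam K L p P)
include hcard hcl hσ hR

lemma relIndex_le : (dU σ).range.relIndex (nU p σ).ker ≤ p := by
  classical
  have hex : ∀ y : (nU p σ).ker, ∃ b : 𝓞 L, b ≠ 0 ∧ σ • b = (y : (𝓞 L)ˣ) * b := fun y =>
    h90 hcard hσ ((MonoidHom.mem_ker).1 y.2)
  choose b hb hyb using hex
  have hspan : ∀ y, Ideal.span {b y} ≠ ⊥ := fun y => by simpa using hb y
  rw [Subgroup.relIndex, Subgroup.index_eq_card]
  have hinj : Function.Injective (fun c : (nU p σ).ker ⧸ ((dU σ).range.subgroupOf (nU p σ).ker) =>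
      ((multiplicity P (Ideal.span {b c.out}) : ℕ) : ZMod p)) := by
    intro c c' hcc
    have h1 : ((multiplicity P (Ideal.span {b c.out}) : ℕ) : ZMod p) =
      ((multiplicity P (Ideal.span {b c'.out}) : ℕ) : ZMod p) := hcc
    -- the element `y y' ^ (p-1)`
    have h2 : ((c.out : (𝓞 L)ˣ) * (c'.out : (𝓞 L)ˣ) ^ (p - 1)) ∈ (dU σ).range := by
      refine mem_range_dU hcard hcl hσ (b := b c.out * b c'.out ^ (p - 1)) (mul_ne_zero (hb _) (pow_ne_zero _ (hb _))) ?_ ?_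
      · rw [smul_mul', smul_pow', hyb, hyb, Units.val_mul, Units.val_pow_eq_pow_val]; ring
      · apply hR.dvd
        rw [← Ideal.span_singleton_mul_span_singleton, ← Ideal.span_singleton_pow,
          mult_mul hR.max (hspan _) (pow_ne_zero _ (hspan _)), mult_pow hR.max (hspan _)]
        rw [← ZMod.natCast_eq_zero_iff, Nat.cast_add, h1, Nat.cast_mul, Nat.cast_sub hp.out.one_lt.le, Nat.cast_one]
        simp
    have h3 : ((c'.out : (𝓞 L)ˣ) ^ p) ∈ (dU σ).range := by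
      refine mem_range_dU hcard hcl hσ (b := b c'.out ^ p) (pow_ne_zero _ (hb _)) ?_ ?_
      · rw [smul_pow', hyb, Units.val_pow_eq_pow_val]; ring
      · apply hR.dvd
        rw [← Ideal.span_singleton_pow, mult_pow hR.max (hspan _)]
        exact dvd_mul_right _ _
    have h4 : ((c'.out : (𝓞 L)ˣ))⁻¹ * (c.out : (𝓞 L)ˣ) ∈ (dU σ).range := by
      have h5 := (dU σ).range.mul_mem ((dU σ).range.inv_mem h3) h2
      have h6 : ((c'.out : (𝓞 L)ˣ) ^ p)⁻¹ * ((c.out : (𝓞 L)ˣ) * (c'.out : (𝓞 L)ˣ) ^ (p - 1)) =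
          ((c'.out : (𝓞 L)ˣ))⁻¹ * (c.out : (𝓞 L)ˣ) := by
        have h7 : (c'.out : (𝓞 L)ˣ) ^ p = (c'.out : (𝓞 L)ˣ) ^ (p - 1) * (c'.out : (𝓞 L)ˣ) := by
          rw [← pow_succ, Nat.sub_add_cancel hp.out.pos]
        rw [h7]
        generalize (c'.out : (𝓞 L)ˣ) ^ (p - 1) = z
        generalize (c'.out : (𝓞 L)ˣ) = z'
        generalize (c.out : (𝓞 L)ˣ) = z''
        rw [mul_inv, mul_comm z⁻¹, mul_assoc, mul_comm z'' z, inv_mul_cancel_left]
      rwa [h6] at h5
    have h8 : (QuotientGroup.mk c'.out : (nU p σ).ker ⧸ ((dU σ).range.subgroupOf (nU p σ).ker)) = QuotientGroup.mk c.out :=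
      QuotientGroup.eq.2 ((Subgroup.mem_subgroupOf).2 h4)
    have h9 : ∀ q : (nU p σ).ker ⧸ ((dU σ).range.subgroupOf (nU p σ).ker), QuotientGroup.mk q.out = q :=
      fun q => Quotient.out_eq q
    rw [h9, h9] at h8
    exact h8.symm
  calc Nat.card ((nU p σ).ker ⧸ ((dU σ).range.subgroupOf (nU p σ).ker)) ≤ Nat.card (ZMod p) :=
        Nat.card_le_card_of_injective _ hinj
    _ = p := by simp

/-- Every unit of the base field is the norm of a unit. -/
theorem unit_norm (v : (𝓞 K)ˣ) : ∃ y : (𝓞 L)ˣ, nU p σ y = Units.map (algebraMap (𝓞 K) (𝓞 L) : 𝓞 K →* 𝓞 L) v := by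
  obtain ⟨h1, h2⟩ := herbU hcard hσ
  have h3 := relIndex_le hcard hcl hσ hR
  have h4 : (nU p σ).range.relIndex (dU σ).ker = 1 := by
    have h5 : p * (nU p σ).range.relIndex (dU σ).ker ≤ p * 1 := by rw [mul_one]; exact h1.trans h3
    have h6 := Nat.le_of_mul_le_mul_left h5 hp.out.pos
    omega
  exact (Subgroup.relIndex_eq_one.1 h4) ((mem_ker_dU hσ _).2 ⟨v, rfl⟩)

/-- There is an invariant principal ideal which does not come from the base field. -/
theorem exists_prin : ∃ (b : 𝓞 L) (u : (𝓞 L)ˣ), b ≠ 0 ∧ σ • b = u * b ∧ ¬ p ∣ multiplicity P (Ideal.span {b}) := by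
  obtain ⟨h1, h2⟩ := herbU hcard hσ
  have h3 : ¬ (nU p σ).ker ≤ (dU σ).range := by
    intro h
    rw [Subgroup.relIndex_eq_one.2 h] at h1
    have h4 := hp.out.two_le
    have h5 : 1 ≤ (nU p σ).range.relIndex (dU σ).ker := Nat.one_le_iff_ne_zero.2 h2
    nlinarith
  obtain ⟨y, hy, hy'⟩ := SetLike.not_le_iff_exists.1 h3
  obtain ⟨b, hb, hyb⟩ := h90 hcard hσ ((MonoidHom.mem_ker).1 hy)
  refine ⟨b, y, hb, hyb, fun h => hy' ?_⟩
  exact mem_range_dU hcard hcl hσ hb hyb (hR.dvd h)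

end

end Pool.Agent.Helper832_EG
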