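import Pool.Agent.Helper832_EG.PD7

set_option linter.style.haveILetI false
set_option linter.unusedSectionVars false
set_option linter.unusedVariables false

open NumberField Ideal Module Pool.Agent.TeamU Polynomial
open scoped Pointwise nonZeroDivisors

namespace Pool.Agent.Helper832_EG

/-- An automorphism of order dividing `p` fixes a nontrivial element of order `p`. -/
lemma exists_fixed_class {A : Type*} [CommGroup A] [Finite A] {p : ℕ} [hp : Fact p.Prime] (T : A →* A)
    (hT : ∀ a, T^[p] a = a) (hdvd : p ∣ Nat.card A) : ∃ c : A, c ≠ 1 ∧ c ^ p = 1 ∧ T c = c := by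
  classical
  obtain ⟨G, hG⟩ := exists_cyc_poly p
  let S : Module.End ℤ (Additive A) := (MonoidHom.toAdditive T).toIntLinearMap
  have hS : ∀ u : A, S (Additive.ofMul u) = Additive.ofMul (T u) := fun u => rfl
  have hSn : ∀ (n : ℕ) (u : A), (S ^ n) (Additive.ofMul u) = Additive.ofMul (T^[n] u) := by
    intro n u
    induction n with
    | zero => rfl
    | succ n ih => rw [pow_succ', Module.End.mul_apply, ih, hS, Function.iterate_succ_apply']
  let D : A →* A :=
    { toFun := fun a => T a / a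
      map_one' := by simp
      map_mul' := fun a b => by rw [_root_.map_mul]; exact mul_div_mul_comm _ _ _ _ }
  have hD : ∀ a, D a = T a / a := fun a => rfl
  have hS1 : ∀ (n : ℕ) (u : A), ((S - 1) ^ n) (Additive.ofMul u) = Additive.ofMul (D^[n] u) := by
    intro n u
    induction n with
    | zero => rfl
    | succ n ih =>
      rw [pow_succ', Module.End.mul_apply, ih, Function.iterate_succ_apply', hD, LinearMap.sub_apply, hS]
      rfl
  have hpoly : (S - 1) ^ p = (S ^ p - 1) + (p : Module.End ℤ (Additive A)) * ((S - 1) * Polynomial.aeval S G) := by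
    have h1 : (X - 1 : ℤ[X]) ^ p = (X ^ p - 1) + (p : ℤ[X]) * ((X - 1) * G) := by
      have h2 : (X - 1 : ℤ[X]) ^ p = (X - 1) ^ (p - 1) * (X - 1) := by
        rw [← pow_succ, Nat.sub_add_cancel hp.out.pos]
      rw [h2, hG, add_mul, geom_sum_mul]; ring
    have h3 := congrArg (Polynomial.aeval S) h1
    simpa using h3
  have hkill : ∀ u : A, u ^ p = 1 → D^[p] u = 1 := by
    intro u hu
    have h1 := DFunLike.congr_fun hpoly (Additive.ofMul u)
    have h2 : (S ^ p - 1) (Additive.ofMul u) = 0 := by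
      rw [LinearMap.sub_apply, hSn, hT, Module.End.one_apply, sub_self]
    have h3 : ((p : Module.End ℤ (Additive A)) * ((S - 1) * Polynomial.aeval S G)) (Additive.ofMul u) = 0 := by
      rw [(Nat.cast_commute p _).eq, Module.End.mul_apply, Module.End.natCast_apply, ← ofMul_pow, hu, ofMul_one, map_zero]
    rw [hS1, LinearMap.add_apply, h2, h3, add_zero] at h1
    exact Additive.ofMul.injective h1
  obtain ⟨c, hc⟩ := exists_prime_orderOf_dvd_card' p hdvd
  have hc1 : c ≠ 1 := by
    rintro rfl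
    rw [orderOf_one] at hc
    exact hp.out.ne_one hc.symm
  have hcp : c ^ p = 1 := by rw [← hc, pow_orderOf_eq_one]
  have hex : ∃ n, D^[n] c = 1 := ⟨p, hkill c hcp⟩
  have hn := Nat.find_spec hex
  have hmin := fun m hm => Nat.find_min hex (m := m) hm
  set n := Nat.find hex with hndef
  have hn0 : n ≠ 0 := by
    intro h
    rw [h] at hn
    exact hc1 hn
  refine ⟨D^[n - 1] c, hmin _ (by omega), ?_, ?_⟩
  · have h1 : ∀ m, (D^[m] c) ^ p = 1 := by
      intro m
      induction m with
      | zero => exact hcp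
      | succ m ih => rw [Function.iterate_succ_apply', ← map_pow, ih, map_one]
    exact h1 _
  · have h2 : D (D^[n - 1] c) = 1 := by
      have h3 := Function.iterate_succ_apply' D (n - 1) c
      rw [Nat.succ_eq_add_one, Nat.sub_add_cancel (by omega), hn] at h3
      exact h3.symm
    exact div_eq_one.1 h2

section
variable {K L : Type} [Field K] [NumberField K] [Field L] [NumberField L] [Algebra K L] [IsGalois K L]

lemma norm_prod {p : ℕ} [hp : Fact p.Prime] (hcard : Nat.card Gal(L/K) = p) {σ : Gal(L/K)}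
    (hσ : ∀ g : Gal(L/K), g ∈ Subgroup.zpowers σ) (z : L) :
    algebraMap K L (Algebra.norm K z) = ∏ i ∈ Finset.range p, (σ ^ i) z := by
  classical
  haveI : IsCyclic Gal(L/K) := ⟨σ, hσ⟩
  have hord : orderOf σ = p := by rw [orderOf_eq_card_of_forall_mem_zpowers hσ, hcard]
  rw [Algebra.norm_eq_prod_automorphisms]
  have h1 : (Finset.univ : Finset Gal(L/K)) = Finset.image (fun i => σ ^ i) (Finset.range p) := by
    rw [← hord, IsCyclic.image_range_orderOf hσ]
  rw [h1, Finset.prod_image]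
  intro i hi j hj hij
  rw [← hord] at hi hj
  exact pow_injOn_Iio_orderOf (Finset.mem_range.1 (Finset.mem_coe.1 hi)) (Finset.mem_range.1 (Finset.mem_coe.1 hj)) hij

/-- The action on nonzero ideals. -/
noncomputable def sI (σ : Gal(L/K)) : (Ideal (𝓞 L))⁰ →* (Ideal (𝓞 L))⁰ where
  toFun I := ⟨σ • (I : Ideal (𝓞 L)), by
    refine mem_nonZeroDivisors_of_ne_zero fun h => nonZeroDivisors.coe_ne_zero I ?_
    have h1 : σ⁻¹ • (σ • (I : Ideal (𝓞 L))) = σ⁻¹ • (0 : Ideal (𝓞 L)) := by rw [h]
    rw [inv_smul_smul] at h1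
    rw [h1, Ideal.pointwise_smul_def]
    exact Ideal.map_bot⟩
  map_one' := by
    apply Subtype.ext
    show σ • (1 : Ideal (𝓞 L)) = 1
    rw [Ideal.pointwise_smul_def, Ideal.one_eq_top]
    exact Ideal.map_top _
  map_mul' I J := Subtype.ext (smul_mul_ideal σ _ _)

lemma smul_span (σ : Gal(L/K)) (x : 𝓞 L) : σ • Ideal.span {x} = Ideal.span {σ • x} := by
  rw [Ideal.pointwise_smul_def, Ideal.map_span, Set.image_singleton]; rfl

lemma sI_wd (σ : Gal(L/K)) {I J : (Ideal (𝓞 L))⁰} (h : ClassGroup.mk0 I = ClassGroup.mk0 J) :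
    ClassGroup.mk0 (sI σ I) = ClassGroup.mk0 (sI σ J) := by
  obtain ⟨x, y, hx, hy, hxy⟩ := ClassGroup.mk0_eq_mk0_iff.1 h
  refine ClassGroup.mk0_eq_mk0_iff.2 ⟨σ • x, σ • y, ?_, ?_, ?_⟩
  · exact (smul_ne_zero_iff_ne σ).2 hx
  · exact (smul_ne_zero_iff_ne σ).2 hy
  · show Ideal.span {σ • x} * (σ • (I : Ideal (𝓞 L))) = Ideal.span {σ • y} * (σ • (J : Ideal (𝓞 L)))
    rw [← smul_span, ← smul_span, ← smul_mul_ideal, ← smul_mul_ideal, hxy]

/-- The action on the class group. -/
noncomputable def sC (σ : Gal(L/K)) : ClassGroup (𝓞 L) →* ClassGroup (𝓞 L) where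
  toFun c := ClassGroup.mk0 (sI σ (ClassGroup.mk0_surjective c).choose)
  map_one' := by
    have h1 := sI_wd σ (I := (ClassGroup.mk0_surjective (1 : ClassGroup (𝓞 L))).choose) (J := 1)
      (by rw [(ClassGroup.mk0_surjective (1 : ClassGroup (𝓞 L))).choose_spec, map_one])
    rw [map_one (sI σ), map_one ClassGroup.mk0] at h1
    exact h1
  map_mul' c d := by
    rw [← map_mul, ← map_mul]
    apply sI_wd σ
    rw [map_mul, (ClassGroup.mk0_surjective c).choose_spec, (ClassGroup.mk0_surjective d).choose_spec,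
      (ClassGroup.mk0_surjective (c * d)).choose_spec]

lemma sC_mk0 (σ : Gal(L/K)) (I : (Ideal (𝓞 L))⁰) : sC σ (ClassGroup.mk0 I) = ClassGroup.mk0 (sI σ I) :=
  sI_wd σ (ClassGroup.mk0_surjective (ClassGroup.mk0 I)).choose_spec

lemma sC_iter (σ : Gal(L/K)) (n : ℕ) (I : (Ideal (𝓞 L))⁰) :
    (sC σ)^[n] (ClassGroup.mk0 I) = ClassGroup.mk0 (sI (σ ^ n) I) := by
  induction n with
  | zero =>
    have h1 : sI (σ ^ 0) I = I := by
      apply Subtype.ext
      show (σ ^ 0) • (I : Ideal (𝓞 L)) = (I : Ideal (𝓞 L))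
      rw [pow_zero, one_smul]
    rw [h1]; rfl
  | succ n ih =>
    rw [Function.iterate_succ_apply', ih, sC_mk0]
    congr 1
    apply Subtype.ext
    show σ • (σ ^ n) • (I : Ideal (𝓞 L)) = (σ ^ (n + 1)) • (I : Ideal (𝓞 L))
    rw [smul_smul, ← pow_succ']

end

end Pool.Agent.Helper832_EG
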