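import Pool.Agent.Helper832_EG.PD8

set_option linter.style.haveILetI false
set_option linter.unusedSectionVars false
set_option linter.unusedVariables false

open NumberField Ideal Module Pool.Agent.TeamU
open scoped Pointwise nonZeroDivisors

namespace Pool.Agent.Helper832_EG

section
variable {K L : Type} [Field K] [NumberField K] [Field L] [NumberField L] [Algebra K L] [IsGalois K L]
variable [IsTotallyComplex K] {p : ℕ} [hp : Fact p.Prime] (hcard : Nat.card Gal(L/K) = p)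
  (hcl : ¬ p ∣ classNumber K) {σ : Gal(L/K)} (hσ : ∀ g : Gal(L/K), g ∈ Subgroup.zpowers σ)
  {P : Ideal (𝓞 L)} (hR : OneRam K L p P)
include hcard hcl hσ hR

/-- An invariant class contains, up to a factor, an invariant ideal. -/
lemma exists_inv_ideal (I : (Ideal (𝓞 L))⁰) (hI : ClassGroup.mk0 (sI σ I) = ClassGroup.mk0 I) :
    ∃ b : 𝓞 L, b ≠ 0 ∧ σ • (Ideal.span {b} * (I : Ideal (𝓞 L))) = Ideal.span {b} * I := by
  classical
  haveI : IsCyclic Gal(L/K) := ⟨σ, hσ⟩
  have hσp : σ ^ p = 1 := by rw [← hcard]; exact pow_card_eq_one'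
  obtain ⟨x, y, hx, hy, hxy⟩ := ClassGroup.mk0_eq_mk0_iff.1 hI
  have hxy' : Ideal.span {x} * (σ • (I : Ideal (𝓞 L))) = Ideal.span {y} * I := hxy
  have hI0 : (I : Ideal (𝓞 L)) ≠ ⊥ := nonZeroDivisors.coe_ne_zero I
  -- products of conjugates
  let N : 𝓞 L → 𝓞 L := fun z => ∏ i ∈ Finset.range p, (σ ^ i) • z
  have hN0 : ∀ z, z ≠ 0 → N z ≠ 0 := fun z hz =>
    Finset.prod_ne_zero_iff.2 fun i _ => (smul_ne_zero_iff_ne (σ ^ i)).2 hz
  have hσN : ∀ z, σ • N z = N z := by
    intro z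
    have h1 : σ • N z = ∏ i ∈ Finset.range p, (σ ^ (i + 1)) • z := by
      show σ • (∏ i ∈ Finset.range p, (σ ^ i) • z) = _
      rw [Finset.smul_prod']
      exact Finset.prod_congr rfl fun i _ => by rw [smul_smul, ← pow_succ']
    rw [h1]
    have h2 := Finset.prod_range_succ' (fun i => (σ ^ i) • z) p
    rw [Finset.prod_range_succ, hσp, one_smul, pow_zero, one_smul] at h2
    exact (mul_right_cancel₀ (b := z) · h2.symm) |> fun f => by
      by_cases hz : z = 0
      · subst hz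
        simp [N, hp.out.ne_zero]
      · exact (f hz)
  have hspanN : Ideal.span {N x} = Ideal.span {N y} := by
    have h1 : ∀ i, Ideal.span {(σ ^ i) • x} * ((σ ^ (i + 1)) • (I : Ideal (𝓞 L))) =
        Ideal.span {(σ ^ i) • y} * ((σ ^ i) • (I : Ideal (𝓞 L))) := by
      intro i
      have h2 := congrArg (fun J => (σ ^ i) • J) hxy'
      simp only [smul_mul_ideal, smul_span, smul_smul, ← pow_succ] at h2
      exact h2
    have h3 : Ideal.span {N x} * ∏ i ∈ Finset.range p, ((σ ^ (i + 1)) • (I : Ideal (𝓞 L))) =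
        Ideal.span {N y} * ∏ i ∈ Finset.range p, ((σ ^ i) • (I : Ideal (𝓞 L))) := by
      have h4 : ∀ z, Ideal.span {N z} = ∏ i ∈ Finset.range p, Ideal.span {(σ ^ i) • z} := fun z =>
        (Ideal.prod_span_singleton _ _).symm
      rw [h4, h4, ← Finset.prod_mul_distrib, ← Finset.prod_mul_distrib]
      exact Finset.prod_congr rfl fun i _ => h1 i
    have h5 : ∏ i ∈ Finset.range p, ((σ ^ (i + 1)) • (I : Ideal (𝓞 L))) =
        ∏ i ∈ Finset.range p, ((σ ^ i) • (I : Ideal (𝓞 L))) := by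
      have h2 := Finset.prod_range_succ' (fun i => (σ ^ i) • (I : Ideal (𝓞 L))) p
      rw [Finset.prod_range_succ, hσp, one_smul, pow_zero, one_smul] at h2
      exact (mul_right_cancel₀ hI0 h2).symm
    rw [h5] at h3
    refine mul_right_cancel₀ ?_ h3
    refine Finset.prod_ne_zero_iff.2 fun i _ => ?_
    intro h
    have h6 : (σ ^ i)⁻¹ • ((σ ^ i) • (I : Ideal (𝓞 L))) = (σ ^ i)⁻¹ • (0 : Ideal (𝓞 L)) := by rw [h]
    rw [inv_smul_smul, Ideal.pointwise_smul_def] at h6
    exact hI0 (h6.trans Ideal.map_bot)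
  rw [Ideal.span_singleton_eq_span_singleton] at hspanN
  obtain ⟨e, he⟩ := hspanN
  -- `e` is invariant
  have he' : sU σ e = e := by
    apply Units.ext
    rw [sU_coe]
    have h1 := congrArg (fun z => σ • z) he
    simp only [smul_mul', hσN] at h1
    rw [← he] at h1
    exact mul_left_cancel₀ (hN0 x hx) h1
  obtain ⟨v, hv⟩ := (mem_ker_dU hσ e).1 (div_eq_one.2 he')
  obtain ⟨η, hη⟩ := unit_norm hcard hcl hσ hR v
  rw [hv] at hη
  -- Hilbert 90 for `y / (η x)`
  set t : L := (y : L) / (((η : 𝓞 L) : L) * (x : L)) with ht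
  have hηN : N (η : 𝓞 L) = e := by
    have h1 := congrArg (fun z : (𝓞 L)ˣ => (z : 𝓞 L)) hη
    rw [← h1]
    show _ = ((∏ i ∈ Finset.range p, (sU σ)^[i] η : (𝓞 L)ˣ) : 𝓞 L)
    rw [Units.coe_prod]
    exact Finset.prod_congr rfl fun i _ => (sU_iter σ i η).symm
  have hNmul : ∀ a b, N (a * b) = N a * N b := by
    intro a b
    show ∏ i ∈ Finset.range p, (σ ^ i) • (a * b) = _
    rw [← Finset.prod_mul_distrib]
    exact Finset.prod_congr rfl fun i _ => smul_mul' _ _ _
  have hNy : N y = N ((η : 𝓞 L) * x) := by rw [hNmul, hηN, ← he, mul_comm]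
  have hcoe : ∀ z : 𝓞 L, ((N z : 𝓞 L) : L) = ∏ i ∈ Finset.range p, (σ ^ i) (z : L) := by
    intro z
    refine (map_prod (algebraMap (𝓞 L) L) _ _).trans ?_
    exact Finset.prod_congr rfl fun i _ => rfl
  have hηx : (((η : 𝓞 L) : L) * (x : L)) ≠ 0 := by
    have : ((((η : 𝓞 L) * x : 𝓞 L)) : L) ≠ 0 := by
      rw [Ne, RingOfIntegers.coe_eq_zero_iff]
      exact mul_ne_zero η.ne_zero hx
    simpa using this
  have hyL : (y : L) ≠ 0 := by rw [Ne, RingOfIntegers.coe_eq_zero_iff]; exact hy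
  have hnorm : Algebra.norm K t = 1 := by
    apply (algebraMap K L).injective
    rw [norm_prod hcard hσ, map_one, ht]
    have h1 : ∀ i ∈ Finset.range p, (σ ^ i) ((y : L) / (((η : 𝓞 L) : L) * (x : L))) =
        (σ ^ i) (y : L) / (σ ^ i) ((((η : 𝓞 L) * x : 𝓞 L)) : L) := by
      intro i _
      rw [map_div₀]
      congr 1
    rw [Finset.prod_congr rfl h1, Finset.prod_div_distrib, ← hcoe, ← hcoe, hNy, div_self]
    rw [Ne, RingOfIntegers.coe_eq_zero_iff]
    exact hN0 _ (mul_ne_zero η.ne_zero hx)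
  obtain ⟨z, hz⟩ := groupCohomology.exists_div_of_norm_eq_one hσ hnorm
  -- clear denominators
  have halg : IsAlgebraic ℤ (z : L) := (IsFractionRing.isAlgebraic_iff ℤ ℚ L).2 (Algebra.IsAlgebraic.isAlgebraic _)
  obtain ⟨m, hm, hint⟩ := halg.exists_integral_multiple
  let b : 𝓞 L := ⟨m • (z : L), hint⟩
  have hbz : (b : L) = m • (z : L) := rfl
  have hb0 : b ≠ 0 := by
    intro h
    have h1 : (b : L) = 0 := by rw [h]; rfl
    rw [hbz, smul_eq_zero] at h1
    exact h1.elim hm z.ne_zero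
  have hσb : ((σ • b : 𝓞 L) : L) = m • σ (z : L) := by
    show σ (m • (z : L)) = _
    rw [map_zsmul]
  have hσz : σ (z : L) ≠ 0 := (map_ne_zero σ).2 z.ne_zero
  have hrel : y * (σ • b) = (η : 𝓞 L) * x * b := by
    apply RingOfIntegers.coe_injective
    show algebraMap (𝓞 L) L (y * (σ • b)) = algebraMap (𝓞 L) L ((η : 𝓞 L) * x * b)
    rw [map_mul, map_mul, map_mul]
    have h1 : (z : L) / σ (z : L) = (y : L) / (((η : 𝓞 L) : L) * (x : L)) := hz
    rw [div_eq_div_iff hσz hηx] at h1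
    have h2 : algebraMap (𝓞 L) L (σ • b) = m • σ (z : L) := hσb
    have h3 : algebraMap (𝓞 L) L b = m • (z : L) := hbz
    rw [h2, h3, mul_smul_comm, mul_smul_comm]
    congr 1
    have h4 : (y : L) * σ (z : L) = (z : L) * (((η : 𝓞 L) : L) * (x : L)) := h1.symm
    rw [h4]; ring
  refine ⟨b, hb0, ?_⟩
  have hx0 : Ideal.span {x} ≠ (0 : Ideal (𝓞 L)) := by simpa using hx
  apply mul_left_cancel₀ hx0
  rw [smul_mul_ideal, smul_span]
  calc Ideal.span {x} * (Ideal.span {σ • b} * (σ • (I : Ideal (𝓞 L))))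
      = Ideal.span {σ • b} * (Ideal.span {x} * (σ • (I : Ideal (𝓞 L)))) := by ring
    _ = Ideal.span {σ • b} * (Ideal.span {y} * I) := by rw [hxy']
    _ = Ideal.span {y * (σ • b)} * I := by
        rw [← mul_assoc, Ideal.span_singleton_mul_span_singleton, mul_comm y]
    _ = Ideal.span {(η : 𝓞 L) * x * b} * I := by rw [hrel]
    _ = Ideal.span {x * b} * I := by
        congr 1
        rw [mul_assoc]
        exact Ideal.span_singleton_mul_left_unit η.isUnit _
    _ = Ideal.span {x} * (Ideal.span {b} * I) := by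
        rw [← mul_assoc, Ideal.span_singleton_mul_span_singleton]

omit [IsTotallyComplex K] hcard hcl hR in
lemma inv_of_gen {I : Ideal (𝓞 L)} (h : σ • I = I) (g : Gal(L/K)) : g • I = I := by
  have h3 : σ ∈ MulAction.stabilizer Gal(L/K) I := h
  obtain ⟨n, rfl⟩ := Subgroup.mem_zpowers_iff.1 (hσ g)
  exact Subgroup.zpow_mem _ h3 n

/-- **The class number stays prime to `p`.** -/
theorem class_step : ¬ p ∣ classNumber L := by
  classical
  intro hdvd
  have hdvd' : p ∣ Nat.card (ClassGroup (𝓞 L)) := by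
    rw [Nat.card_eq_fintype_card]; exact hdvd
  have hσp : σ ^ p = 1 := by rw [← hcard]; exact pow_card_eq_one'
  obtain ⟨c, hc1, hcp, hc⟩ := exists_fixed_class (sC σ) (by
    intro a
    obtain ⟨I, rfl⟩ := ClassGroup.mk0_surjective a
    rw [sC_iter, hσp]
    congr 1
    apply Subtype.ext
    exact one_smul _ (I : Ideal (𝓞 L))) hdvd'
  obtain ⟨I, rfl⟩ := ClassGroup.mk0_surjective c
  rw [sC_mk0] at hc
  obtain ⟨b, hb, hbI⟩ := exists_inv_ideal hcard hcl hσ hR I hc
  obtain ⟨b0, u0, hb0, hub0, hm0⟩ := exists_prin hcard hcl hσ hR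
  have hI0 : (I : Ideal (𝓞 L)) ≠ ⊥ := nonZeroDivisors.coe_ne_zero I
  have hspan : ∀ z : 𝓞 L, z ≠ 0 → Ideal.span {z} ≠ (⊥ : Ideal (𝓞 L)) := fun z hz => by simpa using hz
  set J : Ideal (𝓞 L) := Ideal.span {b} * I with hJ
  have hJ0 : J ≠ ⊥ := mul_ne_zero (hspan b hb) hI0
  -- adjust the exponent
  obtain ⟨e, he⟩ : ∃ e : ℕ, p ∣ multiplicity P J + e * multiplicity P (Ideal.span {b0}) := by
    have h1 : ((multiplicity P (Ideal.span {b0}) : ℕ) : ZMod p) ≠ 0 := by
      rw [Ne, ZMod.natCast_eq_zero_iff]; exact hm0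
    refine ⟨(-((multiplicity P J : ℕ) : ZMod p) / ((multiplicity P (Ideal.span {b0}) : ℕ) : ZMod p)).val, ?_⟩
    rw [← ZMod.natCast_eq_zero_iff, Nat.cast_add, Nat.cast_mul, ZMod.natCast_val, ZMod.cast_id,
      div_mul_cancel₀ _ h1, add_neg_cancel]
  set J' : Ideal (𝓞 L) := J * Ideal.span {b0} ^ e with hJ'
  have hJ'0 : J' ≠ ⊥ := mul_ne_zero hJ0 (pow_ne_zero _ (hspan b0 hb0))
  have hpow : ∀ (g : Gal(L/K)) (n : ℕ) (A : Ideal (𝓞 L)), g • A = A → g • (A ^ n) = A ^ n := by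
    intro g n A hA
    induction n with
    | zero =>
      rw [pow_zero, Ideal.pointwise_smul_def, Ideal.one_eq_top]
      exact Ideal.map_top _
    | succ n ih => rw [pow_succ, smul_mul_ideal, ih, hA]
  have hinv : ∀ g : Gal(L/K), g • J' = J' := by
    intro g
    rw [hJ', smul_mul_ideal, inv_of_gen hσ hbI, hpow g e _ (inv_span hσ hub0 g)]
  have hmult : p ∣ multiplicity P J' := by
    rw [hJ', mult_mul hR.max hJ0 (pow_ne_zero _ (hspan b0 hb0)), mult_pow hR.max (hspan b0 hb0)]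
    exact he
  obtain ⟨A, hA⟩ := descent (K := K) _ J' hJ'0 le_rfl hinv (hR.dvd hmult)
  -- the class of `J'`
  have hA0 : A ≠ ⊥ := by
    rintro rfl
    rw [Ideal.map_bot] at hA
    exact hJ'0 hA
  have hprin : (J' ^ classNumber K).IsPrincipal := by
    have h1 : (ClassGroup.mk0 (⟨A, mem_nonZeroDivisors_of_ne_zero hA0⟩ : (Ideal (𝓞 K))⁰)) ^ classNumber K = 1 :=
      pow_card_eq_one
    rw [← map_pow, ClassGroup.mk0_eq_one_iff] at h1
    obtain ⟨⟨a, ha⟩⟩ := h1
    have ha' : A ^ classNumber K = Ideal.span {a} := ha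
    rw [hA, ← Ideal.map_pow, ha', Ideal.map_span, Set.image_singleton]
    exact ⟨⟨_, rfl⟩⟩
  have hcls : (ClassGroup.mk0 I) ^ classNumber K = 1 := by
    have h1 : ClassGroup.mk0 I = ClassGroup.mk0 (⟨J', mem_nonZeroDivisors_of_ne_zero hJ'0⟩ : (Ideal (𝓞 L))⁰) := by
      refine ClassGroup.mk0_eq_mk0_iff.2 ⟨b * b0 ^ e, 1, mul_ne_zero hb (pow_ne_zero _ hb0), one_ne_zero, ?_⟩
      show Ideal.span {b * b0 ^ e} * (I : Ideal (𝓞 L)) = Ideal.span {1} * (J')
      rw [hJ', hJ, Ideal.span_singleton_one, Ideal.top_mul, ← Ideal.span_singleton_mul_span_singleton,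
        ← Ideal.span_singleton_pow]
      ring
    rw [h1, ← map_pow, ClassGroup.mk0_eq_one_iff]
    exact hprin
  apply hc1
  have h2 : orderOf (ClassGroup.mk0 I) ∣ p := orderOf_dvd_of_pow_eq_one hcp
  have h3 : orderOf (ClassGroup.mk0 I) ∣ classNumber K := orderOf_dvd_of_pow_eq_one hcls
  rcases (Nat.dvd_prime hp.out).1 h2 with h4 | h4
  · exact orderOf_eq_one_iff.1 h4
  · rw [h4] at h3
    exact absurd h3 hcl

end

end Pool.Agent.Helper832_EG
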