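import Pool.Agent.Helper832_EG.OmD

set_option linter.style.haveILetI false
set_option linter.unusedSectionVars false
set_option linter.unusedVariables false

namespace Pool.Agent.Helper832_EG

open AddMonoidAlgebra

section
variable {p : ℕ} [Fact p.Prime] {r : ℕ}

/-- The element `γ - 1` of the Iwasawa algebra. -/
noncomputable def T (a : Fin r → ℤ_[p]) : Lam p r := gr a - 1

lemma red_T (a : Fin r → ℤ_[p]) : red (T a) = TO a := by
  rw [T, map_sub, red_gr, map_one, TO]

instance : Nontrivial (Lam p r) := (red (p := p) (r := r)).domain_nontrivial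

lemma p_sep {f : Lam p r} (h : ∀ k, (p : Lam p r) ^ k ∣ f) : f = 0 := by
  refine lim_ext fun n => ?_
  obtain ⟨g, hg⟩ := h (n + 1)
  have h1 : f.1 n = ((p : Lam p r) ^ (n + 1)).1 n * g.1 n := congrArg (fun f : Lam p r => f.1 n) hg
  rw [h1, p_pow_level n (n + 1) (Nat.lt_succ_self n), zero_mul]
  rfl

instance instDomainLam : IsDomain (Lam p r) :=
  domain_step red (p : Lam p r) (fun f hf => p_dvd_of_red hf) (fun f => p_nzd) (fun f => p_sep)

lemma p_ne_zero : (p : Lam p r) ≠ 0 := by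
  intro h
  have := p_nzd (p := p) (r := r) (f := 1) (by rw [h, zero_mul])
  exact one_ne_zero this

/-- Coprimality: `a` divides `b * f` only if it divides `f`. -/
def Cop {A : Type*} [CommRing A] (a b : A) : Prop := ∀ f, a ∣ b * f → a ∣ f

lemma cop_one {A : Type*} [CommRing A] (b : A) : Cop 1 b := fun f _ => one_dvd f

lemma cop_prime {A : Type*} [CommRing A] [IsDomain A] {q b : A} (hq : Prime q) (hb : ¬ q ∣ b) : Cop q b :=
  fun f hf => (hq.dvd_or_dvd hf).resolve_left hb

lemma cop_mul {A : Type*} [CommRing A] [IsDomain A] {a a' b : A} (ha : a ≠ 0) (h : Cop a b) (h' : Cop a' b) :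
    Cop (a * a') b := by
  intro f hf
  obtain ⟨g, hg⟩ := h f ((Dvd.intro _ rfl).trans hf)
  obtain ⟨x, hx⟩ := hf
  have h1 : a * (b * g) = a * (a' * x) := by
    rw [← mul_assoc, mul_comm a b, mul_assoc, ← hg, hx, mul_assoc]
  have h2 := mul_left_cancel₀ ha h1
  obtain ⟨y, hy⟩ := h' g ⟨x, h2⟩
  exact ⟨y, by rw [hg, hy, mul_assoc]⟩

lemma cop_pow {A : Type*} [CommRing A] [IsDomain A] {a b : A} (ha : a ≠ 0) (h : Cop a b) (n : ℕ) :
    Cop (a ^ n) b := by
  induction n with
  | zero => rw [pow_zero]; exact cop_one b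
  | succ n ih => rw [pow_succ']; exact cop_mul ha h ih

lemma cop_prod {A ι : Type*} [CommRing A] [IsDomain A] {b : A} (s : Finset ι) (a : ι → A)
    (ha : ∀ i ∈ s, a i ≠ 0) (h : ∀ i ∈ s, Cop (a i) b) : Cop (∏ i ∈ s, a i) b := by
  classical
  induction s using Finset.induction_on with
  | empty => simpa using cop_one b
  | insert i s hi ih =>
    rw [Finset.prod_insert hi]
    exact cop_mul (ha i (Finset.mem_insert_self i s)) (h i (Finset.mem_insert_self i s))
      (ih (fun j hj => ha j (Finset.mem_insert_of_mem hj)) (fun j hj => h j (Finset.mem_insert_of_mem hj)))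

lemma reg_step {a b : Lam p r} (ha : red a ≠ 0) (hab : Cop (red a) (red b)) (k : ℕ) :
    ∀ f g : Lam p r, b * f = a * g → ∃ h, (p : Lam p r) ^ k ∣ f - a * h := by
  induction k with
  | zero => intro f g _; exact ⟨0, by simp⟩
  | succ k ih =>
    intro f g hfg
    obtain ⟨ω, hω⟩ := hab (red f) ⟨red g, by rw [← map_mul, hfg, map_mul]⟩
    obtain ⟨h1, rfl⟩ := red_surj ω
    obtain ⟨f1, hf1⟩ := p_dvd_of_red (f := f - a * h1) (by rw [map_sub, map_mul, hω, sub_self])
    have h2 : b * ((p : Lam p r) * f1) = a * (g - b * h1) := by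
      rw [← hf1, mul_sub, hfg]; ring
    have h3 : red (g - b * h1) = 0 := by
      have h4 : red a * red (g - b * h1) = 0 := by
        rw [← map_mul, ← h2, map_mul, map_mul, red_p, zero_mul, mul_zero]
      exact (mul_eq_zero.1 h4).resolve_left ha
    obtain ⟨g1, hg1⟩ := p_dvd_of_red h3
    have h5 : (p : Lam p r) * (b * f1 - a * g1) = 0 := by
      have : (p : Lam p r) * (b * f1 - a * g1) = b * ((p : Lam p r) * f1) - a * ((p : Lam p r) * g1) := by ring
      rw [this, h2, hg1, sub_self]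
    have h6 := p_nzd h5
    obtain ⟨h7, f2, hf2⟩ := ih f1 g1 (sub_eq_zero.1 h6)
    refine ⟨h1 + p * h7, f2, ?_⟩
    have : f - a * (h1 + p * h7) = (f - a * h1) - p * (a * h7) := by ring
    rw [this, hf1]
    have : (p : Lam p r) * f1 - p * (a * h7) = p * (f1 - a * h7) := by ring
    rw [this, hf2, pow_succ']; ring

lemma reg_pair {a b : Lam p r} (ha : red a ≠ 0) (hab : Cop (red a) (red b)) {f g : Lam p r}
    (hfg : b * f = a * g) : a ∣ f := by
  refine dvd_of_levels _ _ fun n => ?_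
  obtain ⟨h, f2, hf2⟩ := reg_step ha hab (n + 1) f g hfg
  refine ⟨h.1 n, ?_⟩
  have h1 : f.1 n - a.1 n * h.1 n = ((p : Lam p r) ^ (n + 1)).1 n * f2.1 n :=
    congrArg (fun f : Lam p r => f.1 n) hf2
  rw [p_pow_level n (n + 1) (Nat.lt_succ_self n), zero_mul, sub_eq_zero] at h1
  exact h1

/-- No prime of height one contains two elements whose reductions modulo `p` are coprime. -/
lemma height_ne_one {a b : Lam p r} (ha : red a ≠ 0) (hab : Cop (red a) (red b)) (P : Ideal (Lam p r))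
    [hP : P.IsPrime] (haP : a ∈ P) (hbP : b ∈ P) : P.height ≠ 1 := by
  intro hh
  obtain ⟨Q, hQ, hQP⟩ := Ideal.exists_minimalPrimes_le (I := Ideal.span {a}) (J := P)
    ((Ideal.span_singleton_le_iff_mem P).2 haP)
  haveI := hQ.1.1
  have hbQ : b ∉ Q := by
    intro h
    obtain ⟨y, hy, hy'⟩ := Ideal.exists_mul_mem_of_mem_minimalPrimes hQ h
    obtain ⟨g, hg⟩ := Ideal.mem_span_singleton.1 hy'
    exact hy (Ideal.mem_span_singleton.2 (reg_pair ha hab hg))
  have hQP' : Q < P := lt_of_le_of_ne hQP (fun h => hbQ (h ▸ hbP))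
  have haQ : a ∈ Q := hQ.1.2 (Ideal.mem_span_singleton_self a)
  have ha0 : a ≠ 0 := by rintro rfl; exact ha (map_zero _)
  have hbot : (⊥ : Ideal (Lam p r)) < Q := bot_lt_iff_ne_bot.2 (fun h => ha0 (by rw [h] at haQ; exact haQ))
  have h1 := Ideal.height_add_one_le_of_lt_of_isPrime hbot
  have h2 := Ideal.height_add_one_le_of_lt_of_isPrime hQP'
  rw [hh] at h2
  have h3 : (⊥ : Ideal (Lam p r)).height + 1 + 1 ≤ 1 := (add_le_add_left h1 1).trans h2
  have h4 : (1 : ℕ∞) + 1 ≤ 1 := by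
    refine le_trans ?_ h3
    exact add_le_add_left (le_add_self) 1
  exact absurd h4 (by decide)

/-! ### height one primes -/

lemma exists_red_ne_zero {P : Ideal (Lam p r)} [hP : P.IsPrime] (hh : P.height = 1) (hp : (p : Lam p r) ∉ P) :
    ∃ g ∈ P, red g ≠ 0 := by
  by_contra h
  push Not at h
  have hbot : P = ⊥ := by
    rw [eq_bot_iff]
    intro x hx
    have key : ∀ k, ∀ x ∈ P, (p : Lam p r) ^ k ∣ x := by
      intro k
      induction k with
      | zero => intro x _; simp
      | succ k ih =>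
        intro x hx
        obtain ⟨y, hy⟩ := p_dvd_of_red (h x hx)
        have hyP : y ∈ P := (hP.mem_or_mem (hy ▸ hx)).resolve_left hp
        obtain ⟨z, hz⟩ := ih y hyP
        exact ⟨z, by rw [hy, hz, pow_succ']; ring⟩
    exact p_sep (fun k => key k x hx)
  subst hbot
  rw [Ideal.height_bot] at hh
  exact zero_ne_one hh

lemma eq_comap_of_p_mem {P : Ideal (Lam p r)} [hP : P.IsPrime] (hh : P.height = 1) (hp : (p : Lam p r) ∈ P)
    {g : Lam p r} (hg : g ∈ P) : red g = 0 := by
  by_contra hg0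
  have hK : (RingHom.ker (red (p := p) (r := r))).IsPrime := RingHom.ker_isPrime _
  have hle : RingHom.ker (red (p := p) (r := r)) ≤ P := by
    intro x hx
    obtain ⟨y, rfl⟩ := p_dvd_of_red ((RingHom.mem_ker).1 hx)
    exact P.mul_mem_right _ hp
  have hlt : RingHom.ker (red (p := p) (r := r)) < P :=
    lt_of_le_of_ne hle (fun h => hg0 ((RingHom.mem_ker).1 (h ▸ hg)))
  have hbot : (⊥ : Ideal (Lam p r)) < RingHom.ker (red (p := p) (r := r)) :=
    bot_lt_iff_ne_bot.2 (fun h => p_ne_zero (p := p) (r := r) (by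
      have : (p : Lam p r) ∈ RingHom.ker (red (p := p) (r := r)) := (RingHom.mem_ker).2 red_p
      rw [h] at this; exact this))
  have h1 := Ideal.height_add_one_le_of_lt_of_isPrime hbot
  have h2 := Ideal.height_add_one_le_of_lt_of_isPrime hlt
  rw [hh] at h2
  have h3 : (⊥ : Ideal (Lam p r)).height + 1 + 1 ≤ 1 := (add_le_add_left h1 1).trans h2
  have h4 : (1 : ℕ∞) + 1 ≤ 1 := by
    refine le_trans ?_ h3
    exact add_le_add_left (le_add_self) 1
  exact absurd h4 (by decide)

/-- The vectors `(1, m, 0, ...)`. -/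
noncomputable def vv (i j : Fin r) (m : ℕ) : Fin r → ℤ_[p] := Pi.single i 1 + (m : ℤ_[p]) • Pi.single j 1

lemma vv_prim {i j : Fin r} (hij : i ≠ j) (m : ℕ) : Prim (vv (p := p) i j m) :=
  ⟨i, by simp [vv, hij]⟩

lemma vv_inj {i j : Fin r} (hij : i ≠ j) {m m' : ℕ} {x : ℤ_[p]} (h : vv (p := p) i j m = x • vv i j m') : m = m' := by
  have h1 := congrFun h i
  have h2 := congrFun h j
  simp [vv, hij, hij.symm] at h1 h2
  rw [← h1, one_mul] at h2
  exact_mod_cast h2

lemma TO_vv_level {i j : Fin r} (n m : ℕ) :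
    (TO (vv (p := p) i j (m * p ^ (n + 1)))).1 n = (TO (vv (p := p) i j 0)).1 n := by
  show (single (rd n (vv i j (m * p ^ (n + 1)))) 1 : RO p r n) - 1 = single (rd n (vv i j 0)) 1 - 1
  have : rd n (vv (p := p) i j (m * p ^ (n + 1))) = rd n (vv i j 0) := by
    funext k
    simp only [rd, vv, Pi.add_apply, Pi.smul_apply, smul_eq_mul, map_add, map_mul, map_natCast]
    rw [Nat.cast_mul, ZMod.natCast_self]
    simp
  rw [this]

lemma prod_dvd {A ι : Type*} [CommRing A] [IsDomain A] (s : Finset ι) (q : ι → A)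
    (hq : ∀ i ∈ s, Prime (q i)) (hne : ∀ i ∈ s, ∀ j ∈ s, i ≠ j → ¬ q i ∣ q j) (g : A)
    (hg : ∀ i ∈ s, q i ∣ g) : ∏ i ∈ s, q i ∣ g := by
  classical
  induction s using Finset.induction_on with
  | empty => simp
  | insert i s hi ih =>
    obtain ⟨g', hg'⟩ := ih (fun j hj => hq j (Finset.mem_insert_of_mem hj))
      (fun j hj k hk => hne j (Finset.mem_insert_of_mem hj) k (Finset.mem_insert_of_mem hk))
      (fun j hj => hg j (Finset.mem_insert_of_mem hj))
    have h1 : q i ∣ (∏ j ∈ s, q j) * g' := hg' ▸ hg i (Finset.mem_insert_self i s)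
    have hqi := hq i (Finset.mem_insert_self i s)
    rcases hqi.dvd_or_dvd h1 with h2 | h2
    · obtain ⟨j, hj, hj'⟩ := (hqi.dvd_finsetProd_iff _).1 h2
      exact absurd hj' (hne i (Finset.mem_insert_self i s) j (Finset.mem_insert_of_mem hj)
        (fun h => hi (h ▸ hj)))
    · rw [Finset.prod_insert hi, hg', mul_comm (q i)]
      exact mul_dvd_mul_left _ h2

/-- A nonzero element is divisible by only few of the primes `TO (1, m, 0, ...)`. -/
lemma exists_vv_not_dvd {i j : Fin r} (hij : i ≠ j) {g : Om p r} (hg : g ≠ 0) :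
    ∃ m, ¬ TO (vv i j m) ∣ g := by
  by_contra h
  push Not at h
  apply hg
  refine lim_ext fun n => ?_
  have h1 : ∏ k ∈ Finset.range (p ^ (n + 1)), TO (vv (p := p) i j (k * p ^ (n + 1))) ∣ g := by
    refine prod_dvd _ _ (fun k _ => TO_prime (vv_prim hij _)) (fun k _ l _ hkl hd => hkl ?_) _ (fun k _ => h _)
    obtain ⟨x, hx⟩ := TO_dvd_TO (vv_prim hij _) hd
    have := vv_inj hij hx
    exact (Nat.eq_of_mul_eq_mul_right (pow_pos (Fact.out : p.Prime).pos _) this).symm
  obtain ⟨g', hg'⟩ := h1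
  have h2 : g.1 n = (∏ k ∈ Finset.range (p ^ (n + 1)), TO (vv (p := p) i j (k * p ^ (n + 1)))).1 n * g'.1 n :=
    congrArg (fun f : Om p r => f.1 n) hg'
  have h3 : (∏ k ∈ Finset.range (p ^ (n + 1)), TO (vv (p := p) i j (k * p ^ (n + 1)))).1 n =
      ((TO (vv (p := p) i j 0)) ^ (p ^ (n + 1))).1 n := by
    have h4 : (∏ k ∈ Finset.range (p ^ (n + 1)), TO (vv (p := p) i j (k * p ^ (n + 1)))).1 n =
        ∏ k ∈ Finset.range (p ^ (n + 1)), (TO (vv (p := p) i j (k * p ^ (n + 1)))).1 n := by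
      rw [SubmonoidClass.coe_finsetProd, Finset.prod_apply]
    rw [h4, Finset.prod_congr rfl (fun k _ => TO_vv_level n k), Finset.prod_const, Finset.card_range]
    rfl
  rw [h2, h3, TO_level, zero_mul]
  rfl

lemma mem_rad_of_dvd {c : Fin r → ℤ_[p]} (k : ℕ) {x : Lam p r} (h : TO c ∣ red x) :
    x ∈ (Ideal.span {(p : Lam p r), T (p ^ k • c)}).radical := by
  refine ⟨p ^ k, ?_⟩
  obtain ⟨w, hw⟩ := h
  obtain ⟨y, hy⟩ := red_surj (w ^ (p ^ k))
  obtain ⟨z, hz⟩ := p_dvd_of_red (f := x ^ (p ^ k) - T (p ^ k • c) * y) (by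
    rw [map_sub, map_pow, hw, map_mul, red_T, TO_pow, hy, mul_pow, sub_self])
  rw [Ideal.mem_span_pair]
  exact ⟨z, y, by rw [mul_comm z, ← hz]; ring⟩

lemma comap_span_prime {q : Om p r} (hq : Prime q) : ((Ideal.span {q}).comap (red (p := p) (r := r))).IsPrime := by
  have : (Ideal.span {q}).IsPrime := (Ideal.span_singleton_prime hq.ne_zero).2 hq
  exact Ideal.comap_isPrime _ _

/-- The algebraic form of the support theorem: a height one prime containing, for each `c` of
the family `vv`, an element reducing to a power of `TO c ^ 2 * ∏ TO (γ j)` lies in the radical of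
some `(p, T (γ j))`. -/
theorem alg_support {i j : Fin r} (hij : i ≠ j) {P : Ideal (Lam p r)} [hP : P.IsPrime] (hh : P.height = 1)
    {ι : Type*} (s : Finset ι) (γ : ι → Fin r → ℤ_[p]) (hγ : ∀ k ∈ s, γ k ≠ 0)
    (h : ∀ m, ∃ N, ∃ α ∈ P, red α = (TO (vv i j m) ^ 2 * ∏ k ∈ s, TO (γ k)) ^ N) :
    ∃ k ∈ s, P ≤ (Ideal.span {(p : Lam p r), T (γ k)}).radical := by
  classical
  by_contra hcon
  push Not at hcon
  have hprod : ∀ m, TO (vv (p := p) i j m) ^ 2 * ∏ k ∈ s, TO (γ k) ≠ 0 := fun m =>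
    mul_ne_zero (pow_ne_zero _ (TO_prime (vv_prim hij m)).ne_zero)
      (Finset.prod_ne_zero_iff.2 (fun k hk => TO_ne_zero (hγ k hk)))
  have hp : (p : Lam p r) ∉ P := by
    intro hp
    obtain ⟨N, α, hα, hα'⟩ := h 0
    have := eq_comap_of_p_mem hh hp hα
    rw [hα'] at this
    exact pow_ne_zero N (hprod 0) this
  obtain ⟨g0, hg0, hg0'⟩ := exists_red_ne_zero hh hp
  obtain ⟨m, hm⟩ := exists_vv_not_dvd hij hg0'
  obtain ⟨N, α, hα, hα'⟩ := h m
  -- primitive vectors
  have hpr : ∀ k, ∃ (e : ℕ) (c : Fin r → ℤ_[p]), k ∈ s → (Prim c ∧ γ k = p ^ e • c) := by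
    intro k
    by_cases hk : k ∈ s
    · obtain ⟨e, c, hc, hc'⟩ := exists_prim (hγ k hk)
      exact ⟨e, c, fun _ => ⟨hc, hc'⟩⟩
    · exact ⟨0, 0, fun h => absurd h hk⟩
  choose e c hc using hpr
  -- prime avoidance
  let F : Option ι → Ideal (Lam p r) := fun o => match o with
    | none => (Ideal.span {TO (vv i j m)}).comap red
    | some k => (Ideal.span {TO (c k)}).comap red
  let S : Finset (Option ι) := Finset.insertNone s
  have hav : ¬ ((P : Set (Lam p r)) ⊆ ⋃ o ∈ (↑S : Set (Option ι)), (F o : Set (Lam p r))) := by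
    rw [Ideal.subset_union_prime none none (fun o ho ho1 _ => by
      cases o with
      | none => exact absurd rfl ho1
      | some k => exact comap_span_prime (TO_prime (hc k (by simpa [S] using ho)).1))]
    rintro ⟨o, ho, hPo⟩
    cases o with
    | none =>
      exact hm (Ideal.mem_span_singleton.1 (hPo hg0))
    | some k =>
      have hk : k ∈ s := by simpa [S] using ho
      apply hcon k hk
      intro x hx
      rw [(hc k hk).2]
      exact mem_rad_of_dvd _ (Ideal.mem_span_singleton.1 (hPo hx))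
  obtain ⟨g, hgP, hg⟩ := Set.not_subset.1 hav
  simp only [Set.mem_iUnion, not_exists] at hg
  have hgm : ¬ TO (vv i j m) ∣ red g := fun hd =>
    hg none (by simp [S]) (Ideal.mem_span_singleton.2 hd)
  have hgk : ∀ k ∈ s, ¬ TO (c k) ∣ red g := fun k hk hd =>
    hg (some k) (by simp [S, hk]) (Ideal.mem_span_singleton.2 hd)
  have hcop : Cop (red α) (red g) := by
    rw [hα']
    refine cop_pow (hprod m) (cop_mul (pow_ne_zero _ (TO_prime (vv_prim hij m)).ne_zero) ?_ ?_) N
    · exact cop_pow (TO_prime (vv_prim hij m)).ne_zero (cop_prime (TO_prime (vv_prim hij m)) hgm) 2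
    · refine cop_prod s _ (fun k hk => TO_ne_zero (hγ k hk)) (fun k hk => ?_)
      rw [(hc k hk).2, TO_pow]
      exact cop_pow (TO_prime (hc k hk).1).ne_zero (cop_prime (TO_prime (hc k hk).1) (hgk k hk)) _
  exact height_ne_one (by rw [hα']; exact pow_ne_zero N (hprod m)) hcop P hα hgP hh

end

end Pool.Agent.Helper832_EG
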