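import Pool.Agent.Helper832_EG.Main1

/-!
# The statement layer: the Iwasawa algebra, the unramified Iwasawa module, its natural structure
-/

set_option linter.style.haveILetI false
set_option linter.unusedSectionVars false
set_option linter.unusedVariables false

namespace Pool.Agent.Helper832_EG

open NumberField Pool.Agent.W569.FM Pool.Agent.R417.FK IntermediateField

/-- The Iwasawa algebra `ℤ_p[[ℤ_p ^ r]]`. -/
def Iwa (p r : ℕ) [Fact p.Prime] : Type := Lam p r

noncomputable instance instIwaRing (p r : ℕ) [Fact p.Prime] : CommRing (Iwa p r) :=
  (Lim (tL p r)).toCommRing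

/-- The inverse limit topology on the Iwasawa algebra. -/
noncomputable instance instIwaTop (p r : ℕ) [Fact p.Prime] : TopologicalSpace (Iwa p r) :=
  (inferInstance : TopologicalSpace (Lim (tL p r)))

/-- The group element of the Iwasawa algebra attached to a vector of `p`-adic integers. -/
noncomputable def gel {p r : ℕ} [Fact p.Prime] (a : Fin r → ℤ_[p]) : Iwa p r := (gr a : Lam p r)

section
variable {k : Type} [Field k]

/-- The unramified Iwasawa module of `K`: the Galois group over `K` of the maximal abelian pro-`p`
extension of `K` unramified at all finite primes, written additively. -/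
def Xur (p : ℕ) (K : IntermediateField k (AlgebraicClosure k)) : Type :=
  XX p (inertias k) K.fixingSubgroup

noncomputable instance instXurGroup (p : ℕ) (K : IntermediateField k (AlgebraicClosure k)) :
    AddCommGroup (Xur p K) :=
  (Additive.addCommGroup : AddCommGroup (Additive (K.fixingSubgroup ⧸ Nn p (inertias k) K.fixingSubgroup)))

noncomputable instance instXurTop (p : ℕ) (K : IntermediateField k (AlgebraicClosure k)) :
    TopologicalSpace (Xur p K) :=
  (instTopologicalSpaceAdditive : TopologicalSpace (Additive (K.fixingSubgroup ⧸ Nn p (inertias k) K.fixingSubgroup)))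

/-- The class of an element of the absolute Galois group of `K` in the Iwasawa module. -/
noncomputable def cl {p : ℕ} {K : IntermediateField k (AlgebraicClosure k)} (x : K.fixingSubgroup) : Xur p K :=
  (mkX x : XX p (inertias k) K.fixingSubgroup)

/-- The map `φ` identifies the Galois group of `M` over `k` with `ℤ_p ^ r`. -/
structure Coord {p r : ℕ} [Fact p.Prime] (M : IntermediateField k (AlgebraicClosure k))
    (φ : GF k → Fin r → ℤ_[p]) : Prop where
  map_mul : ∀ σ τ, φ (σ * τ) = φ σ + φ τ
  cont : Continuous φ
  surj : Function.Surjective φ
  ker : ∀ σ, φ σ = 0 ↔ σ ∈ M.fixingSubgroup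

/-- The module structure on the unramified Iwasawa module of `K` is the natural one: the group
element `φ σ`, for `σ` in the absolute Galois group of `F`, acts as conjugation by `σ`, and scalar
multiplication is jointly continuous. -/
structure IsNat {p r : ℕ} [Fact p.Prime] (K F : IntermediateField k (AlgebraicClosure k))
    (φ : GF k → Fin r → ℤ_[p]) (m : Module (Iwa p r) (Xur p K)) : Prop where
  conj : ∀ σ ∈ F.fixingSubgroup, ∀ x y : K.fixingSubgroup, (y : GF k) = σ * x * σ⁻¹ →
    gel (φ σ) • (cl x : Xur p K) = cl y
  cont : Continuous fun q : Iwa p r × Xur p K => q.1 • q.2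

/-- The localization at the prime ideal `Q` is not zero. -/
def InSupp {p r : ℕ} [Fact p.Prime] {K : IntermediateField k (AlgebraicClosure k)}
    (_ : Module (Iwa p r) (Xur p K)) (Q : Ideal (Iwa p r)) [Q.IsPrime] : Prop :=
  Nontrivial (LocalizedModule Q.primeCompl (Xur p K))

end

end Pool.Agent.Helper832_EG
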