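import Pool.Agent.Helper832_EG.XX

set_option linter.style.haveILetI false
set_option linter.unusedSectionVars false
set_option linter.unusedVariables false

namespace Pool.Agent.Helper832_EG

section
variable {p : ℕ} [Fact p.Prime] {r : ℕ} {G : Type*} [Group G] [TopologicalSpace G]

/-- A module structure over the Iwasawa algebra on `XX` is the natural one if the group element
of `φ σ` acts, for `σ` in `F`, as conjugation by `σ`, and the scalar multiplication is jointly
continuous. -/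
def IsIwA (J : Set (Subgroup G)) (L : Subgroup G) (φ : G →* Multiplicative (Fin r → ℤ_[p]))
    (F : Subgroup G) (m : Module (Lam p r) (XX p J L)) : Prop :=
  (∀ σ ∈ F, ∀ x y : L, (y : G) = σ * x * σ⁻¹ →
    (gr (Multiplicative.toAdd (φ σ)) : Lam p r) • (mkX x : XX p J L) = mkX y) ∧
  Continuous (fun q : Lam p r × XX p J L => q.1 • q.2)

variable [IsTopologicalGroup G]

/-- The group theoretic situation. -/
structure Sit (φ : G →* Multiplicative (Fin r → ℤ_[p])) (H L : Subgroup G) (W Tm : Set (Subgroup G))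
    (F : Subgroup G) : Prop where
  d : Dat p H W Tm
  cont : Continuous φ
  ker : φ.ker = H
  LH : L ≤ H
  closedL : IsClosed (L : Set G)
  abL : ∀ g h : G, g * h * g⁻¹ * h⁻¹ ∈ L
  fin : (L.subgroupOf H).FiniteIndex
  pgrp : ∃ k : ℕ, ∀ h ∈ H, h ^ (p ^ k) ∈ L
  surjW : ∀ I ∈ W, ∀ v, ∃ s ∈ I, φ s = v
  surjF : ∀ v, ∃ σ ∈ F, φ σ = v
  tameFin : ∃ F : Set (Subgroup G), F.Finite ∧ F ⊆ Tm ∧ ∀ I ∈ Tm, I ≤ L ∨ ∃ J ∈ F, ∃ g : G,
      I = J.map (MulAut.conj g).toMonoidHom

variable {φ : G →* Multiplicative (Fin r → ℤ_[p])} {H L : Subgroup G} {W Tm : Set (Subgroup G)}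
    {F : Subgroup G}

omit [TopologicalSpace G] [IsTopologicalGroup G] [Group G] in
lemma dense_gr (A : AddSubgroup (Lam p r)) (hA : IsClosed (A : Set (Lam p r)))
    (h : ∀ a : Fin r → ℤ_[p], gr a ∈ A) : A = ⊤ := by
  rw [AddSubgroup.eq_top_iff']
  intro f
  have hlev : ∀ (n : ℕ) (x : RL p r n), ∃ f' ∈ A, f'.1 n = x := by
    intro n x
    induction x using AddMonoidAlgebra.induction_linear with
    | zero => exact ⟨0, A.zero_mem, rfl⟩
    | add x y hx hy =>
      obtain ⟨f1, h1, h1'⟩ := hx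
      obtain ⟨f2, h2, h2'⟩ := hy
      exact ⟨f1 + f2, A.add_mem h1 h2, by rw [← h1', ← h2']; rfl⟩
    | single b c =>
      obtain ⟨a, ha⟩ := rd_surj n b
      refine ⟨c.val • gr a, A.nsmul_mem (h a) _, ?_⟩
      have h1 : (c.val • gr a : Lam p r).1 n = c.val • (AddMonoidAlgebra.single (rd n a) 1 : RL p r n) := rfl
      rw [h1, ha]
      apply AddMonoidAlgebra.coeff_injective
      refine Finsupp.ext fun k => ?_
      rw [nsmul_eq_mul, coeff_natCast_mul, AddMonoidAlgebra.coeff_single, AddMonoidAlgebra.coeff_single,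
        ZMod.natCast_val, ZMod.cast_id]
      by_cases hk : b = k
      · subst hk; simp
      · simp [Finsupp.single_apply, hk]
  rw [← SetLike.mem_coe, ← hA.closure_eq, mem_closure_iff_nhds]
  intro U hU
  have h1 : (fun h => f + h) ⁻¹' U ∈ nhds (0 : Lam p r) := by
    have hc : Continuous (fun h : Lam p r => f + h) := continuous_const.add continuous_id
    exact hc.continuousAt (by simpa using hU)
  obtain ⟨n, hn⟩ := exists_level_nhds h1
  obtain ⟨f', hf', hf'n⟩ := hlev n (f.1 n)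
  refine ⟨f', ?_, hf'⟩
  have h2 := hn (f' - f) (by
    show f'.1 n - f.1 n = 0
    rw [hf'n, sub_self])
  have h3 : f + (f' - f) = f' := by abel
  rw [Set.mem_preimage, h3] at h2
  exact h2

lemma Dat.conjWT (d : Dat p H W Tm) : ConjClosed (W ∪ Tm) := by
  rintro I (hI | hI) g
  · exact Or.inl (d.conjW I hI g)
  · exact Or.inr (d.conjT I hI g)

lemma Sit.normalH (S : Sit φ H L W Tm F) : H.Normal := by
  rw [← S.ker]; infer_instance

lemma Sit.normalL (S : Sit φ H L W Tm F) : L.Normal := by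
  refine ⟨fun x hx g => ?_⟩
  have := L.mul_mem (S.abL g x) hx
  have h1 : g * x * g⁻¹ * x⁻¹ * x = g * x * g⁻¹ := by group
  rwa [h1] at this

/-- Conjugation by elements of `L` is trivial on `XX`. -/
lemma cj_L {J : Set (Subgroup G)} (hJ : ConjClosed J) [hL : L.Normal] {g : G} (hg : g ∈ L) (x : XX p J L) :
    cj hJ g x = x := by
  obtain ⟨y, rfl⟩ := mkX_surj x
  rw [cj_mkX]
  have h1 : (MulAut.conjNormal g y : L) = (⟨g, hg⟩ : L) * y * (⟨g, hg⟩ : L)⁻¹ := by
    apply Subtype.ext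
    rw [MulAut.conjNormal_apply]; rfl
  rw [h1]
  apply mkX_eq
  have := comm_mem_Nn (p := p) (J := J) (⟨g, hg⟩ : L) y⁻¹
  have h2 : ((⟨g, hg⟩ : L) * y * (⟨g, hg⟩ : L)⁻¹)⁻¹ * y = (⟨g, hg⟩ : L) * y⁻¹ * (⟨g, hg⟩ : L)⁻¹ * y⁻¹⁻¹ := by group
  rw [h2]; exact this

lemma cj_mul {J : Set (Subgroup G)} (hJ : ConjClosed J) [hL : L.Normal] (g g' : G) (x : XX p J L) :
    cj hJ (g * g') x = cj hJ g (cj hJ g' x) := by
  obtain ⟨y, rfl⟩ := mkX_surj x
  rw [cj_mkX, cj_mkX, cj_mkX, map_mul]; rfl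

lemma cj_one {J : Set (Subgroup G)} (hJ : ConjClosed J) [hL : L.Normal] (x : XX p J L) :
    cj hJ (1 : G) x = x := cj_L hJ L.one_mem x

lemma cj_comm (S : Sit φ H L W Tm F) {J : Set (Subgroup G)} (hJ : ConjClosed J) [hL : L.Normal] (g g' : G) (x : XX p J L) :
    cj hJ g (cj hJ g' x) = cj hJ g' (cj hJ g x) := by
  rw [← cj_mul, ← cj_mul]
  have h1 : g * g' = (g * g' * g⁻¹ * g'⁻¹) * (g' * g) := by group
  rw [h1, cj_mul hJ (g * g' * g⁻¹ * g'⁻¹), cj_L hJ (S.abL g g')]

lemma continuous_cj {J : Set (Subgroup G)} (hJ : ConjClosed J) [hL : L.Normal] (g : G) :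
    Continuous (cj (p := p) (J := J) (L := L) hJ g) := by
  have hq : Topology.IsQuotientMap (mkX : L → XX p J L) :=
    isOpenMap_mkX.isQuotientMap continuous_mkX mkX_surj
  rw [hq.continuous_iff]
  have h1 : (cj (p := p) (J := J) (L := L) hJ g) ∘ mkX = fun x : L => mkX (MulAut.conjNormal g x) := by
    funext x; exact cj_mkX hJ g x
  rw [h1]
  have hc : Continuous (fun x : L => (MulAut.conjNormal g x : L)) := by
    refine Continuous.subtype_mk (?_ : Continuous (fun x : L => g * (x : G) * g⁻¹)) _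
    fun_prop
  exact continuous_mkX.comp hc

/-- Composition of characters with an additive endomorphism. -/
def pre {X : Type*} [AddCommGroup X] (f : X →+ X) : Module.End (ZMod p) (X →+ ZMod p) where
  toFun ψ := ψ.comp f
  map_add' ψ ψ' := by ext; rfl
  map_smul' c ψ := by ext; rfl

lemma pre_apply {X : Type*} [AddCommGroup X] (f : X →+ X) (ψ : X →+ ZMod p) (x : X) : pre f ψ x = ψ (f x) := rfl

lemma pre_pow {X : Type*} [AddCommGroup X] (f : X →+ X) (ψ : X →+ ZMod p) (n : ℕ) (x : X) :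
    ((pre f) ^ n) ψ x = ψ (f^[n] x) := by
  induction n generalizing ψ x with
  | zero => simp
  | succ n ih =>
    rw [pow_succ, Module.End.mul_apply, ih, pre_apply, Function.iterate_succ_apply']

lemma cj_iterate {J : Set (Subgroup G)} (hJ : ConjClosed J) [hL : L.Normal] (g : G) (n : ℕ) (x : XX p J L) :
    (cj hJ g)^[n] x = cj hJ (g ^ n) x := by
  induction n with
  | zero => simp [cj_one]
  | succ n ih => rw [Function.iterate_succ_apply', ih, pow_succ', cj_mul]

section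
variable [Module (Lam p r) (XX p (W ∪ Tm) L)]

/-- The module relation of `IsIwA` in terms of the conjugation operators. -/
lemma gr_smul (S : Sit φ H L W Tm F) [hL : L.Normal] (hm : IsIwA (W ∪ Tm) L φ F inferInstance) {σ : G} (hσ : σ ∈ F)
    (x : XX p (W ∪ Tm) L) : (gr (Multiplicative.toAdd (φ σ)) : Lam p r) • x = cj S.d.conjWT σ x := by
  obtain ⟨y, rfl⟩ := mkX_surj x
  rw [cj_mkX]
  exact hm.1 σ hσ y _ (by rw [MulAut.conjNormal_apply])

lemma hat_del (S : Sit φ H L W Tm F) [hL : L.Normal] (hm : IsIwA (W ∪ Tm) L φ F inferInstance) {σ : G} (hσ : σ ∈ F)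
    (ψ : XX p (W ∪ Tm) L →+ ZMod p) (x : L) :
    del σ (hat ψ) (x : G) = ψ (T (Multiplicative.toAdd (φ σ)) • mkX x) := by
  show hat ψ (σ * x * σ⁻¹) - hat ψ x = _
  rw [T, sub_smul, one_smul, map_sub, gr_smul S hm hσ, cj_mkX, hat_apply ψ x]
  have h1 : σ * (x : G) * σ⁻¹ = ((MulAut.conjNormal σ x : L) : G) := by rw [MulAut.conjNormal_apply]
  rw [h1, hat_apply]

lemma hat_dels (S : Sit φ H L W Tm F) [hL : L.Normal] (hm : IsIwA (W ∪ Tm) L φ F inferInstance)
    (ψ : XX p (W ∪ Tm) L →+ ZMod p) (l : List G) (hl : ∀ f ∈ l, f ∈ F) (χ : G → ZMod p) (θ : Lam p r)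
    (hχ : ∀ x : L, χ x = ψ (θ • mkX x)) (x : L) :
    dels l χ (x : G) = ψ ((θ * (l.map (fun f => (T (Multiplicative.toAdd (φ f)) : Lam p r))).prod) • mkX x) := by
  induction l generalizing x with
  | nil => simpa [dels] using hχ x
  | cons f l ih =>
    have hl' : ∀ f ∈ l, f ∈ F := fun f hf => hl f (List.mem_cons_of_mem _ hf)
    show dels l χ (f * x * f⁻¹) - dels l χ x = _
    have h1 : f * (x : G) * f⁻¹ = ((MulAut.conjNormal f x : L) : G) := by rw [MulAut.conjNormal_apply]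
    rw [h1, ih hl', ih hl', ← cj_mkX (p := p) S.d.conjWT f x, ← gr_smul S hm (hl f (List.mem_cons_self)), ← map_sub,
      smul_smul, ← sub_smul]
    rw [List.map_cons, List.prod_cons]
    congr 2
    rw [T]; ring

variable [CompactSpace G] [T2Space G] [TotallyDisconnectedSpace G]

lemma Sit.compactL (S : Sit φ H L W Tm F) : CompactSpace L := isCompact_iff_compactSpace.1 S.closedL.isCompact

/-- The characters fixed by `H` are killed. -/
lemma kill_theta (S : Sit φ H L W Tm F) (hm : IsIwA (W ∪ Tm) L φ F inferInstance) [hL : L.Normal] (l : Finset G)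
    (hl : ∀ I ∈ Tm, I ≤ L ∨ ∃ f ∈ l, ∃ Fr : G, φ Fr = φ f ∧ ∀ x ∈ I, Fr * x * Fr⁻¹ ∈ I)
    (v : Fin r → ℤ_[p]) (ψ : XX p (W ∪ Tm) L →+ ZMod p) (hψ : IsOpen (ψ.ker : Set (XX p (W ∪ Tm) L)))
    (hψH : ∀ h ∈ H, ∀ x, ψ (cj S.d.conjWT h x) = ψ x) (x : XX p (W ∪ Tm) L) :
    ψ ((T v ^ 2 * ∏ f ∈ l, (T (Multiplicative.toAdd (φ f)) : Lam p r)) • x) = 0 := by
  classical
  haveI := S.normalH
  obtain ⟨y, rfl⟩ := mkX_surj x
  obtain ⟨σ, hσF, hσ⟩ := S.surjF (Multiplicative.ofAdd v)
  choose τ hτF hτ using fun f : G => S.surjF (φ f)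
  have hinv : ∀ y ∈ H, ∀ x ∈ L, hat ψ (y * x * y⁻¹) = hat ψ x := by
    intro h hh x hx
    have h1 : h * x * h⁻¹ = ((MulAut.conjNormal h (⟨x, hx⟩ : L) : L) : G) := by rw [MulAut.conjNormal_apply]
    rw [h1, hat_apply, ← cj_mkX (p := p) S.d.conjWT, hψH h hh, hat_apply' ψ hx]
  have hkill := kill S.LH S.d S.abL (hat_isCh ψ hψ) (hat_van Set.subset_union_left ψ)
    (hat_van Set.subset_union_right ψ) hinv (l.toList.map τ) (by
      intro I hI
      rcases hl I hI with h | ⟨f, hf, Fr, hFr, hFrI⟩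
      · exact Or.inl h
      · refine Or.inr ⟨τ f, List.mem_map.2 ⟨f, by simpa using hf, rfl⟩, Fr, ⟨τ f * Fr⁻¹, ?_, by group⟩, hFrI⟩
        rw [← S.ker, MonoidHom.mem_ker, map_mul, map_inv, hτ, hFr, mul_inv_cancel]) σ σ y y.2
  have h1 : ∀ x : L, del σ (hat ψ) (x : G) = ψ (T v • mkX x) := by
    intro x
    have := hat_del S hm hσF ψ x
    rw [this, hσ]; rfl
  have h2 : ∀ x : L, del σ (del σ (hat ψ)) (x : G) = ψ (T v ^ 2 • mkX x) := by
    intro x
    show del σ (hat ψ) (σ * x * σ⁻¹) - del σ (hat ψ) x = _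
    have h3 : σ * (x : G) * σ⁻¹ = ((MulAut.conjNormal σ x : L) : G) := by rw [MulAut.conjNormal_apply]
    rw [h3, h1, h1, ← cj_mkX (p := p) S.d.conjWT σ x, ← gr_smul S hm hσF, ← map_sub, hσ, toAdd_ofAdd,
      smul_smul, ← sub_smul]
    congr 2
    rw [T]; ring
  rw [hat_dels S hm ψ (l.toList.map τ) (by
    intro f hf
    obtain ⟨g, _, rfl⟩ := List.mem_map.1 hf
    exact hτF g) _ _ h2 y] at hkill
  rw [← hkill]
  congr 3
  rw [List.map_map, ← Finset.prod_map_toList]
  congr 1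
  apply List.map_congr_left
  intro f _
  simp [hτ]

/-- Finite generation over the Iwasawa algebra. -/
lemma Sit.finite (S : Sit φ H L W Tm F) (hm : IsIwA (W ∪ Tm) L φ F inferInstance) :
    Module.Finite (Lam p r) (XX p (W ∪ Tm) L) := by
  classical
  haveI := S.normalH
  haveI := S.normalL
  haveI := S.compactL
  obtain ⟨s, hsL, hs⟩ := finite_inv S.LH S.closedL S.d S.abL S.fin φ S.cont S.ker S.surjW S.tameFin
  obtain ⟨sH, hsH, hsH'⟩ := exists_reps (H := H) (L := L) S.fin ⊤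
  let t : Finset (XX p (W ∪ Tm) L) :=
    (sH ×ˢ s.attach).image (fun q => cj S.d.conjWT q.1 (mkX ⟨q.2.1, hsL q.2.1 q.2.2⟩))
  have hspan : Submodule.span (Lam p r) (t : Set (XX p (W ∪ Tm) L)) = ⊤ := by
    refine nakayama hm.2 (basisX _ _) t ?_
    intro ψ hψ hψT hψt
    by_contra hne
    -- the space spanned by the conjugates
    let C : Submodule (ZMod p) (XX p (W ∪ Tm) L →+ ZMod p) :=
      Submodule.span (ZMod p) (Set.range (fun h : H => pre (cj S.d.conjWT (h : G)) ψ))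
    have hrange : Set.range (fun h : H => pre (cj S.d.conjWT (h : G)) ψ) ⊆
        (fun g : G => pre (cj S.d.conjWT g) ψ) '' (sH : Set G) := by
      rintro _ ⟨h, rfl⟩
      obtain ⟨y, hy, hyL⟩ := hsH' h trivial h.2
      refine ⟨y, hy, ?_⟩
      refine AddMonoidHom.ext fun x => ?_
      show ψ (cj S.d.conjWT y x) = ψ (cj S.d.conjWT (h : G) x)
      have h1 : (h : G) = y * (y⁻¹ * h) := by group
      rw [h1, cj_mul, cj_L S.d.conjWT hyL]
    have hfin : Finite C := by
      haveI : Module.Finite (ZMod p) C :=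
        Module.Finite.iff_fg.2 (Submodule.fg_span ((Finset.finite_toSet sH).image _ |>.subset hrange))
      exact Module.finite_of_finite (ZMod p)
    -- properties of elements of `C`
    have hCprop : ∀ χ ∈ C, IsOpen (χ.ker : Set (XX p (W ∪ Tm) L)) ∧ (∀ (a : Fin r → ℤ_[p]) x, χ (T a • x) = 0) ∧
        ∀ x (hx : x ∈ s), χ (mkX ⟨x, hsL x hx⟩) = 0 := by
      intro χ hχ
      refine Submodule.span_induction (p := fun χ _ => IsOpen (χ.ker : Set (XX p (W ∪ Tm) L)) ∧
        (∀ (a : Fin r → ℤ_[p]) x, χ (T a • x) = 0) ∧ ∀ x (hx : x ∈ s), χ (mkX ⟨x, hsL x hx⟩) = 0) ?_ ?_ ?_ ?_ hχ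
      · rintro _ ⟨h, rfl⟩
        refine ⟨?_, ?_, ?_⟩
        · exact hψ.preimage (continuous_cj S.d.conjWT (h : G))
        · intro a x
          show ψ (cj S.d.conjWT (h : G) (T a • x)) = 0
          obtain ⟨σ, hσF, hσ⟩ := S.surjF (Multiplicative.ofAdd a)
          have h1 : cj S.d.conjWT (h : G) (T a • x) = T a • cj S.d.conjWT (h : G) x := by
            have h2 := gr_smul S hm hσF
            rw [hσ, toAdd_ofAdd] at h2
            rw [T, sub_smul, sub_smul, one_smul, one_smul, map_sub, h2, h2, cj_comm S]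
          rw [h1]; exact hψT a _
        · intro x hx
          show ψ (cj S.d.conjWT (h : G) (mkX ⟨x, hsL x hx⟩)) = 0
          obtain ⟨y, hy, hyL⟩ := hsH' h trivial h.2
          have h1 : (h : G) = y * (y⁻¹ * h) := by group
          rw [h1, cj_mul, cj_L S.d.conjWT hyL]
          exact hψt _ (Finset.mem_image.2 ⟨(y, ⟨x, hx⟩), Finset.mem_product.2 ⟨hy, Finset.mem_attach _ _⟩, rfl⟩)
      · refine ⟨?_, fun _ _ => rfl, fun _ _ => rfl⟩
        have : ((0 : XX p (W ∪ Tm) L →+ ZMod p).ker : Set (XX p (W ∪ Tm) L)) = Set.univ := by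
          ext x; simp
        rw [this]; exact isOpen_univ
      · rintro χ χ' _ _ ⟨h1, h2, h3⟩ ⟨h1', h2', h3'⟩
        refine ⟨?_, fun a x => ?_, fun x hx => ?_⟩
        · refine AddSubgroup.isOpen_mono (H₁ := χ.ker ⊓ χ'.ker) ?_ (h1.inter h1')
          rintro x ⟨hx, hx'⟩
          rw [AddMonoidHom.mem_ker, AddMonoidHom.add_apply, (AddMonoidHom.mem_ker).1 hx,
            (AddMonoidHom.mem_ker).1 hx', add_zero]
        · rw [AddMonoidHom.add_apply, h2, h2', add_zero]
        · rw [AddMonoidHom.add_apply, h3 x hx, h3' x hx, add_zero]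
      · rintro c χ _ ⟨h1, h2, h3⟩
        refine ⟨?_, fun a x => ?_, fun x hx => ?_⟩
        · refine AddSubgroup.isOpen_mono (H₁ := χ.ker) ?_ h1
          intro x hx
          rw [AddMonoidHom.mem_ker, AddMonoidHom.smul_apply, (AddMonoidHom.mem_ker).1 hx, smul_zero]
        · rw [AddMonoidHom.smul_apply, h2, smul_zero]
        · rw [AddMonoidHom.smul_apply, h3 x hx, smul_zero]
    have hCne : C ≠ ⊥ := by
      intro h
      have h1 : pre (cj S.d.conjWT (1 : G)) ψ ∈ C := Submodule.subset_span ⟨1, rfl⟩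
      rw [h, Submodule.mem_bot] at h1
      apply hne
      refine AddMonoidHom.ext fun x => ?_
      have h2 : ψ (cj S.d.conjWT (1 : G) x) = 0 := DFunLike.congr_fun h1 x
      rw [cj_one] at h2
      exact h2
    obtain ⟨k, hk⟩ := S.pgrp
    obtain ⟨χ, hχC, hχ0, hχH⟩ := exists_fixed (Set.range (fun h : H => pre (p := p) (cj (J := W ∪ Tm) (L := L) S.d.conjWT (h : G)))) C hfin hCne
      (by
        rintro _ ⟨h, rfl⟩
        refine ⟨k, fun v _ => ?_⟩
        refine AddMonoidHom.ext fun x => ?_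
        show ((pre (cj S.d.conjWT (h : G))) ^ (p ^ k)) v x = v x
        rw [pre_pow, cj_iterate, cj_L S.d.conjWT (hk h h.2)])
      (by
        rintro _ ⟨h, rfl⟩ _ ⟨h', rfl⟩ v _
        refine AddMonoidHom.ext fun x => ?_
        show v (cj S.d.conjWT (h' : G) (cj S.d.conjWT (h : G) x)) = v (cj S.d.conjWT (h : G) (cj S.d.conjWT (h' : G) x))
        rw [cj_comm S])
      (by
        rintro _ ⟨h, rfl⟩ v hv
        refine Submodule.span_induction (p := fun v _ => pre (cj S.d.conjWT (h : G)) v ∈ C) ?_ ?_ ?_ ?_ hv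
        · rintro _ ⟨h', rfl⟩
          refine Submodule.subset_span ⟨h' * h, ?_⟩
          refine AddMonoidHom.ext fun x => ?_
          show ψ (cj S.d.conjWT (((h' * h : H)) : G) x) = ψ (cj S.d.conjWT (h' : G) (cj S.d.conjWT (h : G) x))
          rw [Subgroup.coe_mul, cj_mul]
        · rw [map_zero]; exact C.zero_mem
        · intro a b _ _ ha hb
          rw [map_add]; exact C.add_mem ha hb
        · intro c a _ ha
          rw [map_smul]; exact C.smul_mem c ha)
    obtain ⟨hχo, hχT, hχs⟩ := hCprop χ hχC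
    have hχG : ∀ g : G, ∀ x, χ (cj S.d.conjWT g x) = χ x := by
      intro g x
      obtain ⟨σ, hσF, hσ⟩ := S.surjF (φ g)
      have hh : g * σ⁻¹ ∈ H := by
        rw [← S.ker, MonoidHom.mem_ker, map_mul, map_inv, hσ, mul_inv_cancel]
      have h1 : g = (g * σ⁻¹) * σ := by group
      rw [h1, cj_mul]
      have h2 : ∀ y, χ (cj S.d.conjWT (g * σ⁻¹) y) = χ y := fun y =>
        DFunLike.congr_fun (hχH _ ⟨⟨g * σ⁻¹, hh⟩, rfl⟩) y
      rw [h2, ← gr_smul S hm hσF]
      have h3 := hχT (Multiplicative.toAdd (φ σ)) x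
      rw [T, sub_smul, one_smul, map_sub, sub_eq_zero] at h3
      exact h3
    have hfinal := hs (hat χ) (hat_isCh χ hχo) (hat_van Set.subset_union_left χ) (hat_van Set.subset_union_right χ)
      (by
        intro g x hx
        have h1 : g * x * g⁻¹ = ((MulAut.conjNormal g (⟨x, hx⟩ : L) : L) : G) := by rw [MulAut.conjNormal_apply]
        rw [h1, hat_apply, ← cj_mkX (p := p) S.d.conjWT, hχG, hat_apply' χ hx])
      (by
        intro x hx
        rw [hat_apply' χ (hsL x hx)]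
        exact hχs x hx)
    apply hχ0
    refine AddMonoidHom.ext fun x => ?_
    obtain ⟨y, rfl⟩ := mkX_surj x
    rw [← hat_apply χ y]
    exact hfinal y y.2
  exact ⟨⟨t, hspan⟩⟩

/-- Elements of the Iwasawa algebra killing `XX`. -/
lemma exists_ann_of_kill (S : Sit φ H L W Tm F) (hm : IsIwA (W ∪ Tm) L φ F inferInstance) (θ : Lam p r)
    (hθ : ∀ ψ : XX p (W ∪ Tm) L →+ ZMod p, IsOpen (ψ.ker : Set (XX p (W ∪ Tm) L)) →
      (haveI := S.normalL; ∀ h ∈ H, ∀ x, ψ (cj S.d.conjWT h x) = ψ x) → ∀ x, ψ (θ • x) = 0) :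
    ∃ N, ∃ α : Lam p r, (∀ x : XX p (W ∪ Tm) L, α • x = 0) ∧ red α = red θ ^ N := by
  classical
  haveI := S.normalH
  haveI := S.normalL
  haveI := S.compactL
  haveI := S.finite hm
  obtain ⟨sH, hsH, hsH'⟩ := exists_reps (H := H) (L := L) S.fin ⊤
  obtain ⟨k, hk⟩ := S.pgrp
  let C : Submodule (ZMod p) (XX p (W ∪ Tm) L →+ ZMod p) :=
    { carrier := {χ | IsOpen (χ.ker : Set (XX p (W ∪ Tm) L))}
      add_mem' := by
        intro χ χ' h1 h1'
        refine AddSubgroup.isOpen_mono (H₁ := χ.ker ⊓ χ'.ker) ?_ (IsOpen.inter h1 h1')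
        rintro x ⟨hx, hx'⟩
        rw [AddMonoidHom.mem_ker, AddMonoidHom.add_apply, (AddMonoidHom.mem_ker).1 hx,
          (AddMonoidHom.mem_ker).1 hx', add_zero]
      zero_mem' := by
        have : ((0 : XX p (W ∪ Tm) L →+ ZMod p).ker : Set (XX p (W ∪ Tm) L)) = Set.univ := by
          ext x; simp
        show IsOpen ((0 : XX p (W ∪ Tm) L →+ ZMod p).ker : Set (XX p (W ∪ Tm) L))
        rw [this]; exact isOpen_univ
      smul_mem' := by
        intro c χ h1
        refine AddSubgroup.isOpen_mono (H₁ := χ.ker) ?_ h1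
        intro x hx
        rw [AddMonoidHom.mem_ker, AddMonoidHom.smul_apply, (AddMonoidHom.mem_ker).1 hx, smul_zero] }
  let Θ : Module.End (ZMod p) (XX p (W ∪ Tm) L →+ ZMod p) :=
    pre (DistribSMul.toAddMonoidHom (XX p (W ∪ Tm) L) θ)
  have hΘ : ∀ ψ x, Θ ψ x = ψ (θ • x) := fun ψ x => rfl
  have hΘpow : ∀ (n : ℕ) (ψ : XX p (W ∪ Tm) L →+ ZMod p) x, (Θ ^ n) ψ x = ψ (θ ^ n • x) := by
    intro n
    induction n with
    | zero => intro ψ x; simp
    | succ n ih =>
      intro ψ x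
      rw [pow_succ, Module.End.mul_apply, ih, hΘ, smul_smul, ← pow_succ']
  have hcΘ : Continuous (fun x : XX p (W ∪ Tm) L => θ • x) := by
    have h0 : Continuous (fun x : XX p (W ∪ Tm) L => ((θ, x) : Lam p r × XX p (W ∪ Tm) L)) :=
      continuous_const.prodMk continuous_id
    exact hm.2.comp h0
  have hcomm : ∀ (g : G) (x : XX p (W ∪ Tm) L), cj S.d.conjWT g (θ • x) = θ • cj S.d.conjWT g x := by
    intro g x
    let A : AddSubgroup (Lam p r) :=
      { carrier := {θ | cj S.d.conjWT g (θ • x) = θ • cj S.d.conjWT g x}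
        add_mem' := by
          intro a b ha hb
          show cj S.d.conjWT g ((a + b) • x) = (a + b) • cj S.d.conjWT g x
          rw [add_smul, add_smul, map_add, ha, hb]
        zero_mem' := by
          show cj S.d.conjWT g ((0 : Lam p r) • x) = (0 : Lam p r) • cj S.d.conjWT g x
          rw [zero_smul, zero_smul, map_zero]
        neg_mem' := by
          intro a ha
          show cj S.d.conjWT g ((-a) • x) = (-a) • cj S.d.conjWT g x
          rw [neg_smul, neg_smul, map_neg, ha] }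
    have hAc : IsClosed (A : Set (Lam p r)) := by
      refine isClosed_eq ?_ ?_
      · have h0 : Continuous (fun θ : Lam p r => ((θ, x) : Lam p r × XX p (W ∪ Tm) L)) :=
          continuous_id.prodMk continuous_const
        exact (continuous_cj S.d.conjWT g).comp (hm.2.comp h0)
      · have h0 : Continuous (fun θ : Lam p r => ((θ, cj S.d.conjWT g x) : Lam p r × XX p (W ∪ Tm) L)) :=
          continuous_id.prodMk continuous_const
        exact hm.2.comp h0
    have hAt := dense_gr A hAc (fun a => by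
      obtain ⟨σ, hσF, hσ⟩ := S.surjF (Multiplicative.ofAdd a)
      have h2 := gr_smul S hm hσF
      rw [hσ, toAdd_ofAdd] at h2
      show cj S.d.conjWT g (gr a • x) = gr a • cj S.d.conjWT g x
      rw [h2, h2, cj_comm S])
    have : θ ∈ A := by rw [hAt]; trivial
    exact this
  obtain ⟨M, hM⟩ := kill_of_fixed Θ C (fun v hv => hv.preimage hcΘ)
    (sH.image (fun h => pre (cj S.d.conjWT h)))
    (by
      intro D hD
      obtain ⟨h, hh, rfl⟩ := Finset.mem_image.1 hD
      refine ⟨k, fun v _ => ?_⟩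
      refine AddMonoidHom.ext fun x => ?_
      rw [pre_pow, cj_iterate, cj_L S.d.conjWT (hk h (hsH h hh).2)])
    (by
      intro D hD D' hD' v _
      obtain ⟨h, hh, rfl⟩ := Finset.mem_image.1 hD
      obtain ⟨h', hh', rfl⟩ := Finset.mem_image.1 hD'
      refine AddMonoidHom.ext fun x => ?_
      show v (cj S.d.conjWT h' (cj S.d.conjWT h x)) = v (cj S.d.conjWT h (cj S.d.conjWT h' x))
      rw [cj_comm S])
    (by
      intro D hD v _
      obtain ⟨h, hh, rfl⟩ := Finset.mem_image.1 hD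
      refine AddMonoidHom.ext fun x => ?_
      show v (θ • cj S.d.conjWT h x) = v (cj S.d.conjWT h (θ • x))
      rw [hcomm])
    (by
      intro D hD v hv
      obtain ⟨h, hh, rfl⟩ := Finset.mem_image.1 hD
      exact hv.preimage (continuous_cj S.d.conjWT h))
    ⟨1, fun v hv hfix => by
      refine AddMonoidHom.ext fun x => ?_
      rw [pow_one, hΘ]
      refine hθ v hv (fun h hh y => ?_) x
      obtain ⟨z, hz, hzL⟩ := hsH' h trivial hh
      have h1 : h = z * (z⁻¹ * h) := by group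
      rw [h1, cj_mul, cj_L S.d.conjWT hzL]
      exact DFunLike.congr_fun (hfix _ (Finset.mem_image.2 ⟨z, hz, rfl⟩)) y⟩
  obtain ⟨N, α, hα, hα'⟩ := exists_ann (θ ^ M) (fun x : XX p (W ∪ Tm) L => mem_p_of_char (basisX _ _) _ (fun ψ hψ => by
    rw [← hΘpow, hM ψ hψ]; rfl))
  exact ⟨M * N, α, hα, by rw [hα', map_pow, pow_mul]⟩

/-- The support theorem, abstract form. -/
theorem support_abs (S : Sit φ H L W Tm F) (hm : IsIwA (W ∪ Tm) L φ F inferInstance) (l : Finset G)
    (hl : ∀ I ∈ Tm, I ≤ L ∨ ∃ f ∈ l, ∃ Fr : G, φ Fr = φ f ∧ ∀ x ∈ I, Fr * x * Fr⁻¹ ∈ I)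
    (hl0 : ∀ f ∈ l, φ f ≠ 1) {i j : Fin r} (hij : i ≠ j) {P : Ideal (Lam p r)} [hP : P.IsPrime] (hh : P.height = 1)
    (hsupp : Nontrivial (LocalizedModule P.primeCompl (XX p (W ∪ Tm) L))) :
    ∃ f ∈ l, P ≤ (Ideal.span {(p : Lam p r), T (Multiplicative.toAdd (φ f))}).radical := by
  haveI := S.normalL
  have hann : ∀ α : Lam p r, (∀ x : XX p (W ∪ Tm) L, α • x = 0) → α ∈ P := by
    intro α hα
    by_contra h
    have : Subsingleton (LocalizedModule P.primeCompl (XX p (W ∪ Tm) L)) :=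
      LocalizedModule.subsingleton_iff.2 fun m => ⟨α, h, hα m⟩
    exact not_nontrivial_iff_subsingleton.2 this hsupp
  refine alg_support hij hh l (fun f => Multiplicative.toAdd (φ f)) (fun f hf h => hl0 f hf ?_) (fun m => ?_)
  · exact Multiplicative.toAdd.injective h
  · obtain ⟨N, α, hα, hα'⟩ := exists_ann_of_kill S hm (T (vv i j m) ^ 2 * ∏ f ∈ l, (T (Multiplicative.toAdd (φ f)) : Lam p r))
      (fun ψ hψ hψH x => kill_theta S hm l hl _ ψ hψ hψH x)
    refine ⟨N, α, hann α hα, ?_⟩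
    rw [hα', map_mul, map_pow, map_prod, red_T]
    simp only [red_T]

end

end

end Pool.Agent.Helper832_EG
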