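import Pool.Agent.Helper832_EG.Grp3

set_option linter.style.haveILetI false
set_option linter.unusedSectionVars false
set_option linter.unusedVariables false

namespace Pool.Agent.Helper832_EG

section
variable (p : ℕ) {G : Type*} [Group G] [TopologicalSpace G]

/-- The common kernel of all continuous homomorphisms from the subgroup `L` to groups `ℤ / p ^ n`
which are trivial on all members of the family `J`. -/
def Nn (J : Set (Subgroup G)) (L : Subgroup G) : Subgroup L :=
  ⨅ (n : ℕ) (χ : {χ : L →* Multiplicative (ZMod (p ^ n)) // IsOpen (χ.ker : Set L) ∧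
    ∀ I ∈ J, ∀ x : L, (x : G) ∈ I → χ x = 1}), χ.1.ker

variable {p}

lemma mem_Nn {J : Set (Subgroup G)} {L : Subgroup G} {x : L} : x ∈ Nn p J L ↔
    ∀ (n : ℕ) (χ : L →* Multiplicative (ZMod (p ^ n))), IsOpen (χ.ker : Set L) →
      (∀ I ∈ J, ∀ x : L, (x : G) ∈ I → χ x = 1) → χ x = 1 := by
  simp only [Nn, Subgroup.mem_iInf, MonoidHom.mem_ker, Subtype.forall]
  exact ⟨fun h n χ h1 h2 => h n χ ⟨h1, h2⟩, fun h n χ h1 => h n χ h1.1 h1.2⟩

lemma comm_mem_Nn {J : Set (Subgroup G)} {L : Subgroup G} (x y : L) : x * y * x⁻¹ * y⁻¹ ∈ Nn p J L := by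
  rw [mem_Nn]
  intro n χ _ _
  rw [map_mul, map_mul, map_mul, map_inv, map_inv]
  rw [mul_comm (χ x) (χ y), mul_assoc, mul_assoc, ← mul_assoc (χ x), mul_inv_cancel, one_mul, mul_inv_cancel]

instance (J : Set (Subgroup G)) (L : Subgroup G) : (Nn p J L).Normal := by
  refine ⟨fun x hx g => ?_⟩
  have := (Nn p J L).mul_mem (comm_mem_Nn g x) hx
  have h1 : g * x * g⁻¹ * x⁻¹ * x = g * x * g⁻¹ := by group
  rwa [h1] at this

instance instCommXX (J : Set (Subgroup G)) (L : Subgroup G) : CommGroup (L ⧸ Nn p J L) :=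
  { QuotientGroup.Quotient.group (Nn p J L) with
    mul_comm := by
      intro a b
      induction a using QuotientGroup.induction_on with | _ x =>
      induction b using QuotientGroup.induction_on with | _ y =>
      rw [← QuotientGroup.mk_mul, ← QuotientGroup.mk_mul, QuotientGroup.eq]
      have := comm_mem_Nn (p := p) (J := J) y⁻¹ x⁻¹
      have h2 : (x * y)⁻¹ * (y * x) = y⁻¹ * x⁻¹ * y⁻¹⁻¹ * x⁻¹⁻¹ := by group
      rw [h2]; exact this }

variable (p)

/-- The quotient of `L` by the common kernel `Nn`, written additively. -/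
abbrev XX (J : Set (Subgroup G)) (L : Subgroup G) : Type _ := Additive (L ⧸ Nn p J L)

variable {p}

/-- The class of an element of `L`. -/
def mkX {J : Set (Subgroup G)} {L : Subgroup G} (x : L) : XX p J L := Additive.ofMul (QuotientGroup.mk x)

lemma mkX_mul {J : Set (Subgroup G)} {L : Subgroup G} (x y : L) :
    (mkX (x * y) : XX p J L) = mkX x + mkX y := rfl

lemma mkX_surj {J : Set (Subgroup G)} {L : Subgroup G} (y : XX p J L) : ∃ x : L, mkX x = y := by
  obtain ⟨x, hx⟩ := QuotientGroup.mk_surjective (s := Nn p J L) y.toMul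
  exact ⟨x, congrArg Additive.ofMul hx⟩

lemma mkX_eq {J : Set (Subgroup G)} {L : Subgroup G} {x y : L} (h : x⁻¹ * y ∈ Nn p J L) :
    (mkX x : XX p J L) = mkX y := congrArg Additive.ofMul (QuotientGroup.eq.2 h)

lemma mkX_zero {J : Set (Subgroup G)} {L : Subgroup G} {x : L} (h : x ∈ Nn p J L) : (mkX x : XX p J L) = 0 :=
  congrArg Additive.ofMul ((QuotientGroup.eq_one_iff x).2 h)

lemma mkX_inertia {J : Set (Subgroup G)} {L : Subgroup G} {x : L} {I : Subgroup G} (hI : I ∈ J)
    (h : (x : G) ∈ I) : (mkX x : XX p J L) = 0 :=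
  mkX_zero (mem_Nn.2 fun n χ _ h2 => h2 I hI x h)

variable [IsTopologicalGroup G]

lemma continuous_mkX {J : Set (Subgroup G)} {L : Subgroup G} : Continuous (mkX : L → XX p J L) :=
  continuous_ofMul.comp QuotientGroup.continuous_mk

lemma isOpenMap_mkX {J : Set (Subgroup G)} {L : Subgroup G} : IsOpenMap (mkX : L → XX p J L) := by
  have h1 : IsOpenMap (QuotientGroup.mk : L → L ⧸ Nn p J L) := QuotientGroup.isOpenMap_coe
  have h2 : IsOpenMap (Additive.ofMul : L ⧸ Nn p J L → Additive (L ⧸ Nn p J L)) :=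
    (Homeomorph.isOpenMap (⟨Additive.ofMul, continuous_ofMul, continuous_toMul⟩ : (L ⧸ Nn p J L) ≃ₜ Additive (L ⧸ Nn p J L)))
  exact h2.comp h1

lemma isClosed_Nn (J : Set (Subgroup G)) (L : Subgroup G) : IsClosed (Nn p J L : Set L) := by
  have : (Nn p J L : Set L) = ⋂ (n : ℕ) (χ : {χ : L →* Multiplicative (ZMod (p ^ n)) // IsOpen (χ.ker : Set L) ∧
    ∀ I ∈ J, ∀ x : L, (x : G) ∈ I → χ x = 1}), (χ.1.ker : Set L) := by
    rw [Nn]; simp only [Subgroup.coe_iInf]
  rw [this]
  exact isClosed_iInter fun n => isClosed_iInter fun χ => Subgroup.isClosed_of_isOpen _ χ.2.1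

instance instTopGrp (J : Set (Subgroup G)) (L : Subgroup G) : IsTopologicalGroup (L ⧸ Nn p J L) :=
  inferInstance

instance (J : Set (Subgroup G)) (L : Subgroup G) : IsTopologicalAddGroup (XX p J L) := inferInstance

instance (J : Set (Subgroup G)) (L : Subgroup G) [hL : CompactSpace L] : CompactSpace (XX p J L) := by
  have h1 : Set.range (mkX : L → XX p J L) = Set.univ := Set.range_eq_univ.2 mkX_surj
  refine ⟨?_⟩
  rw [← h1]
  exact isCompact_range continuous_mkX

instance (J : Set (Subgroup G)) (L : Subgroup G) : T2Space (XX p J L) := by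
  haveI : IsClosed ((Nn p J L : Subgroup L) : Set L) := isClosed_Nn J L
  haveI : T2Space (L ⧸ Nn p J L) := inferInstance
  exact (⟨Additive.ofMul, continuous_ofMul, continuous_toMul⟩ : (L ⧸ Nn p J L) ≃ₜ Additive (L ⧸ Nn p J L)).t2Space

lemma basisX [CompactSpace G] [T2Space G] [TotallyDisconnectedSpace G] (J : Set (Subgroup G)) (L : Subgroup G) :
    ∀ U ∈ nhds (0 : XX p J L), ∃ V : AddSubgroup (XX p J L), IsOpen (V : Set (XX p J L)) ∧ (V : Set (XX p J L)) ⊆ U := by
  intro U hU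
  have h1 : (mkX : L → XX p J L) ⁻¹' U ∈ nhds (1 : L) := continuous_mkX.continuousAt (by exact hU)
  obtain ⟨O, hO, hOU⟩ := mem_nhds_subtype _ _ _ |>.1 h1
  obtain ⟨O', hO'O, hO'open, h1O'⟩ := mem_nhds_iff.1 hO
  obtain ⟨V, hV⟩ := ProfiniteGrp.exist_openNormalSubgroup_sub_open_nhds_of_one hO'open h1O'
  have hVopen : IsOpen ((V : Subgroup G) : Set G) := V.isOpen'
  let V' : Subgroup (L ⧸ Nn p J L) := ((V : Subgroup G).subgroupOf L).map (QuotientGroup.mk' (Nn p J L))
  refine ⟨V'.toAddSubgroup, ?_, ?_⟩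
  · have h2 : (V'.toAddSubgroup : Set (XX p J L)) = mkX '' {x : L | (x : G) ∈ (V : Subgroup G)} := by
      ext y
      constructor
      · rintro ⟨x, hx, hxy⟩
        exact ⟨x, (Subgroup.mem_subgroupOf).1 hx, congrArg Additive.ofMul hxy⟩
      · rintro ⟨x, hx, rfl⟩
        exact ⟨x, (Subgroup.mem_subgroupOf).2 hx, rfl⟩
    rw [h2]
    exact isOpenMap_mkX _ (hVopen.preimage continuous_subtype_val)
  · rintro y ⟨x, hx, hxy⟩
    have h3 : mkX x = y := congrArg Additive.ofMul hxy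
    rw [← h3]
    exact hOU (hO'O (hV ((Subgroup.mem_subgroupOf).1 hx)))

/-- The lift of a character of `XX` to a function on `G`. -/
noncomputable def hat {J : Set (Subgroup G)} {L : Subgroup G} (ψ : XX p J L →+ ZMod p) : G → ZMod p :=
  open Classical in fun g => if h : g ∈ L then ψ (mkX ⟨g, h⟩) else 0

lemma hat_apply {J : Set (Subgroup G)} {L : Subgroup G} (ψ : XX p J L →+ ZMod p) (x : L) :
    hat ψ (x : G) = ψ (mkX x) := by
  have : hat ψ (x : G) = ψ (mkX ⟨(x : G), x.2⟩) := dif_pos x.2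
  rw [this]

lemma hat_apply' {J : Set (Subgroup G)} {L : Subgroup G} (ψ : XX p J L →+ ZMod p) {x : G} (hx : x ∈ L) :
    hat ψ x = ψ (mkX ⟨x, hx⟩) := dif_pos hx

lemma hat_isCh [Fact p.Prime] [CompactSpace G] [T2Space G] [TotallyDisconnectedSpace G] {J : Set (Subgroup G)}
    {L : Subgroup G} (ψ : XX p J L →+ ZMod p) (hψ : IsOpen (ψ.ker : Set (XX p J L))) : IsCh L (hat ψ) := by
  refine ⟨fun x hx y hy => ?_, ?_⟩
  · rw [hat_apply' ψ (L.mul_mem hx hy), hat_apply' ψ hx, hat_apply' ψ hy, ← map_add, ← mkX_mul]; rfl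
  · have h1 : (mkX : L → XX p J L) ⁻¹' (ψ.ker : Set (XX p J L)) ∈ nhds (1 : L) :=
      (hψ.preimage continuous_mkX).mem_nhds (ψ.ker.zero_mem)
    obtain ⟨O, hO, hOU⟩ := mem_nhds_subtype _ _ _ |>.1 h1
    obtain ⟨O', hO'O, hO'open, h1O'⟩ := mem_nhds_iff.1 hO
    obtain ⟨V, hV⟩ := ProfiniteGrp.exist_openNormalSubgroup_sub_open_nhds_of_one hO'open h1O'
    have hVopen : IsOpen ((V : Subgroup G) : Set G) := V.isOpen'
    refine ⟨(V : Subgroup G), hVopen, fun x hx hxV => ?_⟩
    rw [hat_apply' ψ hx]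
    exact hOU (a := ⟨x, hx⟩) (hO'O (hV hxV))

lemma hat_van [Fact p.Prime] {J J' : Set (Subgroup G)} (hJ : J' ⊆ J) {L : Subgroup G} (ψ : XX p J L →+ ZMod p) :
    Van J' L (hat ψ) := by
  intro I hI x hx hxL
  rw [hat_apply' ψ hxL, mkX_inertia (hJ hI) hx, map_zero]

/-- Conjugation preserves the common kernel. -/
lemma conj_mem_Nn {J : Set (Subgroup G)} (hJ : ConjClosed J) {L : Subgroup G} [hL : L.Normal] (g : G) {x : L}
    (hx : x ∈ Nn p J L) : (MulAut.conjNormal g x : L) ∈ Nn p J L := by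
  rw [mem_Nn] at hx ⊢
  intro n χ hχ hχJ
  have h1 := hx n (χ.comp (MulAut.conjNormal g : MulAut L).toMonoidHom) ?_ ?_
  · exact h1
  · have hc : Continuous (fun x : L => (MulAut.conjNormal g x : L)) := by
      refine Continuous.subtype_mk (?_ : Continuous (fun x : L => g * (x : G) * g⁻¹)) _
      fun_prop
    exact hχ.preimage hc
  · intro I hI y hy
    refine hχJ _ (hJ I hI g) _ ?_
    have h3 : (((MulAut.conjNormal g : MulAut L).toMonoidHom y : L) : G) = g * (y : G) * g⁻¹ :=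
      MulAut.conjNormal_apply g y
    rw [h3]
    exact mem_map_conj hy g

/-- The conjugation action on `XX`. -/
noncomputable def cj {J : Set (Subgroup G)} (hJ : ConjClosed J) {L : Subgroup G} [hL : L.Normal] (g : G) :
    XX p J L →+ XX p J L :=
  MonoidHom.toAdditive (QuotientGroup.map (Nn p J L) (Nn p J L) (MulAut.conjNormal g : MulAut L).toMonoidHom
    (fun x hx => conj_mem_Nn hJ g hx))

lemma cj_mkX {J : Set (Subgroup G)} (hJ : ConjClosed J) {L : Subgroup G} [hL : L.Normal] (g : G) (x : L) :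
    cj (p := p) hJ g (mkX x) = mkX (MulAut.conjNormal g x) := rfl

end

end Pool.Agent.Helper832_EG
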